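import Pool.Agent.FD.Targets

/-!
# The arithmetic part: arrangement curves without rational solutions
-/

open MvPolynomial

namespace Pool.Agent.FD

namespace Arith_

/-! ### reduction modulo `p` -/

theorem norm_le_one (p : ℕ) [Fact p.Prime] {g : ℚ} (hg : 0 ≤ padicValRat p g) :
    ‖(g : ℚ_[p])‖ ≤ 1 := by
  rw [Padic.eq_padicNorm]
  rcases eq_or_ne g 0 with rfl | h
  · simp
  · rw [padicNorm.eq_zpow_of_nonzero h]
    have hp : (1 : ℚ) ≤ (p : ℚ) := by exact_mod_cast (Fact.out : p.Prime).one_lt.le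
    have h1 : (p : ℚ) ^ (-padicValRat p g) ≤ 1 := by
      rw [zpow_neg]
      exact inv_le_one_of_one_le₀ (one_le_zpow₀ hp hg)
    exact_mod_cast h1

theorem norm_lt_one (p : ℕ) [Fact p.Prime] {g : ℚ} (hg : 0 < padicValRat p g) :
    ‖(g : ℚ_[p])‖ < 1 := by
  rw [Padic.eq_padicNorm]
  rcases eq_or_ne g 0 with rfl | h
  · simp
  · rw [padicNorm.eq_zpow_of_nonzero h]
    have hp : (1 : ℚ) < (p : ℚ) := by exact_mod_cast (Fact.out : p.Prime).one_lt
    have h1 : (p : ℚ) ^ (-padicValRat p g) < 1 := by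
      rw [zpow_neg]
      exact inv_lt_one_of_one_lt₀ (one_lt_zpow₀ hp hg)
    exact_mod_cast h1

theorem root_mod (p : ℕ) [Fact p.Prime] (f : Polynomial ℤ) (g : ℚ)
    (hg : 0 ≤ padicValRat p g) (hf : 0 < padicValRat p (Polynomial.aeval g f)) :
    ∃ z : ZMod p, Polynomial.aeval z f = 0 := by
  let x : ℤ_[p] := ⟨(g : ℚ_[p]), norm_le_one p hg⟩
  have h1 : ((Polynomial.aeval x f : ℤ_[p]) : ℚ_[p]) = ((Polynomial.aeval g f : ℚ) : ℚ_[p]) := by
    have e1 : ((Polynomial.aeval x f : ℤ_[p]) : ℚ_[p]) = Polynomial.aeval (g : ℚ_[p]) f := by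
      have := Polynomial.hom_eval₂ f (algebraMap ℤ ℤ_[p]) (PadicInt.Coe.ringHom (p := p)) x
      rw [Polynomial.aeval_def, Polynomial.aeval_def]
      have e2 : (PadicInt.Coe.ringHom (p := p)).comp (algebraMap ℤ ℤ_[p]) =
        algebraMap ℤ ℚ_[p] := Subsingleton.elim _ _
      rw [e2] at this
      exact this
    have e3 : ((Polynomial.aeval g f : ℚ) : ℚ_[p]) = Polynomial.aeval (g : ℚ_[p]) f := by
      have := Polynomial.hom_eval₂ f (algebraMap ℤ ℚ) (Rat.castHom ℚ_[p]) g
      rw [Polynomial.aeval_def, Polynomial.aeval_def]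
      have e2 : (Rat.castHom ℚ_[p]).comp (algebraMap ℤ ℚ) =
        algebraMap ℤ ℚ_[p] := Subsingleton.elim _ _
      rw [e2] at this
      exact this
    rw [e1, e3]
  have h2 : ‖Polynomial.aeval x f‖ < 1 := by
    rw [PadicInt.norm_def, h1]
    exact norm_lt_one p hf
  have h3 : PadicInt.toZMod (Polynomial.aeval x f) = 0 := by
    have h4 : Polynomial.aeval x f ∈ IsLocalRing.maximalIdeal ℤ_[p] := by
      rw [IsLocalRing.mem_maximalIdeal, mem_nonunits_iff, PadicInt.isUnit_iff]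
      exact ne_of_lt h2
    rw [← PadicInt.ker_toZMod, RingHom.mem_ker] at h4
    exact h4
  refine ⟨PadicInt.toZMod x, ?_⟩
  rw [← h3, Polynomial.aeval_def, Polynomial.aeval_def, Polynomial.hom_eval₂]
  congr 1
  exact Subsingleton.elim _ _

/-! ### the homogeneous form -/

variable {m : ℕ} (P : Fin m → ℕ)

theorem aeval_f0 {K : Type} [Field K] (x : K) :
    Polynomial.aeval x (f0 P) = ∏ k : Option (Fin m), (x ^ 2 - (dd P k : K)) := by
  unfold f0
  rw [map_prod]
  refine Finset.prod_congr rfl fun k _ => ?_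
  rw [map_sub, map_pow, Polynomial.aeval_X, Polynomial.aeval_C]
  rfl

theorem form_eq (g : ℚ) :
    ((∏ k : Option (Fin m), (g.num ^ 2 - dd P k * (g.den : ℤ) ^ 2) : ℤ) : ℚ) =
      (g.den : ℚ) ^ (2 * (m + 1)) * Polynomial.aeval g (f0 P) := by
  have hd : (g.den : ℚ) ≠ 0 := by exact_mod_cast g.den_ne_zero
  rw [aeval_f0]
  have hcard : (g.den : ℚ) ^ (2 * (m + 1)) = ∏ _k : Option (Fin m), (g.den : ℚ) ^ 2 := by
    rw [Finset.prod_const, Finset.card_univ, Fintype.card_option, Fintype.card_fin, pow_mul]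
  rw [hcard, ← Finset.prod_mul_distrib]
  push_cast
  refine Finset.prod_congr rfl fun k _ => ?_
  have hg : (g.num : ℚ) = g * g.den := by
    rw [Rat.mul_den_eq_num]
  rw [hg]
  ring

theorem form_ne (g : ℚ) (h : Polynomial.aeval g (f0 P) ≠ 0) (k : Option (Fin m)) :
    g.num ^ 2 - dd P k * (g.den : ℤ) ^ 2 ≠ 0 := by
  have hd : (g.den : ℚ) ≠ 0 := by exact_mod_cast g.den_ne_zero
  have h1 := form_eq P g
  have h2 : ((∏ k : Option (Fin m), (g.num ^ 2 - dd P k * (g.den : ℤ) ^ 2) : ℤ) : ℚ) ≠ 0 := by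
    rw [h1]; exact mul_ne_zero (pow_ne_zero _ hd) h
  have h3 : (∏ k : Option (Fin m), (g.num ^ 2 - dd P k * (g.den : ℤ) ^ 2) : ℤ) ≠ 0 := by
    exact_mod_cast h2
  exact (Finset.prod_ne_zero_iff.1 h3) k (Finset.mem_univ k)

/-- valuation of the form, integral case -/
theorem val_form (p : ℕ) [Fact p.Prime] (g : ℚ) (h : Polynomial.aeval g (f0 P) ≠ 0)
    (hg : 0 ≤ padicValRat p g) :
    (padicValInt p (∏ k : Option (Fin m), (g.num ^ 2 - dd P k * (g.den : ℤ) ^ 2)) : ℤ) =
      padicValRat p (Polynomial.aeval g (f0 P)) := by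
  have hd : (g.den : ℚ) ≠ 0 := by exact_mod_cast g.den_ne_zero
  rw [← padicValRat.of_int, form_eq, padicValRat.mul (pow_ne_zero _ hd) h]
  have h1 : padicValRat p ((g.den : ℚ) ^ (2 * (m + 1))) = 0 := by
    rw [padicValRat.pow]
    have h2 : padicValRat p (g.den : ℚ) = 0 := by
      rw [padicValRat.of_nat]
      have h3 : ¬ p ∣ g.den := by
        intro hdiv
        have hnum : ¬ (p : ℤ) ∣ g.num := by
          intro hn
          have hn' : p ∣ g.num.natAbs := Int.natCast_dvd.1 hn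
          have := Nat.dvd_gcd hn' hdiv
          rw [g.reduced] at this
          exact (Fact.out : p.Prime).one_lt.ne' (Nat.dvd_one.1 this)
        rw [padicValRat_def] at hg
        have h4 : padicValInt p g.num = 0 := padicValInt.eq_zero_of_not_dvd hnum
        have h5 : 1 ≤ padicValNat p g.den :=
          one_le_padicValNat_of_dvd g.den_ne_zero hdiv
        rw [h4, Nat.cast_zero, zero_sub] at hg
        omega
      rw [padicValNat.eq_zero_of_not_dvd h3]
      rfl
    rw [h2, mul_zero]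
  rw [h1, zero_add]

/-- valuation of the form, nonintegral case -/
theorem val_form_neg (p : ℕ) [Fact p.Prime] (g : ℚ) (hg : padicValRat p g < 0) :
    (padicValInt p (∏ k : Option (Fin m), (g.num ^ 2 - dd P k * (g.den : ℤ) ^ 2)) : ℤ) = 0 := by
  have hp : (p : ℕ).Prime := Fact.out
  have hpZ : Prime (p : ℤ) := Nat.prime_iff_prime_int.1 hp
  have hden : p ∣ g.den := by
    by_contra hdiv
    rw [padicValRat_def, padicValNat.eq_zero_of_not_dvd hdiv] at hg
    push_cast at hg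
    omega
  have hnum : ¬ (p : ℤ) ∣ g.num := by
    intro hn
    have hn' : p ∣ g.num.natAbs := Int.natCast_dvd.1 hn
    have := Nat.dvd_gcd hn' hden
    rw [g.reduced] at this
    exact hp.one_lt.ne' (Nat.dvd_one.1 this)
  have h1 : ¬ (p : ℤ) ∣ ∏ k : Option (Fin m), (g.num ^ 2 - dd P k * (g.den : ℤ) ^ 2) := by
    intro h
    obtain ⟨k, -, hk⟩ := (Prime.dvd_finsetProd_iff hpZ _).1 h
    have h2 : (p : ℤ) ∣ dd P k * (g.den : ℤ) ^ 2 :=
      Dvd.dvd.mul_left (Dvd.dvd.pow (Int.natCast_dvd_natCast.2 hden) two_ne_zero) _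
    have h3 : (p : ℤ) ∣ g.num ^ 2 := (Int.dvd_iff_dvd_of_dvd_sub hk).2 h2
    exact hnum (hpZ.dvd_of_dvd_pow h3)
  rw [padicValInt.eq_zero_of_not_dvd h1]
  rfl

/-! ### indices -/

theorem sum_one {ι : Type} [Fintype ι] [DecidableEq ι] (f : ι → ℤ) (h0 : ∀ i, 0 ≤ f i)
    (h1 : ∑ i, f i = 1) : ∃ i, f i = 1 ∧ ∀ j, j ≠ i → f j = 0 := by
  have hex : ∃ i, f i ≠ 0 := by
    by_contra h
    push Not at h
    rw [Finset.sum_congr rfl fun i _ => h i] at h1
    simp at h1
  obtain ⟨i, hi⟩ := hex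
  have h2 := Finset.add_sum_erase Finset.univ f (Finset.mem_univ i)
  have h3 : 0 ≤ ∑ j ∈ Finset.univ.erase i, f j := Finset.sum_nonneg fun j _ => h0 j
  have h4 := h0 i
  have h5 : f i = 1 := by omega
  have h6 : ∑ j ∈ Finset.univ.erase i, f j = 0 := by omega
  refine ⟨i, h5, fun j hj => ?_⟩
  exact (Finset.sum_eq_zero_iff_of_nonneg fun j _ => h0 j).1 h6 j
    (Finset.mem_erase.2 ⟨hj, Finset.mem_univ j⟩)

section

variable {ι : Type} [Fintype ι] [DecidableEq ι] (A : Arr ι) {α β : ℚ}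

theorem F_ne (hE : A.Eqn α β) (i : ι) : Polynomial.aeval (A.g i α β) (A.f i) ≠ 0 := by
  have h1 : (A.c : ℚ) ≠ 0 := by exact_mod_cast A.c_ne
  rw [Arr.Eqn] at hE
  rw [← hE] at h1
  exact (Finset.prod_ne_zero_iff.1 h1) i (Finset.mem_univ i)

theorem sum_F (hE : A.Eqn α β) (v : DV ℚ) :
    ∑ i, v.ord (Polynomial.aeval (A.g i α β) (A.f i)) = v.ord (A.c : ℚ) := by
  rw [← v.ord_prod _ _ fun i _ => F_ne A hE i]
  rw [Arr.Eqn] at hE
  rw [hE]

/-- the good situation at the index `i` -/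
def Good (v : DV ℚ) (α β : ℚ) (i : ι) : Prop :=
  (0 ≤ v.ord (A.g i α β) ∧ (A.N i : ℤ) ∣ v.ord (Polynomial.aeval (A.g i α β) (A.f i))) ∨
    v.ord (A.g i α β) < 0

theorem good_of_neg (h1 : T_CLASS) (hE : A.Eqn α β) (v : DV ℚ) (hα : v.ord α < 0) :
    ∃ i, 0 ≤ v.ord (A.g i α β) ∧
      v.ord (Polynomial.aeval (A.g i α β) (A.f i)) = v.ord (A.c : ℚ) - v.ord α * A.N i ∧
      ∀ j, j ≠ i → v.ord (A.g j α β) < 0 := by
  obtain ⟨i, hi1, hi2, hi3⟩ := (h1 ι A ℚ v α β hE).2 hα
  refine ⟨i, hi1, hi3, fun j hj => ?_⟩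
  rw [hi2 j hj]
  have hw : (0 : ℤ) < A.w i j := by exact_mod_cast A.w_pos (Ne.symm hj)
  exact mul_neg_of_neg_of_pos hα hw

theorem nonneg_of_nonneg (h1 : T_CLASS) (hE : A.Eqn α β) (v : DV ℚ) (hα : 0 ≤ v.ord α)
    (i : ι) : 0 ≤ v.ord (A.g i α β) ∧
      0 ≤ v.ord (Polynomial.aeval (A.g i α β) (A.f i)) := by
  have hβ := (h1 ι A ℚ v α β hE).1 hα
  have h2 : 0 ≤ v.ord (A.g i α β) := v.ord_add_nonneg hβ (v.ord_aeval_nonneg _ hα)
  exact ⟨h2, v.ord_aeval_nonneg _ h2⟩

theorem good_zero (h1 : T_CLASS) (hE : A.Eqn α β) (v : DV ℚ) (hc : v.ord (A.c : ℚ) = 0)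
    (i : ι) : Good A v α β i := by
  rcases lt_or_ge (v.ord α) 0 with hα | hα
  · obtain ⟨i', h2, h3, h4⟩ := good_of_neg A h1 hE v hα
    by_cases hi : i = i'
    · subst hi
      left
      refine ⟨h2, ?_⟩
      rw [h3, hc, zero_sub]
      exact (Dvd.intro_left _ rfl).neg_right
    · exact Or.inr (h4 i hi)
  · left
    refine ⟨(nonneg_of_nonneg A h1 hE v hα i).1, ?_⟩
    have h2 := sum_F A hE v
    rw [hc] at h2
    have h3 := (Finset.sum_eq_zero_iff_of_nonneg
      fun j _ => (nonneg_of_nonneg A h1 hE v hα j).2).1 h2 i (Finset.mem_univ i)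
    rw [h3]
    exact dvd_zero _

theorem good_one (h1 : T_CLASS) (hE : A.Eqn α β) (v : DV ℚ) (hc : v.ord (A.c : ℚ) = 1) :
    ∃ i, 0 ≤ v.ord (A.g i α β) ∧
      0 < v.ord (Polynomial.aeval (A.g i α β) (A.f i)) ∧
      (A.N i : ℤ) ∣ v.ord (Polynomial.aeval (A.g i α β) (A.f i)) - 1 ∧
      ∀ j, j ≠ i → Good A v α β j := by
  rcases lt_or_ge (v.ord α) 0 with hα | hα
  · obtain ⟨i, h2, h3, h4⟩ := good_of_neg A h1 hE v hα
    have hN : (0 : ℤ) ≤ A.N i := Int.natCast_nonneg _
    refine ⟨i, h2, ?_, ?_, fun j hj => Or.inr (h4 j hj)⟩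
    · rw [h3, hc]
      nlinarith
    · rw [h3, hc]
      have : (1 : ℤ) - v.ord α * A.N i - 1 = -(v.ord α * A.N i) := by ring
      rw [this]
      exact (Dvd.intro_left _ rfl).neg_right
  · have h2 := sum_F A hE v
    rw [hc] at h2
    obtain ⟨i, h3, h4⟩ := sum_one _ (fun j => (nonneg_of_nonneg A h1 hE v hα j).2) h2
    refine ⟨i, (nonneg_of_nonneg A h1 hE v hα i).1, ?_, ?_, fun j hj => ?_⟩
    · rw [h3]; norm_num
    · rw [h3]; norm_num
    · left
      refine ⟨(nonneg_of_nonneg A h1 hE v hα j).1, ?_⟩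
      rw [h4 j hj]
      exact dvd_zero _

end

/-! ### the valuation of `c` -/

theorem val_c (l : Fin m → ℕ) (hl : ∀ a, (l a).Prime) (p : ℕ) [Fact p.Prime] :
    (padicDV p).ord ((∏ a, (l a : ℤ) : ℤ) : ℚ) = ∑ a, if l a = p then (1 : ℤ) else 0 := by
  push_cast
  rw [(padicDV p).ord_prod _ _ fun a _ => by exact_mod_cast (hl a).ne_zero]
  refine Finset.sum_congr rfl fun a _ => ?_
  show padicValRat p (l a : ℚ) = _
  rw [padicValRat.of_nat]
  split_ifs with h
  · rw [h, padicValNat_self]; rfl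
  · have := Fact.mk (hl a)
    rw [padicValNat_primes (Ne.symm h)]; rfl

end Arith_

open Arith_ in
theorem p_ARITH (h1 : T_CLASS) (h2 : T_SIDE) : T_ARITH := by
  intro m R A P l hP hL hN hf hlast hc hRm
  rintro ⟨α, β, hE⟩
  -- the index of `l a`
  have hval1 : ∀ a : Fin m, ∀ [Fact (l a).Prime], (padicDV (l a)).ord (A.c : ℚ) = 1 := by
    intro a _
    rw [hc, val_c l hL.prime]
    rw [Finset.sum_eq_single a]
    · simp
    · intro b _ hb
      rw [if_neg]
      exact fun h => hb (hL.inj h)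
    · intro h
      exact absurd (Finset.mem_univ a) h
  have hval0 : ∀ (p : ℕ) [Fact p.Prime], (∀ a, l a ≠ p) → (padicDV p).ord (A.c : ℚ) = 0 := by
    intro p _ hp
    rw [hc, val_c l hL.prime]
    exact Finset.sum_eq_zero fun a _ => if_neg (hp a)
  have hidx : ∀ a : Fin m, ∃ i : Fin R, ∀ [Fact (l a).Prime],
      0 ≤ (padicDV (l a)).ord (A.g i.castSucc α β) ∧
      (A.N i.castSucc : ℤ) ∣ (padicDV (l a)).ord
        (Polynomial.aeval (A.g i.castSucc α β) (A.f i.castSucc)) - 1 ∧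
      ∀ j, j ≠ i.castSucc → Good A (padicDV (l a)) α β j := by
    intro a
    have := Fact.mk (hL.prime a)
    obtain ⟨i, g1, g2, g3, g4⟩ := good_one A h1 hE (padicDV (l a)) (hval1 a)
    have hi : i ≠ Fin.last R := by
      rintro rfl
      obtain ⟨z, hz⟩ := root_mod (l a) (A.f (Fin.last R)) (A.g (Fin.last R) α β) g1 g2
      exact hlast a z hz
    obtain ⟨i', rfl⟩ := Fin.exists_castSucc_eq.2 hi
    exact ⟨i', fun {_} => ⟨g1, g3, g4⟩⟩
  choose idx hidx using hidx
  -- the side sets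
  have hcard : ∀ i : Fin R, (Finset.univ.filter fun a => idx a = i).card ≤ 1 := by
    intro i
    set g := A.g i.castSucc α β with hg
    have hFne : Polynomial.aeval g (f0 P) ≠ 0 := by
      have := F_ne A hE i.castSucc
      rwa [hf i] at this
    refine h2 m R P (fun i : Fin R => A.N i.castSucc) l hP hL i (hN i) g.num g.den
      ?_ (form_ne P g hFne) _ ?_
    · exact Rat.isCoprime_num_den g
    · intro p hp
      have := Fact.mk hp
      -- the general step: from `Good` to divisibility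
      have hgood : Good A (padicDV p) α β i.castSucc → (A.N i.castSucc : ℤ) ∣
          (padicValInt p (∏ k : Option (Fin m), (g.num ^ 2 - dd P k * (g.den : ℤ) ^ 2)) : ℤ) := by
        rintro (⟨q1, q2⟩ | q1)
        · rw [val_form P p g hFne q1]
          rw [hf i] at q2
          exact q2
        · rw [val_form_neg P p g q1]
          exact dvd_zero _
      by_cases hex : ∃ a, l a = p
      · obtain ⟨a, ha⟩ := hex
        subst ha
        obtain ⟨q1, q2, q3⟩ := hidx a
        by_cases hi : idx a = i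
        · have hmem : ∃ b ∈ Finset.univ.filter (fun b => idx b = i), l b = l a :=
            ⟨a, Finset.mem_filter.2 ⟨Finset.mem_univ a, hi⟩, rfl⟩
          rw [if_pos hmem]
          rw [hi] at q1 q2
          rw [val_form P (l a) g hFne q1]
          rw [hf i] at q2
          exact q2
        · have hmem : ¬ ∃ b ∈ Finset.univ.filter (fun b => idx b = i), l b = l a := by
            rintro ⟨b, hb, hba⟩
            rw [hL.inj hba] at hb
            exact hi (Finset.mem_filter.1 hb).2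
          rw [if_neg hmem, sub_zero]
          apply hgood
          apply q3
          intro h
          exact hi (Fin.castSucc_injective R h).symm
      · push Not at hex
        have hmem : ¬ ∃ b ∈ Finset.univ.filter (fun b => idx b = i), l b = p := by
          rintro ⟨b, -, hb⟩
          exact hex b hb
        rw [if_neg hmem, sub_zero]
        exact hgood (good_zero A h1 hE (padicDV p) (hval0 p hex) i.castSucc)
  have hsum : ∑ i : Fin R, (Finset.univ.filter fun a => idx a = i).card = m := by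
    have := Finset.card_eq_sum_card_fiberwise (s := (Finset.univ : Finset (Fin m)))
      (t := (Finset.univ : Finset (Fin R))) (f := idx) (fun a _ => Finset.mem_univ _)
    rw [Finset.card_univ, Fintype.card_fin] at this
    exact this.symm
  have hle : ∑ i : Fin R, (Finset.univ.filter fun a => idx a = i).card ≤ R := by
    calc ∑ i : Fin R, (Finset.univ.filter fun a => idx a = i).card
        ≤ ∑ _i : Fin R, 1 := Finset.sum_le_sum fun i _ => hcard i
      _ = R := by simp
  omega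

end Pool.Agent.FD
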