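import Pool.Agent.FD.TargetsB
import Pool.Agent.FD.Arith

/-!
# The arithmetic part, second version: several kinds of classes
-/

open MvPolynomial

namespace Pool.Agent.FD

namespace ArithB_

open Arith_

variable {m : ℕ} (P : Fin m → ℕ)

theorem val_split (v : DV ℚ) (f hh : Polynomial ℤ) (hf : f = f0 P * hh)
    (hd : f0 P ∣ hh - 1) (g : ℚ) (hg : 0 ≤ v.ord g) (hne : Polynomial.aeval g f ≠ 0) :
    Polynomial.aeval g (f0 P) ≠ 0 ∧
    v.ord (Polynomial.aeval g f) =
      v.ord (Polynomial.aeval g (f0 P)) + v.ord (Polynomial.aeval g hh) ∧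
    (v.ord (Polynomial.aeval g (f0 P)) = 0 ∨ v.ord (Polynomial.aeval g hh) = 0) := by
  rw [hf, map_mul] at hne
  have n1 : Polynomial.aeval g (f0 P) ≠ 0 := left_ne_zero_of_mul hne
  have n2 : Polynomial.aeval g hh ≠ 0 := right_ne_zero_of_mul hne
  refine ⟨n1, by rw [hf, map_mul, v.ord_mul _ _ n1 n2], ?_⟩
  have h0 : 0 ≤ v.ord (Polynomial.aeval g (f0 P)) := v.ord_aeval_nonneg _ hg
  rcases h0.eq_or_lt with h | h
  · exact Or.inl h.symm
  · right
    obtain ⟨r, hr⟩ := hd
    have e : hh = 1 + f0 P * r := by rw [← hr]; ring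
    have e2 : Polynomial.aeval g hh =
        1 + Polynomial.aeval g (f0 P) * Polynomial.aeval g r := by
      rw [e, map_add, map_one, map_mul]
    rw [e2, v.ord_add_eq one_ne_zero, v.ord_one]
    rcases eq_or_ne (Polynomial.aeval g r) 0 with h2 | h2
    · left; rw [h2, mul_zero]
    · right
      rw [v.ord_one, v.ord_mul _ _ n1 h2]
      have := v.ord_aeval_nonneg r hg
      omega

theorem f0_ne {ι : Type} [Fintype ι] [DecidableEq ι] (A : Arr ι) {α β : ℚ}
    (hE : A.Eqn α β) (i : ι) (hh : Polynomial ℤ) (hf : A.f i = f0 P * hh) :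
    Polynomial.aeval (A.g i α β) (f0 P) ≠ 0 := by
  have := F_ne A hE i
  rw [hf, map_mul] at this
  exact left_ne_zero_of_mul this

end ArithB_

open Arith_ ArithB_ in
theorem p_ARITH2 (h1 : T_CLASS) (h2 : T_SIDE) : T_ARITH2 := by
  intro ι _ _ A m R e P l he hP hL hN hf hlast hc hRm
  rintro ⟨α, β, hE⟩
  choose hh hf1 hf2 hf3 using hf
  -- the index of `l a`
  have hval1 : ∀ a : Fin m, ∀ [Fact (l a).Prime], (padicDV (l a)).ord (A.c : ℚ) = 1 := by
    intro a _
    rw [hc, val_c l hL.prime]
    rw [Finset.sum_eq_single a]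
    · simp
    · intro b _ hb
      rw [if_neg]
      exact fun h => hb (hL.inj h)
    · intro h
      exact absurd (Finset.mem_univ a) h
  have hval0 : ∀ (p : ℕ) [Fact p.Prime], (∀ a, l a ≠ p) → (padicDV p).ord (A.c : ℚ) = 0 := by
    intro p _ hp
    rw [hc, val_c l hL.prime]
    exact Finset.sum_eq_zero fun a _ => if_neg (hp a)
  have hidx : ∀ a : Fin m, ∃ i : Fin R, ∀ [Fact (l a).Prime],
      0 ≤ (padicDV (l a)).ord (A.g (e i) α β) ∧
      (A.N (e i) : ℤ) ∣ (padicDV (l a)).ord
        (Polynomial.aeval (A.g (e i) α β) (A.f (e i))) - 1 ∧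
      ∀ j, j ≠ e i → Good A (padicDV (l a)) α β j := by
    intro a
    have := Fact.mk (hL.prime a)
    obtain ⟨i, g1, g2, g3, g4⟩ := good_one A h1 hE (padicDV (l a)) (hval1 a)
    by_cases hi : ∃ t, e t = i
    · obtain ⟨t, rfl⟩ := hi
      exact ⟨t, fun {_} => ⟨g1, g3, g4⟩⟩
    · exfalso
      push Not at hi
      obtain ⟨z, hz⟩ := root_mod (l a) (A.f i) (A.g i α β) g1 g2
      exact hlast i hi a z hz
  choose idx hidx using hidx
  -- the side sets
  have hcard : ∀ i : Fin R, (Finset.univ.filter fun a => idx a = i).card ≤ 1 := by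
    intro i
    set g := A.g (e i) α β with hg
    have hFne : Polynomial.aeval g (f0 P) ≠ 0 := f0_ne P A hE (e i) (hh i) (hf1 i)
    refine h2 m R P (fun i : Fin R => A.N (e i)) l hP hL i (hN i) g.num g.den
      ?_ (form_ne P g hFne) _ ?_
    · exact Rat.isCoprime_num_den g
    · intro p hp
      have := Fact.mk hp
      -- the general step: from `Good` to divisibility
      have hgood : Good A (padicDV p) α β (e i) → (A.N (e i) : ℤ) ∣
          (padicValInt p (∏ k : Option (Fin m), (g.num ^ 2 - dd P k * (g.den : ℤ) ^ 2)) : ℤ) := by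
        rintro (⟨q1, q2⟩ | q1)
        · rw [val_form P p g hFne q1]
          obtain ⟨-, s1, s2⟩ := val_split P (padicDV p) (A.f (e i)) (hh i) (hf1 i) (hf2 i) g q1
            (F_ne A hE (e i))
          show (A.N (e i) : ℤ) ∣ (padicDV p).ord (Polynomial.aeval g (f0 P))
          rcases s2 with s2 | s2
          · rw [s2]; exact dvd_zero _
          · rw [s2, add_zero] at s1
            rw [← s1]
            exact q2
        · rw [val_form_neg P p g q1]
          exact dvd_zero _
      by_cases hex : ∃ a, l a = p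
      · obtain ⟨a, ha⟩ := hex
        subst ha
        obtain ⟨q1, q2, q3⟩ := hidx a
        by_cases hi : idx a = i
        · have hmem : ∃ b ∈ Finset.univ.filter (fun b => idx b = i), l b = l a :=
            ⟨a, Finset.mem_filter.2 ⟨Finset.mem_univ a, hi⟩, rfl⟩
          rw [if_pos hmem]
          rw [hi] at q1 q2
          rw [val_form P (l a) g hFne q1]
          obtain ⟨-, s1, -⟩ := val_split P (padicDV (l a)) (A.f (e i)) (hh i) (hf1 i) (hf2 i) g
            q1 (F_ne A hE (e i))
          have s3 : (padicDV (l a)).ord (Polynomial.aeval g (hh i)) = 0 := by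
            have s4 : 0 ≤ (padicDV (l a)).ord (Polynomial.aeval g (hh i)) :=
              (padicDV (l a)).ord_aeval_nonneg _ q1
            rcases s4.eq_or_lt with s5 | s5
            · exact s5.symm
            · exfalso
              obtain ⟨z, hz⟩ := root_mod (l a) (hh i) g q1 s5
              exact hf3 i a z hz
          rw [s3, add_zero] at s1
          show (A.N (e i) : ℤ) ∣ (padicDV (l a)).ord (Polynomial.aeval g (f0 P)) - 1
          rw [← s1]
          exact q2
        · have hmem : ¬ ∃ b ∈ Finset.univ.filter (fun b => idx b = i), l b = l a := by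
            rintro ⟨b, hb, hba⟩
            rw [hL.inj hba] at hb
            exact hi (Finset.mem_filter.1 hb).2
          rw [if_neg hmem, sub_zero]
          apply hgood
          apply q3
          intro h
          exact hi (he h).symm
      · push Not at hex
        have hmem : ¬ ∃ b ∈ Finset.univ.filter (fun b => idx b = i), l b = p := by
          rintro ⟨b, -, hb⟩
          exact hex b hb
        rw [if_neg hmem, sub_zero]
        exact hgood (good_zero A h1 hE (padicDV p) (hval0 p hex) (e i))
  have hsum : ∑ i : Fin R, (Finset.univ.filter fun a => idx a = i).card = m := by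
    have := Finset.card_eq_sum_card_fiberwise (s := (Finset.univ : Finset (Fin m)))
      (t := (Finset.univ : Finset (Fin R))) (f := idx) (fun a _ => Finset.mem_univ _)
    rw [Finset.card_univ, Fintype.card_fin] at this
    exact this.symm
  have hle : ∑ i : Fin R, (Finset.univ.filter fun a => idx a = i).card ≤ R := by
    calc ∑ i : Fin R, (Finset.univ.filter fun a => idx a = i).card
        ≤ ∑ _i : Fin R, 1 := Finset.sum_le_sum fun i _ => hcard i
      _ = R := by simp
  omega

end Pool.Agent.FD
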