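import Pool.Agent.FD.Targets

/-!
# FD-CHART: the chart at infinity of an arrangement curve
-/

open MvPolynomial

namespace Pool.Agent.FD

namespace Chart

/-- ring homomorphisms commute with evaluation of integer polynomials -/
theorem hom_aeval {R S : Type} [CommRing R] [CommRing S] (ψ : R →+* S) (p : Polynomial ℤ)
    (a : R) : ψ (Polynomial.aeval a p) = Polynomial.aeval (ψ a) p := by
  rw [Polynomial.aeval_def, Polynomial.hom_eval₂, Polynomial.aeval_def]
  congr 1
  exact Subsingleton.elim _ _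

theorem eval_aeval_X0 {L : Type} [Field L] (θ s : L) (p : Polynomial ℤ) :
    eval ![θ, s] (Polynomial.aeval (X 0 : MvPolynomial (Fin 2) L) p) = Polynomial.aeval θ p := by
  have h := hom_aeval (eval ![θ, s]) p (X 0 : MvPolynomial (Fin 2) L)
  rw [eval_X] at h
  exact h

theorem eval_aeval_X1 {L : Type} [Field L] (θ s : L) (p : Polynomial ℤ) :
    eval ![θ, s] (Polynomial.aeval (X 1 : MvPolynomial (Fin 2) L) p) = Polynomial.aeval s p := by
  have h := hom_aeval (eval ![θ, s]) p (X 1 : MvPolynomial (Fin 2) L)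
  rw [eval_X] at h
  exact h

/-- homogenisation of `f` -/
noncomputable def hg (f : Polynomial ℤ) {R : Type} [CommRing R] (a b : R) : R :=
  ∑ k ∈ Finset.range (f.natDegree + 1), (f.coeff k : R) * a ^ k * b ^ (f.natDegree - k)

theorem hg_map (f : Polynomial ℤ) {R S : Type} [CommRing R] [CommRing S] (ψ : R →+* S)
    (a b : R) : ψ (hg f a b) = hg f (ψ a) (ψ b) := by
  unfold hg
  rw [map_sum]
  refine Finset.sum_congr rfl fun k _ => ?_
  rw [map_mul, map_mul, map_pow, map_pow, map_intCast]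

theorem hg_mul (f : Polynomial ℤ) {R : Type} [CommRing R] (α b : R) :
    hg f (α * b) b = b ^ f.natDegree * Polynomial.aeval α f := by
  unfold hg
  rw [Polynomial.aeval_eq_sum_range, Finset.mul_sum]
  refine Finset.sum_congr rfl fun k hk => ?_
  have hk' : k ≤ f.natDegree := Nat.lt_succ_iff.mp (Finset.mem_range.mp hk)
  have h1 : b ^ f.natDegree = b ^ k * b ^ (f.natDegree - k) := by
    rw [← pow_add, Nat.add_sub_cancel' hk']
  rw [zsmul_eq_mul, h1, mul_pow]
  ring

theorem hg_zero (f : Polynomial ℤ) {R : Type} [CommRing R] (a : R) :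
    hg f a 0 = (f.leadingCoeff : R) * a ^ f.natDegree := by
  unfold hg
  rw [Finset.sum_range_succ, Nat.sub_self, pow_zero, mul_one, Finset.sum_eq_zero, zero_add]
  · rfl
  · intro k hk
    have hk' : f.natDegree - k ≠ 0 := by
      have := Finset.mem_range.mp hk
      omega
    rw [zero_pow hk', mul_zero]

theorem rev_aeval {K : Type} [Field K] (q : Polynomial ℤ) {z : K} (hz : z ≠ 0) :
    Polynomial.aeval z q.reverse = Polynomial.aeval z⁻¹ q * z ^ q.natDegree := by
  let _ : Invertible z⁻¹ := invertibleOfNonzero (inv_ne_zero hz)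
  have h := Polynomial.eval₂_reverse_mul_pow (algebraMap ℤ K) z⁻¹ q
  rw [invOf_eq_inv, inv_inv] at h
  rw [Polynomial.aeval_def, Polynomial.aeval_def, ← h, mul_assoc, ← mul_pow,
    inv_mul_cancel₀ hz, one_pow, mul_one]

variable {ι : Type} [Fintype ι] [DecidableEq ι] (A : Arr ι) {L : Type} [Field L]

/-- the numerator of `g_j` -/
noncomputable def G (L : Type) [Field L] (i j : ι) : MvPolynomial (Fin 2) L :=
  X 0 * X 1 ^ (A.h j - A.h i).natDegree + Polynomial.aeval (X 1) (A.h j - A.h i).reverse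

/-- the numerator of `f_j(g_j)` -/
noncomputable def Wj (L : Type) [Field L] (i j : ι) : MvPolynomial (Fin 2) L :=
  hg (A.f j) (G A L i j) (X 1 ^ (A.h j - A.h i).natDegree)

/-- the product of the `W_j` -/
noncomputable def WW (L : Type) [Field L] (i : ι) : MvPolynomial (Fin 2) L :=
  ∏ j ∈ Finset.univ.erase i, Wj A L i j

variable {K : Type} [Field K] [Algebra L K]

theorem aeval_G (t : K) {z : K} (hz : z ≠ 0) (i j : ι) :
    aeval ![t, z] (G A L i j) =
      (t + Polynomial.aeval z⁻¹ (A.h j - A.h i)) * z ^ (A.h j - A.h i).natDegree := by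
  unfold G
  have h1 := hom_aeval (aeval ![t, z] : MvPolynomial (Fin 2) L →ₐ[L] K).toRingHom
    (A.h j - A.h i).reverse (X 1)
  have h2 : (aeval ![t, z] : MvPolynomial (Fin 2) L →ₐ[L] K).toRingHom (X 1) = z := by
    show aeval ![t, z] (X 1) = z
    rw [aeval_X]
    rfl
  rw [h2, rev_aeval _ hz] at h1
  have h3 : aeval ![t, z] (Polynomial.aeval (X 1 : MvPolynomial (Fin 2) L)
      (A.h j - A.h i).reverse) =
      Polynomial.aeval z⁻¹ (A.h j - A.h i) * z ^ (A.h j - A.h i).natDegree := h1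
  rw [map_add, map_mul, map_pow, aeval_X, aeval_X, h3]
  show t * z ^ _ + _ = _
  ring

theorem aeval_Wj (t : K) {z : K} (hz : z ≠ 0) (i j : ι) :
    aeval ![t, z] (Wj A L i j) =
      z ^ (A.m j * (A.h j - A.h i).natDegree) *
        Polynomial.aeval (t + Polynomial.aeval z⁻¹ (A.h j - A.h i)) (A.f j) := by
  unfold Wj
  have h1 := hg_map (A.f j) (aeval ![t, z] : MvPolynomial (Fin 2) L →ₐ[L] K).toRingHom
    (G A L i j) (X 1 ^ (A.h j - A.h i).natDegree)
  have h2 : (aeval ![t, z] : MvPolynomial (Fin 2) L →ₐ[L] K).toRingHom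
      (X 1 ^ (A.h j - A.h i).natDegree) = z ^ (A.h j - A.h i).natDegree := by
    rw [map_pow]
    congr 1
    show aeval ![t, z] (X 1) = z
    rw [aeval_X]
    rfl
  have h3 : (aeval ![t, z] : MvPolynomial (Fin 2) L →ₐ[L] K).toRingHom (G A L i j) =
      (t + Polynomial.aeval z⁻¹ (A.h j - A.h i)) * z ^ (A.h j - A.h i).natDegree :=
    aeval_G A t hz i j
  rw [h2, h3, hg_mul, ← pow_mul] at h1
  rw [mul_comm (A.m j)]
  exact h1

theorem N_eq (i : ι) : A.N i = ∑ j ∈ Finset.univ.erase i, A.m j * (A.h j - A.h i).natDegree := by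
  unfold Arr.N
  refine Finset.sum_congr rfl fun j _ => ?_
  rw [A.w_comm]
  rfl

theorem aeval_WW (t : K) {z : K} (hz : z ≠ 0) (i : ι) :
    aeval ![t, z] (WW A L i) = z ^ A.N i *
      ∏ j ∈ Finset.univ.erase i,
        Polynomial.aeval (t + Polynomial.aeval z⁻¹ (A.h j - A.h i)) (A.f j) := by
  unfold WW
  rw [map_prod, N_eq, ← Finset.prod_pow_eq_pow_sum, ← Finset.prod_mul_distrib]
  exact Finset.prod_congr rfl fun j _ => aeval_Wj A t hz i j

/-- the main identity, in the variables `t = g_i`, `z = 1/x` -/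
theorem main_id (t : K) {z : K} (hz : z ≠ 0) (i : ι) :
    Polynomial.aeval t (A.f i) * aeval ![t, z] (WW A L i) =
      z ^ A.N i * ∏ j, Polynomial.aeval
        (A.g j z⁻¹ (t - Polynomial.aeval z⁻¹ (A.h i))) (A.f j) := by
  rw [aeval_WW A t hz, ← Finset.mul_prod_erase Finset.univ _ (Finset.mem_univ i)]
  have h1 : A.g i z⁻¹ (t - Polynomial.aeval z⁻¹ (A.h i)) = t := by
    unfold Arr.g
    ring
  have h2 : ∀ j, A.g j z⁻¹ (t - Polynomial.aeval z⁻¹ (A.h i)) =
      t + Polynomial.aeval z⁻¹ (A.h j - A.h i) := by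
    intro j
    unfold Arr.g
    rw [map_sub]
    ring
  rw [h1]
  simp only [h2]
  ring

theorem leading_ne (i j : ι) (hij : j ≠ i) [CharZero L] :
    (((A.h j - A.h i).leadingCoeff : ℤ) : L) ≠ 0 := by
  intro h
  have h0 : (A.h j - A.h i).leadingCoeff = 0 := by exact_mod_cast h
  have h1 := A.lead j i hij
  rw [h0] at h1
  exact not_isUnit_zero h1

theorem eval_WW_ne (θ : L) (i : ι) [CharZero L] : eval ![θ, 0] (WW A L i) ≠ 0 := by
  unfold WW
  rw [map_prod, Finset.prod_ne_zero_iff]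
  intro j hj
  have hij : j ≠ i := (Finset.mem_erase.mp hj).1
  have hw : (A.h j - A.h i).natDegree ≠ 0 := (A.wpos j i hij).ne'
  unfold Wj
  rw [hg_map, map_pow, eval_X]
  have h1 : (![θ, 0] : Fin 2 → L) 1 = 0 := rfl
  rw [h1, zero_pow hw, hg_zero]
  have h2 : eval ![θ, 0] (G A L i j) = (((A.h j - A.h i).leadingCoeff : ℤ) : L) := by
    unfold G
    rw [map_add, map_mul, map_pow, eval_X, eval_X, h1, zero_pow hw, mul_zero, zero_add,
      eval_aeval_X1]
    rw [Polynomial.aeval_def, Polynomial.eval₂_at_zero, Polynomial.coeff_zero_reverse]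
    rfl
  rw [h2, (A.monic j).leadingCoeff, Int.cast_one, one_mul]
  exact pow_ne_zero _ (leading_ne A i j hij)

theorem N_pos (i : ι) : 0 < A.N i := by
  have hex : ∃ j, j ≠ i := by
    by_cases h : A.i₀ = i
    · exact ⟨A.i₁, fun h' => A.i₁_ne (h'.trans h.symm)⟩
    · exact ⟨A.i₀, h⟩
  obtain ⟨j, hj⟩ := hex
  unfold Arr.N
  refine Finset.sum_pos' (fun _ _ => Nat.zero_le _) ⟨j, Finset.mem_erase.mpr ⟨hj, Finset.mem_univ j⟩,
    Nat.mul_pos (A.deg_pos j) (A.w_pos hj.symm)⟩

/-! ### localisation at `z` -/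

section Loc

variable (t z : K)

/-- elements of `L[t, z, 1/z]` -/
def Lc (L : Type) [Field L] [Algebra L K] (t z : K) (e : K) : Prop :=
  ∃ (b : ℕ) (Q : MvPolynomial (Fin 2) L), e * z ^ b = aeval ![t, z] Q

variable {t z}

theorem Lc.of_poly (Q : MvPolynomial (Fin 2) L) : Lc L t z (aeval ![t, z] Q) :=
  ⟨0, Q, by rw [pow_zero, mul_one]⟩

theorem Lc.add {e e' : K} (h : Lc L t z e) (h' : Lc L t z e') : Lc L t z (e + e') := by
  obtain ⟨b, Q, hb⟩ := h
  obtain ⟨b', Q', hb'⟩ := h'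
  refine ⟨b + b', Q * X 1 ^ b' + Q' * X 1 ^ b, ?_⟩
  rw [map_add, map_mul, map_mul, map_pow, map_pow, aeval_X, ← hb, ← hb']
  show _ = e * z ^ b * z ^ b' + e' * z ^ b' * z ^ b
  ring

theorem Lc.mul {e e' : K} (h : Lc L t z e) (h' : Lc L t z e') : Lc L t z (e * e') := by
  obtain ⟨b, Q, hb⟩ := h
  obtain ⟨b', Q', hb'⟩ := h'
  refine ⟨b + b', Q * Q', ?_⟩
  rw [map_mul, ← hb, ← hb']
  ring

theorem Lc.const (a : L) : Lc L t z (algebraMap L K a) := by
  have h := Lc.of_poly (t := t) (z := z) (C a : MvPolynomial (Fin 2) L)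
  rwa [aeval_C] at h

theorem Lc.t_mem : Lc L t z t := by
  have h := Lc.of_poly (t := t) (z := z) (X 0 : MvPolynomial (Fin 2) L)
  rwa [aeval_X] at h

theorem Lc.zinv (hz : z ≠ 0) : Lc L t z z⁻¹ := by
  refine ⟨1, C 1, ?_⟩
  rw [aeval_C, map_one, pow_one, inv_mul_cancel₀ hz]

theorem Lc.pow {e : K} (h : Lc L t z e) (n : ℕ) : Lc L t z (e ^ n) := by
  induction n with
  | zero =>
    rw [pow_zero]
    have := Lc.const (L := L) (t := t) (z := z) 1
    rwa [map_one] at this
  | succ n ih =>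
    rw [pow_succ]
    exact ih.mul h

theorem Lc.aevalInt {e : K} (h : Lc L t z e) (p : Polynomial ℤ) :
    Lc L t z (Polynomial.aeval e p) := by
  induction p using Polynomial.induction_on' with
  | add p q hp hq => rw [map_add]; exact hp.add hq
  | monomial n a =>
    rw [Polynomial.aeval_monomial]
    refine Lc.mul ?_ (h.pow n)
    have := Lc.const (L := L) (t := t) (z := z) (a : L)
    rw [map_intCast] at this
    exact this

theorem Lc.aevalMv {x y : K} (hx : Lc L t z x) (hy : Lc L t z y) (P : MvPolynomial (Fin 2) L) :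
    Lc L t z (aeval ![x, y] P) := by
  induction P using MvPolynomial.induction_on with
  | C a => rw [aeval_C]; exact Lc.const a
  | add p q hp hq => rw [map_add]; exact hp.add hq
  | mul_X p i hp =>
    rw [map_mul, aeval_X]
    refine hp.mul ?_
    fin_cases i
    · exact hx
    · exact hy

theorem loc (hz : z ≠ 0) (p : Polynomial ℤ) (P : MvPolynomial (Fin 2) L) :
    Lc L t z (aeval ![z⁻¹, t - Polynomial.aeval z⁻¹ p] P) := by
  refine Lc.aevalMv (Lc.zinv hz) ?_ P
  rw [sub_eq_add_neg]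
  refine Lc.t_mem.add ?_
  have h1 : Lc L t z (-1 : K) := by
    have := Lc.const (L := L) (t := t) (z := z) (-1)
    rwa [map_neg, map_one] at this
  have h2 := h1.mul ((Lc.zinv (L := L) (t := t) hz).aevalInt p)
  rwa [neg_one_mul] at h2

end Loc

/-- back transformation -/
theorem back (p : Polynomial ℤ) (H : MvPolynomial (Fin 2) L) :
    ∃ (n : ℕ) (Hs : MvPolynomial (Fin 2) L), ∀ (K : Type) [Field K] [Algebra L K] (t z : K),
      z ≠ 0 → aeval ![z⁻¹, t - Polynomial.aeval z⁻¹ p] Hs * z ^ n = aeval ![t, z] H := by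
  induction H using MvPolynomial.induction_on with
  | C a =>
    refine ⟨0, C a, ?_⟩
    intro K _ _ t z _
    rw [aeval_C, aeval_C, pow_zero, mul_one]
  | add H H' h h' =>
    obtain ⟨n, Hs, h⟩ := h
    obtain ⟨n', Hs', h'⟩ := h'
    refine ⟨n + n', Hs * X 0 ^ n' + Hs' * X 0 ^ n, ?_⟩
    intro K _ _ t z hz
    rw [map_add, map_add, map_mul, map_mul, map_pow, map_pow, aeval_X, ← h K t z hz,
      ← h' K t z hz]
    have h1 : (![z⁻¹, t - Polynomial.aeval z⁻¹ p] : Fin 2 → K) 0 = z⁻¹ := rfl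
    rw [h1]
    have h2 : z⁻¹ ^ n * z ^ n = 1 := by rw [← mul_pow, inv_mul_cancel₀ hz, one_pow]
    have h3 : z⁻¹ ^ n' * z ^ n' = 1 := by rw [← mul_pow, inv_mul_cancel₀ hz, one_pow]
    rw [pow_add]
    linear_combination (aeval ![z⁻¹, t - Polynomial.aeval z⁻¹ p] Hs * z ^ n) * h3 +
      (aeval ![z⁻¹, t - Polynomial.aeval z⁻¹ p] Hs' * z ^ n') * h2
  | mul_X H i h =>
    obtain ⟨n, Hs, h⟩ := h
    fin_cases i
    · refine ⟨n, Hs * (X 1 + Polynomial.aeval (X 0) p), ?_⟩
      intro K _ _ t z hz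
      have h1 := hom_aeval (aeval ![z⁻¹, t - Polynomial.aeval z⁻¹ p] :
        MvPolynomial (Fin 2) L →ₐ[L] K).toRingHom p (X 0)
      have h2 : (aeval ![z⁻¹, t - Polynomial.aeval z⁻¹ p] :
        MvPolynomial (Fin 2) L →ₐ[L] K).toRingHom (X 0) = z⁻¹ := by
        show aeval ![z⁻¹, t - Polynomial.aeval z⁻¹ p] (X 0) = z⁻¹
        rw [aeval_X]
        rfl
      rw [h2] at h1
      have h3 : aeval ![z⁻¹, t - Polynomial.aeval z⁻¹ p]
        (Polynomial.aeval (X 0 : MvPolynomial (Fin 2) L) p) = Polynomial.aeval z⁻¹ p := h1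
      rw [map_mul, map_add, h3, aeval_X, map_mul, aeval_X, ← h K t z hz]
      show _ * ((t - Polynomial.aeval z⁻¹ p) + _) * _ = _ * t
      ring
    · refine ⟨n + 1, Hs, ?_⟩
      intro K _ _ t z hz
      rw [map_mul, aeval_X, ← h K t z hz, pow_succ]
      show _ = _ * z
      ring

/-- `X 0` is not divisible by the equation of the curve. -/
theorem not_dvd_X [CharZero L] [IsAlgClosed L] : ¬ polyOver L A.F ∣ X 0 := by
  rintro ⟨Q, hQ⟩
  set P : Polynomial L := (∏ j, ((A.f j).map (Int.castRingHom L)).comp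
    (Polynomial.X + Polynomial.C (Polynomial.aeval (1 : L) (A.h j)))) with hP
  have hmon : ∀ j ∈ Finset.univ, (((A.f j).map (Int.castRingHom L)).comp
    (Polynomial.X + Polynomial.C (Polynomial.aeval (1 : L) (A.h j)))).Monic := by
    intro j _
    refine ((A.monic j).map _).comp (Polynomial.monic_X_add_C _) ?_
    rw [Polynomial.natDegree_X_add_C]
    exact one_ne_zero
  have hdeg : 0 < P.natDegree := by
    rw [hP, Polynomial.natDegree_prod_of_monic _ _ hmon]
    refine Finset.sum_pos' (fun _ _ => Nat.zero_le _) ⟨A.i₀, Finset.mem_univ _, ?_⟩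
    rw [Polynomial.natDegree_comp, Polynomial.natDegree_X_add_C, mul_one,
      (A.monic A.i₀).natDegree_map]
    exact A.deg_pos _
  have hdeg2 : (P - Polynomial.C (A.c : L)).degree ≠ 0 := by
    intro h0
    have h00 : (P - Polynomial.C (A.c : L)).natDegree = 0 :=
      Polynomial.natDegree_eq_zero_iff_degree_le_zero.mpr h0.le
    rw [Polynomial.natDegree_sub_C] at h00
    omega
  obtain ⟨b, hb⟩ := IsAlgClosed.exists_root _ hdeg2
  have h1 := A.aeval_F (L := L) (K := L) 1 b
  have h2 : (∏ i, Polynomial.aeval (A.g i 1 b) (A.f i)) - (A.c : L) = 0 := by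
    rw [Polynomial.IsRoot, Polynomial.eval_sub, Polynomial.eval_C, hP, Polynomial.eval_prod] at hb
    rw [← hb]
    congr 1
    refine Finset.prod_congr rfl fun j _ => ?_
    rw [Polynomial.eval_comp, Polynomial.eval_map, Polynomial.eval_add, Polynomial.eval_X,
      Polynomial.eval_C, Polynomial.aeval_def]
    rfl
  rw [h2] at h1
  have h3 := congrArg (aeval (![1, b] : Fin 2 → L)) hQ
  rw [map_mul, h1, zero_mul, aeval_X] at h3
  exact one_ne_zero h3

/-- the equation in the chart -/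
noncomputable def GG (L : Type) [Field L] (i : ι) : MvPolynomial (Fin 2) L :=
  Polynomial.aeval (X 0) (A.f i) * WW A L i - C (A.c : L) * X 1 ^ A.N i

theorem aeval_GG [CharZero L] (t : K) {z : K} (hz : z ≠ 0) (i : ι) :
    aeval ![t, z] (GG A L i) =
      z ^ A.N i * aeval ![z⁻¹, t - Polynomial.aeval z⁻¹ (A.h i)] (polyOver L A.F) := by
  have h1 := hom_aeval (aeval ![t, z] : MvPolynomial (Fin 2) L →ₐ[L] K).toRingHom (A.f i) (X 0)
  have h2 : (aeval ![t, z] : MvPolynomial (Fin 2) L →ₐ[L] K).toRingHom (X 0) = t := by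
    show aeval ![t, z] (X 0) = t
    rw [aeval_X]
    rfl
  rw [h2] at h1
  have h3 : aeval ![t, z] (Polynomial.aeval (X 0 : MvPolynomial (Fin 2) L) (A.f i)) =
    Polynomial.aeval t (A.f i) := h1
  unfold GG
  rw [map_sub, map_mul, h3, map_mul, map_pow, aeval_X, aeval_C, map_intCast, main_id A t hz i,
    A.aeval_F]
  show _ - _ * z ^ _ = _
  ring

theorem eval_GG (θ : L) (i : ι) :
    eval ![θ, 0] (GG A L i) = Polynomial.aeval θ (A.f i) * eval ![θ, 0] (WW A L i) := by
  unfold GG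
  rw [map_sub, map_mul, eval_aeval_X0, map_mul, map_pow, eval_X]
  have h1 : (![θ, 0] : Fin 2 → L) 1 = 0 := rfl
  rw [h1, zero_pow (N_pos A i).ne', mul_zero, sub_zero]

theorem not_X_dvd_GG [CharZero L] (i : ι) : ¬ (X 1 : MvPolynomial (Fin 2) L) ∣ GG A L i := by
  rintro ⟨Q, hQ⟩
  have hne : (A.f i).map (Int.castRingHom L) ≠ 0 := ((A.monic i).map _).ne_zero
  obtain ⟨s, hs⟩ : ∃ s : L, Polynomial.aeval s (A.f i) ≠ 0 := by
    by_contra hcon
    push Not at hcon
    apply hne
    apply Polynomial.funext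
    intro r
    rw [Polynomial.eval_map, Polynomial.eval_zero]
    exact hcon r
  have h1 := eval_GG A s i
  rw [hQ, map_mul, eval_X] at h1
  have h2 : (![s, 0] : Fin 2 → L) 1 = 0 := rfl
  rw [h2, zero_mul] at h1
  exact mul_ne_zero hs (eval_WW_ne A s i) h1.symm

theorem aeval_frac (H : MvPolynomial (Fin 2) L) :
    aeval ![algebraMap (MvPolynomial (Fin 2) L) (FractionRing (MvPolynomial (Fin 2) L)) (X 0),
      algebraMap (MvPolynomial (Fin 2) L) (FractionRing (MvPolynomial (Fin 2) L)) (X 1)] H =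
      algebraMap (MvPolynomial (Fin 2) L) (FractionRing (MvPolynomial (Fin 2) L)) H := by
  induction H using MvPolynomial.induction_on with
  | C a =>
    rw [aeval_C, IsScalarTower.algebraMap_apply L (MvPolynomial (Fin 2) L)
      (FractionRing (MvPolynomial (Fin 2) L))]
    rfl
  | add p q hp hq => rw [map_add, hp, hq, map_add]
  | mul_X p i hp =>
    rw [map_mul, hp, map_mul, aeval_X]
    congr 1
    fin_cases i
    · rfl
    · rfl

/-- the kernel of the chart -/
theorem kernel [CharZero L] (i : ι) {θ : L} (hθ : Polynomial.aeval θ (A.f i) = 0)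
    (H Hs Q : MvPolynomial (Fin 2) L) (n : ℕ)
    (hb : ∀ (K : Type) [Field K] [Algebra L K] (t z : K), z ≠ 0 →
      aeval ![z⁻¹, t - Polynomial.aeval z⁻¹ (A.h i)] Hs * z ^ n = aeval ![t, z] H)
    (hQ : Hs = polyOver L A.F * Q) : eval ![θ, 0] H = 0 := by
  set E := FractionRing (MvPolynomial (Fin 2) L) with hE
  set T : E := algebraMap (MvPolynomial (Fin 2) L) E (X 0) with hT
  set Z : E := algebraMap (MvPolynomial (Fin 2) L) E (X 1) with hZ
  have hinj : Function.Injective (algebraMap (MvPolynomial (Fin 2) L) E) :=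
    IsFractionRing.injective (MvPolynomial (Fin 2) L) E
  have hZ0 : Z ≠ 0 := by
    rw [hZ, Ne, map_eq_zero_iff _ hinj]
    exact X_ne_zero 1
  have h1 := hb E T Z hZ0
  obtain ⟨b, Q', hQ'⟩ := loc (L := L) (t := T) hZ0 (A.h i) Q
  have h2 := aeval_GG A (L := L) T hZ0 i
  rw [hQ, map_mul] at h1
  rw [aeval_frac] at h1 h2 hQ'
  -- H Z^(N+b) = GG Q' Z^n
  have h3 : H * X 1 ^ (A.N i + b) = GG A L i * (Q' * X 1 ^ n) := by
    apply hinj
    rw [map_mul, map_mul, map_mul, map_pow, map_pow, ← h1, h2, ← hQ', ← hZ]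
    ring
  rcases le_total (A.N i + b) n with hle | hle
  · have h4 : H = GG A L i * (Q' * X 1 ^ (n - (A.N i + b))) := by
      have hpos : (X 1 : MvPolynomial (Fin 2) L) ^ (A.N i + b) ≠ 0 := pow_ne_zero _ (X_ne_zero 1)
      apply mul_right_cancel₀ hpos
      rw [h3]
      have : (X 1 : MvPolynomial (Fin 2) L) ^ n =
          X 1 ^ (n - (A.N i + b)) * X 1 ^ (A.N i + b) := by
        rw [← pow_add, Nat.sub_add_cancel hle]
      rw [this]
      ring
    rw [h4, map_mul, eval_GG, hθ, zero_mul, zero_mul]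
  · have h4 : H * X 1 ^ (A.N i + b - n) = GG A L i * Q' := by
      have hpos : (X 1 : MvPolynomial (Fin 2) L) ^ n ≠ 0 := pow_ne_zero _ (X_ne_zero 1)
      apply mul_right_cancel₀ hpos
      have : (X 1 : MvPolynomial (Fin 2) L) ^ (A.N i + b) =
          X 1 ^ (A.N i + b - n) * X 1 ^ n := by
        rw [← pow_add, Nat.sub_add_cancel hle]
      rw [mul_assoc, ← this, h3]
      ring
    have h5 : (X 1 : MvPolynomial (Fin 2) L) ^ (A.N i + b - n) ∣ Q' := by
      refine (X_prime (R := L) (i := (1 : Fin 2))).pow_dvd_of_dvd_mul_left _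
        (not_X_dvd_GG A i) ?_
      rw [← h4]
      exact Dvd.intro_left H rfl
    obtain ⟨Q'', hQ''⟩ := h5
    have h6 : H = GG A L i * Q'' := by
      have hpos : (X 1 : MvPolynomial (Fin 2) L) ^ (A.N i + b - n) ≠ 0 :=
        pow_ne_zero _ (X_ne_zero 1)
      apply mul_right_cancel₀ hpos
      rw [h4, hQ'']
      ring
    rw [h6, map_mul, eval_GG, hθ, zero_mul, zero_mul]

theorem chart_abs [CharZero L] [IsAlgClosed L] (i : ι) (θ : L)
    (hθ : Polynomial.aeval θ (A.f i) = 0) (x y : K) (hEqn : A.Eqn x y)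
    (hker : ∀ P : MvPolynomial (Fin 2) L, aeval ![x, y] P = 0 → polyOver L A.F ∣ P)
    (hratio : ∀ f : K, ∃ a b : MvPolynomial (Fin 2) L, aeval ![x, y] b ≠ 0 ∧
      f * aeval ![x, y] b = aeval ![x, y] a) :
    x ≠ 0 ∧ A.g i x y ≠ algebraMap L K θ ∧
    (∀ f : K, ∃ a b : MvPolynomial (Fin 2) L,
      aeval ![A.g i x y, x⁻¹] b ≠ 0 ∧
      f * aeval ![A.g i x y, x⁻¹] b = aeval ![A.g i x y, x⁻¹] a) ∧
    (∀ H : MvPolynomial (Fin 2) L,
      aeval ![A.g i x y, x⁻¹] H = 0 → eval ![θ, 0] H = 0) ∧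
    (∃ U W : MvPolynomial (Fin 2) L, eval ![θ, 0] U ≠ 0 ∧
      (A.g i x y - algebraMap L K θ) * aeval ![A.g i x y, x⁻¹] U =
      x⁻¹ * aeval ![A.g i x y, x⁻¹] W) := by
  have hc : ((A.c : ℤ) : K) ≠ 0 := by
    have h1 : ((A.c : ℤ) : L) ≠ 0 := by exact_mod_cast A.c_ne
    have h2 := (map_ne_zero (algebraMap L K)).mpr h1
    rwa [map_intCast] at h2
  have hx0 : x ≠ 0 := by
    intro h0
    have h1 : aeval ![x, y] (X 0 : MvPolynomial (Fin 2) L) = 0 := by
      rw [aeval_X]
      exact h0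
    exact not_dvd_X A (hker _ h1)
  have hg0 : A.g i x y ≠ algebraMap L K θ := by
    intro h0
    have h1 : Polynomial.aeval (A.g i x y) (A.f i) = 0 := by
      rw [h0, ← hom_aeval, hθ, map_zero]
    have h2 : ∏ j, Polynomial.aeval (A.g j x y) (A.f j) = 0 :=
      Finset.prod_eq_zero (Finset.mem_univ i) h1
    rw [Arr.Eqn] at hEqn
    rw [hEqn] at h2
    exact hc h2
  set z := x⁻¹ with hz
  have hz0 : z ≠ 0 := inv_ne_zero hx0
  have hzi : z⁻¹ = x := inv_inv x
  set g := A.g i x y with hg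
  have hgy : g - Polynomial.aeval z⁻¹ (A.h i) = y := by
    rw [hzi, hg, Arr.g]
    ring
  have hmain : Polynomial.aeval g (A.f i) * aeval ![g, z] (WW A L i) = z ^ A.N i * (A.c : K) := by
    rw [main_id A g hz0 i, hgy, hzi]
    rw [Arr.Eqn] at hEqn
    rw [hEqn]
  refine ⟨hx0, hg0, ?_, ?_, ?_⟩
  · intro f
    obtain ⟨a, b, hb, hab⟩ := hratio f
    obtain ⟨n, a', ha'⟩ := loc (L := L) (t := g) hz0 (A.h i) a
    obtain ⟨k, b', hb'⟩ := loc (L := L) (t := g) hz0 (A.h i) b
    rw [hgy, hzi] at ha' hb'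
    refine ⟨a' * X 1 ^ k, b' * X 1 ^ n, ?_, ?_⟩
    · rw [map_mul, map_pow, aeval_X, ← hb']
      exact mul_ne_zero (mul_ne_zero hb (pow_ne_zero _ hz0)) (pow_ne_zero _ hz0)
    · rw [map_mul, map_mul, map_pow, map_pow, aeval_X, ← hb', ← ha', ← hab]
      show _ * (_ * z ^ n) = _ * z ^ k
      ring
  · intro H hH
    obtain ⟨n, Hs, hHs⟩ := back (L := L) (A.h i) H
    have h1 := hHs K g z hz0
    rw [hH, hgy, hzi] at h1
    have h2 : aeval ![x, y] Hs = 0 := by
      rcases mul_eq_zero.mp h1 with h | h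
      · exact h
      · exact absurd h (pow_ne_zero _ hz0)
    obtain ⟨Q, hQ⟩ := hker _ h2
    exact kernel A i hθ H Hs Q n hHs hQ
  · -- factor `f_i = (T - θ) u`
    have hroot : ((A.f i).map (Int.castRingHom L)).IsRoot θ := by
      rw [Polynomial.IsRoot, Polynomial.eval_map]
      exact hθ
    obtain ⟨u, hu⟩ := Polynomial.dvd_iff_isRoot.mpr hroot
    have hsep : ((A.f i).map (Int.castRingHom L)).Separable := by
      have h1 := (A.sep i).map (f := Rat.castHom L)
      rw [Polynomial.map_map] at h1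
      rwa [Subsingleton.elim ((Rat.castHom L).comp (Int.castRingHom ℚ)) (Int.castRingHom L)] at h1
    have huθ : u.eval θ ≠ 0 := by
      intro h0
      obtain ⟨u', hu'⟩ := Polynomial.dvd_iff_isRoot.mpr h0
      have h1 : (Polynomial.X - Polynomial.C θ) * (Polynomial.X - Polynomial.C θ) ∣
          (A.f i).map (Int.castRingHom L) := ⟨u', by rw [hu]; nth_rewrite 1 [hu']; ring⟩
      have h2 := hsep.squarefree _ h1
      exact Polynomial.not_isUnit_X_sub_C θ h2
    refine ⟨Polynomial.aeval (X 0) u * WW A L i, C (A.c : L) * X 1 ^ (A.N i - 1), ?_, ?_⟩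
    · rw [map_mul]
      refine mul_ne_zero ?_ (eval_WW_ne A θ i)
      have h1 : eval ![θ, 0] (Polynomial.aeval (X 0 : MvPolynomial (Fin 2) L) u) = u.eval θ := by
        rw [Polynomial.aeval_def, Polynomial.hom_eval₂, eval_X]
        have h2 : (eval ![θ, 0]).comp (algebraMap L (MvPolynomial (Fin 2) L)) = RingHom.id L := by
          ext a
          simp
        rw [h2]
        rfl
      rw [h1]
      exact huθ
    · have h1 : aeval ![g, z] (Polynomial.aeval (X 0 : MvPolynomial (Fin 2) L) u) =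
          Polynomial.aeval g u := by
        have := Polynomial.aeval_algHom_apply (aeval ![g, z] : MvPolynomial (Fin 2) L →ₐ[L] _)
          (X 0) u
        rw [aeval_X] at this
        exact this.symm
      have h2 : Polynomial.aeval g (A.f i) =
          (g - algebraMap L K θ) * Polynomial.aeval g u := by
        have h3 : Polynomial.aeval g (A.f i) =
            Polynomial.aeval g ((A.f i).map (Int.castRingHom L)) := by
          have := Polynomial.aeval_map_algebraMap L g (A.f i)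
          exact this.symm
        rw [h3, hu, map_mul, map_sub, Polynomial.aeval_X, Polynomial.aeval_C]
      rw [map_mul, h1, map_mul, aeval_C, map_pow, aeval_X, map_intCast, ← mul_assoc, ← h2, hmain]
      show _ = z * (_ * z ^ (A.N i - 1))
      have h4 : z ^ A.N i = z * z ^ (A.N i - 1) := by
        rw [← pow_succ', Nat.sub_add_cancel (N_pos A i)]
      rw [h4]
      ring

end Chart

theorem p_CHART : T_CHART := by
  intro ι _ _ A C hC L _ _ _ i θ hθ
  refine Chart.chart_abs A i θ hθ (C.xF L) (C.yF L) (A.eqn_of_F hC L) ?_ (C.exists_ratio L)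
  intro P hP
  have h := (C.aeval_xy_eq_zero L P).mp hP
  rwa [hC] at h

end Pool.Agent.FD
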