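import Pool.Agent.FD.TargetsB


/-!
# The combinatorial choice of the degrees (target `T_COMB`)
-/

namespace Pool.Agent.FD
namespace Comb_

/-- masses on `ℕ` -/
def mN (Q ν p : ℕ) : ℕ :=
  if p = 0 then Q else if p % 3 = 1 then ν else if p % 3 = 2 then 3 else 2

theorem frob (a n : ℕ) (ha : Even a) (h : (a + 3) * (a + 5) < n) :
    ∃ v u : ℕ, 1 ≤ v ∧ 1 ≤ u ∧ n = v * (a + 3) + u * (a + 5) := by
  have hcop : Nat.Coprime (a + 3) (a + 5) := by
    have h2 : Nat.Coprime (a + 3) 2 := by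
      rw [Nat.coprime_two_right]
      obtain ⟨b, hb⟩ := ha
      exact ⟨b + 1, by omega⟩
    have : a + 5 = (a + 3) + 2 := by ring
    rw [this]
    simpa using h2
  have hF := frobeniusNumber_pair hcop (by omega) (by omega)
  rw [FrobeniusNumber] at hF
  have hmn : (a + 3) + (a + 5) ≤ (a + 3) * (a + 5) := Nat.add_le_mul (by omega) (by omega)
  have hk : n - (a + 3) - (a + 5) ∈ AddSubmonoid.closure ({a + 3, a + 5} : Set ℕ) := by
    by_contra hc
    have := hF.2 hc
    omega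
  rw [AddSubmonoid.mem_closure_pair] at hk
  obtain ⟨x, y, hxy⟩ := hk
  refine ⟨x + 1, y + 1, by omega, by omega, ?_⟩
  simp only [smul_eq_mul] at hxy
  have : n = x * (a + 3) + y * (a + 5) + (a + 3) + (a + 5) := by omega
  rw [this]; ring

theorem frob52 (n : ℕ) (h : 11 ≤ n) : ∃ x y : ℕ, 1 ≤ x ∧ 1 ≤ y ∧ n = 5 * x + 2 * y := by
  rcases Nat.even_or_odd' n with ⟨k, hk | hk⟩
  · exact ⟨2, k - 5, by omega, by omega, by omega⟩
  · exact ⟨1, k - 2, by omega, by omega, by omega⟩

/-- `NM` in terms of sums over ranges -/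
theorem NM_eq (Q ν T : ℕ) (f : ℕ → ℕ) (hf : StrictMono f) (i : Fin (T + 1)) :
    NM Q ν (fun j : Fin (T + 1) => f j.val) i =
      f i.val * (∑ j ∈ Finset.range i.val, mN Q ν j) +
        ∑ j ∈ Finset.Ico (i.val + 1) (T + 1), mN Q ν j * f j := by
  have h1 : NM Q ν (fun j : Fin (T + 1) => f j.val) i + mN Q ν i.val * f i.val =
      ∑ j ∈ Finset.range (T + 1), mN Q ν j * max (f i.val) (f j) := by
    rw [← Fin.sum_univ_eq_sum_range (fun j => mN Q ν j * max (f i.val) (f j))]
    rw [← Finset.sum_erase_add _ _ (Finset.mem_univ i)]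
    simp only [NM, mass, mN, max_self]
  have h2 : ∑ j ∈ Finset.range (T + 1), mN Q ν j * max (f i.val) (f j) =
      (∑ j ∈ Finset.range i.val, mN Q ν j * max (f i.val) (f j)) +
      (mN Q ν i.val * f i.val +
        ∑ j ∈ Finset.Ico (i.val + 1) (T + 1), mN Q ν j * max (f i.val) (f j)) := by
    rw [Finset.range_eq_Ico, Finset.range_eq_Ico,
      ← Finset.sum_Ico_consecutive _ (Nat.zero_le i.val) (by omega : i.val ≤ T + 1),
      Finset.sum_eq_sum_Ico_succ_bot (by omega : i.val < T + 1)]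
    simp
  have h3 : ∑ j ∈ Finset.range i.val, mN Q ν j * max (f i.val) (f j) =
      f i.val * (∑ j ∈ Finset.range i.val, mN Q ν j) := by
    rw [Finset.mul_sum]
    refine Finset.sum_congr rfl fun j hj => ?_
    rw [Finset.mem_range] at hj
    rw [max_eq_left (hf.monotone hj.le), mul_comm]
  have h4 : ∑ j ∈ Finset.Ico (i.val + 1) (T + 1), mN Q ν j * max (f i.val) (f j) =
      ∑ j ∈ Finset.Ico (i.val + 1) (T + 1), mN Q ν j * f j := by
    refine Finset.sum_congr rfl fun j hj => ?_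
    rw [Finset.mem_Ico] at hj
    rw [max_eq_right (hf.monotone (by omega : i.val ≤ j))]
  rw [h3, h4] at h2
  omega

/-- the masses below the host position `3i+1` -/
theorem sum_mass (Q ν i : ℕ) :
    ∑ j ∈ Finset.range (3 * i + 1), mN Q ν j = Q + i * (ν + 5) := by
  induction i with
  | zero => simp [mN]
  | succ i ih =>
    have : 3 * (i + 1) + 1 = (3 * i + 1) + 1 + 1 + 1 := by ring
    rw [this, Finset.sum_range_succ, Finset.sum_range_succ, Finset.sum_range_succ, ih]
    have e1 : mN Q ν (3 * i + 1) = ν := by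
      unfold mN
      rw [if_neg (by omega), if_pos (by omega)]
    have e2 : mN Q ν (3 * i + 1 + 1) = 3 := by
      unfold mN
      rw [if_neg (by omega), if_neg (by omega), if_pos (by omega)]
    have e3 : mN Q ν (3 * i + 1 + 1 + 1) = 2 := by
      unfold mN
      rw [if_neg (by omega), if_neg (by omega), if_neg (by omega)]
    rw [e1, e2, e3]; ring

theorem mN1 (Q ν i : ℕ) : mN Q ν (3 * i + 1) = ν := by
  unfold mN
  rw [if_neg (by omega), if_pos (by omega)]

theorem mN2 (Q ν i : ℕ) : mN Q ν (3 * i + 2) = 3 := by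
  unfold mN
  rw [if_neg (by omega), if_neg (by omega), if_pos (by omega)]

theorem mN3 (Q ν i : ℕ) : mN Q ν (3 * i + 3) = 2 := by
  unfold mN
  rw [if_neg (by omega), if_neg (by omega), if_neg (by omega)]

/-- the sequence built from the host values and the increments -/
def H (s v u : ℕ → ℕ) : ℕ → ℕ
  | 0 => 1
  | i + 1 => H s v u i + s i + v i + u i

/-- the sequence of the `δ` on `ℕ` -/
def D (s v u : ℕ → ℕ) (p : ℕ) : ℕ :=
  if p = 0 then 0 else
    if p % 3 = 1 then H s v u (p / 3) else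
      if p % 3 = 2 then H s v u (p / 3) + s (p / 3) else
        H s v u (p / 3 - 1) + s (p / 3 - 1) + v (p / 3 - 1)

theorem D1 (s v u : ℕ → ℕ) (i : ℕ) : D s v u (3 * i + 1) = H s v u i := by
  unfold D
  rw [if_neg (by omega), if_pos (by omega), show (3 * i + 1) / 3 = i by omega]

theorem D2 (s v u : ℕ → ℕ) (i : ℕ) : D s v u (3 * i + 2) = H s v u i + s i := by
  unfold D
  rw [if_neg (by omega), if_neg (by omega), if_pos (by omega),
    show (3 * i + 2) / 3 = i by omega]

theorem D3 (s v u : ℕ → ℕ) (i : ℕ) : D s v u (3 * i + 3) = H s v u i + s i + v i := by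
  unfold D
  rw [if_neg (by omega), if_neg (by omega), if_neg (by omega),
    show (3 * i + 3) / 3 - 1 = i by omega]

theorem D_strictMono (s v u : ℕ → ℕ) (hs : ∀ i, 1 ≤ s i) (hv : ∀ i, 1 ≤ v i)
    (hu : ∀ i, 1 ≤ u i) : StrictMono (D s v u) := by
  refine strictMono_nat_of_lt_succ fun p => ?_
  rcases Nat.eq_zero_or_pos p with rfl | hp
  · have := D1 s v u 0
    simp only [Nat.mul_zero, Nat.zero_add] at this
    rw [Nat.zero_add, this]
    simp [D, H]
  · have h3 : p % 3 = 0 ∨ p % 3 = 1 ∨ p % 3 = 2 := by omega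
    rcases h3 with h | h | h
    · obtain ⟨i, rfl⟩ : ∃ i, p = 3 * i + 3 := ⟨p / 3 - 1, by omega⟩
      rw [D3, show 3 * i + 3 + 1 = 3 * (i + 1) + 1 by ring, D1, H]
      have := hu i
      omega
    · obtain ⟨i, rfl⟩ : ∃ i, p = 3 * i + 1 := ⟨p / 3, by omega⟩
      rw [D1, show 3 * i + 1 + 1 = 3 * i + 2 by ring, D2]
      have := hs i
      omega
    · obtain ⟨i, rfl⟩ : ∃ i, p = 3 * i + 2 := ⟨p / 3, by omega⟩
      rw [D2, show 3 * i + 2 + 1 = 3 * i + 3 by ring, D3]
      have := hv i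
      omega

/-- the value of `NM` at the host positions, as a function on `ℕ` -/
def V (Q ν r : ℕ) (s v u : ℕ → ℕ) (i : ℕ) : ℕ :=
  H s v u i * (Q + i * (ν + 5)) +
    ∑ j ∈ Finset.Ico (3 * i + 2) (3 * r + 1), mN Q ν j * D s v u j

theorem V_step (Q ν r : ℕ) (s v u : ℕ → ℕ) (i : ℕ) (hi : i + 1 < r) :
    V Q ν r s v u (i + 1) + 0 = V Q ν r s v u i +
      (s i * (Q + i * (ν + 5)) + v i * (Q + i * (ν + 5) + 3) +
        u i * (Q + i * (ν + 5) + 5)) := by
  have h1 : ∑ j ∈ Finset.Ico (3 * i + 2) (3 * r + 1), mN Q ν j * D s v u j =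
      3 * (H s v u i + s i) + (2 * (H s v u i + s i + v i) +
        (ν * H s v u (i + 1) +
        ∑ j ∈ Finset.Ico (3 * (i + 1) + 2) (3 * r + 1), mN Q ν j * D s v u j)) := by
    rw [Finset.sum_eq_sum_Ico_succ_bot (by omega : 3 * i + 2 < 3 * r + 1),
      Finset.sum_eq_sum_Ico_succ_bot (by omega : 3 * i + 2 + 1 < 3 * r + 1),
      Finset.sum_eq_sum_Ico_succ_bot (by omega : 3 * i + 2 + 1 + 1 < 3 * r + 1)]
    rw [mN2, D2, show 3 * i + 2 + 1 = 3 * i + 3 by ring, mN3, D3,
      show 3 * i + 3 + 1 = 3 * (i + 1) + 1 by ring, mN1, D1]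
  unfold V
  rw [h1, H]
  ring

theorem V_last (Q ν r : ℕ) (s v u : ℕ → ℕ) :
    V Q ν (r + 1) s v u r = H s v u r * (Q + r * (ν + 5) + 5) + 5 * s r + 2 * v r := by
  have h1 : ∑ j ∈ Finset.Ico (3 * r + 2) (3 * (r + 1) + 1), mN Q ν j * D s v u j =
      3 * (H s v u r + s r) + 2 * (H s v u r + s r + v r) := by
    rw [Finset.sum_eq_sum_Ico_succ_bot (by omega), Finset.sum_eq_sum_Ico_succ_bot (by omega)]
    rw [show 3 * (r + 1) + 1 = 3 * r + 2 + 1 + 1 by ring, Finset.Ico_self, Finset.sum_empty,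
      mN2, D2, show 3 * r + 2 + 1 = 3 * r + 3 by ring, mN3, D3]
    ring
  unfold V
  rw [h1]
  ring

theorem main (R ν c : ℕ) (hν : Odd ν) : ∃ Q : ℕ, 2 ≤ Q ∧ ∃ G : ℕ, ∀ N : Fin (R + 1) → ℕ,
    (∀ i, G ≤ N i) → (∀ i j : Fin (R + 1), i < j → N i + G ≤ N j) →
    (∀ i j, N i ≤ c * N j) →
    ∃ δ : Fin (3 * (R + 1) + 1) → ℕ, StrictMono δ ∧ δ 0 = 0 ∧
      ∀ i : Fin (R + 1), NM Q ν δ (pos (R + 1) i) = N i := by
  obtain ⟨K, hK⟩ : ∃ K, K = (R + 1) * (ν + 5) := ⟨_, rfl⟩
  obtain ⟨Q, hQ⟩ : ∃ Q, Q = 2 * c * K + 2 := ⟨_, rfl⟩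
  refine ⟨Q, by omega, 2 * (Q + K + 11) + (Q + K + 10) ^ 2, fun N hG hgap hc => ?_⟩
  obtain ⟨M, hM⟩ : ∃ M : ℕ → ℕ, M = fun i => Q + i * (ν + 5) := ⟨_, rfl⟩
  have hMK : ∀ i, i ≤ R → M i + 5 ≤ Q + K := by
    intro i hi
    have h1 : i * (ν + 5) ≤ R * (ν + 5) := Nat.mul_le_mul_right _ hi
    have h2 : K = R * (ν + 5) + (ν + 5) := by rw [hK]; ring
    rw [hM]
    simp only
    omega
  have hMQ : ∀ i, Q ≤ M i := by
    intro i
    rw [hM]
    exact Nat.le_add_right _ _
  have hMe : ∀ i, Even (M i) := by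
    intro i
    rw [hM]
    have h1 : Even (ν + 5) := by
      obtain ⟨k, hk⟩ := hν
      exact ⟨k + 3, by omega⟩
    have h2 : Even Q := by
      rw [hQ]
      exact ⟨c * K + 1, by ring⟩
    exact h2.add (h1.mul_left i)
  obtain ⟨N', hN'⟩ : ∃ N' : ℕ → ℕ, ∀ i (h : i < R + 1), N' i = N ⟨i, h⟩ :=
    ⟨fun i => if h : i < R + 1 then N ⟨i, h⟩ else 0, fun i h => by simp [h]⟩
  have hch : ∀ i, ∃ v u : ℕ, 1 ≤ v ∧ 1 ≤ u ∧ (i + 1 < R + 1 →
      N' (i + 1) = N' i + (M i + v * (M i + 3) + u * (M i + 5))) := by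
    intro i
    by_cases hi : i + 1 < R + 1
    · have h1 := hgap ⟨i, by omega⟩ ⟨i + 1, hi⟩ (by simp [Fin.lt_def])
      rw [← hN', ← hN'] at h1
      have h2 := hMK i (by omega)
      have h3 : (M i + 3) * (M i + 5) ≤ (Q + K) * (Q + K) :=
        Nat.mul_le_mul (by omega) (by omega)
      have h4 : (Q + K) * (Q + K) + 20 * (Q + K) + 100 = (Q + K + 10) ^ 2 := by ring
      obtain ⟨v, u, hv, hu, hvu⟩ := frob (M i) (N' (i + 1) - N' i - M i) (hMe i) (by omega)
      exact ⟨v, u, hv, hu, fun _ => by omega⟩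
    · exact ⟨1, 1, le_rfl, le_rfl, fun h => absurd h hi⟩
  choose v u hv hu hNv using hch
  -- the bound for the host values
  have hb : ∀ i, i ≤ R → Q * H (fun _ => 1) v u i + N' 0 ≤ N' i + Q := by
    intro i
    induction i with
    | zero => intro _; simp [H]; omega
    | succ i ih =>
      intro hi
      have h1 := ih (by omega)
      have h2 := hNv i (by omega)
      rw [H]
      have h3 : Q * 1 + Q * v i + Q * u i ≤ M i + v i * (M i + 3) + u i * (M i + 5) := by
        have a1 : Q * v i ≤ v i * (M i + 3) := by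
          rw [mul_comm]; exact Nat.mul_le_mul_left _ (by have := hMQ i; omega)
        have a2 : Q * u i ≤ u i * (M i + 5) := by
          rw [mul_comm]; exact Nat.mul_le_mul_left _ (by have := hMQ i; omega)
        have a3 := hMQ i
        omega
      have h4 : Q * (H (fun _ => 1) v u i + 1 + v i + u i) =
          Q * H (fun _ => 1) v u i + (Q * 1 + Q * v i + Q * u i) := by ring
      rw [h4]
      omega
  have hN0 := hG ⟨0, by omega⟩
  rw [← hN'] at hN0
  have hNR : N' R ≤ c * N' 0 := by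
    rw [hN' R (by omega), hN' 0 (by omega)]
    exact hc _ _
  have hHpos : 1 ≤ H (fun _ => 1) v u R := by
    have : ∀ i, 1 ≤ H (fun _ => 1) v u i := by
      intro i
      induction i with
      | zero => simp [H]
      | succ i ih => rw [H]; omega
    exact this R
  obtain ⟨E, hE⟩ : ∃ E, H (fun _ => 1) v u R = E + 1 := ⟨_, (Nat.sub_add_cancel hHpos).symm⟩
  have hbR := hb R le_rfl
  have hlast : H (fun _ => 1) v u R * (M R + 5) + 11 ≤ N' R := by
    rw [hE] at hbR ⊢
    have hcpos : 0 < c := by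
      rcases Nat.eq_zero_or_pos c with h0 | h0
      · exfalso
        have h1 := hc ⟨0, by omega⟩ ⟨0, by omega⟩
        rw [← hN', h0] at h1
        omega
      · exact h0
    have h1 : Q * E + N' 0 ≤ N' R := by
      have : Q * (E + 1) = Q * E + Q := by ring
      omega
    have h2 : 2 * (K * E) ≤ N' 0 := by
      have a1 : c * (2 * (K * E)) ≤ Q * E := by
        rw [hQ]
        have : (2 * c * K + 2) * E = c * (2 * (K * E)) + 2 * E := by ring
        omega
      have a2 : c * (2 * (K * E)) ≤ c * N' 0 := by omega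
      exact Nat.le_of_mul_le_mul_left a2 hcpos
    have h3 : (E + 1) * (M R + 5) ≤ (E + 1) * (Q + K) := Nat.mul_le_mul_left _ (hMK R le_rfl)
    have h4 : (E + 1) * (Q + K) = Q * E + K * E + Q + K := by ring
    omega
  obtain ⟨x, y, hx, hy, hxy⟩ := frob52 (N' R - H (fun _ => 1) v u R * (M R + 5)) (by omega)
  obtain ⟨s', hs'⟩ : ∃ s' : ℕ → ℕ, s' = fun i => if i = R then x else 1 := ⟨_, rfl⟩
  obtain ⟨v', hv'⟩ : ∃ v' : ℕ → ℕ, v' = fun i => if i = R then y else v i := ⟨_, rfl⟩
  have hs1 : ∀ i, 1 ≤ s' i := by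
    intro i
    rw [hs']
    simp only
    split_ifs <;> omega
  have hv1 : ∀ i, 1 ≤ v' i := by
    intro i
    rw [hv']
    simp only
    have := hv i
    split_ifs <;> omega
  have hsne : ∀ i, i ≠ R → s' i = 1 := fun i hi => by rw [hs']; simp [hi]
  have hvne : ∀ i, i ≠ R → v' i = v i := fun i hi => by rw [hv']; simp [hi]
  have hsR : s' R = x := by rw [hs']; simp
  have hvR : v' R = y := by rw [hv']; simp
  have hHH : ∀ i, i ≤ R → H s' v' u i = H (fun _ => 1) v u i := by
    intro i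
    induction i with
    | zero => intro _; rfl
    | succ i ih =>
      intro hi
      rw [H, H, ih (by omega), hsne i (by omega), hvne i (by omega)]
  have hmono := D_strictMono s' v' u hs1 hv1 hu
  have hV : ∀ k, k ≤ R → V Q ν (R + 1) s' v' u (R - k) = N' (R - k) := by
    intro k
    induction k with
    | zero =>
      intro _
      rw [Nat.sub_zero, V_last, hHH R le_rfl, hsR, hvR]
      have : Q + R * (ν + 5) + 5 = M R + 5 := by rw [hM]
      rw [this]
      omega
    | succ k ih =>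
      intro hk
      have h1 := ih (by omega)
      have h2 := V_step Q ν (R + 1) s' v' u (R - (k + 1)) (by omega)
      rw [show R - (k + 1) + 1 = R - k by omega, h1] at h2
      have h3 := hNv (R - (k + 1)) (by omega)
      rw [show R - (k + 1) + 1 = R - k by omega] at h3
      rw [hsne _ (by omega), hvne _ (by omega)] at h2
      have h4 : Q + (R - (k + 1)) * (ν + 5) = M (R - (k + 1)) := by rw [hM]
      rw [h4] at h2
      omega
  refine ⟨fun j => D s' v' u j.val, fun a b hab => hmono hab, by simp [D], fun i => ?_⟩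
  rw [NM_eq Q ν (3 * (R + 1)) (D s' v' u) hmono (pos (R + 1) i)]
  have hi := i.isLt
  have h1 := hV (R - i.val) (by omega)
  rw [show R - (R - i.val) = i.val by omega, hN' i.val hi] at h1
  rw [← h1]
  unfold V pos
  simp only
  rw [D1, sum_mass]

end Comb_

theorem p_COMB : T_COMB := by
  intro r ν c hr hν
  obtain ⟨R, rfl⟩ : ∃ R, r = R + 1 := ⟨r - 1, by omega⟩
  exact Comb_.main R ν c hν

end Pool.Agent.FD
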