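import Pool.Agent.FD.SelM

/-!
# The torsion criterion
-/

open MvPolynomial

namespace Pool.Agent.FD

namespace CritB

open SelM

section

variable (C : Curve) {L L' L'' : Type} [Field L] [CharZero L] [IsAlgClosed L] [Field L']
  [CharZero L'] [IsAlgClosed L'] [Field L''] [CharZero L''] [IsAlgClosed L'']

theorem mapFun_comp (j : L →+* L') (j' : L' →+* L'') (f : C.FunField L) :
    C.mapFun j' (C.mapFun j f) = C.mapFun (j'.comp j) f := by
  obtain ⟨a, b, hb, h⟩ : ∃ a b : MvPolynomial (Fin 2) L,
      MvPolynomial.aeval ![C.xF L, C.yF L] b ≠ 0 ∧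
      f * MvPolynomial.aeval ![C.xF L, C.yF L] b =
        MvPolynomial.aeval ![C.xF L, C.yF L] a := C.exists_ratio L f
  have h1 : C.mapFun j' (C.mapFun j (f * MvPolynomial.aeval ![C.xF L, C.yF L] b)) =
      C.mapFun (j'.comp j) (f * MvPolynomial.aeval ![C.xF L, C.yF L] b) := by
    rw [h, C.mapFun_aeval, C.mapFun_aeval, C.mapFun_aeval, MvPolynomial.map_map]
  have h2 : C.mapFun j' (C.mapFun j (MvPolynomial.aeval ![C.xF L, C.yF L] b)) =
      C.mapFun (j'.comp j) (MvPolynomial.aeval ![C.xF L, C.yF L] b) := by
    rw [C.mapFun_aeval, C.mapFun_aeval, C.mapFun_aeval, MvPolynomial.map_map]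
  rw [map_mul, map_mul, map_mul, h2] at h1
  exact mul_right_cancel₀ ((map_ne_zero _).mpr hb) h1

theorem mapFun_id (f : C.FunField L) : C.mapFun (RingHom.id L) f = f := by
  obtain ⟨a, b, hb, h⟩ := C.exists_ratio L f
  have h1 : C.mapFun (RingHom.id L) (f * MvPolynomial.aeval ![C.xF L, C.yF L] b) =
      f * MvPolynomial.aeval ![C.xF L, C.yF L] b := by
    rw [h, C.mapFun_aeval, MvPolynomial.map_id]
  rw [map_mul, C.mapFun_aeval, MvPolynomial.map_id] at h1
  exact mul_right_cancel₀ hb h1

theorem push_comp (j : L →+* L') (j' : L' →+* L'') (D : C.Pt L → ℤ) :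
    C.push j' (C.push j D) = C.push (j'.comp j) D := by
  funext w
  by_cases h'' : ∃ f : C.FunField L, w.ord (C.mapFun (j'.comp j) f) = 1
  · have h' : ∃ f : C.FunField L', w.ord (C.mapFun j' f) = 1 := by
      obtain ⟨f, hf⟩ := h''
      exact ⟨C.mapFun j f, by rw [mapFun_comp, hf]⟩
    have h : ∃ f : C.FunField L, (C.restrict j' w h').ord (C.mapFun j f) = 1 := by
      obtain ⟨f, hf⟩ := h''
      refine ⟨f, ?_⟩
      change w.ord (C.mapFun j' (C.mapFun j f)) = 1
      rw [mapFun_comp, hf]
    have e1 : C.push j' (C.push j D) w = C.push j D (C.restrict j' w h') := by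
      unfold Curve.push
      rw [dif_pos h']
    have e2 : C.push j D (C.restrict j' w h') = D (C.restrict j (C.restrict j' w h') h) := by
      unfold Curve.push
      rw [dif_pos h]
    have e3 : C.push (j'.comp j) D w = D (C.restrict (j'.comp j) w h'') := by
      unfold Curve.push
      rw [dif_pos h'']
    rw [e1, e2, e3]
    congr 1
    ext f
    change w.ord (C.mapFun j' (C.mapFun j f)) = w.ord (C.mapFun (j'.comp j) f)
    rw [mapFun_comp]
  · have e3 : C.push (j'.comp j) D w = 0 := by
      unfold Curve.push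
      rw [dif_neg h'']
    rw [e3]
    by_cases h' : ∃ f : C.FunField L', w.ord (C.mapFun j' f) = 1
    · have h : ¬ ∃ f : C.FunField L, (C.restrict j' w h').ord (C.mapFun j f) = 1 := by
        rintro ⟨f, hf⟩
        apply h''
        refine ⟨f, ?_⟩
        change w.ord (C.mapFun j' (C.mapFun j f)) = 1 at hf
        rw [mapFun_comp] at hf
        exact hf
      have e1 : C.push j' (C.push j D) w = C.push j D (C.restrict j' w h') := by
        unfold Curve.push
        rw [dif_pos h']
      have e2 : C.push j D (C.restrict j' w h') = 0 := by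
        unfold Curve.push
        rw [dif_neg h]
      rw [e1, e2]
    · unfold Curve.push
      rw [dif_neg h']

theorem degree_single (P : C.Pt L) : Curve.IsDivOfDegree (Curve.single P) 1 := by
  classical
  have hsupp : Function.support (Curve.single P : C.Pt L → ℤ) ⊆ (({P} : Finset (C.Pt L)) :
      Set (C.Pt L)) := by
    intro v hv
    rw [Function.mem_support] at hv
    unfold Curve.single at hv
    rw [Finset.coe_singleton, Set.mem_singleton_iff]
    by_contra h
    exact hv (if_neg h)
  refine ⟨(Finset.finite_toSet _).subset hsupp, ?_⟩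
  rw [finsum_eq_sum_of_support_subset _ hsupp, Finset.sum_singleton]
  unfold Curve.single
  rw [if_pos rfl]

theorem isPrin_zero : Curve.IsPrin (0 : C.Pt L → ℤ) := by
  refine ⟨1, one_ne_zero, fun v => ?_⟩
  have h : v.ord 1 = 0 := v.toDV.ord_one
  rw [h]
  rfl

variable {C}

theorem isPrin_smul {D : C.Pt L → ℤ} (k : ℤ) (h : Curve.IsPrin D) : Curve.IsPrin (k • D) := by
  obtain ⟨f, hf, hD⟩ := h
  have hpow : ∀ (v : C.Pt L) (t : C.FunField L) (n : ℕ), v.ord (t ^ n) = n * v.ord t :=
    fun v t n => v.toDV.ord_pow t n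
  have hinv : ∀ (v : C.Pt L) (t : C.FunField L), v.ord t⁻¹ = - v.ord t :=
    fun v t => v.toDV.ord_inv t
  refine ⟨f ^ k, zpow_ne_zero k hf, fun v => ?_⟩
  rw [Pi.smul_apply, smul_eq_mul, hD]
  cases k with
  | ofNat n =>
    rw [Int.ofNat_eq_natCast, zpow_natCast, hpow]
  | negSucc n =>
    rw [zpow_negSucc, hinv, hpow, Int.negSucc_eq]
    push_cast
    ring

end

theorem push_single (C : Curve) (K : Type) [Field K] [CharZero K]
    (P : C.Pt (AlgebraicClosure K)) (hP : Curve.IsRational K P)
    (σ : AlgebraicClosure K ≃ₐ[K] AlgebraicClosure K) :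
    C.push (σ : AlgebraicClosure K →+* AlgebraicClosure K) (Curve.single P) =
      Curve.single P := by
  have hsurj : ∀ f : C.FunField (AlgebraicClosure K), ∃ f',
      C.mapFun (σ : AlgebraicClosure K →+* AlgebraicClosure K) f' = f := by
    intro f
    refine ⟨C.mapFun (σ.symm : AlgebraicClosure K →+* AlgebraicClosure K) f, ?_⟩
    rw [mapFun_comp]
    have h : (σ : AlgebraicClosure K →+* AlgebraicClosure K).comp
        (σ.symm : AlgebraicClosure K →+* AlgebraicClosure K) = RingHom.id _ := by
      ext z
      exact σ.apply_symm_apply z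
    rw [h, mapFun_id]
  funext w
  have hex : ∃ f : C.FunField (AlgebraicClosure K),
      w.ord (C.mapFun (σ : AlgebraicClosure K →+* AlgebraicClosure K) f) = 1 := by
    obtain ⟨f, hf⟩ := w.exists_ord_one
    obtain ⟨f', rfl⟩ := hsurj f
    exact ⟨f', hf⟩
  have e1 : C.push (σ : AlgebraicClosure K →+* AlgebraicClosure K) (Curve.single P) w =
      Curve.single P (C.restrict (σ : AlgebraicClosure K →+* AlgebraicClosure K) w hex) := by
    unfold Curve.push
    rw [dif_pos hex]
  rw [e1]
  unfold Curve.single
  by_cases hw : w = P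
  · subst hw
    rw [if_pos rfl, if_pos]
    ext f
    exact hP σ f
  · rw [if_neg hw, if_neg]
    intro h
    apply hw
    ext f
    obtain ⟨f', rfl⟩ := hsurj f
    have h2 : (C.restrict (σ : AlgebraicClosure K →+* AlgebraicClosure K) w hex).ord f' =
        P.ord f' := by rw [h]
    rw [hP σ f']
    exact h2

end CritB

open SelM CritB

theorem pB_CRIT : T_CRIT := by
  intro C n N hcop D hD hinv hR hp
  have hbez : ∃ m k : ℤ, 1 - (n : ℤ) * m = k * N := by
    refine ⟨Int.gcdA n N, Int.gcdB n N, ?_⟩
    have h := Int.gcd_eq_gcd_ab (n : ℤ) (N : ℤ)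
    have h2 : (Int.gcd (n : ℤ) (N : ℤ) : ℤ) = 1 := by
      rw [Int.gcd_natCast_natCast]
      exact_mod_cast hcop
    rw [h2] at h
    linarith
  obtain ⟨m, k, hmk⟩ := hbez
  let X : C.Covering n :=
    { D := D
      hD := hD
      ξ := fun _ => 0
      hξ := fun _ => degree_zero
      cocycle := fun σ τ => by
        rw [push_zero]
        simpa using isPrin_zero C
      continuous := ⟨⊥, inferInstance, fun σ τ _ => by simpa using isPrin_zero C⟩
      compat := fun σ => by
        rw [hinv σ]
        simpa using isPrin_zero C }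
  have main : ∀ (K : Type) [Field K] [CharZero K], LocalGood C D N K → X.HasPointOver K := by
    intro K _ _ hK j
    obtain ⟨P, hP, hdeg, hprin⟩ := hK j
    refine ⟨P, hP, m • (Curve.single P + (-1 : ℤ) • C.push j D), ?_, ?_, ?_⟩
    · have h1 := degree_smul m (degree_add (degree_single C P) (degree_smul (-1) hdeg))
      have h2 : m * (1 + -1 * 1) = 0 := by ring
      rw [h2] at h1
      exact h1
    · have h1 := isPrin_smul k hprin
      have h2 : k • (N • (Curve.single P - C.push j D)) =
          Curve.single P - n • (m • (Curve.single P + (-1 : ℤ) • C.push j D)) -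
            C.push j X.D := by
        funext v
        change k * (N • (Curve.single P v - C.push j D v)) =
          Curve.single P v - n • (m * (Curve.single P v + (-1) * C.push j D v)) -
            C.push j D v
        rw [nsmul_eq_mul, nsmul_eq_mul]
        linear_combination (Curve.single P v - C.push j D v) * (-hmk)
      rw [← h2]
      exact h1
    · intro σ τ hστ
      have h1 : C.push j (X.ξ τ) = 0 := push_zero j
      have hc : (σ : AlgebraicClosure K →+* AlgebraicClosure K).comp j =
          j.comp (τ : Curve.Qbar →+* Curve.Qbar) := by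
        ext z
        exact (hστ z).symm
      have h2 : C.push (σ : AlgebraicClosure K →+* AlgebraicClosure K)
          (m • (Curve.single P + (-1 : ℤ) • C.push j D)) =
          m • (Curve.single P + (-1 : ℤ) • C.push j D) := by
        rw [push_smul, push_add, push_smul, push_single C K P hP σ, push_comp, hc,
          ← push_comp, hinv τ]
      rw [h1, h2]
      simpa using isPrin_zero C
  exact ⟨X, main ℝ hR, fun p _ => main ℚ_[p] (hp p)⟩

end Pool.Agent.FD
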