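import Pool.Agent.FD.Targets

/-!
# The degree of `Tdiv` and its behaviour under `push`
-/

open MvPolynomial

namespace Pool.Agent.FD

namespace DegPush

theorem map_g {ι : Type} [Fintype ι] [DecidableEq ι] (A : Arr ι) {K K' : Type} [Field K]
    [Field K'] (φ : K →+* K') (i : ι) (x y : K) :
    φ (A.g i x y) = A.g i (φ x) (φ y) := by
  unfold Arr.g
  rw [map_add]
  congr 1
  have h2 := Polynomial.map_aeval_eq_aeval_map (R := ℤ) (S := K)
    (T := ℤ) (U := K') (φ := RingHom.id ℤ) (ψ := φ)
    (Subsingleton.elim _ _) (A.h i) x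
  rw [Polynomial.map_id] at h2
  exact h2

theorem mapFun_g {ι : Type} [Fintype ι] [DecidableEq ι] (A : Arr ι) (C : Curve)
    {L L' : Type} [Field L] [CharZero L] [IsAlgClosed L] [Field L'] [CharZero L']
    [IsAlgClosed L'] (j : L →+* L') (i : ι) :
    C.mapFun j (A.g i (C.xF L) (C.yF L)) = A.g i (C.xF L') (C.yF L') := by
  have h := map_g A (C.mapFun j) i (C.xF L) (C.yF L)
  rw [C.mapFun_xF, C.mapFun_yF] at h
  exact h

theorem root_unique {C : Curve} {L : Type} [Field L] [CharZero L] [IsAlgClosed L]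
    (v : C.Pt L) (f : C.FunField L) {θ θ' : L}
    (h : 0 < v.ord (f - algebraMap L (C.FunField L) θ))
    (h' : 0 < v.ord (f - algebraMap L (C.FunField L) θ')) : θ = θ' := by
  by_contra hne
  have hb : v.toDV.ord (-(f - algebraMap L (C.FunField L) θ')) =
      v.ord (f - algebraMap L (C.FunField L) θ') := v.toDV.ord_neg _
  have ha0 : f - algebraMap L (C.FunField L) θ ≠ 0 := by
    intro h0
    rw [h0, v.ord_zero] at h
    exact lt_irrefl _ h
  have hb0 : -(f - algebraMap L (C.FunField L) θ') ≠ 0 := by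
    intro h0
    rw [neg_eq_zero] at h0
    rw [h0, v.ord_zero] at h'
    exact lt_irrefl _ h'
  have hsum : (f - algebraMap L (C.FunField L) θ) + -(f - algebraMap L (C.FunField L) θ') =
      algebraMap L (C.FunField L) (θ' - θ) := by
    rw [map_sub]
    ring
  have hs0 : (f - algebraMap L (C.FunField L) θ) + -(f - algebraMap L (C.FunField L) θ') ≠ 0 := by
    rw [hsum]
    intro h0
    rw [map_eq_zero_iff _ (algebraMap L (C.FunField L)).injective, sub_eq_zero] at h0
    exact hne h0.symm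
  have h1 := v.ord_add _ _ ha0 hb0 hs0
  rw [hsum, v.ord_const] at h1
  have h2 : 0 < min (v.ord (f - algebraMap L (C.FunField L) θ))
      (v.ord (-(f - algebraMap L (C.FunField L) θ'))) := by
    refine lt_min h ?_
    have : v.ord (-(f - algebraMap L (C.FunField L) θ')) =
      v.ord (f - algebraMap L (C.FunField L) θ') := hb
    rw [this]
    exact h'
  omega

theorem root_of_dvd {L : Type} [Field L] {p q : Polynomial ℤ} (h : q ∣ p) {θ : L}
    (hθ : Polynomial.aeval θ q = 0) : Polynomial.aeval θ p = 0 := by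
  obtain ⟨r, rfl⟩ := h
  rw [map_mul, hθ, zero_mul]

theorem card_roots {L : Type} [Field L] [CharZero L] [IsAlgClosed L] {q : Polynomial ℤ}
    (hq : (q.map (Int.castRingHom ℚ)).Separable) :
    ∃ s : Finset L, (∀ θ, θ ∈ s ↔ Polynomial.aeval θ q = 0) ∧ s.card = q.natDegree := by
  classical
  have h1 : (q.map (algebraMap ℤ L)).Separable := by
    have h2 : (q.map (Int.castRingHom ℚ)).map (Rat.castHom L) = q.map (algebraMap ℤ L) := by
      rw [Polynomial.map_map]
      congr 1
      exact Subsingleton.elim _ _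
    rw [← h2]
    exact hq.map
  have h0 : q.map (algebraMap ℤ L) ≠ 0 := h1.ne_zero
  refine ⟨(q.map (algebraMap ℤ L)).roots.toFinset, ?_, ?_⟩
  · intro θ
    rw [Multiset.mem_toFinset, Polynomial.mem_roots h0, Polynomial.IsRoot.def,
      Polynomial.eval_map_algebraMap]
  · rw [Multiset.toFinset_card_of_nodup (Polynomial.nodup_roots h1)]
    have h3 := (Polynomial.splits_iff_card_roots (f := q.map (algebraMap ℤ L))).1
      (IsAlgClosed.splits _)
    rw [h3]
    exact Polynomial.natDegree_map_eq_of_injective (RingHom.injective_int _) _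

end DegPush

open DegPush

theorem p_DEG (h2 : T_TPL) : T_DEG := by
  classical
  intro ι _ _ A C hC L _ _ _ i q hq
  have hsep : (q.map (Int.castRingHom ℚ)).Separable :=
    (A.sep i).of_dvd (Polynomial.map_dvd _ hq)
  obtain ⟨s, hs, hcard⟩ := card_roots (L := L) hsep
  choose V hV1 hV2 hV3 using fun θ : {θ // θ ∈ s} =>
    h2 ι A C hC L i θ.1 (root_of_dvd hq ((hs θ.1).1 θ.2))
  have hinj : Function.Injective V := by
    intro a b hab
    have h1 := hV2 a
    have h3 := hV2 b
    rw [← hab] at h3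
    exact Subtype.ext (root_unique (V a) _ h1 h3)
  have hone : ∀ θ, Tdiv A C L i q (V θ) = 1 := by
    intro θ
    unfold Tdiv
    rw [if_pos]
    refine ⟨?_, θ.1, (hs θ.1).1 θ.2, hV2 θ⟩
    rw [hV1]
    norm_num
  have hsupp : Function.support (Tdiv A C L i q) ⊆
      ((Finset.univ.image V : Finset (C.Pt L)) : Set (C.Pt L)) := by
    intro v hv
    rw [Function.mem_support] at hv
    unfold Tdiv at hv
    rw [ne_eq, ite_eq_right_iff, Classical.not_imp] at hv
    obtain ⟨⟨hv1, θ, hθ, hv2⟩, -⟩ := hv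
    have h3 := hV3 ⟨θ, (hs θ).2 hθ⟩ v hv1 hv2
    rw [h3, Finset.coe_image]
    exact ⟨_, Finset.mem_coe.2 (Finset.mem_univ _), rfl⟩
  refine ⟨(Finset.finite_toSet _).subset hsupp, ?_⟩
  rw [finsum_eq_sum_of_support_subset _ hsupp, Finset.sum_image (fun a _ b _ hab => hinj hab)]
  simp only [hone]
  rw [Finset.sum_const, Finset.card_univ, Fintype.card_coe, hcard]
  simp

theorem p_PUSH (h2 : T_TPL) : T_PUSH := by
  classical
  intro ι _ _ A C hC L L' _ _ _ _ _ _ j i q hq
  have hsep : (q.map (Int.castRingHom ℚ)).Separable :=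
    (A.sep i).of_dvd (Polynomial.map_dvd _ hq)
  have hroot : ∀ θ : L, Polynomial.aeval θ q = 0 → Polynomial.aeval (j θ) q = 0 := by
    intro θ hθ
    have h3 := Polynomial.map_aeval_eq_aeval_map (R := ℤ) (S := L)
      (T := ℤ) (U := L') (φ := RingHom.id ℤ) (ψ := j) (Subsingleton.elim _ _) q θ
    rw [Polynomial.map_id, hθ, map_zero] at h3
    exact h3.symm
  have hall : ∀ θ' : L', Polynomial.aeval θ' q = 0 →
      ∃ θ : L, Polynomial.aeval θ q = 0 ∧ j θ = θ' := by
    intro θ' hθ'
    obtain ⟨s, hs, hcard⟩ := card_roots (L := L) hsep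
    obtain ⟨s', hs', hcard'⟩ := card_roots (L := L') hsep
    have hsub : s.image j ⊆ s' := by
      intro z hz
      obtain ⟨θ, hθ, rfl⟩ := Finset.mem_image.1 hz
      exact (hs' _).2 (hroot θ ((hs θ).1 hθ))
    have heq : s.image j = s' := by
      refine Finset.eq_of_subset_of_card_le hsub ?_
      rw [Finset.card_image_of_injective _ j.injective, hcard, hcard']
    have hmem : θ' ∈ s.image j := by
      rw [heq]
      exact (hs' θ').2 hθ'
    obtain ⟨θ, hθ, h4⟩ := Finset.mem_image.1 hmem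
    exact ⟨θ, (hs θ).1 hθ, h4⟩
  funext w
  unfold Curve.push
  split_ifs with h
  · have hx : (C.restrict j w h).ord (C.xF L) = w.ord (C.xF L') := by
      change w.ord (C.mapFun j (C.xF L)) = _
      rw [C.mapFun_xF]
    have hg : ∀ θ : L, (C.restrict j w h).ord
        (A.g i (C.xF L) (C.yF L) - algebraMap L (C.FunField L) θ) =
        w.ord (A.g i (C.xF L') (C.yF L') - algebraMap L' (C.FunField L') (j θ)) := by
      intro θ
      change w.ord (C.mapFun j _) = _
      rw [map_sub, mapFun_g, C.mapFun_const]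
    unfold Tdiv
    rw [hx]
    congr 1
    refine propext (and_congr_right fun _ => ?_)
    constructor
    · rintro ⟨θ, hθ, h5⟩
      refine ⟨j θ, hroot θ hθ, ?_⟩
      rw [← hg]
      exact h5
    · rintro ⟨θ', hθ', h5⟩
      obtain ⟨θ, hθ, rfl⟩ := hall θ' hθ'
      refine ⟨θ, hθ, ?_⟩
      rw [hg]
      exact h5
  · unfold Tdiv
    rw [if_neg]
    rintro ⟨h3, θ', hθ', h5⟩
    obtain ⟨v, hv1, hv2, hv3⟩ := h2 ι A C hC L' i θ' (root_of_dvd hq hθ')
    have h6 := hv3 w h3 h5
    rw [← h6] at hv1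
    refine h ⟨(C.xF L)⁻¹, ?_⟩
    rw [map_inv₀, C.mapFun_xF]
    have h7 : w.ord (C.xF L')⁻¹ = -w.ord (C.xF L') := w.toDV.ord_inv _
    rw [h7, hv1]
    norm_num

end Pool.Agent.FD
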