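import Pool.Agent.FD.Targets

set_option autoImplicit false

/-!
# The polynomial `f0`
-/

open Polynomial

namespace Pool.Agent.FD

namespace F0_

/-- successive choice of good primes -/
lemma exists_seq (n : ℕ) : ∃ P : Fin n → ℕ, Function.Injective P ∧ (∀ k, (P k).Prime) ∧
    (∀ k, P k % 8 = 1) ∧ ∀ k l, k ≠ l → IsSquare ((P l : ℕ) : ZMod (P k)) := by
  induction n with
  | zero => exact ⟨fun i => i.elim0, fun i => i.elim0, fun i => i.elim0, fun i => i.elim0,
      fun i => i.elim0⟩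
  | succ n ih =>
    obtain ⟨P, hinj, hpr, h8, hsq⟩ := ih
    set M : ℕ := 8 * ∏ k, P k with hM
    have hM0 : M ≠ 0 := by
      rw [hM]
      exact mul_ne_zero (by norm_num) (Finset.prod_ne_zero_iff.mpr fun k _ => (hpr k).ne_zero)
    have : NeZero M := ⟨hM0⟩
    obtain ⟨p, hp, hpp, hpM⟩ := Nat.forall_exists_prime_gt_and_eq_mod (q := M) (a := 1)
      isUnit_one M
    have hmod : ∀ q : ℕ, q ∣ M → p ≡ 1 [MOD q] := by
      intro q hq
      have h1 : p ≡ 1 [MOD M] := by
        rw [← ZMod.natCast_eq_natCast_iff]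
        simpa using hpM
      exact h1.of_dvd hq
    have hdvd : ∀ k, P k ∣ M := fun k =>
      Dvd.dvd.mul_left (Finset.dvd_prod_of_mem P (Finset.mem_univ k)) 8
    have hlt : ∀ k, P k < p := fun k => lt_of_le_of_lt (Nat.le_of_dvd (Nat.pos_of_ne_zero hM0)
      (hdvd k)) hp
    have hp8 : p % 8 = 1 := by
      have := hmod 8 (Dvd.intro _ rfl)
      simpa [Nat.ModEq] using this
    have : Fact p.Prime := ⟨hpp⟩
    have hodd : ∀ k, P k ≠ 2 := by
      intro k h
      have := h8 k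
      rw [h] at this
      norm_num at this
    have hsq1 : ∀ k, IsSquare ((p : ℕ) : ZMod (P k)) := by
      intro k
      have : ((p : ℕ) : ZMod (P k)) = ((1 : ℕ) : ZMod (P k)) :=
        (ZMod.natCast_eq_natCast_iff _ _ _).mpr (hmod _ (hdvd k))
      rw [this]
      simp
    have hsq2 : ∀ k, IsSquare ((P k : ℕ) : ZMod p) := by
      intro k
      have : Fact (P k).Prime := ⟨hpr k⟩
      exact (ZMod.exists_sq_eq_prime_iff_of_mod_four_eq_one (by omega) (hodd k)).mpr (hsq1 k)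
    refine ⟨Fin.snoc P p, ?_, ?_, ?_, ?_⟩
    · intro a b
      refine Fin.lastCases ?_ (fun a => ?_) a
      · refine Fin.lastCases ?_ (fun b => ?_) b
        · intro _; rfl
        · intro h
          simp only [Fin.snoc_last, Fin.snoc_castSucc] at h
          exact absurd h (hlt b).ne'
      · refine Fin.lastCases ?_ (fun b => ?_) b
        · intro h
          simp only [Fin.snoc_last, Fin.snoc_castSucc] at h
          exact absurd h (hlt a).ne
        · intro h
          simp only [Fin.snoc_castSucc] at h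
          rw [hinj h]
    · intro a
      refine Fin.lastCases ?_ (fun a => ?_) a
      · simpa using hpp
      · simpa using hpr a
    · intro a
      refine Fin.lastCases ?_ (fun a => ?_) a
      · simpa using hp8
      · simpa using h8 a
    · have hk : ∀ (q q' r r' : ℕ), q = q' → r = r' → IsSquare ((r : ℕ) : ZMod q) →
          IsSquare ((r' : ℕ) : ZMod q') := by
        rintro _ _ _ _ rfl rfl h
        exact h
      have e1 : p = (Fin.snoc P p : Fin (n + 1) → ℕ) (Fin.last n) := by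
        rw [Fin.snoc_last (α := fun _ => ℕ)]
      have e2 : ∀ k : Fin n, P k = (Fin.snoc P p : Fin (n + 1) → ℕ) k.castSucc := by
        intro k
        rw [Fin.snoc_castSucc (α := fun _ => ℕ)]
      intro a b
      refine Fin.lastCases ?_ (fun a => ?_) a
      · refine Fin.lastCases ?_ (fun b => ?_) b
        · intro h; exact absurd rfl h
        · intro _
          exact hk _ _ _ _ e1 (e2 b) (hsq2 b)
      · refine Fin.lastCases ?_ (fun b => ?_) b
        · intro _
          exact hk _ _ _ _ (e2 a) e1 (hsq1 a)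
        · intro h
          exact hk _ _ _ _ (e2 a) (e2 b) (hsq a b (fun h' => h (by rw [h'])))

end F0_

theorem p_P : T_P := by
  intro m hm h2
  obtain ⟨P, h⟩ := F0_.exists_seq m
  exact ⟨P, h.1, h.2.1, h.2.2.1, h.2.2.2, hm, h2⟩

namespace F0_

/-- squares in `ℤ_p`, `p` odd -/
lemma exists_sqrt_odd (p : ℕ) [Fact p.Prime] (hp : p ≠ 2) (d : ℤ)
    (hd : IsSquare ((d : ℤ) : ZMod p)) (h0 : ((d : ℤ) : ZMod p) ≠ 0) :
    ∃ x : ℚ_[p], x ^ 2 = (d : ℚ_[p]) := by
  obtain ⟨r, hr⟩ := hd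
  obtain ⟨a, rfl⟩ := ZMod.intCast_surjective r
  have hdvd : (p : ℤ) ∣ a ^ 2 - d := by
    rw [← ZMod.intCast_zmod_eq_zero_iff_dvd]
    push_cast
    rw [hr]
    ring
  have ha : ¬ (p : ℤ) ∣ 2 * a := by
    intro h
    have hpp : Prime (p : ℤ) := Nat.prime_iff_prime_int.mp (Fact.out : p.Prime)
    rcases hpp.dvd_or_dvd h with h | h
    · have h1 : p ∣ 2 := by exact_mod_cast h
      exact hp ((Nat.prime_dvd_prime_iff_eq (Fact.out : p.Prime) Nat.prime_two).mp h1)
    · apply h0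
      rw [hr, (ZMod.intCast_zmod_eq_zero_iff_dvd a p).mpr h]
      simp
  have hn1 : ‖((a ^ 2 - d : ℤ) : ℤ_[p])‖ < 1 := by
    rw [PadicInt.norm_int_lt_one_iff_dvd]
    exact hdvd
  have hn2 : ‖((2 * a : ℤ) : ℤ_[p])‖ = 1 := by
    have h1 := PadicInt.norm_le_one ((2 * a : ℤ) : ℤ_[p])
    have h2 : ¬ ‖((2 * a : ℤ) : ℤ_[p])‖ < 1 := by
      rw [PadicInt.norm_int_lt_one_iff_dvd]
      exact ha
    exact le_antisymm h1 (not_lt.mp h2)
  have hH : ‖Polynomial.aeval ((a : ℤ) : ℤ_[p]) (X ^ 2 - C ((d : ℤ) : ℤ_[p]) : ℤ_[p][X])‖ <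
      ‖Polynomial.aeval ((a : ℤ) : ℤ_[p]) (derivative (X ^ 2 - C ((d : ℤ) : ℤ_[p]) : ℤ_[p][X]))‖ ^ 2 := by
    have e1 : Polynomial.aeval ((a : ℤ) : ℤ_[p]) (X ^ 2 - C ((d : ℤ) : ℤ_[p]) : ℤ_[p][X]) =
        ((a ^ 2 - d : ℤ) : ℤ_[p]) := by
      simp
    have e2 : Polynomial.aeval ((a : ℤ) : ℤ_[p])
        (derivative (X ^ 2 - C ((d : ℤ) : ℤ_[p]) : ℤ_[p][X])) = ((2 * a : ℤ) : ℤ_[p]) := by
      simp [one_add_one_eq_two]
    rw [e1, e2, hn2]
    simpa using hn1
  obtain ⟨z, hz, _⟩ := hensels_lemma hH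
  refine ⟨(z : ℚ_[p]), ?_⟩
  have h1 : z ^ 2 = ((d : ℤ) : ℤ_[p]) := by
    have : z ^ 2 - ((d : ℤ) : ℤ_[p]) = 0 := by simpa using hz
    exact sub_eq_zero.mp this
  have h2 := congrArg (fun x : ℤ_[p] => (x : ℚ_[p])) h1
  simpa using h2

/-- squares in `ℤ_2` -/
lemma exists_sqrt_two (d : ℤ) (hd : (8 : ℤ) ∣ 1 - d) : ∃ x : ℚ_[2], x ^ 2 = (d : ℚ_[2]) := by
  have hn1 : ‖((1 - d : ℤ) : ℤ_[2])‖ ≤ (2 : ℝ) ^ (-(3 : ℕ) : ℤ) := by
    have := (PadicInt.norm_int_le_pow_iff_dvd (p := 2) (k := 1 - d) (n := 3)).mpr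
      (by norm_num; exact hd)
    exact_mod_cast this
  have hn2 : ‖((2 : ℤ) : ℤ_[2])‖ = (2 : ℝ)⁻¹ := by
    have := PadicInt.norm_p (p := 2)
    exact_mod_cast this
  have hH : ‖Polynomial.aeval (1 : ℤ_[2]) (X ^ 2 - C ((d : ℤ) : ℤ_[2]) : ℤ_[2][X])‖ <
      ‖Polynomial.aeval (1 : ℤ_[2]) (derivative (X ^ 2 - C ((d : ℤ) : ℤ_[2]) : ℤ_[2][X]))‖ ^ 2 := by
    have e1 : Polynomial.aeval (1 : ℤ_[2]) (X ^ 2 - C ((d : ℤ) : ℤ_[2]) : ℤ_[2][X]) =
        ((1 - d : ℤ) : ℤ_[2]) := by
      simp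
    have e2 : Polynomial.aeval (1 : ℤ_[2])
        (derivative (X ^ 2 - C ((d : ℤ) : ℤ_[2]) : ℤ_[2][X])) = ((2 : ℤ) : ℤ_[2]) := by
      simp [one_add_one_eq_two]
    rw [e1, e2, hn2]
    refine lt_of_le_of_lt hn1 ?_
    norm_num
  obtain ⟨z, hz, _⟩ := hensels_lemma hH
  refine ⟨(z : ℚ_[2]), ?_⟩
  have h1 : z ^ 2 = ((d : ℤ) : ℤ_[2]) := by
    have : z ^ 2 - ((d : ℤ) : ℤ_[2]) = 0 := by simpa using hz
    exact sub_eq_zero.mp this
  have h2 := congrArg (fun x : ℤ_[2] => (x : ℚ_[2])) h1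
  simpa using h2

/-- a root of one factor is a root of `f0` -/
lemma root_of {m : ℕ} (P : Fin m → ℕ) {K : Type} [Field K] (x : K) (k : Option (Fin m))
    (h : x ^ 2 = ((dd P k : ℤ) : K)) : Polynomial.aeval x (f0 P) = 0 := by
  unfold f0
  rw [map_prod]
  refine Finset.prod_eq_zero (Finset.mem_univ k) ?_
  simp [h]

/-- some `d_k` is a nonzero square modulo `p` -/
lemma exists_sq {m : ℕ} (P : Fin m → ℕ) (hP : GoodP P) (p : ℕ) [Fact p.Prime] (hp : p ≠ 2) :
    ∃ k : Option (Fin m), IsSquare ((dd P k : ℤ) : ZMod p) ∧ ((dd P k : ℤ) : ZMod p) ≠ 0 := by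
  by_cases h1 : ∃ k, P k = p
  · obtain ⟨k, rfl⟩ := h1
    obtain ⟨l, hl⟩ : ∃ l : Fin m, l ≠ k := by
      have := hP.two_le
      by_cases hk : k.val = 0
      · exact ⟨⟨1, by omega⟩, fun h => by
          have := congrArg Fin.val h
          simp only at this
          omega⟩
      · exact ⟨⟨0, by omega⟩, fun h => by
          have := congrArg Fin.val h
          simp only at this
          omega⟩
    refine ⟨some l, ?_, ?_⟩
    · have := hP.sq k l hl.symm
      simpa [dd] using this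
    · simp only [dd]
      intro h
      rw [Int.cast_natCast, ZMod.natCast_eq_zero_iff] at h
      have := (Nat.prime_dvd_prime_iff_eq (hP.prime k) (hP.prime l)).mp h
      exact hl (hP.inj this).symm
  · push Not at h1
    have h0 : ∀ k, ((P k : ℕ) : ZMod p) ≠ 0 := by
      intro k h
      rw [ZMod.natCast_eq_zero_iff] at h
      exact h1 k ((Nat.prime_dvd_prime_iff_eq Fact.out (hP.prime k)).mp h).symm
    by_cases h2 : ∃ k, IsSquare ((P k : ℕ) : ZMod p)
    · obtain ⟨k, hk⟩ := h2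
      refine ⟨some k, by simpa [dd] using hk, by simpa [dd] using h0 k⟩
    · push Not at h2
      have hc : ringChar (ZMod p) ≠ 2 := by rwa [ZMod.ringChar_zmod_n]
      refine ⟨none, ?_, ?_⟩
      · have h3 : ((dd P none : ℤ) : ZMod p) ≠ 0 := by
          simp only [dd]
          push_cast
          exact Finset.prod_ne_zero_iff.mpr fun k _ => h0 k
        rw [← quadraticChar_one_iff_isSquare h3]
        simp only [dd]
        push_cast
        rw [map_prod]
        have h4 : ∀ k, quadraticChar (ZMod p) ((P k : ℕ) : ZMod p) = -1 := fun k =>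
          (quadraticChar_neg_one_iff_not_isSquare).mpr (h2 k)
        simp only [h4, Finset.prod_const, Finset.card_univ, Fintype.card_fin]
        exact hP.even.neg_one_pow
      · simp only [dd]
        push_cast
        exact Finset.prod_ne_zero_iff.mpr fun k _ => h0 k

end F0_

theorem p_LOC : T_LOC := by
  intro m P hP
  have hm : 0 < m := lt_of_lt_of_le (by norm_num) hP.two_le
  refine ⟨⟨√((P ⟨0, hm⟩ : ℕ) : ℝ), F0_.root_of P _ (some ⟨0, hm⟩) ?_⟩, ?_⟩
  · rw [Real.sq_sqrt (Nat.cast_nonneg _)]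
    simp [dd]
  · intro p hp
    by_cases h2 : p = 2
    · subst h2
      obtain ⟨x, hx⟩ := F0_.exists_sqrt_two (dd P (some ⟨0, hm⟩)) (by
        have := hP.mod8 ⟨0, hm⟩
        simp only [dd]
        omega)
      exact ⟨x, F0_.root_of P x _ hx⟩
    · obtain ⟨k, hk, hk0⟩ := F0_.exists_sq P hP p h2
      obtain ⟨x, hx⟩ := F0_.exists_sqrt_odd p h2 _ hk hk0
      exact ⟨x, F0_.root_of P x _ hx⟩

namespace F0_

lemma prod_gt {m : ℕ} (P : Fin m → ℕ) (hP : GoodP P) (k : Fin m) : P k < ∏ l, P l := by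
  have hm := hP.two_le
  rw [← Finset.mul_prod_erase Finset.univ P (Finset.mem_univ k)]
  obtain ⟨l, hl⟩ : ∃ l : Fin m, l ≠ k := by
    by_cases hk : k.val = 0
    · exact ⟨⟨1, by omega⟩, fun h => by
        have := congrArg Fin.val h
        simp only at this
        omega⟩
    · exact ⟨⟨0, by omega⟩, fun h => by
        have := congrArg Fin.val h
        simp only at this
        omega⟩
  have h1 : P l ∣ ∏ x ∈ Finset.univ.erase k, P x :=
    Finset.dvd_prod_of_mem P (Finset.mem_erase.mpr ⟨hl, Finset.mem_univ l⟩)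
  have h2 : 0 < ∏ x ∈ Finset.univ.erase k, P x :=
    Finset.prod_pos fun x _ => (hP.prime x).pos
  have h3 := Nat.le_of_dvd h2 h1
  have h4 := (hP.prime l).two_le
  have h5 := (hP.prime k).pos
  nlinarith

lemma dd_inj {m : ℕ} (P : Fin m → ℕ) (hP : GoodP P) : Function.Injective (dd P) := by
  intro a b h
  rcases a with _ | a <;> rcases b with _ | b
  · rfl
  · simp only [dd] at h
    have h1 : ∏ l, P l = P b := by exact_mod_cast h
    exact absurd h1 (prod_gt P hP b).ne'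
  · simp only [dd] at h
    have h1 : P a = ∏ l, P l := by exact_mod_cast h
    exact absurd h1 (prod_gt P hP a).ne
  · simp only [dd] at h
    have h1 : P a = P b := by exact_mod_cast h
    rw [hP.inj h1]

lemma dd_ne_zero {m : ℕ} (P : Fin m → ℕ) (hP : GoodP P) (k : Option (Fin m)) : dd P k ≠ 0 := by
  rcases k with _ | k
  · simp only [dd]
    exact Finset.prod_ne_zero_iff.mpr fun k _ => by exact_mod_cast (hP.prime k).ne_zero
  · simp only [dd]
    exact_mod_cast (hP.prime k).ne_zero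

lemma dd_not_sq {m : ℕ} (P : Fin m → ℕ) (hP : GoodP P) (k : Option (Fin m)) :
    ¬ IsSquare (dd P k) := by
  have hm : 0 < m := lt_of_lt_of_le (by norm_num) hP.two_le
  rcases k with _ | k
  · simp only [dd]
    have e : (∏ k, (P k : ℤ)) = ((∏ k, P k : ℕ) : ℤ) := by push_cast; rfl
    rw [e, Int.isSquare_natCast_iff]
    rintro ⟨r, hr⟩
    set a : Fin m := ⟨0, hm⟩
    have hpa := hP.prime a
    have h1 : P a ∣ r * r := hr ▸ Finset.dvd_prod_of_mem P (Finset.mem_univ a)
    have h2 : P a ∣ r := by rcases (hpa.dvd_mul).mp h1 with h | h <;> exact h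
    obtain ⟨s, rfl⟩ := h2
    rw [← Finset.mul_prod_erase Finset.univ P (Finset.mem_univ a)] at hr
    have h3 : ∏ x ∈ Finset.univ.erase a, P x = P a * (s * s) := by
      apply Nat.eq_of_mul_eq_mul_left hpa.pos
      rw [hr]
      ring
    have h4 : P a ∣ ∏ x ∈ Finset.univ.erase a, P x := ⟨_, h3⟩
    rw [(Nat.prime_iff.mp hpa).dvd_finsetProd_iff] at h4
    obtain ⟨x, hx, hx2⟩ := h4
    have h5 := (Nat.prime_dvd_prime_iff_eq hpa (hP.prime x)).mp hx2
    exact (Finset.mem_erase.mp hx).1 (hP.inj h5).symm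
  · simp only [dd]
    rw [Int.isSquare_natCast_iff]
    exact Irreducible.not_isSquare (hP.prime k)

end F0_

theorem p_F0 : T_F0 := by
  intro m P hP
  have hmon : ∀ k : Option (Fin m), (X ^ 2 - C (dd P k) : ℤ[X]).Monic := fun k =>
    monic_X_pow_sub_C _ two_ne_zero
  refine ⟨monic_prod_of_monic _ _ fun k _ => hmon k, ?_, ?_, ?_, ?_⟩
  · unfold f0
    rw [natDegree_prod_of_monic _ _ fun k _ => hmon k]
    simp only [natDegree_X_pow_sub_C, Finset.sum_const, Finset.card_univ, Fintype.card_option,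
      Fintype.card_fin, smul_eq_mul]
    ring
  · unfold f0
    rw [Polynomial.map_prod]
    apply separable_prod'
    · intro a _ b _ hab
      have hne : ((dd P a : ℤ) : ℚ) - ((dd P b : ℤ) : ℚ) ≠ 0 := by
        rw [sub_ne_zero]
        intro h
        exact hab (F0_.dd_inj P hP (by exact_mod_cast h))
      refine ⟨-C (((dd P a : ℤ) : ℚ) - ((dd P b : ℤ) : ℚ))⁻¹,
        C (((dd P a : ℤ) : ℚ) - ((dd P b : ℤ) : ℚ))⁻¹, ?_⟩
      simp only [Polynomial.map_sub, Polynomial.map_pow, map_X, eq_intCast]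
      have h1 : -C (((dd P a : ℤ) : ℚ) - ((dd P b : ℤ) : ℚ))⁻¹ * (X ^ 2 - C ((dd P a : ℤ) : ℚ)) +
          C (((dd P a : ℤ) : ℚ) - ((dd P b : ℤ) : ℚ))⁻¹ * (X ^ 2 - C ((dd P b : ℤ) : ℚ)) =
          C (((dd P a : ℤ) : ℚ) - ((dd P b : ℤ) : ℚ))⁻¹ *
            C (((dd P a : ℤ) : ℚ) - ((dd P b : ℤ) : ℚ)) := by
        rw [C_sub]
        ring
      have h2 : C (((dd P a : ℤ) : ℚ) - ((dd P b : ℤ) : ℚ))⁻¹ *
            C (((dd P a : ℤ) : ℚ) - ((dd P b : ℤ) : ℚ)) = 1 := by
        rw [← C_mul, inv_mul_cancel₀ hne, C_1]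
      simpa using h1.trans h2
    · intro a _
      simp only [Polynomial.map_sub, Polynomial.map_pow, map_X, map_C]
      apply separable_X_pow_sub_C
      · norm_num
      · simpa using F0_.dd_ne_zero P hP a
  · rintro ⟨θ, hθ⟩
    unfold f0 at hθ
    rw [map_prod, Finset.prod_eq_zero_iff] at hθ
    obtain ⟨k, _, hk⟩ := hθ
    apply F0_.dd_not_sq P hP k
    rw [← Rat.isSquare_intCast_iff]
    refine ⟨θ, ?_⟩
    simp only [map_sub, map_pow, aeval_X, aeval_C] at hk
    have := sub_eq_zero.mp hk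
    rw [← sq, this]
    simp
  · unfold Gam Del
    apply pow_ne_zero
    rw [Finset.prod_ne_zero_iff]
    intro a _
    rw [Finset.prod_ne_zero_iff]
    intro b _
    split_ifs with h
    · exact one_ne_zero
    · rw [Int.natAbs_ne_zero, sub_ne_zero]
      exact fun h' => h (F0_.dd_inj P hP h')

end Pool.Agent.FD
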