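import Pool.Agent.FD.Targets

/-!
# FD-NUM: the exponents and the orders
-/

open Polynomial

namespace Pool.Agent.FD

namespace Num_

lemma eW_lt {R W : ℕ} (i : Fin (R + 1)) (h : i.val ≠ R) : eW R W i = i.val * W := by
  rw [eW, if_neg h]

lemma eW_last {R W : ℕ} (i : Fin (R + 1)) (h : i.val = R) : eW R W i = R * W + 1 := by
  rw [eW, if_pos h]

lemma eW_pos {R W : ℕ} (hW : 1 ≤ W) (i : Fin (R + 1)) (h : i.val ≠ 0) : 0 < eW R W i := by
  by_cases hi : i.val = R
  · rw [eW_last i hi]
    omega
  · rw [eW_lt i hi]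
    exact Nat.mul_pos (Nat.pos_of_ne_zero h) hW

lemma eW_ne_aux {R W : ℕ} (hW : 1 ≤ W) (i j : Fin (R + 1)) (h : i.val < j.val) :
    eW R W i < eW R W j := by
  have hj := j.isLt
  have hi : i.val ≠ R := by omega
  rw [eW_lt i hi]
  by_cases hj' : j.val = R
  · rw [eW_last j hj']
    have : i.val * W ≤ R * W := Nat.mul_le_mul_right _ (by omega)
    omega
  · rw [eW_lt j hj']
    exact Nat.mul_lt_mul_of_pos_right h hW

lemma lead_sub (a b : ℕ) (h : b < a) :
    ((X : ℤ[X]) ^ a - X ^ b).natDegree = a ∧ ((X : ℤ[X]) ^ a - X ^ b).leadingCoeff = 1 := by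
  have h1 : ((X : ℤ[X]) ^ b).natDegree < ((X : ℤ[X]) ^ a).natDegree := by
    rw [natDegree_X_pow, natDegree_X_pow]
    exact h
  constructor
  · rw [natDegree_sub_eq_left_of_natDegree_lt h1, natDegree_X_pow]
  · rw [leadingCoeff_sub_of_degree_lt (degree_lt_degree h1), leadingCoeff_X_pow]

lemma H_aux {R W : ℕ} (_hR : 1 ≤ R) (hW' : 1 ≤ W) (i j : Fin (R + 1)) (h : i.val < j.val) :
    ((hW R W j - hW R W i).natDegree = eW R W j ∧ (hW R W j - hW R W i).leadingCoeff = 1) ∧
    max (eW R W i) (eW R W j) = eW R W j ∧ 0 < eW R W j := by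
  have hj0 : j.val ≠ 0 := by omega
  have hlt := eW_ne_aux (R := R) hW' i j h
  refine ⟨?_, max_eq_right hlt.le, eW_pos hW' j hj0⟩
  rw [hW, hW, if_neg hj0]
  by_cases hi0 : i.val = 0
  · rw [if_pos hi0, sub_zero]
    exact ⟨natDegree_X_pow _, leadingCoeff_X_pow _⟩
  · rw [if_neg hi0]
    exact lead_sub _ _ hlt

end Num_

open Num_ in
theorem p_H : T_H := by
  intro R W hR hW' i j hij
  have hne : i.val ≠ j.val := fun h => hij (Fin.ext h)
  rcases lt_or_gt_of_ne hne with h | h
  · obtain ⟨⟨h1, h2⟩, h3, h4⟩ := H_aux hR hW' i j h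
    have hneg : hW R W i - hW R W j = -(hW R W j - hW R W i) := by ring
    rw [hneg, leadingCoeff_neg, natDegree_neg, h1, h2, h3]
    exact ⟨isUnit_one.neg, rfl, h4⟩
  · obtain ⟨⟨h1, h2⟩, h3, h4⟩ := H_aux hR hW' j i h
    rw [h1, h2, max_comm, h3]
    exact ⟨isUnit_one, rfl, h4⟩

namespace Num_

/-- `∑_k max(i, k)` -/
def sm (R : ℕ) (i : ℕ) : ℕ := ∑ k : Fin R, max i k.val

lemma NW_eq (R W μ : ℕ) (i : Fin R) :
    NW R W μ i.castSucc + μ * W * i.val = μ * W * sm R i.val + (W + 1) * (R * W + 1) := by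
  have hi := i.isLt
  have hiv : (i.castSucc).val = i.val := rfl
  have h1 := Finset.add_sum_erase (Finset.univ : Finset (Fin (R + 1)))
    (fun j => mW R W μ j * max (eW R W i.castSucc) (eW R W j)) (Finset.mem_univ i.castSucc)
  have h2 : mW R W μ i.castSucc * max (eW R W i.castSucc) (eW R W i.castSucc) =
      μ * W * i.val := by
    rw [max_self, mW, hiv, if_neg (by omega), eW_lt _ (by rw [hiv]; omega), hiv]
    ring
  rw [h2, Fin.sum_univ_castSucc] at h1
  have h3 : ∀ k : Fin R, mW R W μ k.castSucc * max (eW R W i.castSucc) (eW R W k.castSucc) =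
      μ * W * max i.val k.val := by
    intro k
    have hk := k.isLt
    have hkv : (k.castSucc).val = k.val := rfl
    rw [mW, hkv, if_neg (by omega), eW_lt _ (by rw [hiv]; omega), hiv,
      eW_lt _ (by rw [hkv]; omega), hkv]
    rcases le_total i.val k.val with h | h
    · rw [max_eq_right h, max_eq_right (Nat.mul_le_mul_right _ h)]
      ring
    · rw [max_eq_left h, max_eq_left (Nat.mul_le_mul_right _ h)]
      ring
  have h4 : mW R W μ (Fin.last R) * max (eW R W i.castSucc) (eW R W (Fin.last R)) =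
      (W + 1) * (R * W + 1) := by
    rw [mW, Fin.val_last, if_pos rfl, eW_last (Fin.last R) rfl, eW_lt _ (by rw [hiv]; omega), hiv]
    have : i.val * W ≤ R * W := Nat.mul_le_mul_right _ hi.le
    rw [max_eq_right (by omega)]
  rw [h4, Finset.sum_congr rfl (fun k _ => h3 k), ← Finset.mul_sum] at h1
  rw [NW, sm, ← h1]
  ring

lemma le_sm {R : ℕ} (i : Fin R) : i.val ≤ sm R i.val := by
  have := Finset.single_le_sum (f := fun k : Fin R => max i.val k.val) (fun _ _ => Nat.zero_le _)
    (Finset.mem_univ i)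
  simpa [sm] using this

lemma sm_bounds {R : ℕ} (i j : Fin R) (h1 : 1 ≤ i.val) (h : i.val < j.val) :
    sm R i.val + 2 * (j.val - i.val) ≤ sm R j.val ∧
    sm R j.val ≤ sm R i.val + R * (j.val - i.val) := by
  have hR : 0 < R := lt_of_le_of_lt (Nat.zero_le _) i.isLt
  constructor
  · -- the terms k = 0 and k = i
    have hne : (⟨0, hR⟩ : Fin R) ≠ i := by
      intro h0
      rw [← h0] at h1
      simp at h1
    have e1 : ∑ k : Fin R, (max i.val k.val +
        if k ∈ ({⟨0, hR⟩, i} : Finset (Fin R)) then (j.val - i.val) else 0) ≤ sm R j.val := by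
      refine Finset.sum_le_sum fun k _ => ?_
      split_ifs with hk
      · rw [Finset.mem_insert, Finset.mem_singleton] at hk
        rcases hk with hk | hk
        · subst hk
          simp only [Nat.max_zero]
          omega
        · subst hk
          rw [max_self]
          omega
      · rw [add_zero]
        exact max_le_max h.le (le_refl _)
    rw [Finset.sum_add_distrib, Finset.sum_ite_mem, Finset.univ_inter, Finset.sum_const,
      Finset.card_pair hne, smul_eq_mul] at e1
    exact e1
  · have e1 : sm R j.val ≤ ∑ k : Fin R, (max i.val k.val + (j.val - i.val)) := by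
      refine Finset.sum_le_sum fun k _ => ?_
      rcases le_total j.val k.val with h2 | h2
      · rw [max_eq_right h2]
        exact (le_max_right _ _).trans (Nat.le_add_right _ _)
      · rw [max_eq_left h2]
        have := le_max_left i.val k.val
        omega
    rw [Finset.sum_add_distrib, Finset.sum_const, Finset.card_univ, Fintype.card_fin,
      smul_eq_mul] at e1
    exact e1

lemma NW_large (R W μ : ℕ) (i : Fin R) : (W + 1) * (R * W + 1) ≤ NW R W μ i.castSucc := by
  have h1 := NW_eq R W μ i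
  have h2 : μ * W * i.val ≤ μ * W * sm R i.val := Nat.mul_le_mul_left _ (le_sm i)
  omega

lemma prime_big (R μ K : ℕ) (i : Fin R) (p : ℕ) (hp : p.Prime)
    (hd : p ∣ NW R K.factorial μ i.castSucc) : K < p := by
  by_contra hle
  push Not at hle
  have hW : p ∣ K.factorial := (hp.dvd_factorial).2 hle
  have h1 := NW_eq R K.factorial μ i
  have h2 : p ∣ NW R K.factorial μ i.castSucc + μ * K.factorial * i.val :=
    dvd_add hd (Dvd.dvd.mul_right (Dvd.dvd.mul_left hW μ) _)
  rw [h1] at h2
  have h3 : p ∣ μ * K.factorial * sm R i.val := Dvd.dvd.mul_right (Dvd.dvd.mul_left hW μ) _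
  have h4 : p ∣ (K.factorial + 1) * (R * K.factorial + 1) := (Nat.dvd_add_right h3).1 h2
  have h5 : (K.factorial + 1) * (R * K.factorial + 1) =
      K.factorial * (R * K.factorial + 1 + R) + 1 := by ring
  rw [h5] at h4
  have h6 : p ∣ 1 := (Nat.dvd_add_right (Dvd.dvd.mul_right hW _)).1 h4
  exact hp.one_lt.ne' (Nat.dvd_one.1 h6)

end Num_

open Num_ in
theorem p_NUM : T_NUM := by
  intro R μ K hR hμ hK
  have hWK : K ≤ K.factorial := Nat.self_le_factorial K
  have hW1 : 1 ≤ K.factorial := Nat.succ_le_of_lt (Nat.factorial_pos K)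
  refine ⟨fun i => ⟨?_, fun p hp hd => prime_big R μ K i p hp hd⟩, ?_⟩
  · refine lt_of_lt_of_le ?_ (NW_large R K.factorial μ i)
    have : K.factorial + 1 ≤ (K.factorial + 1) * (R * K.factorial + 1) :=
      Nat.le_mul_of_pos_right _ (Nat.succ_pos _)
    omega
  · intro i j hi hij
    have hij' : i.val < j.val := hij
    refine Nat.Coprime.symm (Nat.coprime_of_dvd ?_)
    intro p hp hdj hdi
    have hpK := prime_big R μ K i p hp hdi
    have e1 := NW_eq R K.factorial μ i
    have e2 := NW_eq R K.factorial μ j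
    obtain ⟨b1, b2⟩ := sm_bounds i j hi hij'
    obtain ⟨D, hD⟩ : ∃ D, sm R j.val + i.val = sm R i.val + j.val + D :=
      ⟨sm R j.val + i.val - (sm R i.val + j.val), by omega⟩
    have hD0 : 0 < D := by omega
    have hDR : D ≤ R ^ 2 := by
      have h3 : R * (j.val - i.val) ≤ R * R := Nat.mul_le_mul_left _ (by have := j.isLt; omega)
      have h4 : R ^ 2 = R * R := sq R
      omega
    have key : NW R K.factorial μ j.castSucc = NW R K.factorial μ i.castSucc +
        μ * K.factorial * D := by
      have h5 : μ * K.factorial * sm R j.val + μ * K.factorial * i.val =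
          μ * K.factorial * sm R i.val + μ * K.factorial * j.val + μ * K.factorial * D := by
        rw [← Nat.mul_add, hD]
        ring
      omega
    rw [key] at hdj
    have h6 : p ∣ μ * K.factorial * D := (Nat.dvd_add_right hdi).1 hdj
    have h7 : p ∣ K.factorial * (μ * D) := by
      rw [show K.factorial * (μ * D) = μ * K.factorial * D by ring]
      exact h6
    rcases (hp.dvd_mul).1 h7 with h8 | h8
    · have := (hp.dvd_factorial).1 h8
      omega
    · have h9 : p ≤ μ * D := Nat.le_of_dvd (Nat.mul_pos hμ hD0) h8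
      have h10 : μ * D ≤ μ * R ^ 2 := Nat.mul_le_mul_left _ hDR
      omega

end Pool.Agent.FD
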