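import Pool.Agent.FD.TargetsB
import Pool.Agent.FD.F0
import Pool.Agent.FD.Num

set_option autoImplicit false

/-!
# The factor `1 + f0 (X + c)`, good primes above a bound, the sequence `X^(δ_i)`
-/

open Polynomial

namespace Pool.Agent.FD

namespace HC_

variable {m R : ℕ}

lemma aeval_f0 (P : Fin m → ℕ) {A : Type*} [CommRing A] [Algebra ℤ A] (z : A) :
    Polynomial.aeval z (f0 P) = ∏ k, (z ^ 2 - ((dd P k : ℤ) : A)) := by
  unfold f0
  rw [map_prod]
  exact Finset.prod_congr rfl fun k _ => by simp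

/-- `P_a` is a square modulo `ℓ_a` -/
lemma isSquare_l {P : Fin m → ℕ} {N : Fin R → ℕ} {l : Fin m → ℕ} (hP : GoodP P)
    (hL : GoodL P N l) (a : Fin m) : IsSquare ((P a : ℕ) : ZMod (l a)) := by
  have : Fact (l a).Prime := ⟨hL.prime a⟩
  by_contra hns
  have h1 : ∀ k, quadraticChar (ZMod (l a)) ((P k : ℕ) : ZMod (l a)) = -1 := by
    intro k
    rw [quadraticChar_neg_one_iff_not_isSquare]
    by_cases hk : k = a
    · rw [hk]; exact hns
    · have := hL.nsq a (some k) (fun h => hk (Option.some.inj h))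
      simpa [dd] using this
  have h2 : quadraticChar (ZMod (l a)) ((dd P none : ℤ) : ZMod (l a)) = -1 := by
    rw [quadraticChar_neg_one_iff_not_isSquare]
    exact hL.nsq a none (by simp)
  simp only [dd] at h2
  push_cast at h2
  rw [map_prod] at h2
  simp only [h1, Finset.prod_const, Finset.card_univ, Fintype.card_fin] at h2
  rw [hP.even.neg_one_pow] at h2
  norm_num at h2

lemma exists_root {P : Fin m → ℕ} {N : Fin R → ℕ} {l : Fin m → ℕ} (hP : GoodP P)
    (hL : GoodL P N l) (a : Fin m) : ∃ z : ZMod (l a), Polynomial.aeval z (f0 P) = 0 := by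
  obtain ⟨r, hr⟩ := isSquare_l hP hL a
  refine ⟨r, ?_⟩
  rw [aeval_f0]
  refine Finset.prod_eq_zero (Finset.mem_univ (some a)) ?_
  simp [dd, hr, sq]

lemma exists_c {P : Fin m → ℕ} {N : Fin R → ℕ} {l : Fin m → ℕ} (hP : GoodP P)
    (hL : GoodL P N l) (a : Fin m) : ∃ c : ZMod (l a), ∀ z : ZMod (l a),
      1 + Polynomial.aeval z (f0 P) * (z + c) ≠ 0 := by
  have : Fact (l a).Prime := ⟨hL.prime a⟩
  obtain ⟨z0, hz0⟩ := exists_root hP hL a
  classical
  let S : Finset (ZMod (l a)) := (Finset.univ.erase z0).image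
    (fun z => -(Polynomial.aeval z (f0 P))⁻¹ - z)
  have hS : S.card < Fintype.card (ZMod (l a)) := by
    refine lt_of_le_of_lt Finset.card_image_le ?_
    rw [Finset.card_erase_of_mem (Finset.mem_univ _), Finset.card_univ]
    exact Nat.sub_lt Fintype.card_pos one_pos
  obtain ⟨c, hc⟩ : ∃ c, c ∉ S := by
    by_contra hcon
    push Not at hcon
    have : S = Finset.univ := Finset.eq_univ_iff_forall.mpr hcon
    rw [this, Finset.card_univ] at hS
    exact lt_irrefl _ hS
  refine ⟨c, fun z hz => ?_⟩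
  have hf : Polynomial.aeval z (f0 P) ≠ 0 := by
    intro h
    rw [h, zero_mul, add_zero] at hz
    exact one_ne_zero hz
  apply hc
  refine Finset.mem_image.mpr ⟨z, Finset.mem_erase.mpr ⟨?_, Finset.mem_univ _⟩, ?_⟩
  · rintro rfl
    exact hf hz0
  · have h1 : z + c = -(Polynomial.aeval z (f0 P))⁻¹ := by
      have h2 : Polynomial.aeval z (f0 P) * (z + c) = -1 := by
        linear_combination hz
      field_simp
      linear_combination h2
    linear_combination -h1

lemma exists_int {P : Fin m → ℕ} {N : Fin R → ℕ} {l : Fin m → ℕ} (hP : GoodP P)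
    (hL : GoodL P N l) : ∃ c : ℤ, ∀ a, ∀ z : ZMod (l a),
      1 + Polynomial.aeval z (f0 P) * (z + (c : ZMod (l a))) ≠ 0 := by
  choose c hc using exists_c hP hL
  have : ∀ a, NeZero (l a) := fun a => ⟨(hL.prime a).ne_zero⟩
  obtain ⟨k, hk⟩ := Nat.chineseRemainderOfFinset (fun a => (c a).val) l Finset.univ
    (fun a _ => (hL.prime a).ne_zero) (by
      intro a _ b _ hab
      exact (Nat.coprime_primes (hL.prime a) (hL.prime b)).mpr (fun h => hab (hL.inj h)))
  refine ⟨(k : ℤ), fun a z => ?_⟩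
  have h1 : ((k : ℤ) : ZMod (l a)) = c a := by
    have h2 := (ZMod.natCast_eq_natCast_iff _ _ _).mpr (hk a (Finset.mem_univ a))
    rw [ZMod.natCast_zmod_val] at h2
    exact_mod_cast h2
  rw [h1]
  exact hc a z

lemma aeval_hc (P : Fin m → ℕ) (c : ℤ) {A : Type*} [CommRing A] [Algebra ℤ A] (z : A) :
    Polynomial.aeval z (hc P c) = 1 + Polynomial.aeval z (f0 P) * (z + (c : A)) := by
  unfold hc
  simp

/-- the derivative of `f0` is twice a polynomial -/
lemma deriv_f0 (P : Fin m → ℕ) : ∃ g : ℤ[X], derivative (f0 P) = 2 * g := by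
  unfold f0
  rw [derivative_prod_finset]
  refine ⟨∑ i, (∏ j ∈ Finset.univ.erase i, (X ^ 2 - C (dd P j))) * X, ?_⟩
  rw [Finset.mul_sum]
  refine Finset.sum_congr rfl fun i _ => ?_
  simp
  ring

lemma sep_hc (P : Fin m → ℕ) (c : ℤ) (hmon : (hc P c).Monic) :
    ((hc P c).map (Int.castRingHom ℚ)).Separable := by
  rw [Polynomial.separable_def, Polynomial.isCoprime_iff_aeval_ne_zero_of_isAlgClosed ℚ (AlgebraicClosure ℚ)]
  intro β
  by_contra hcon
  push Not at hcon
  obtain ⟨h1, h2⟩ := hcon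
  rw [show (Int.castRingHom ℚ) = algebraMap ℤ ℚ from rfl] at h1 h2
  rw [Polynomial.aeval_map_algebraMap] at h1
  rw [Polynomial.derivative_map, Polynomial.aeval_map_algebraMap] at h2
  have hint : IsIntegral ℤ β := ⟨hc P c, hmon, by rw [← Polynomial.aeval_def]; exact h1⟩
  obtain ⟨g, hg⟩ := deriv_f0 P
  have h3 : Polynomial.aeval β (derivative (hc P c)) =
      2 * Polynomial.aeval β g * (β + c) + Polynomial.aeval β (f0 P) := by
    unfold hc
    rw [derivative_add, derivative_one, derivative_mul, hg]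
    have e2 : (Polynomial.aeval β) (2 : ℤ[X]) = 2 := map_ofNat _ 2
    simp [e2]
  rw [h3] at h2
  rw [aeval_hc] at h1
  have h4 : 2 * (Polynomial.aeval β g * (β + c) ^ 2) = (1 : AlgebraicClosure ℚ) := by
    linear_combination (-1 : AlgebraicClosure ℚ) * h1 + (β + c) * h2
  have hg' : IsIntegral ℤ (Polynomial.aeval β g) := by
    rw [← mem_integralClosure_iff]
    have := (Polynomial.aeval (⟨β, hint⟩ : integralClosure ℤ (AlgebraicClosure ℚ)) g).2
    rw [Polynomial.aeval_subalgebra_coe] at this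
    exact this
  have hγ : IsIntegral ℤ (Polynomial.aeval β g * (β + c) ^ 2) := by
    refine IsIntegral.mul hg' ((hint.add ?_).pow 2)
    have := isIntegral_algebraMap (R := ℤ) (A := AlgebraicClosure ℚ) (x := c)
    simpa using this
  have hγ2 : Polynomial.aeval β g * (β + c) ^ 2 = algebraMap ℚ (AlgebraicClosure ℚ) (1 / 2) := by
    have h5 : (2 : AlgebraicClosure ℚ) ≠ 0 := two_ne_zero
    apply mul_left_cancel₀ h5
    rw [h4, map_div₀, map_one, map_ofNat]
    field_simp
  rw [hγ2] at hγ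
  have h6 : IsIntegral ℤ (1 / 2 : ℚ) :=
    (isIntegral_algebraMap_iff (FaithfulSMul.algebraMap_injective ℚ (AlgebraicClosure ℚ))).mp hγ
  obtain ⟨n, hn⟩ := IsIntegrallyClosed.isIntegral_iff.mp h6
  have h7 : (n : ℚ) = 1 / 2 := by simpa using hn
  have h8 : (2 * n : ℤ) = 1 := by
    have : (2 : ℚ) * n = 1 := by rw [h7]; norm_num
    exact_mod_cast this
  omega

end HC_

theorem p_HC (h : T_F0) : T_HC := by
  intro m R P N l hP hL
  obtain ⟨c, hc1⟩ := HC_.exists_int hP hL
  obtain ⟨hmon, hdeg, hsep, hnr, -⟩ := h m P hP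
  have hX : (X + C c : ℤ[X]).Monic := monic_X_add_C c
  have hm1 : (f0 P * (X + C c)).Monic := hmon.mul hX
  have hd1 : (f0 P * (X + C c)).natDegree = 2 * (m + 1) + 1 := by
    rw [hmon.natDegree_mul hX, hdeg, natDegree_X_add_C]
  have hlt : (1 : ℤ[X]).degree < (f0 P * (X + C c)).degree := by
    rw [degree_one, degree_eq_natDegree hm1.ne_zero, hd1]
    exact_mod_cast Nat.succ_pos _
  have hm2 : (hc P c).Monic := by
    unfold hc
    exact hm1.add_of_right hlt
  have hd2 : (hc P c).natDegree = 2 * (m + 1) + 1 := by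
    unfold hc
    rw [natDegree_add_eq_right_of_degree_lt hlt, hd1]
  refine ⟨c, ?_, hmon.mul hm2, ?_, ?_, ?_⟩
  · intro a z
    rw [HC_.aeval_hc]
    exact hc1 a z
  · rw [hmon.natDegree_mul hm2, hdeg, hd2]
    ring
  · rw [Polynomial.map_mul]
    refine hsep.mul (HC_.sep_hc P c hm2) ⟨-((X + C c : ℤ[X]).map (Int.castRingHom ℚ)), 1, ?_⟩
    unfold hc
    simp
    ring
  · rintro ⟨θ, hθ⟩
    rw [map_mul, mul_eq_zero] at hθ
    rcases hθ with hθ | hθ
    · exact hnr ⟨θ, hθ⟩
    · obtain ⟨n, hn⟩ := isInteger_of_is_root_of_monic hm2 hθ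
      have hm : 0 < m := lt_of_lt_of_le (by norm_num) hP.two_le
      have h1 : Polynomial.aeval n (hc P c) = 0 := by
        have h2 : algebraMap ℤ ℚ (Polynomial.aeval n (hc P c)) = 0 := by
          rw [← Polynomial.aeval_algebraMap_apply, hn]
          exact hθ
        exact (algebraMap ℤ ℚ).injective_int (by rw [h2, map_zero])
      have h2 : Polynomial.aeval ((n : ℤ) : ZMod (l ⟨0, hm⟩)) (hc P c) = 0 := by
        have h3 := congrArg (algebraMap ℤ (ZMod (l ⟨0, hm⟩))) h1
        rw [← Polynomial.aeval_algebraMap_apply, map_zero] at h3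
        simpa using h3
      rw [HC_.aeval_hc] at h2
      exact hc1 ⟨0, hm⟩ _ h2

namespace HC_

/-- successive choice of good primes above a bound -/
lemma exists_seq (B n : ℕ) : ∃ P : Fin n → ℕ, Function.Injective P ∧ (∀ k, (P k).Prime) ∧
    (∀ k, P k % 8 = 1) ∧ (∀ k l, k ≠ l → IsSquare ((P l : ℕ) : ZMod (P k))) ∧
    ∀ k, B < P k := by
  induction n with
  | zero => exact ⟨fun i => i.elim0, fun i => i.elim0, fun i => i.elim0, fun i => i.elim0,
      fun i => i.elim0, fun i => i.elim0⟩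
  | succ n ih =>
    obtain ⟨P, hinj, hpr, h8, hsq, hB⟩ := ih
    set M : ℕ := 8 * ∏ k, P k with hM
    have hM0 : M ≠ 0 := by
      rw [hM]
      exact mul_ne_zero (by norm_num) (Finset.prod_ne_zero_iff.mpr fun k _ => (hpr k).ne_zero)
    have : NeZero M := ⟨hM0⟩
    obtain ⟨p, hp', hpp, hpM⟩ := Nat.forall_exists_prime_gt_and_eq_mod (q := M) (a := 1)
      isUnit_one (max M B)
    have hp : M < p := lt_of_le_of_lt (le_max_left _ _) hp'
    have hpB : B < p := lt_of_le_of_lt (le_max_right _ _) hp'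
    have hmod : ∀ q : ℕ, q ∣ M → p ≡ 1 [MOD q] := by
      intro q hq
      have h1 : p ≡ 1 [MOD M] := by
        rw [← ZMod.natCast_eq_natCast_iff]
        simpa using hpM
      exact h1.of_dvd hq
    have hdvd : ∀ k, P k ∣ M := fun k =>
      Dvd.dvd.mul_left (Finset.dvd_prod_of_mem P (Finset.mem_univ k)) 8
    have hlt : ∀ k, P k < p := fun k => lt_of_le_of_lt (Nat.le_of_dvd (Nat.pos_of_ne_zero hM0)
      (hdvd k)) hp
    have hp8 : p % 8 = 1 := by
      have := hmod 8 (Dvd.intro _ rfl)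
      simpa [Nat.ModEq] using this
    have : Fact p.Prime := ⟨hpp⟩
    have hodd : ∀ k, P k ≠ 2 := by
      intro k h
      have := h8 k
      rw [h] at this
      norm_num at this
    have hsq1 : ∀ k, IsSquare ((p : ℕ) : ZMod (P k)) := by
      intro k
      have : ((p : ℕ) : ZMod (P k)) = ((1 : ℕ) : ZMod (P k)) :=
        (ZMod.natCast_eq_natCast_iff _ _ _).mpr (hmod _ (hdvd k))
      rw [this]
      simp
    have hsq2 : ∀ k, IsSquare ((P k : ℕ) : ZMod p) := by
      intro k
      have : Fact (P k).Prime := ⟨hpr k⟩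
      exact (ZMod.exists_sq_eq_prime_iff_of_mod_four_eq_one (by omega) (hodd k)).mpr (hsq1 k)
    refine ⟨Fin.snoc P p, ?_, ?_, ?_, ?_, ?_⟩
    · intro a b
      refine Fin.lastCases ?_ (fun a => ?_) a
      · refine Fin.lastCases ?_ (fun b => ?_) b
        · intro _; rfl
        · intro h
          simp only [Fin.snoc_last, Fin.snoc_castSucc] at h
          exact absurd h (hlt b).ne'
      · refine Fin.lastCases ?_ (fun b => ?_) b
        · intro h
          simp only [Fin.snoc_last, Fin.snoc_castSucc] at h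
          exact absurd h (hlt a).ne
        · intro h
          simp only [Fin.snoc_castSucc] at h
          rw [hinj h]
    · intro a
      refine Fin.lastCases ?_ (fun a => ?_) a
      · simpa using hpp
      · simpa using hpr a
    · intro a
      refine Fin.lastCases ?_ (fun a => ?_) a
      · simpa using hp8
      · simpa using h8 a
    · have hk : ∀ (q q' r r' : ℕ), q = q' → r = r' → IsSquare ((r : ℕ) : ZMod q) →
          IsSquare ((r' : ℕ) : ZMod q') := by
        rintro _ _ _ _ rfl rfl h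
        exact h
      have e1 : p = (Fin.snoc P p : Fin (n + 1) → ℕ) (Fin.last n) := by
        rw [Fin.snoc_last (α := fun _ => ℕ)]
      have e2 : ∀ k : Fin n, P k = (Fin.snoc P p : Fin (n + 1) → ℕ) k.castSucc := by
        intro k
        rw [Fin.snoc_castSucc (α := fun _ => ℕ)]
      intro a b
      refine Fin.lastCases ?_ (fun a => ?_) a
      · refine Fin.lastCases ?_ (fun b => ?_) b
        · intro h; exact absurd rfl h
        · intro _
          exact hk _ _ _ _ e1 (e2 b) (hsq2 b)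
      · refine Fin.lastCases ?_ (fun b => ?_) b
        · intro _
          exact hk _ _ _ _ (e2 a) e1 (hsq1 a)
        · intro h
          exact hk _ _ _ _ (e2 a) (e2 b) (hsq a b (fun h' => h (by rw [h'])))
    · intro a
      refine Fin.lastCases ?_ (fun a => ?_) a
      · simpa using hpB
      · simpa using hB a

end HC_

theorem p_P2 : T_P2 := by
  intro m B hm h2
  obtain ⟨P, h⟩ := HC_.exists_seq B m
  exact ⟨P, ⟨h.1, h.2.1, h.2.2.1, h.2.2.2.1, hm, h2⟩, h.2.2.2.2⟩

namespace HC_

lemma H2_aux {T : ℕ} {δ : Fin (T + 1) → ℕ} (hδ : StrictMono δ) (i j : Fin (T + 1))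
    (h : i < j) :
    ((hD δ j - hD δ i).natDegree = δ j ∧ (hD δ j - hD δ i).leadingCoeff = 1) ∧
    max (δ i) (δ j) = δ j ∧ 0 < δ j := by
  have hlt := hδ h
  have hj0 : j ≠ 0 := by
    rintro rfl
    exact absurd h (Fin.not_lt_zero i)
  refine ⟨?_, max_eq_right hlt.le, by omega⟩
  rw [hD, hD, if_neg hj0]
  by_cases hi0 : i = 0
  · rw [if_pos hi0, sub_zero]
    exact ⟨natDegree_X_pow _, leadingCoeff_X_pow _⟩
  · rw [if_neg hi0]
    exact Num_.lead_sub _ _ hlt

end HC_

theorem p_H2 : T_H2 := by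
  intro T δ hδ _ i j hij
  rcases lt_or_gt_of_ne hij with h | h
  · obtain ⟨⟨h1, h2⟩, h3, h4⟩ := HC_.H2_aux hδ i j h
    have hneg : hD δ i - hD δ j = -(hD δ j - hD δ i) := by ring
    rw [hneg, leadingCoeff_neg, natDegree_neg, h1, h2, h3]
    exact ⟨isUnit_one.neg, rfl, h4⟩
  · obtain ⟨⟨h1, h2⟩, h3, h4⟩ := HC_.H2_aux hδ j i h
    rw [h1, h2, max_comm, h3]
    exact ⟨isUnit_one, rfl, h4⟩

end Pool.Agent.FD
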