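import Pool.Agent.FD.Targets

/-!
# Arrangement curves are geometrically irreducible
-/

open MvPolynomial

namespace Pool.Agent.FD

namespace Irr_

open Polynomial in
/-- a form of Eisenstein's criterion -/
theorem irred {D E : Type} [CommRing D] [IsDomain D] [CommRing E] [IsDomain E] (ev : D →+* E)
    (k c : D) (M : D[X]) (hu : IsUnit M.leadingCoeff) (hn : 0 < M.natDegree) (hc : IsUnit c)
    (hk : ev k = 0) (hab : ∀ a b, k = a * b → ev a ≠ 0 ∨ ev b ≠ 0) :
    Irreducible (Polynomial.C k * M - Polynomial.C c) := by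
  have hk0 : k ≠ 0 := by
    intro h0
    rcases hab 0 0 (by rw [h0, mul_zero]) with h | h
    · exact h (map_zero ev)
    · exact h (map_zero ev)
  have hM0 : M ≠ 0 := by
    rintro rfl
    simp at hn
  have hCk : (Polynomial.C k : D[X]) ≠ 0 := Polynomial.C_ne_zero.mpr hk0
  have hdeg1 : (Polynomial.C k * M).natDegree = M.natDegree := by
    rw [Polynomial.natDegree_mul hCk hM0, Polynomial.natDegree_C, zero_add]
  have hdeg : (Polynomial.C k * M - Polynomial.C c).natDegree = M.natDegree := by
    rw [Polynomial.natDegree_sub_C, hdeg1]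
  have hcoef : ∀ n, 0 < n → (Polynomial.C k * M - Polynomial.C c).coeff n = k * M.coeff n := by
    intro n hn'
    rw [Polynomial.coeff_sub, Polynomial.coeff_C_mul, Polynomial.coeff_C_of_ne_zero hn'.ne',
      sub_zero]
  have hlead : (Polynomial.C k * M - Polynomial.C c).leadingCoeff = k * M.leadingCoeff := by
    rw [Polynomial.leadingCoeff, hdeg, hcoef _ hn]
    rfl
  have hmap : (Polynomial.C k * M - Polynomial.C c).map ev = -Polynomial.C (ev c) := by
    rw [Polynomial.map_sub, Polynomial.map_mul, Polynomial.map_C, Polynomial.map_C, hk,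
      Polynomial.C_0, zero_mul, zero_sub]
  have hevc : ev c ≠ 0 := (hc.map ev).ne_zero
  -- one factor is constant
  have key : ∀ G H : D[X], Polynomial.C k * M - Polynomial.C c = G * H →
      ev G.leadingCoeff ≠ 0 → IsUnit G := by
    intro G H hGH hG
    have h1 : G.map ev * H.map ev = -Polynomial.C (ev c) := by
      rw [← Polynomial.map_mul, ← hGH, hmap]
    have hne : G.map ev * H.map ev ≠ 0 := by
      rw [h1, neg_ne_zero]
      exact Polynomial.C_ne_zero.mpr hevc
    have h2 : (G.map ev).natDegree + (H.map ev).natDegree = 0 := by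
      rw [← Polynomial.natDegree_mul (left_ne_zero_of_mul hne) (right_ne_zero_of_mul hne), h1,
        Polynomial.natDegree_neg, Polynomial.natDegree_C]
    have h3 : G.natDegree = 0 := by
      rw [← Polynomial.natDegree_map_of_leadingCoeff_ne_zero ev hG]
      omega
    rw [Polynomial.eq_C_of_natDegree_eq_zero h3] at hGH ⊢
    set r := G.coeff 0 with hr
    have h4 : ∀ n, r ∣ (Polynomial.C k * M - Polynomial.C c).coeff n := fun n => by
      rw [hGH, Polynomial.coeff_C_mul]
      exact dvd_mul_right _ _
    have h5 : r ∣ k := by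
      have := h4 M.natDegree
      rw [hcoef _ hn] at this
      exact (IsUnit.dvd_mul_right hu).mp this
    have h6 : r ∣ c := by
      have := h4 0
      rw [Polynomial.coeff_sub, Polynomial.coeff_C_mul, Polynomial.coeff_C_zero] at this
      have h7 : r ∣ k * M.coeff 0 := h5.mul_right _
      have h8 := dvd_sub h7 this
      rwa [sub_sub_cancel] at h8
    exact Polynomial.isUnit_C.mpr (isUnit_of_dvd_unit h6 hc)
  constructor
  · intro h
    have := Polynomial.natDegree_eq_zero_of_isUnit h
    omega
  · intro G H hGH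
    have h1 : k * M.leadingCoeff = G.leadingCoeff * H.leadingCoeff := by
      rw [← hlead, hGH, Polynomial.leadingCoeff_mul]
    obtain ⟨u, hu'⟩ := hu
    have h2 : k = G.leadingCoeff * (H.leadingCoeff * ↑u⁻¹) := by
      rw [← mul_assoc, ← h1, ← hu', mul_assoc, Units.mul_inv, mul_one]
    rcases hab _ _ h2 with h3 | h3
    · exact Or.inl (key G H hGH h3)
    · right
      refine key H G (by rw [hGH, mul_comm]) ?_
      intro h4
      apply h3
      rw [map_mul, h4, zero_mul]

theorem aeval_X_map {D : Type} [CommRing D] [Algebra ℤ D] (p : Polynomial ℤ) :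
    Polynomial.aeval (Polynomial.X : Polynomial D) p = p.map (Int.castRingHom D) := by
  rw [Polynomial.aeval_def, Polynomial.map]
  congr 1
  exact Subsingleton.elim _ _

theorem map_aeval' {R S : Type} [CommRing R] [CommRing S] [Algebra ℤ R] [Algebra ℤ S] (φ : R →+* S) (p : Polynomial ℤ)
    (a : R) : φ (Polynomial.aeval a p) = Polynomial.aeval (φ a) p := by
  rw [Polynomial.aeval_def, Polynomial.hom_eval₂, Polynomial.aeval_def]
  congr 1
  exact Subsingleton.elim _ _

open Polynomial in
/-- degree and leading coefficient of a composition -/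
theorem comp_facts {D : Type} [CommRing D] [IsDomain D] [Algebra ℤ D] (f : Polynomial ℤ)
    (hf : f.Monic) (u : D[X]) (hu : IsUnit u.leadingCoeff) (hn : 0 < u.natDegree) :
    IsUnit (Polynomial.aeval u f).leadingCoeff ∧
    (Polynomial.aeval u f).natDegree = f.natDegree * u.natDegree := by
  have h1 : Polynomial.aeval u f = (f.map (Int.castRingHom D)).comp u := by
    rw [Polynomial.comp, Polynomial.eval₂_map, Polynomial.aeval_def]
    congr 1
    exact Subsingleton.elim _ _
  rw [h1]
  constructor
  · rw [Polynomial.leadingCoeff_comp hn.ne', (hf.map _).leadingCoeff, one_mul]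
    exact hu.pow _
  · rw [Polynomial.natDegree_comp, hf.natDegree_map]

theorem transfer {R S : Type} [CommRing R] [CommRing S] (φ : R ≃+* S) (p : R)
    (h : Irreducible (φ p)) : Irreducible p := (MulEquiv.irreducible_iff φ).mp h

theorem image_eq {ι : Type} [Fintype ι] [DecidableEq ι] {R D : Type} [CommRing R] [CommRing D]
    [Algebra ℤ R] [Algebra ℤ D] (φ : R →+* Polynomial D) (x0 x1 c0 : R) (y c1 : D) (f h : ι → Polynomial ℤ) (i₀ : ι)
    (h0 : h i₀ = 0) (e0 : φ x0 = Polynomial.X) (e1 : φ x1 = Polynomial.C y)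
    (e2 : φ c0 = Polynomial.C c1) :
    φ ((∏ i, Polynomial.aeval (x1 + Polynomial.aeval x0 (h i)) (f i)) - c0) =
      Polynomial.C (Polynomial.aeval y (f i₀)) * (∏ i ∈ Finset.univ.erase i₀,
        Polynomial.aeval (Polynomial.C y + Polynomial.aeval (Polynomial.X : Polynomial D) (h i))
          (f i)) - Polynomial.C c1 := by
  have hi : ∀ i, φ (Polynomial.aeval (x1 + Polynomial.aeval x0 (h i)) (f i)) =
      Polynomial.aeval (Polynomial.C y + Polynomial.aeval (Polynomial.X : Polynomial D) (h i))
        (f i) := fun i => by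
    rw [map_aeval', map_add, map_aeval', e0, e1]
  rw [map_sub, map_prod, e2, ← Finset.mul_prod_erase _ _ (Finset.mem_univ i₀)]
  congr 1
  congr 1
  · rw [hi, h0, map_zero, add_zero, map_aeval' Polynomial.C]
  · exact Finset.prod_congr rfl fun i _ => hi i

end Irr_

open Irr_ in
theorem p_IRR : T_IRR := by
  intro ι _ _ A L _ _ _
  rw [Arr.polyOver_F]
  have hC : ∀ a : L, MvPolynomial.finSuccEquiv L 1 (C a) = Polynomial.C (C a) := fun a => by
    have := (MvPolynomial.finSuccEquiv L 1).commutes a
    simpa [MvPolynomial.algebraMap_eq, Polynomial.algebraMap_apply] using this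
  refine transfer (MvPolynomial.finSuccEquiv L 1).toRingEquiv _ ?_
  have hval := image_eq
    ((MvPolynomial.finSuccEquiv L 1).toRingEquiv :
      MvPolynomial (Fin 2) L →+* Polynomial (MvPolynomial (Fin 1) L))
    (X 0) (X 1) (C (A.c : L)) (X 0) (C (A.c : L)) A.f A.h A.i₀ A.h_i₀
    MvPolynomial.finSuccEquiv_X_zero (MvPolynomial.finSuccEquiv_X_succ (j := 0)) (hC _)
  rw [RingEquiv.coe_toRingHom] at hval
  rw [hval]
  -- the factors
  have hfac : ∀ i ∈ Finset.univ.erase A.i₀,
      IsUnit (Polynomial.aeval (Polynomial.C (X 0 : MvPolynomial (Fin 1) L) +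
        Polynomial.aeval (Polynomial.X : Polynomial (MvPolynomial (Fin 1) L)) (A.h i))
          (A.f i)).leadingCoeff ∧
      0 < (Polynomial.aeval (Polynomial.C (X 0 : MvPolynomial (Fin 1) L) +
        Polynomial.aeval (Polynomial.X : Polynomial (MvPolynomial (Fin 1) L)) (A.h i))
          (A.f i)).natDegree := by
    intro i hi
    have hne : i ≠ A.i₀ := Finset.ne_of_mem_erase hi
    have hl := A.lead i A.i₀ hne
    have hw := A.wpos i A.i₀ hne
    rw [A.h_i₀, sub_zero] at hl hw
    have hmap : Polynomial.aeval (Polynomial.X : Polynomial (MvPolynomial (Fin 1) L)) (A.h i) =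
        (A.h i).map (Int.castRingHom (MvPolynomial (Fin 1) L)) := by
      exact aeval_X_map _
    have hinj : Function.Injective (Int.castRingHom (MvPolynomial (Fin 1) L)) :=
      Int.cast_injective
    have hdeg : ((A.h i).map (Int.castRingHom (MvPolynomial (Fin 1) L))).natDegree =
        (A.h i).natDegree := Polynomial.natDegree_map_eq_of_injective hinj _
    have hlc : IsUnit ((A.h i).map (Int.castRingHom (MvPolynomial (Fin 1) L))).leadingCoeff := by
      rw [Polynomial.leadingCoeff_map_of_injective hinj]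
      exact hl.map _
    have hdlt : (Polynomial.C (X 0 : MvPolynomial (Fin 1) L)).degree <
        ((A.h i).map (Int.castRingHom (MvPolynomial (Fin 1) L))).degree := by
      refine lt_of_le_of_lt Polynomial.degree_C_le ?_
      rw [← Polynomial.natDegree_pos_iff_degree_pos, hdeg]
      exact hw
    rw [hmap]
    have hu : IsUnit (Polynomial.C (X 0 : MvPolynomial (Fin 1) L) +
        (A.h i).map (Int.castRingHom (MvPolynomial (Fin 1) L))).leadingCoeff := by
      rw [Polynomial.leadingCoeff_add_of_degree_lt hdlt]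
      exact hlc
    have hn : 0 < (Polynomial.C (X 0 : MvPolynomial (Fin 1) L) +
        (A.h i).map (Int.castRingHom (MvPolynomial (Fin 1) L))).natDegree := by
      rw [Polynomial.natDegree_C_add, hdeg]
      exact hw
    obtain ⟨h1, h2⟩ := comp_facts (A.f i) (A.monic i) _ hu hn
    refine ⟨h1, ?_⟩
    rw [h2]
    exact Nat.mul_pos (A.deg_pos i) hn
  have hdeg0 : ((A.f A.i₀).map (Int.castRingHom L)).degree ≠ 0 := by
    rw [(A.monic A.i₀).degree_map]
    have := A.deg_pos A.i₀
    exact (Polynomial.natDegree_pos_iff_degree_pos.mp this).ne'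
  obtain ⟨κ, hκ⟩ := IsAlgClosed.exists_root _ hdeg0
  have hκ' : Polynomial.aeval κ (A.f A.i₀) = 0 := by
    rw [Polynomial.IsRoot, Polynomial.eval_map] at hκ
    rw [Polynomial.aeval_def, ← hκ]
    congr 1
  have hκd : Polynomial.aeval κ (Polynomial.derivative (A.f A.i₀)) ≠ 0 := by
    have h1 := (A.sep A.i₀).aeval_derivative_ne_zero (x := κ) (by
      rw [← algebraMap_int_eq, Polynomial.aeval_map_algebraMap]
      exact hκ')
    rwa [Polynomial.derivative_map, ← algebraMap_int_eq, Polynomial.aeval_map_algebraMap] at h1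
  refine irred (MvPolynomial.eval (fun _ => κ)) _ _ _ ?_ ?_ ?_ ?_ ?_
  · rw [Polynomial.leadingCoeff_prod]
    exact Finset.prod_induction _ IsUnit (fun a b ha hb => ha.mul hb) isUnit_one
      fun i hi => (hfac i hi).1
  · rw [Polynomial.natDegree_prod _ _ fun i hi => by
      intro h0
      have := (hfac i hi).2
      rw [h0, Polynomial.natDegree_zero] at this
      exact lt_irrefl _ this]
    refine lt_of_lt_of_le (hfac A.i₁ (Finset.mem_erase.mpr ⟨A.i₁_ne, Finset.mem_univ _⟩)).2 ?_
    exact Finset.single_le_sum (f := fun i => (Polynomial.aeval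
      (Polynomial.C (X 0 : MvPolynomial (Fin 1) L) + Polynomial.aeval
        (Polynomial.X : Polynomial (MvPolynomial (Fin 1) L)) (A.h i)) (A.f i)).natDegree)
      (fun _ _ => Nat.zero_le _) (Finset.mem_erase.mpr ⟨A.i₁_ne, Finset.mem_univ _⟩)
  · refine IsUnit.map C (isUnit_iff_ne_zero.mpr ?_)
    exact_mod_cast A.c_ne
  · rw [map_aeval' (MvPolynomial.eval (fun _ => κ)), MvPolynomial.eval_X]
    exact hκ'
  · intro a b hab
    by_contra hcon
    push Not at hcon
    apply hκd
    have h1 := congrArg (MvPolynomial.pderiv (0 : Fin 1)) hab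
    rw [Derivation.leibniz, ← Polynomial.aeval_map_algebraMap L, Derivation.map_aeval,
      MvPolynomial.pderiv_X_self, smul_eq_mul, smul_eq_mul, smul_eq_mul, mul_one,
      Polynomial.derivative_map, Polynomial.aeval_map_algebraMap] at h1
    have h2 := congrArg (MvPolynomial.eval (fun _ => κ)) h1
    rw [map_aeval' (MvPolynomial.eval (fun _ => κ)), MvPolynomial.eval_X, map_add, map_mul,
      map_mul, hcon.1, hcon.2, zero_mul, zero_mul, add_zero] at h2
    exact h2

end Pool.Agent.FD
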