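import Pool.Agent.FD.TargetsB

/-!
# Assembly of the second main theorem
-/

open MvPolynomial

namespace Pool.Agent.FD

namespace MainB

/-- the polynomials `f_p` -/
noncomputable def fB {m : ℕ} (P : Fin m → ℕ) (Q ν : ℕ) {T : ℕ} (g c0 : ℤ) (p : Fin (T + 1)) :
    Polynomial ℤ :=
  if p.val % 3 = 1 then f0 P * hc P c0 else Polynomial.X ^ mass Q ν p - Polynomial.C g

theorem mass_pos {Q ν T : ℕ} (hQ : 2 ≤ Q) (hν : 1 ≤ ν) (p : Fin (T + 1)) :
    0 < mass Q ν p := by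
  unfold mass
  split_ifs <;> omega

theorem mass_ge {Q ν T : ℕ} (hQ : 2 ≤ Q) {p : Fin (T + 1)} (hp : ¬ p.val % 3 = 1) :
    1 < mass Q ν p := by
  unfold mass
  split_ifs <;> omega

theorem mass_dvd {Q ν T : ℕ} {p : Fin (T + 1)} (hp : ¬ p.val % 3 = 1) :
    mass Q ν p ∣ 6 * Q := by
  unfold mass
  split_ifs with h1 h2
  · exact Dvd.intro_left 6 rfl
  · exact Dvd.dvd.mul_right (by norm_num) Q
  · exact Dvd.dvd.mul_right (by norm_num) Q

theorem mass_host {Q ν T : ℕ} {p : Fin (T + 1)} (hp : p.val % 3 = 1) :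
    mass Q ν p = ν := by
  unfold mass
  rw [if_neg, if_pos hp]
  intro h
  rw [h] at hp
  norm_num at hp

/-- a monic integer polynomial without roots modulo `l` has no rational roots -/
theorem no_root (p : Polynomial ℤ) (hp : p.Monic) (l : ℕ)
    (h : ∀ z : ZMod l, Polynomial.aeval z p ≠ 0) : ¬ ∃ θ : ℚ, Polynomial.aeval θ p = 0 := by
  rintro ⟨θ, hθ⟩
  obtain ⟨z, hz⟩ := isInteger_of_is_root_of_monic hp hθ
  rw [← hz, Polynomial.aeval_algebraMap_apply] at hθ
  have h1 : Polynomial.aeval z p = 0 := by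
    have h2 : (algebraMap ℤ ℚ) (Polynomial.aeval z p) = algebraMap ℤ ℚ 0 := by
      rw [hθ, map_zero]
    exact (algebraMap ℤ ℚ).injective_int h2
  apply h (algebraMap ℤ (ZMod l) z)
  rw [Polynomial.aeval_algebraMap_apply, h1, map_zero]

/-- the arrangement -/
noncomputable def arr (hH : T_H2) {m : ℕ} (P : Fin m → ℕ)
    (Q ν T : ℕ) (hQ : 2 ≤ Q) (hT : 1 ≤ T) (δ : Fin (T + 1) → ℕ) (hδ : StrictMono δ)
    (hδ0 : δ 0 = 0) (g c0 : ℤ) (hg : g ≠ 0)
    (hmon : (f0 P * hc P c0).Monic) (hdeg : 0 < (f0 P * hc P c0).natDegree)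
    (hsep : ((f0 P * hc P c0).map (Int.castRingHom ℚ)).Separable) (l : Fin m → ℕ)
    (hl : ∀ a, (l a).Prime) : Arr (Fin (T + 1)) where
  f := fB P Q ν g c0
  h := hD δ
  c := ∏ a, (l a : ℤ)
  monic i := by
    unfold fB
    split_ifs with h
    · exact hmon
    · exact Polynomial.monic_X_pow_sub_C g (by have := mass_ge (ν := ν) hQ h; omega)
  deg_pos i := by
    unfold fB
    split_ifs with h
    · exact hdeg
    · rw [Polynomial.natDegree_X_pow_sub_C]
      have := mass_ge (ν := ν) hQ h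
      omega
  sep i := by
    unfold fB
    split_ifs with h
    · exact hsep
    · rw [Polynomial.map_sub, Polynomial.map_pow, Polynomial.map_X, Polynomial.map_C]
      refine Polynomial.separable_X_pow_sub_C _ ?_ ?_
      · have := mass_ge (ν := ν) hQ h
        exact_mod_cast (by omega : mass Q ν i ≠ 0)
      · simpa using hg
  lead i j hij := (hH T δ hδ hδ0 i j hij).1
  wpos i j hij := by
    rw [(hH T δ hδ hδ0 i j hij).2.1]
    exact (hH T δ hδ hδ0 i j hij).2.2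
  i₀ := 0
  i₁ := Fin.last T
  i₁_ne := by
    intro h
    have := congrArg Fin.val h
    simp at this
    omega
  h_i₀ := by
    unfold hD
    rw [if_pos rfl]
  c_ne := by
    rw [Finset.prod_ne_zero_iff]
    intro a _
    exact_mod_cast (hl a).ne_zero

end MainB

theorem main_auxB (hIrr : T_IRR) (hSel : T_SELM2) (hRes : T_RES) (hLoc : T_LOC)
    (hSEL : T_SEL2) (hHC : T_HC) (hAr : T_ARITH2) (hH : T_H2)
    (r m ν c Q G : ℕ) (hr : 1 ≤ r) (hm : m = 2 * r) (hν : ν = 4 * (m + 1) + 1)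
    (q : Fin r → ℕ) (hq : ∀ i, (q i).Prime)
    (hQ : 2 ≤ Q) (hG : ∀ N : Fin r → ℕ,
      (∀ i, G ≤ N i) → (∀ i j : Fin r, i < j → N i + G ≤ N j) → (∀ i j, N i ≤ c * N j) →
      ∃ δ : Fin (3 * r + 1) → ℕ, StrictMono δ ∧ δ 0 = 0 ∧ ∀ i : Fin r, NM Q ν δ (pos r i) = N i)
    (P : Fin m → ℕ) (hP : GoodP P) (hPB : ∀ k, Q + 3 + ∑ i, q i < P k)
    (k : Fin r → ℕ)
    (hk2 : ∀ i, G + 2 * r * (Gam P).divisors.card ^ 2 + 2 ≤ q i ^ k i)
    (hk3 : ∀ i j : Fin r, i < j →
      q i ^ k i + (G + 2 * r * (Gam P).divisors.card ^ 2 + 2) ≤ q j ^ k j)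
    (hk4 : ∀ i j, q i ^ k i ≤ c * q j ^ k j) :
    ∃ C : Curve, ¬ C.HasPoint ℚ ∧
      ∀ n : ℕ, 1 ≤ n → (∃ i, ¬ q i ∣ n) → C.SelNonempty n := by
  obtain ⟨δ, hδ, hδ0, hδN⟩ := hG (fun i => q i ^ k i)
    (fun i => le_trans (by omega) (hk2 i))
    (fun i j hij => le_trans (by
      change q i ^ k i + G ≤ q i ^ k i + (G + 2 * r * (Gam P).divisors.card ^ 2 + 2)
      omega) (hk3 i j hij)) hk4
  have hqP : ∀ i a, q i < P a := by
    intro i a
    have h1 : q i ≤ ∑ i, q i := Finset.single_le_sum (f := q) (fun _ _ => Nat.zero_le _)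
      (Finset.mem_univ i)
    have := hPB a
    omega
  obtain ⟨l, hl, g, hg⟩ := hSEL m r P hP (fun i => q i ^ k i) (6 * Q) (by omega)
    (by
      intro a
      rw [(hP.prime a).coprime_iff_not_dvd]
      intro h
      have hB := hPB a
      have h6 : 6 * Q = 2 * (3 * Q) := by ring
      rw [h6] at h
      rcases (hP.prime a).dvd_mul.mp h with h2 | h2
      · have := Nat.le_of_dvd (by norm_num) h2
        omega
      · rcases (hP.prime a).dvd_mul.mp h2 with h3 | h3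
        · have := Nat.le_of_dvd (by norm_num) h3
          omega
        · have := Nat.le_of_dvd (by omega) h3
          omega)
    (by
      intro i a
      apply Nat.Coprime.pow_left
      rw [Nat.coprime_primes (hq i) (hP.prime a)]
      exact (hqP i a).ne)
    (by
      intro i
      have := hk2 i
      change 2 * r * (Gam P).divisors.card ^ 2 < q i ^ k i
      omega)
  have hm0 : 0 < m := by omega
  obtain ⟨c0, hc1, hmon, hdeg, hsep, hnr⟩ := hHC m r P (fun i => q i ^ k i) l hP hl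
  have hg0 : g ≠ 0 := by
    rintro rfl
    apply hg ⟨0, hm0⟩ 2 (by norm_num) (Dvd.intro (3 * Q) (by ring)) 0
    rw [zero_pow (by norm_num), Int.cast_zero]
  have hdeg0 : 0 < (f0 P * hc P c0).natDegree := by rw [hdeg]; omega
  obtain ⟨A, hA⟩ : ∃ A : Arr (Fin (3 * r + 1)),
    A = MainB.arr hH P Q ν (3 * r) hQ (by omega) δ hδ hδ0 g c0 hg0 hmon hdeg0 hsep l
      hl.prime := ⟨_, rfl⟩
  have hAf : ∀ p, A.f p = MainB.fB P Q ν g c0 p := by
    intro p
    rw [hA]
    rfl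
  have hAc : A.c = ∏ a, (l a : ℤ) := by rw [hA]; rfl
  have hAh : ∀ p, A.h p = hD δ p := by
    intro p
    rw [hA]
    rfl
  have hAm : ∀ p, A.m p = mass Q ν p := by
    intro p
    unfold Arr.m
    rw [hAf]
    unfold MainB.fB
    split_ifs with h
    · rw [hdeg, MainB.mass_host h, hν]
    · exact Polynomial.natDegree_X_pow_sub_C
  have hAN : ∀ p, A.N p = NM Q ν δ p := by
    intro p
    unfold Arr.N NM
    refine Finset.sum_congr rfl fun j hj => ?_
    rw [hAm]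
    congr 1
    unfold Arr.w
    rw [hAh, hAh]
    exact (hH _ δ hδ hδ0 p j (Finset.ne_of_mem_erase hj).symm).2.1
  have hAP : ∀ i, A.N (pos r i) = q i ^ k i := by
    intro i
    rw [hAN]
    exact hδN i
  have hpos : ∀ i : Fin r, (pos r i).val % 3 = 1 := by
    intro i
    unfold pos
    simp only
    omega
  have hAfpos : ∀ i, A.f (pos r i) = f0 P * hc P c0 := by
    intro i
    rw [hAf]
    unfold MainB.fB
    rw [if_pos (hpos i)]
  have hfill : ∀ p : Fin (3 * r + 1), (∀ t, pos r t ≠ p) → ∀ a, ∀ z : ZMod (l a),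
      Polynomial.aeval z (A.f p) ≠ 0 := by
    intro p hp a z
    have h3 : ¬ p.val % 3 = 1 := by
      intro h
      apply hp ⟨p.val / 3, by have := p.isLt; omega⟩
      apply Fin.ext
      unfold pos
      simp only
      omega
    rw [hAf]
    unfold MainB.fB
    rw [if_neg h3, map_sub, map_pow, Polynomial.aeval_X, Polynomial.aeval_C, sub_ne_zero]
    exact hg a _ (MainB.mass_ge hQ h3) (MainB.mass_dvd h3) z
  refine ⟨⟨A.F, fun L _ _ _ => hIrr _ A L⟩, ?_, ?_⟩
  · -- no rational points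
    intro hpt
    rcases hRes _ A ⟨A.F, fun L _ _ _ => hIrr _ A L⟩ rfl hpt with ⟨i, θ, hθ⟩ | ⟨α, β, h⟩
    · by_cases hi : ∀ t, pos r t ≠ i
      · exact MainB.no_root (A.f i) (A.monic i) (l ⟨0, hm0⟩) (hfill i hi ⟨0, hm0⟩) ⟨θ, hθ⟩
      · push Not at hi
        obtain ⟨t, rfl⟩ := hi
        rw [hAfpos] at hθ
        exact hnr ⟨θ, hθ⟩
    · refine hAr _ A m r (pos r) P l ?_ hP ?_ ?_ ?_ hfill hAc (by omega) ⟨α, β, h⟩
      · intro i j hij
        have := congrArg Fin.val hij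
        unfold pos at this
        simp only at this
        apply Fin.ext
        omega
      · have h2 : (fun i : Fin r => A.N (pos r i)) = fun i : Fin r => q i ^ k i := by
          funext i
          exact hAP i
        rw [h2]
        exact hl
      · intro i
        rw [hAP]
        have := hk2 i
        omega
      · intro i
        refine ⟨hc P c0, hAfpos i, ?_, hc1⟩
        refine ⟨Polynomial.X + Polynomial.C c0, ?_⟩
        unfold hc
        ring
  · -- Selmer sets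
    rintro n hn ⟨i, hi⟩
    have hroot := hLoc m P hP
    refine hSel _ A ⟨A.F, fun L _ _ _ => hIrr _ A L⟩ rfl (pos r i)
      (dd P (some ⟨0, hm0⟩)) ?_ ?_ ?_ ?_ n ?_
    · rw [hAfpos]
      have hd : (Polynomial.X ^ 2 - Polynomial.C (dd P (some (⟨0, hm0⟩ : Fin m)))) ∣ f0 P :=
        Finset.dvd_prod_of_mem (fun k => Polynomial.X ^ 2 - Polynomial.C (dd P k))
          (Finset.mem_univ (some (⟨0, hm0⟩ : Fin m)))
      exact hd.mul_right _
    · rw [hAm, MainB.mass_host (hpos i), hν]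
      exact ⟨2 * (m + 1), by ring⟩
    · obtain ⟨x, hx⟩ := hroot.1
      refine ⟨x, ?_⟩
      rw [hAfpos, map_mul, hx, zero_mul]
    · intro p _
      obtain ⟨x, hx⟩ := hroot.2 p
      refine ⟨x, ?_⟩
      rw [hAfpos, map_mul, hx, zero_mul]
    · rw [hAP]
      apply Nat.Coprime.pow_right
      rw [Nat.coprime_comm, (hq i).coprime_iff_not_dvd]
      exact hi

theorem p_MAIN2 (hIrr : T_IRR) (hSel : T_SELM2) (hRes : T_RES) (hPP : T_P2) (hLoc : T_LOC)
    (hSEL : T_SEL2) (hHC : T_HC) (hAr : T_ARITH2) (hH : T_H2) (hComb : T_COMB)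
    (hPow : T_POW) : T_MAIN2 := by
  have key : ∀ S : Finset ℕ, S.Nonempty → (∀ p ∈ S, p.Prime) → ∃ C : Curve, ¬ C.HasPoint ℚ ∧
      ∀ n : ℕ, 1 ≤ n → (∃ p ∈ S, ¬ p ∣ n) → C.SelNonempty n := by
    intro S hS hSp
    obtain ⟨r, hr⟩ : ∃ r, S.card = r := ⟨_, rfl⟩
    have hr1 : 1 ≤ r := by rw [← hr]; exact hS.card_pos
    obtain ⟨q, hqS, hqr⟩ : ∃ q : Fin r → ℕ, (∀ i, q i ∈ S) ∧ ∀ p ∈ S, ∃ i, q i = p := by
      refine ⟨S.orderEmbOfFin hr, fun i => Finset.orderEmbOfFin_mem S hr i, ?_⟩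
      intro p hp
      have h1 : p ∈ Set.range (S.orderEmbOfFin hr) := by
        rw [Finset.range_orderEmbOfFin]
        exact hp
      exact h1
    obtain ⟨c, hc⟩ := hPow r q (fun i => (hSp _ (hqS i)).two_le)
    obtain ⟨m, hm⟩ : ∃ m, m = 2 * r := ⟨_, rfl⟩
    obtain ⟨ν, hν⟩ : ∃ ν, ν = 4 * (m + 1) + 1 := ⟨_, rfl⟩
    obtain ⟨Q, hQ, G, hG⟩ := hComb r ν c hr1 ⟨2 * (m + 1), by rw [hν]; ring⟩
    obtain ⟨P, hP, hPB⟩ := hPP m (Q + 3 + ∑ i, q i) ⟨r, by omega⟩ (by omega)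
    obtain ⟨k, -, hk2, hk3, hk4⟩ := hc (G + 2 * r * (Gam P).divisors.card ^ 2 + 2)
    obtain ⟨C, hC1, hC2⟩ := main_auxB hIrr hSel hRes hLoc hSEL hHC hAr hH r m ν c Q G
      hr1 hm hν q (fun i => hSp _ (hqS i)) hQ hG P hP hPB k hk2 hk3 hk4
    refine ⟨C, hC1, ?_⟩
    rintro n hn ⟨p, hpS, hpn⟩
    apply hC2 n hn
    obtain ⟨i, rfl⟩ := hqr p hpS
    exact ⟨i, hpn⟩
  intro S hS
  rcases S.eq_empty_or_nonempty with rfl | hne
  · obtain ⟨C, hC, -⟩ := key {2} ⟨2, Finset.mem_singleton_self 2⟩ (by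
      intro p hp
      rw [Finset.mem_singleton] at hp
      rw [hp]
      exact Nat.prime_two)
    refine ⟨C, hC, ?_⟩
    rintro n hn ⟨p, hp, -⟩
    exact absurd hp (Finset.notMem_empty p)
  · exact key S hne hS

end Pool.Agent.FD
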