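import Pool.Agent.FD.Targets

/-!
# A place with a given centre at a smooth point
-/

open MvPolynomial

namespace Pool.Agent.FD

namespace PlaceAux

variable {L K : Type} [Field L] [Field K] [Algebra L K]

/-- Taylor expansion to first order. -/
theorem exists_expand (θ : L) (a : MvPolynomial (Fin 2) L) :
    ∃ c d : MvPolynomial (Fin 2) L, a = (X 0 - C θ) * c + X 1 * d + C (eval ![θ, 0] a) := by
  induction a using MvPolynomial.induction_on with
  | C r => exact ⟨0, 0, by simp⟩
  | add p q hp hq =>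
    obtain ⟨c, d, h⟩ := hp
    obtain ⟨c', d', h'⟩ := hq
    refine ⟨c + c', d + d', ?_⟩
    rw [map_add, C_add]
    linear_combination h + h'
  | mul_X p i hp =>
    obtain ⟨c, d, h⟩ := hp
    fin_cases i
    · refine ⟨p + C θ * c, C θ * d, ?_⟩
      simp only [Fin.zero_eta, map_mul, eval_X, Matrix.cons_val_zero, C_mul]
      linear_combination (C θ) * h
    · refine ⟨0, p, ?_⟩
      have h0 : eval ![θ, 0] (p * X 1) = 0 := by
        rw [map_mul, eval_X]
        simp
      simp only [Fin.mk_one]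
      rw [h0, C_0]
      ring

section

variable (t z : K) (θ : L)

/-- Units of the local ring. -/
def IsU (u : K) : Prop :=
  ∃ a b : MvPolynomial (Fin 2) L, eval ![θ, 0] a ≠ 0 ∧ eval ![θ, 0] b ≠ 0 ∧
    u * aeval ![t, z] b = aeval ![t, z] a

/-- Elements of the local ring. -/
def IsR (u : K) : Prop :=
  ∃ a b : MvPolynomial (Fin 2) L, eval ![θ, 0] b ≠ 0 ∧ u * aeval ![t, z] b = aeval ![t, z] a

variable {t z θ}

variable (h4 : ∀ H : MvPolynomial (Fin 2) L, aeval ![t, z] H = 0 → eval ![θ, 0] H = 0)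

include h4

theorem aeval_ne {b : MvPolynomial (Fin 2) L} (hb : eval ![θ, 0] b ≠ 0) :
    aeval ![t, z] b ≠ 0 := fun h => hb (h4 b h)

theorem IsU.ne_zero {u : K} (hu : IsU t z θ u) : u ≠ 0 := by
  obtain ⟨a, b, ha, hb, h⟩ := hu
  rintro rfl
  rw [zero_mul] at h
  exact aeval_ne h4 ha h.symm

omit h4 in
theorem IsU.isR {u : K} (hu : IsU t z θ u) : IsR t z θ u := by
  obtain ⟨a, b, _, hb, h⟩ := hu
  exact ⟨a, b, hb, h⟩

omit h4 in
theorem IsU.mul {u v : K} (hu : IsU t z θ u) (hv : IsU t z θ v) : IsU t z θ (u * v) := by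
  obtain ⟨a, b, ha, hb, h⟩ := hu
  obtain ⟨a', b', ha', hb', h'⟩ := hv
  refine ⟨a * a', b * b', ?_, ?_, ?_⟩
  · rw [map_mul]; exact mul_ne_zero ha ha'
  · rw [map_mul]; exact mul_ne_zero hb hb'
  · rw [map_mul, map_mul, ← h, ← h']; ring

theorem IsU.inv {u : K} (hu : IsU t z θ u) : IsU t z θ u⁻¹ := by
  have h0 := IsU.ne_zero h4 hu
  obtain ⟨a, b, ha, hb, h⟩ := hu
  refine ⟨b, a, hb, ha, ?_⟩
  rw [← h, inv_mul_cancel_left₀ h0]

omit h4 in
theorem IsR.add {u v : K} (hu : IsR t z θ u) (hv : IsR t z θ v) : IsR t z θ (u + v) := by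
  obtain ⟨a, b, hb, h⟩ := hu
  obtain ⟨a', b', hb', h'⟩ := hv
  refine ⟨a * b' + a' * b, b * b', ?_, ?_⟩
  · rw [map_mul]; exact mul_ne_zero hb hb'
  · rw [map_mul, map_add, map_mul, map_mul, ← h, ← h']; ring

omit h4 in
theorem IsR.mul {u v : K} (hu : IsR t z θ u) (hv : IsR t z θ v) : IsR t z θ (u * v) := by
  obtain ⟨a, b, hb, h⟩ := hu
  obtain ⟨a', b', hb', h'⟩ := hv
  refine ⟨a * a', b * b', ?_, ?_⟩
  · rw [map_mul]; exact mul_ne_zero hb hb'
  · rw [map_mul, map_mul, ← h, ← h']; ring

omit h4 in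
theorem IsR.zpow_z (k : ℕ) : IsR t z θ (z ^ k) := by
  refine ⟨X 1 ^ k, 1, ?_, ?_⟩
  · rw [map_one]; exact one_ne_zero
  · rw [map_one, mul_one, map_pow, aeval_X]
    rfl

/-- The key non-divisibility: `z ^ k * r` is not a unit for `k > 0`. -/
theorem not_isU_pow_mul {r : K} (hr : IsR t z θ r) {k : ℕ} (hk : 0 < k) :
    ¬ IsU t z θ (z ^ k * r) := by
  rintro ⟨a, b, ha, hb, h⟩
  obtain ⟨a', b', hb', h'⟩ := hr
  have h1 : aeval ![t, z] (X 1 ^ k * a' * b - a * b') = 0 := by
    rw [map_sub, map_mul, map_mul, map_pow, aeval_X, map_mul, ← h, ← h']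
    simp only [Matrix.cons_val_one, Matrix.cons_val_fin_one]
    ring
  have h2 := h4 _ h1
  rw [map_sub, map_mul, map_mul, map_pow, eval_X, map_mul] at h2
  simp only [Matrix.cons_val_one] at h2
  have h3 : ((0 : L)) ^ k = 0 := zero_pow hk.ne'
  have h5 : eval ![θ, 0] a * eval ![θ, 0] b' = 0 := by
    have : ((![θ, 0] : Fin 2 → L) 1) = 0 := rfl
    simp only [Matrix.cons_val_fin_one, h3, zero_mul, zero_sub, neg_eq_zero] at h2
    exact h2
  exact mul_ne_zero ha hb' h5

theorem zpow_unique (hz : z ≠ 0) {u v : K} (hu : IsU t z θ u) (hv : IsU t z θ v) {n m : ℤ}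
    (h : z ^ n * u = z ^ m * v) : n = m := by
  have key : ∀ {u v : K}, IsU t z θ u → IsU t z θ v → ∀ {n m : ℤ},
      z ^ n * u = z ^ m * v → ¬ n < m := by
    intro u v hu hv n m h hlt
    obtain ⟨k, hk⟩ := Int.eq_ofNat_of_zero_le (sub_nonneg.2 hlt.le)
    have hk0 : 0 < k := by
      rcases Nat.eq_zero_or_pos k with h0 | h0
      · subst h0; simp at hk; omega
      · exact h0
    have hm : m = n + k := by omega
    have h1 : u = z ^ k * v := by
      rw [hm, zpow_add₀ hz, zpow_natCast, mul_assoc] at h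
      exact mul_left_cancel₀ (zpow_ne_zero n hz) h
    exact not_isU_pow_mul h4 hv.isR hk0 (h1 ▸ hu)
  rcases lt_trichotomy n m with h1 | h1 | h1
  · exact absurd h1 (key hu hv h)
  · exact h1
  · exact absurd h1 (key hv hu h.symm)

/-- Existence of the order, from the fact that the local ring is a discrete valuation ring. -/
theorem exists_ord (hz : z ≠ 0)
    (h3 : ∀ f : K, ∃ a b : MvPolynomial (Fin 2) L, aeval ![t, z] b ≠ 0 ∧
      f * aeval ![t, z] b = aeval ![t, z] a)
    (h5 : ∃ U W : MvPolynomial (Fin 2) L, eval ![θ, 0] U ≠ 0 ∧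
      (t - algebraMap L K θ) * aeval ![t, z] U = z * aeval ![t, z] W)
    {f : K} (hf : f ≠ 0) : ∃ (n : ℤ) (u : K), IsU t z θ u ∧ f = z ^ n * u := by
  classical
  let ev : MvPolynomial (Fin 2) L →+* L := eval ![θ, 0]
  let φ : MvPolynomial (Fin 2) L →+* K := (aeval ![t, z] : MvPolynomial (Fin 2) L →ₐ[L] K)
  let 𝔭 : Ideal (MvPolynomial (Fin 2) L) := RingHom.ker ev
  have : 𝔭.IsPrime := RingHom.ker_isPrime ev
  let S := Localization.AtPrime 𝔭
  have hφ : ∀ y : 𝔭.primeCompl, IsUnit (φ y) := by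
    intro y
    exact (aeval_ne h4 (fun h => y.2 h)).isUnit
  let ψ : S →+* K := IsLocalization.lift hφ
  have hψ : ∀ a, ψ (algebraMap _ S a) = aeval ![t, z] a := fun a => IsLocalization.lift_eq hφ a
  let R : Subring K := ψ.range
  -- membership
  have hmem : ∀ {r : K}, IsR t z θ r → r ∈ R := by
    rintro r ⟨a, b, hb, h⟩
    have hb' : b ∈ 𝔭.primeCompl := fun h => hb h
    refine ⟨IsLocalization.mk' S a ⟨b, hb'⟩, ?_⟩
    have h0 := congrArg ψ (IsLocalization.mk'_spec S a (⟨b, hb'⟩ : 𝔭.primeCompl))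
    rw [map_mul, hψ, hψ] at h0
    exact mul_right_cancel₀ (aeval_ne h4 hb) (h0.trans h.symm)
  have hmem' : ∀ {r : K}, r ∈ R → IsR t z θ r := by
    rintro r ⟨s, rfl⟩
    obtain ⟨a, b, rfl⟩ := IsLocalization.exists_mk'_eq 𝔭.primeCompl s
    refine ⟨a, b, fun h => b.2 h, ?_⟩
    have h0 := congrArg ψ (IsLocalization.mk'_spec S a b)
    rw [map_mul, hψ, hψ] at h0
    exact h0
  have hzR : z ∈ R := hmem (by simpa using IsR.zpow_z (t := t) (θ := θ) (z := z) 1)
  let zR : R := ⟨z, hzR⟩
  have hzR0 : zR ≠ 0 := fun h => hz (congrArg Subtype.val h)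
  have : IsNoetherianRing S := IsLocalization.isNoetherianRing 𝔭.primeCompl S inferInstance
  have : IsNoetherianRing R :=
    isNoetherianRing_of_surjective S R ψ.rangeRestrict ψ.rangeRestrict_surjective
  have : IsLocalRing R := IsLocalRing.of_surjective' ψ.rangeRestrict ψ.rangeRestrict_surjective
  -- units
  have hunit : ∀ r : R, IsUnit r ↔ IsU t z θ (r : K) := by
    intro r
    constructor
    · rintro ⟨u, rfl⟩
      obtain ⟨a, b, hb, h⟩ := hmem' (u : R).2
      obtain ⟨a', b', hb', h'⟩ := hmem' ((u⁻¹ : Rˣ) : R).2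
      refine ⟨a, b, ?_, hb, h⟩
      intro ha
      have h1 : (((u : R) : K)) * (((u⁻¹ : Rˣ) : R) : K) = 1 := by
        have := congrArg Subtype.val (Units.mul_inv u)
        exact this
      have h2 : aeval ![t, z] (a * a' - b * b') = 0 := by
        rw [map_sub, map_mul, map_mul, ← h, ← h']
        linear_combination (aeval ![t, z] b) * (aeval ![t, z] b') * h1
      have h3 := h4 _ h2
      rw [map_sub, map_mul, map_mul, ha, zero_mul, zero_sub, neg_eq_zero] at h3
      exact mul_ne_zero hb hb' h3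
    · intro hu
      have h1 := IsU.inv h4 hu
      have h0 := IsU.ne_zero h4 hu
      refine IsUnit.of_mul_eq_one (⟨(r : K)⁻¹, hmem h1.isR⟩ : R) ?_
      ext
      exact mul_inv_cancel₀ h0
  have hmax : IsLocalRing.maximalIdeal R = Ideal.span {zR} := by
    apply le_antisymm
    · intro r hr
      rw [IsLocalRing.mem_maximalIdeal, mem_nonunits_iff, hunit] at hr
      obtain ⟨a, b, hb, h⟩ := hmem' r.2
      have ha : eval ![θ, 0] a = 0 := by
        by_contra ha
        exact hr ⟨a, b, ha, hb, h⟩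
      obtain ⟨U, W, hU, hUW⟩ := h5
      obtain ⟨c, d, hcd⟩ := exists_expand θ a
      rw [ha, C_0, add_zero] at hcd
      have hφa : aeval ![t, z] a = (t - algebraMap L K θ) * aeval ![t, z] c +
          z * aeval ![t, z] d := by
        conv_lhs => rw [hcd]
        simp only [map_add, map_mul, map_sub, aeval_X, aeval_C, Matrix.cons_val_zero,
          Matrix.cons_val_one, Matrix.cons_val_fin_one]
      have hb0 := aeval_ne h4 hb
      have hU0 := aeval_ne h4 hU
      rw [Ideal.mem_span_singleton]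
      have hq : IsR t z θ ((aeval ![t, z] W * aeval ![t, z] c + aeval ![t, z] U * aeval ![t, z] d) /
          (aeval ![t, z] U * aeval ![t, z] b)) := by
        refine ⟨W * c + U * d, U * b, ?_, ?_⟩
        · rw [map_mul]; exact mul_ne_zero hU hb
        · simp only [map_mul, map_add]
          rw [div_mul_cancel₀ _ (mul_ne_zero hU0 hb0)]
      refine ⟨⟨_, hmem hq⟩, ?_⟩
      ext
      change (r : K) = z * _
      rw [mul_div_assoc', eq_div_iff (mul_ne_zero hU0 hb0)]
      linear_combination (aeval ![t, z] U) * h + (aeval ![t, z] U) * hφa +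
        (aeval ![t, z] c) * hUW
    · rw [Ideal.span_singleton_le_iff_mem, IsLocalRing.mem_maximalIdeal, mem_nonunits_iff, hunit]
      have := not_isU_pow_mul h4 (r := (1 : K)) (⟨1, 1, by simp, by simp⟩) (k := 1) one_pos
      simpa using this
  have hnf : ¬ IsField R := by
    rw [IsLocalRing.isField_iff_maximalIdeal_eq, hmax, Ideal.span_singleton_eq_bot]
    exact hzR0
  have : IsDiscreteValuationRing R :=
    ((IsDiscreteValuationRing.TFAE R hnf).out 0 4 (by rfl) (by rfl)).mpr
      (⟨zR, hmax⟩ : (IsLocalRing.maximalIdeal R).IsPrincipal)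
  have hirr : Irreducible zR := (IsDiscreteValuationRing.irreducible_iff_uniformizer zR).2 hmax
  have hpoly : ∀ a : MvPolynomial (Fin 2) L, aeval ![t, z] a ≠ 0 →
      ∃ (n : ℕ) (u : K), IsU t z θ u ∧ aeval ![t, z] a = z ^ n * u := by
    intro a ha
    have haR : aeval ![t, z] a ∈ R := hmem ⟨a, 1, by simp, by simp⟩
    obtain ⟨n, u, hu⟩ := IsDiscreteValuationRing.eq_unit_mul_pow_irreducible
      (x := (⟨_, haR⟩ : R)) (fun h => ha (congrArg Subtype.val h)) hirr
    refine ⟨n, ((u : R) : K), (hunit _).1 u.isUnit, ?_⟩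
    have := congrArg Subtype.val hu
    rw [mul_comm]
    exact this
  obtain ⟨a, b, hb, hab⟩ := h3 f
  have ha : aeval ![t, z] a ≠ 0 := by
    rw [← hab]; exact mul_ne_zero hf hb
  obtain ⟨n, u, hu, hn⟩ := hpoly a ha
  obtain ⟨m, v, hv, hm⟩ := hpoly b hb
  have hv0 := IsU.ne_zero h4 hv
  refine ⟨(n : ℤ) - m, u * v⁻¹, hu.mul (IsU.inv h4 hv), ?_⟩
  rw [hn, hm] at hab
  rw [zpow_sub₀ hz, zpow_natCast, zpow_natCast]
  have hzm : z ^ m ≠ 0 := pow_ne_zero _ hz
  field_simp
  linear_combination hab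

open Classical in
/-- The order. -/
noncomputable def ordF (t z : K) (θ : L) (f : K) : ℤ :=
  if h : ∃ (n : ℤ) (u : K), IsU t z θ u ∧ f = z ^ n * u then h.choose else 0

theorem ordF_eq (hz : z ≠ 0) {f u : K} {n : ℤ} (hu : IsU t z θ u) (h : f = z ^ n * u) :
    ordF t z θ f = n := by
  have hex : ∃ (n : ℤ) (u : K), IsU t z θ u ∧ f = z ^ n * u := ⟨n, u, hu, h⟩
  unfold ordF
  rw [dif_pos hex]
  obtain ⟨v, hv, h'⟩ := hex.choose_spec
  exact zpow_unique h4 hz hv hu (h'.symm.trans h)

theorem isR_of_nonneg {u : K} (hu : IsU t z θ u) (n : ℕ) : IsR t z θ (z ^ n * u) :=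
  (IsR.zpow_z n).mul hu.isR

theorem nonneg_of_isR (hz : z ≠ 0) {u : K} {n : ℤ} (hu : IsU t z θ u)
    (h : IsR t z θ (z ^ n * u)) : 0 ≤ n := by
  by_contra hn
  obtain ⟨k, hk⟩ := Int.eq_ofNat_of_zero_le (show 0 ≤ -n by omega)
  have hk0 : 0 < k := by
    rcases Nat.eq_zero_or_pos k with h0 | h0
    · subst h0; simp at hk; omega
    · exact h0
  refine not_isU_pow_mul h4 h hk0 ?_
  have : z ^ k * (z ^ n * u) = u := by
    rw [← mul_assoc, ← zpow_natCast, ← zpow_add₀ hz]
    have : (k : ℤ) + n = 0 := by omega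
    rw [this, zpow_zero, one_mul]
  rw [this]
  exact hu

end

end PlaceAux

open PlaceAux in
theorem p_PLACE : T_PLACE := by
  intro L K _ _ _ t z θ hz ht h3 h4 h5
  have hex : ∀ {f : K}, f ≠ 0 → ∃ (n : ℤ) (u : K), IsU t z θ u ∧ f = z ^ n * u :=
    fun hf => exists_ord h4 hz h3 h5 hf
  have hU1 : IsU t z θ (1 : K) := ⟨1, 1, by simp, by simp, by simp⟩
  have h0 : ordF t z θ (0 : K) = 0 := by
    unfold ordF
    rw [dif_neg]
    rintro ⟨n, u, hu, h⟩
    exact mul_ne_zero (zpow_ne_zero n hz) (IsU.ne_zero h4 hu) h.symm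
  have hz1 : ordF t z θ z = 1 := ordF_eq h4 hz hU1 (by rw [zpow_one, mul_one])
  have hconst : ∀ a : L, a ≠ 0 → IsU t z θ (algebraMap L K a) := by
    intro a ha
    refine ⟨C a, 1, ?_, by simp, by simp⟩
    rw [eval_C]; exact ha
  let v : Place L K :=
    { ord := ordF t z θ
      ord_zero := h0
      ord_mul := by
        intro f g hf hg
        obtain ⟨n, u, hu, h⟩ := hex hf
        obtain ⟨m, w, hw, h'⟩ := hex hg
        rw [ordF_eq h4 hz hu h, ordF_eq h4 hz hw h']
        refine ordF_eq h4 hz (hu.mul hw) ?_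
        rw [zpow_add₀ hz, h, h']; ring
      ord_add := by
        intro f g hf hg hfg
        have key : ∀ {f g : K} {n m : ℤ} {u w : K}, f + g ≠ 0 → IsU t z θ u → IsU t z θ w →
            f = z ^ n * u → g = z ^ m * w → n ≤ m → n ≤ ordF t z θ (f + g) := by
          intro f g n m u w hfg hu hw h h' hnm
          obtain ⟨k, hk⟩ := Int.eq_ofNat_of_zero_le (sub_nonneg.2 hnm)
          have hm : m = n + k := by omega
          have h1 : f + g = z ^ n * (u + z ^ k * w) := by
            rw [h, h', hm, zpow_add₀ hz, zpow_natCast]; ring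
          have hr : IsR t z θ (u + z ^ k * w) := hu.isR.add (isR_of_nonneg h4 hw k)
          have hr0 : u + z ^ k * w ≠ 0 := by
            intro h0
            rw [h0, mul_zero] at h1
            exact hfg h1
          obtain ⟨j, x, hx, hj⟩ := hex hr0
          rw [hj] at hr
          have hj0 := nonneg_of_isR h4 hz hx hr
          rw [hj, ← mul_assoc, ← zpow_add₀ hz] at h1
          rw [ordF_eq h4 hz hx h1]
          omega
        obtain ⟨n, u, hu, h⟩ := hex hf
        obtain ⟨m, w, hw, h'⟩ := hex hg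
        rw [ordF_eq h4 hz hu h, ordF_eq h4 hz hw h']
        rcases le_total n m with hnm | hnm
        · exact (min_le_left _ _).trans (key hfg hu hw h h' hnm)
        · rw [add_comm]
          rw [add_comm] at hfg
          exact (min_le_right _ _).trans (key hfg hw hu h' h hnm)
      ord_const := by
        intro a
        rcases eq_or_ne a 0 with rfl | ha
        · rw [map_zero, h0]
        · exact ordF_eq h4 hz (hconst a ha) (by rw [zpow_zero, one_mul])
      exists_ord_one := ⟨z, hz1⟩ }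
  refine ⟨v, hz1, ?_, ?_⟩
  · have hne : t - algebraMap L K θ ≠ 0 := sub_ne_zero.2 ht
    obtain ⟨U, W, hU, hUW⟩ := h5
    have hU0 := aeval_ne h4 hU
    have hW0 : aeval ![t, z] W ≠ 0 := by
      intro h
      rw [h, mul_zero] at hUW
      exact mul_ne_zero hne hU0 hUW
    obtain ⟨n, u, hu, h⟩ := hex hW0
    have hn : 0 ≤ n := nonneg_of_isR h4 hz hu (by rw [← h]; exact ⟨W, 1, by simp, by simp⟩)
    have hUU : IsU t z θ (aeval ![t, z] U)⁻¹ := IsU.inv h4 ⟨U, 1, hU, by simp, by simp⟩
    have h1 : t - algebraMap L K θ = z ^ (1 + n) * (u * (aeval ![t, z] U)⁻¹) := by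
      rw [zpow_add₀ hz, zpow_one]
      field_simp
      rw [hUW, h]; ring
    change 0 < ordF t z θ (t - algebraMap L K θ)
    rw [ordF_eq h4 hz (hu.mul hUU) h1]
    omega
  · intro w hwz hwt
    have hwt0 : 0 ≤ w.ord t := by
      have h1 : t = (t - algebraMap L K θ) + algebraMap L K θ := by ring
      rw [h1]
      exact w.toDV.ord_add_nonneg hwt.le (w.ord_const θ).ge
    have hpoly : ∀ a : MvPolynomial (Fin 2) L, 0 ≤ w.ord (aeval ![t, z] a) := by
      intro a
      induction a using MvPolynomial.induction_on with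
      | C r => rw [aeval_C, w.ord_const]
      | add p q hp hq => rw [map_add]; exact w.toDV.ord_add_nonneg hp hq
      | mul_X p i hp =>
        rw [map_mul, aeval_X]
        refine w.toDV.ord_mul_nonneg hp ?_
        fin_cases i
        · exact hwt0
        · exact hwz.le
    have hunit : ∀ a : MvPolynomial (Fin 2) L, eval ![θ, 0] a ≠ 0 →
        w.ord (aeval ![t, z] a) = 0 := by
      intro a ha
      obtain ⟨c, d, hcd⟩ := exists_expand θ a
      have hφa : aeval ![t, z] a = algebraMap L K (eval ![θ, 0] a) +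
          ((t - algebraMap L K θ) * aeval ![t, z] c + z * aeval ![t, z] d) := by
        conv_lhs => rw [hcd]
        simp only [map_add, map_mul, map_sub, aeval_X, aeval_C, Matrix.cons_val_zero,
          Matrix.cons_val_one, Matrix.cons_val_fin_one]
        ring
      have hca : algebraMap L K (eval ![θ, 0] a) ≠ 0 := by
        rw [Ne, map_eq_zero]; exact ha
      rw [hφa]
      have h1 : (t - algebraMap L K θ) * aeval ![t, z] c + z * aeval ![t, z] d = 0 ∨
          w.toDV.ord (algebraMap L K (eval ![θ, 0] a)) <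
            w.toDV.ord ((t - algebraMap L K θ) * aeval ![t, z] c + z * aeval ![t, z] d) := by
        have hc : w.toDV.ord (algebraMap L K (eval ![θ, 0] a)) = 0 := w.ord_const _
        rw [hc]
        -- positivity of the two summands
        have hpos : ∀ {x : K} (y : MvPolynomial (Fin 2) L), 0 < w.ord x →
            x * aeval ![t, z] y = 0 ∨ 0 < w.ord (x * aeval ![t, z] y) := by
          intro x y hx
          rcases eq_or_ne (aeval ![t, z] y) 0 with h | h
          · left; rw [h, mul_zero]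
          · right
            rw [w.ord_mul _ _ (w.toDV.ne_zero_of_ord_ne hx.ne') h]
            have := hpoly y
            omega
        rcases hpos c hwt with h1 | h1
        · rw [h1, zero_add]
          exact hpos d hwz
        · rcases hpos d hwz with h2 | h2
          · rw [h2, add_zero]
            exact Or.inr h1
          · rcases eq_or_ne ((t - algebraMap L K θ) * aeval ![t, z] c + z * aeval ![t, z] d) 0
              with h | h
            · exact Or.inl h
            · right
              refine lt_of_lt_of_le (lt_min h1 h2) (w.ord_add _ _ ?_ ?_ h)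
              · exact w.toDV.ne_zero_of_ord_ne h1.ne'
              · exact w.toDV.ne_zero_of_ord_ne h2.ne'
      have h2 := w.toDV.ord_add_eq hca h1
      have h3 : w.ord (algebraMap L K (eval ![θ, 0] a) +
          ((t - algebraMap L K θ) * aeval ![t, z] c + z * aeval ![t, z] d)) =
          w.ord (algebraMap L K (eval ![θ, 0] a)) := h2
      rw [h3, w.ord_const]
    have hU : ∀ {u : K}, IsU t z θ u → w.ord u = 0 := by
      intro u hu
      have hu0 := IsU.ne_zero h4 hu
      obtain ⟨a, b, ha, hb, h⟩ := hu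
      have h1 := w.ord_mul u (aeval ![t, z] b) hu0 (aeval_ne h4 hb)
      rw [h, hunit a ha, hunit b hb] at h1
      omega
    have hzpow : ∀ n : ℤ, w.ord (z ^ n) = n * w.ord z := by
      intro n
      rcases Int.eq_nat_or_neg n with ⟨k, rfl | rfl⟩
      · rw [zpow_natCast]; exact w.toDV.ord_pow z k
      · rw [zpow_neg, zpow_natCast]
        have h1 : w.ord (z ^ k)⁻¹ = - w.ord (z ^ k) := w.toDV.ord_inv _
        have h2 : w.ord (z ^ k) = k * w.ord z := w.toDV.ord_pow z k
        rw [h1, h2]; ring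
    have hall : ∀ {f : K}, f ≠ 0 → w.ord f = v.ord f * w.ord z := by
      intro f hf
      obtain ⟨n, u, hu, h⟩ := hex hf
      have h1 : v.ord f = n := ordF_eq h4 hz hu h
      rw [h1, h, w.ord_mul _ _ (zpow_ne_zero n hz) (IsU.ne_zero h4 hu), hU hu, hzpow, add_zero]
    obtain ⟨f, hf⟩ := w.exists_ord_one
    have hf0 : f ≠ 0 := by
      rintro rfl
      rw [w.ord_zero] at hf
      exact zero_ne_one hf
    have he : w.ord z = 1 := by
      have h1 := hall hf0
      rw [hf] at h1
      have h2 : w.ord z ∣ 1 := ⟨v.ord f, by rw [h1]; ring⟩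
      have h3 := Int.le_of_dvd one_pos h2
      omega
    ext f
    rcases eq_or_ne f 0 with rfl | hf
    · rw [w.ord_zero, v.ord_zero]
    · rw [hall hf, he, mul_one]

end Pool.Agent.FD
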