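import Pool.Agent.FD.TargetsB

/-!
# Spread out prime powers with bounded ratios
-/

namespace Pool.Agent.FD

namespace Pow_

/-- the least power of `q` that is at least `M` -/
theorem exists_pow (q M : ℕ) (hq : 2 ≤ q) : ∃ k, 1 ≤ k ∧ M ≤ q ^ k ∧ q ^ k ≤ q * (M + 1) := by
  have hex : ∃ k, M + 1 ≤ q ^ k := ⟨M + 1, (Nat.lt_pow_self (by omega : 1 < q)).le⟩
  have h1 := Nat.find_spec hex
  set k := Nat.find hex with hk
  rcases Nat.eq_zero_or_pos k with h0 | h0
  · refine ⟨1, le_rfl, ?_, ?_⟩
    · rw [h0, pow_zero] at h1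
      rw [pow_one]
      omega
    · rw [pow_one]
      exact Nat.le_mul_of_pos_right q (Nat.succ_pos M)
  · refine ⟨k, h0, by omega, ?_⟩
    have h2 := Nat.find_min hex (m := k - 1) (by omega)
    push Not at h2
    have h3 : q ^ k = q * q ^ (k - 1) := by
      rw [← pow_succ']
      congr 1
      omega
    rw [h3]
    exact Nat.mul_le_mul_left q h2.le

theorem main (r : ℕ) (q : Fin r → ℕ) (hq : ∀ i, 2 ≤ q i) (B : ℕ) (hB : ∀ i, q i ≤ B) (G : ℕ) :
    ∃ k : Fin r → ℕ, (∀ i, 1 ≤ k i) ∧ (∀ i, G + 1 ≤ q i ^ k i) ∧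
    (∀ i j : Fin r, i < j → 2 * q i ^ k i ≤ q j ^ k j) ∧
    (∀ i : Fin r, q i ^ k i ≤ (3 * B) ^ (i.val + 1) * (G + 1)) := by
  induction r with
  | zero => exact ⟨fun i => i.elim0, fun i => i.elim0, fun i => i.elim0, fun i => i.elim0,
      fun i => i.elim0⟩
  | succ r ih =>
    obtain ⟨k, hk1, hk2, hk3, hk4⟩ := ih (fun i => q i.castSucc) (fun i => hq _)
      (fun i => hB _)
    have hB2 : 2 ≤ B := le_trans (hq (Fin.last r)) (hB _)
    set M : ℕ := 2 * ((3 * B) ^ r * (G + 1)) with hM
    obtain ⟨e, he1, he2, he3⟩ := exists_pow (q (Fin.last r)) M (hq _)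
    have hpow : 1 ≤ (3 * B) ^ r := Nat.one_le_pow _ _ (by omega)
    obtain ⟨k', hkl, hkc⟩ : ∃ k' : Fin (r + 1) → ℕ, k' (Fin.last r) = e ∧
        ∀ i : Fin r, k' i.castSucc = k i :=
      ⟨Fin.snoc (α := fun _ => ℕ) k e, Fin.snoc_last _ _, fun i => Fin.snoc_castSucc _ _ _⟩
    refine ⟨k', ?_, ?_, ?_, ?_⟩
    · intro i
      refine Fin.lastCases ?_ (fun i => ?_) i
      · rw [hkl]; exact he1
      · rw [hkc]; exact hk1 i
    · intro i
      refine Fin.lastCases ?_ (fun i => ?_) i
      · rw [hkl]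
        refine le_trans ?_ he2
        rw [hM]
        nlinarith
      · rw [hkc]; exact hk2 i
    · intro i j
      refine Fin.lastCases ?_ (fun j => ?_) j
      · refine Fin.lastCases ?_ (fun i => ?_) i
        · intro h
          exact absurd h (lt_irrefl _)
        · intro _
          rw [hkl, hkc]
          refine le_trans ?_ he2
          rw [hM]
          refine Nat.mul_le_mul_left 2 (le_trans (hk4 i) ?_)
          refine Nat.mul_le_mul_right _ ?_
          exact Nat.pow_le_pow_right (by omega) (by have := i.isLt; omega)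
      · refine Fin.lastCases ?_ (fun i => ?_) i
        · intro h
          exact absurd h (not_lt.mpr (Fin.le_last _))
        · intro h
          rw [hkc, hkc]
          exact hk3 i j (by simpa using h)
    · intro i
      refine Fin.lastCases ?_ (fun i => ?_) i
      · rw [hkl]
        refine le_trans he3 ?_
        have h1 : M + 1 ≤ 3 * ((3 * B) ^ r * (G + 1)) := by
          rw [hM]
          nlinarith
        calc q (Fin.last r) * (M + 1) ≤ B * (3 * ((3 * B) ^ r * (G + 1))) :=
              Nat.mul_le_mul (hB _) h1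
          _ = (3 * B) ^ ((Fin.last r).val + 1) * (G + 1) := by
              rw [Fin.val_last, pow_succ]
              ring
      · rw [hkc]
        exact hk4 i

end Pow_

theorem p_POW : T_POW := by
  intro r q hq
  obtain ⟨B, hB⟩ : ∃ B, ∀ i, q i ≤ B := ⟨∑ i, q i, fun i =>
    Finset.single_le_sum (f := q) (fun _ _ => Nat.zero_le _) (Finset.mem_univ i)⟩
  refine ⟨(3 * B) ^ r, fun G => ?_⟩
  obtain ⟨k, hk1, hk2, hk3, hk4⟩ := Pow_.main r q hq B hB G
  refine ⟨k, hk1, fun i => le_trans (Nat.le_succ G) (hk2 i), ?_, ?_⟩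
  · intro i j hij
    have h1 := hk3 i j hij
    have h2 := hk2 i
    omega
  · intro i j
    refine le_trans (hk4 i) ?_
    have hB2 : 2 ≤ B := le_trans (hq i) (hB i)
    refine Nat.mul_le_mul (Nat.pow_le_pow_right (by omega) ?_) (hk2 j)
    have := i.isLt
    omega

end Pool.Agent.FD
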