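import Pool.Agent.FD.Targets

/-!
# The divisor of the function `g_i - θ`
-/

open MvPolynomial

namespace Pool.Agent.FD

namespace Prin_

section Place

variable {L K : Type} [Field L] [Field K] [Algebra L K] (v : Place L K)

theorem ord_sub_const_of_neg {z : K} (hz : v.ord z < 0) (a : L) :
    v.ord (z - algebraMap L K a) = v.ord z := by
  rw [sub_eq_add_neg, ← map_neg]
  exact v.toDV.ord_add_eq_of_neg hz (v.ord_const (-a)).ge

theorem ord_sub_const_nonneg {z : K} (hz : 0 ≤ v.ord z) (a : L) :
    0 ≤ v.ord (z - algebraMap L K a) := by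
  rw [sub_eq_add_neg, ← map_neg]
  exact v.toDV.ord_add_nonneg hz (v.ord_const (-a)).ge

theorem ord_aeval_nonneg (q : Polynomial L) {z : K} (hz : 0 ≤ v.ord z) :
    0 ≤ v.ord (Polynomial.aeval z q) := by
  induction q using Polynomial.induction_on' with
  | add p q hp hq => rw [map_add]; exact v.toDV.ord_add_nonneg hp hq
  | monomial n a =>
    rw [Polynomial.aeval_monomial]
    refine v.toDV.ord_mul_nonneg (v.ord_const a).ge ?_
    have := v.toDV.ord_pow z n
    rw [this]
    exact mul_nonneg (Int.natCast_nonneg n) hz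

/-- A nonzero constant plus something of positive order has order zero. -/
theorem ord_const_add {z : K} {a : L} (ha : a ≠ 0) (hz : z = 0 ∨ 0 < v.ord z) :
    v.ord (algebraMap L K a + z) = 0 := by
  have ha' : algebraMap L K a ≠ 0 := by
    rw [Ne, map_eq_zero_iff _ (algebraMap L K).injective]
    exact ha
  rw [← v.ord_const a]
  apply v.toDV.ord_add_eq ha'
  rcases hz with h | h
  · exact Or.inl h
  · right
    show v.ord (algebraMap L K a) < v.ord z
    rw [v.ord_const]
    exact h

/-- At most one `z - θ` has positive order. -/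
theorem ord_sub_eq_zero {z : K} {a b : L} (hab : a ≠ b)
    (ha : 0 < v.ord (z - algebraMap L K a)) : v.ord (z - algebraMap L K b) = 0 := by
  have e : z - algebraMap L K b = algebraMap L K (a - b) + (z - algebraMap L K a) := by
    rw [map_sub]
    ring
  rw [e]
  exact ord_const_add v (sub_ne_zero.mpr hab) (Or.inr ha)

theorem aeval_map' [CharZero L] (f : Polynomial ℤ) (z : K) :
    Polynomial.aeval z (f.map (algebraMap ℤ L)) = Polynomial.aeval z f :=
  Polynomial.aeval_map_algebraMap L z f

/-- If `f(z)` has positive order, `z` is congruent to a root of `f`. -/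
theorem exists_root [CharZero L] [IsAlgClosed L] (f : Polynomial ℤ) (hf : f.Monic) {z : K}
    (h : 0 < v.ord (Polynomial.aeval z f)) :
    ∃ θ : L, Polynomial.aeval θ f = 0 ∧ 0 < v.ord (z - algebraMap L K θ) := by
  by_contra hcon
  push Not at hcon
  set p := f.map (algebraMap ℤ L) with hp
  have hpm : p.Monic := hf.map _
  have hs := (IsAlgClosed.splits p).eq_prod_roots_of_monic hpm
  have key : ∀ s : Multiset L, (∀ a ∈ s, Polynomial.aeval a f = 0) →
      v.ord (Polynomial.aeval z (s.map (fun a => Polynomial.X - Polynomial.C a)).prod) ≤ 0 := by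
    intro s
    induction s using Multiset.induction_on with
    | empty =>
      intro _
      simp only [Multiset.map_zero, Multiset.prod_zero, map_one]
      exact v.toDV.ord_one.le
    | cons a s ih =>
      intro hs
      rw [Multiset.map_cons, Multiset.prod_cons, map_mul]
      have h1 := hcon a (hs a (Multiset.mem_cons_self a s))
      have h2 := ih fun b hb => hs b (Multiset.mem_cons_of_mem hb)
      have e : Polynomial.aeval z (Polynomial.X - Polynomial.C a) = z - algebraMap L K a := by
        simp
      rw [e]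
      by_cases hz1 : z - algebraMap L K a = 0
      · rw [hz1, zero_mul]
        exact v.ord_zero.le
      by_cases hz2 : Polynomial.aeval z (s.map (fun a => Polynomial.X - Polynomial.C a)).prod = 0
      · rw [hz2, mul_zero]
        exact v.ord_zero.le
      rw [v.ord_mul _ _ hz1 hz2]
      omega
  have h2 := key p.roots (by
    intro a ha
    have h3 := (Polynomial.mem_roots'.mp ha).2
    rw [Polynomial.IsRoot.def, hp, Polynomial.eval_map_algebraMap] at h3
    exact h3)
  rw [← hs, hp, aeval_map'] at h2
  omega

/-- splitting off a root -/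
theorem exists_factor [CharZero L] (f : Polynomial ℤ) {θ : L} (hθ : Polynomial.aeval θ f = 0) :
    ∃ q : Polynomial L, f.map (algebraMap ℤ L) = (Polynomial.X - Polynomial.C θ) * q := by
  have : (Polynomial.X - Polynomial.C θ) ∣ f.map (algebraMap ℤ L) := by
    rw [Polynomial.dvd_iff_isRoot, Polynomial.IsRoot.def, Polynomial.eval_map_algebraMap]
    exact hθ
  exact this

theorem factor_ne [CharZero L] (f : Polynomial ℤ)
    (hsep : (f.map (Int.castRingHom ℚ)).Separable) {θ : L} {q : Polynomial L}
    (hq : f.map (algebraMap ℤ L) = (Polynomial.X - Polynomial.C θ) * q) :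
    Polynomial.eval θ q ≠ 0 := by
  have h1 : (f.map (algebraMap ℤ L)).Separable := by
    have := hsep.map (f := Rat.castHom L)
    rw [Polynomial.map_map] at this
    rwa [Subsingleton.elim (algebraMap ℤ L) ((Rat.castHom L).comp (Int.castRingHom ℚ))]
  rw [hq] at h1
  obtain ⟨a, b, hab⟩ := h1.isCoprime
  intro h0
  have := congrArg (Polynomial.eval θ) hab
  simp [h0] at this

end Place

open Classical in
/-- abstract version of `Tdiv` -/
noncomputable def tdiv {L K : Type} [Field L] [Field K] [Algebra L K] (v : Place L K) (x z : K)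
    (q : Polynomial ℤ) : ℤ :=
  if v.ord x < 0 ∧ ∃ θ : L, Polynomial.aeval θ q = 0 ∧
    0 < v.ord (z - algebraMap L K θ) then 1 else 0

open Classical in
/-- abstract version of `Tpt` -/
noncomputable def tpt {L K : Type} [Field L] [Field K] [Algebra L K] (v : Place L K) (x z : K)
    (θ : L) : ℤ :=
  if v.ord x < 0 ∧ 0 < v.ord (z - algebraMap L K θ) then 1 else 0

theorem core (h1 : T_CLASS) {ι : Type} [Fintype ι] [DecidableEq ι] (A : Arr ι) {L K : Type}
    [Field L] [CharZero L] [IsAlgClosed L] [Field K] [Algebra L K] (v : Place L K) (x y : K)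
    (hE : A.Eqn x y)
    (h2 : ∀ (i : ι) (θ : L), Polynomial.aeval θ (A.f i) = 0 → v.ord x < 0 →
      0 < v.ord (A.g i x y - algebraMap L K θ) → v.ord x = -1)
    (i : ι) (θ : L) (hθ : Polynomial.aeval θ (A.f i) = 0) :
    v.ord (A.g i x y - algebraMap L K θ) = (A.N i : ℤ) * tpt v x (A.g i x y) θ -
      ∑ j ∈ Finset.univ.erase i, (A.w i j : ℤ) * tdiv v x (A.g j x y) (A.f j) := by
  classical
  have hchar : CharZero K := charZero_of_injective_algebraMap (algebraMap L K).injective
  obtain ⟨hcl1, hcl2⟩ := h1 ι A K v.toDV x y hE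
  have hordc : v.ord ((A.c : ℤ) : K) = 0 := by
    have := v.ord_const ((A.c : ℤ) : L)
    rwa [map_intCast] at this
  have hcK : ((A.c : ℤ) : K) ≠ 0 := by
    have := A.c_ne
    exact_mod_cast this
  have hne : ∀ j, Polynomial.aeval (A.g j x y) (A.f j) ≠ 0 := by
    intro j h0
    apply hcK
    rw [← hE]
    exact Finset.prod_eq_zero (Finset.mem_univ j) h0
  -- the factor of `f_i` at `θ`
  obtain ⟨q, hq⟩ := exists_factor (A.f i) hθ
  have hfac : Polynomial.aeval (A.g i x y) (A.f i) =
      (A.g i x y - algebraMap L K θ) * Polynomial.aeval (A.g i x y) q := by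
    rw [← aeval_map' (L := L) (A.f i) (A.g i x y), hq, map_mul]
    simp
  have hfac1 : A.g i x y - algebraMap L K θ ≠ 0 := by
    intro h0
    apply hne i
    rw [hfac, h0, zero_mul]
  have hfac2 : Polynomial.aeval (A.g i x y) q ≠ 0 := by
    intro h0
    apply hne i
    rw [hfac, h0, mul_zero]
  have hfac3 : v.ord (Polynomial.aeval (A.g i x y) (A.f i)) =
      v.ord (A.g i x y - algebraMap L K θ) + v.ord (Polynomial.aeval (A.g i x y) q) := by
    rw [hfac, v.ord_mul _ _ hfac1 hfac2]
  by_cases hx0 : 0 ≤ v.ord x
  · -- affine points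
    have hy0 : 0 ≤ v.ord y := hcl1 hx0
    have hg : ∀ j, 0 ≤ v.ord (A.g j x y) := by
      intro j
      exact v.toDV.ord_add_nonneg hy0 (v.toDV.ord_aeval_nonneg (A.h j) hx0)
    have hf : ∀ j, 0 ≤ v.ord (Polynomial.aeval (A.g j x y) (A.f j)) := by
      intro j
      exact v.toDV.ord_aeval_nonneg (A.f j) (hg j)
    have hsum : ∑ j, v.ord (Polynomial.aeval (A.g j x y) (A.f j)) = 0 := by
      rw [← hordc, ← hE]
      exact (v.toDV.ord_prod Finset.univ _ (fun j _ => hne j)).symm
    have hi : v.ord (Polynomial.aeval (A.g i x y) (A.f i)) = 0 :=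
      (Finset.sum_eq_zero_iff_of_nonneg (fun j _ => hf j)).mp hsum i (Finset.mem_univ i)
    have h3 := ord_sub_const_nonneg v (hg i) θ
    have h4 := ord_aeval_nonneg v q (hg i)
    have h5 : v.ord (A.g i x y - algebraMap L K θ) = 0 := by omega
    rw [h5]
    have h6 : tpt v x (A.g i x y) θ = 0 := by
      unfold tpt
      rw [if_neg]
      rintro ⟨h7, -⟩
      exact absurd h7 (not_lt.mpr hx0)
    have h7 : ∀ j, tdiv v x (A.g j x y) (A.f j) = 0 := by
      intro j
      unfold tdiv
      rw [if_neg]
      rintro ⟨h7, -⟩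
      exact absurd h7 (not_lt.mpr hx0)
    rw [h6, Finset.sum_eq_zero (fun j _ => by rw [h7 j, mul_zero])]
    simp
  · push Not at hx0
    obtain ⟨i', hi'1, hi'2, hi'3⟩ := hcl2 hx0
    have hNpos : 0 < A.N i' := by
      unfold Arr.N
      have hex : ∃ j, j ≠ i' := by
        by_cases h : i' = A.i₀
        · exact ⟨A.i₁, by rw [h]; exact A.i₁_ne⟩
        · exact ⟨A.i₀, fun h' => h h'.symm⟩
      obtain ⟨j, hj⟩ := hex
      apply Finset.sum_pos'
      · intro k _
        exact Nat.zero_le _
      · exact ⟨j, Finset.mem_erase.mpr ⟨hj, Finset.mem_univ j⟩,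
          Nat.mul_pos (A.deg_pos j) (A.w_pos hj.symm)⟩
    have hi'4 : v.ord (Polynomial.aeval (A.g i' x y) (A.f i')) = - v.ord x * A.N i' := by
      have : v.ord (Polynomial.aeval (A.g i' x y) (A.f i')) =
        v.ord ((A.c : ℤ) : K) - v.ord x * A.N i' := hi'3
      rw [this, hordc]
      ring
    have hpos : 0 < v.ord (Polynomial.aeval (A.g i' x y) (A.f i')) := by
      rw [hi'4]
      apply mul_pos
      · omega
      · exact_mod_cast hNpos
    obtain ⟨θ', hθ', hθ'2⟩ := exists_root v (A.f i') (A.monic i') hpos
    have hx1 : v.ord x = -1 := h2 i' θ' hθ' hx0 hθ'2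
    have hneg : ∀ j, j ≠ i' → v.ord (A.g j x y) < 0 := by
      intro j hj
      have h3 : v.ord (A.g j x y) = v.ord x * A.w i' j := hi'2 j hj
      have h4 : 0 < A.w i' j := A.w_pos hj.symm
      rw [h3, hx1]
      omega
    have hTdiv0 : ∀ j, j ≠ i' → tdiv v x (A.g j x y) (A.f j) = 0 := by
      intro j hj
      unfold tdiv
      rw [if_neg]
      rintro ⟨-, a, -, ha⟩
      have := ord_sub_const_of_neg v (hneg j hj) a
      have h5 := hneg j hj
      rw [this] at ha
      omega
    have hTdiv1 : tdiv v x (A.g i' x y) (A.f i') = 1 := by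
      unfold tdiv
      rw [if_pos]
      exact ⟨hx0, θ', hθ', hθ'2⟩
    by_cases hii : i = i'
    · subst hii
      rw [Finset.sum_eq_zero (fun j hj => by
        rw [hTdiv0 j (Finset.ne_of_mem_erase hj), mul_zero])]
      rw [sub_zero]
      by_cases hpos2 : 0 < v.ord (A.g i x y - algebraMap L K θ)
      · have hT : tpt v x (A.g i x y) θ = 1 := by
          unfold tpt
          rw [if_pos]
          exact ⟨hx0, hpos2⟩
        rw [hT, mul_one]
        -- `q(g_i)` has order zero
        have hq0 : Polynomial.eval θ q ≠ 0 := factor_ne (A.f i) (A.sep i) hq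
        have hq1 : v.ord (Polynomial.aeval (A.g i x y) q) = 0 := by
          obtain ⟨r, hr⟩ : (Polynomial.X - Polynomial.C θ) ∣ q - Polynomial.C (Polynomial.eval θ q) :=
            Polynomial.X_sub_C_dvd_sub_C_eval
          have e : Polynomial.aeval (A.g i x y) q = algebraMap L K (Polynomial.eval θ q) +
              (A.g i x y - algebraMap L K θ) * Polynomial.aeval (A.g i x y) r := by
            have h5 := congrArg (Polynomial.aeval (A.g i x y)) hr
            rw [map_sub, map_mul] at h5
            simp only [map_sub, Polynomial.aeval_X, Polynomial.aeval_C] at h5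
            rw [← h5]
            ring
          rw [e]
          apply ord_const_add v hq0
          by_cases hr0 : Polynomial.aeval (A.g i x y) r = 0
          · left
            rw [hr0, mul_zero]
          · right
            rw [v.ord_mul _ _ hfac1 hr0]
            have := ord_aeval_nonneg v r hi'1
            omega
        have : v.ord (A.g i x y - algebraMap L K θ) = - v.ord x * A.N i := by
          rw [← hi'4, hfac3, hq1, add_zero]
        rw [this, hx1]
        ring
      · have hT : tpt v x (A.g i x y) θ = 0 := by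
          unfold tpt
          rw [if_neg]
          rintro ⟨-, h5⟩
          exact hpos2 h5
        rw [hT, mul_zero]
        apply ord_sub_eq_zero v (a := θ') (b := θ) _ hθ'2
        rintro rfl
        exact hpos2 hθ'2
    · have hgi := hneg i hii
      have hT : tpt v x (A.g i x y) θ = 0 := by
        unfold tpt
        rw [if_neg]
        rintro ⟨-, h5⟩
        have := ord_sub_const_of_neg v hgi θ
        rw [this] at h5
        omega
      rw [hT, mul_zero, zero_sub]
      rw [Finset.sum_eq_single i']
      · rw [hTdiv1, mul_one, ord_sub_const_of_neg v hgi θ]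
        have h3 : v.ord (A.g i x y) = v.ord x * A.w i' i := hi'2 i hii
        rw [h3, hx1, A.w_comm i i']
        ring
      · intro j _ hj2
        rw [hTdiv0 j hj2, mul_zero]
      · intro h5
        exact absurd (Finset.mem_erase.mpr ⟨fun h => hii h.symm, Finset.mem_univ i'⟩) h5

end Prin_

open Prin_ in
theorem p_PRIN (h1 : T_CLASS) (h2 : T_TPL) : T_PRIN := by
  intro ι _ _ A C hC L _ _ _ i θ hθ v
  exact core h1 A v (C.xF L) (C.yF L) (A.eqn_of_F hC L) (fun i' θ' hθ' hx0 hpos => by
    obtain ⟨v₀, hv1, -, hv3⟩ := h2 ι A C hC L i' θ' hθ'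
    rw [hv3 v hx0 hpos]
    exact hv1) i θ hθ

end Pool.Agent.FD
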