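import Pool.Agent.FD.Targets

/-!
# Rational points of arrangement curves (job RES)
-/

open MvPolynomial

namespace Pool.Agent.FD

namespace Res_

section val

variable {K : Type} [Field K] (v : DV K)

/-- zero or of positive order -/
def Sm (f : K) : Prop := f = 0 ∨ 0 < v.ord f

variable {v}

theorem Sm.nonneg {f : K} (h : Sm v f) : 0 ≤ v.ord f := by
  rcases h with rfl | h
  · rw [v.ord_zero]
  · exact h.le

theorem Sm.add {f g : K} (hf : Sm v f) (hg : Sm v g) : Sm v (f + g) := by
  rcases hf with rfl | hf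
  · rwa [zero_add]
  rcases hg with rfl | hg
  · rw [add_zero]; exact Or.inr hf
  by_cases h : f + g = 0
  · exact Or.inl h
  · right
    have hf0 := v.ne_zero_of_ord_ne hf.ne'
    have hg0 := v.ne_zero_of_ord_ne hg.ne'
    exact lt_of_lt_of_le (lt_min hf hg) (v.ord_add f g hf0 hg0 h)

theorem Sm.mul {f g : K} (hf : Sm v f) (hg : 0 ≤ v.ord g) : Sm v (f * g) := by
  rcases hf with rfl | hf
  · rw [zero_mul]; exact Or.inl rfl
  by_cases h : g = 0
  · rw [h, mul_zero]; exact Or.inl rfl
  · right
    rw [v.ord_mul f g (v.ne_zero_of_ord_ne hf.ne') h]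
    omega

theorem Sm.neg {f : K} (hf : Sm v f) : Sm v (-f) := by
  rcases hf with rfl | hf
  · rw [neg_zero]; exact Or.inl rfl
  · right
    rwa [v.ord_neg]

theorem pow_nonneg' {a : K} (ha : 0 ≤ v.ord a) (n : ℕ) : 0 ≤ v.ord (a ^ n) := by
  rw [v.ord_pow]
  positivity

theorem pow_sub_Sm {a b : K} (ha : 0 ≤ v.ord a) (hb : 0 ≤ v.ord b) (h : Sm v (a - b)) (n : ℕ) :
    Sm v (a ^ n - b ^ n) := by
  induction n with
  | zero => simp only [pow_zero, sub_self]; exact Or.inl rfl
  | succ n ih =>
    have e : a ^ (n + 1) - b ^ (n + 1) = (a - b) * a ^ n + (a ^ n - b ^ n) * b := by ring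
    rw [e]
    exact (h.mul (pow_nonneg' ha n)).add (ih.mul hb)

theorem aeval_sub_Sm (p : Polynomial ℤ) {a b : K} (ha : 0 ≤ v.ord a) (hb : 0 ≤ v.ord b)
    (h : Sm v (a - b)) : Sm v (Polynomial.aeval a p - Polynomial.aeval b p) := by
  induction p using Polynomial.induction_on' with
  | add p q hp hq =>
    rw [map_add, map_add]
    have e : Polynomial.aeval a p + Polynomial.aeval a q -
        (Polynomial.aeval b p + Polynomial.aeval b q) =
        (Polynomial.aeval a p - Polynomial.aeval b p) +
        (Polynomial.aeval a q - Polynomial.aeval b q) := by ring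
    rw [e]
    exact hp.add hq
  | monomial n c =>
    rw [Polynomial.aeval_monomial, Polynomial.aeval_monomial, ← mul_sub, mul_comm]
    refine (pow_sub_Sm ha hb h n).mul ?_
    have := v.ord_int c
    simpa using this

theorem prod_nonneg {ι : Type} (s : Finset ι) (a : ι → K) (ha : ∀ i ∈ s, 0 ≤ v.ord (a i)) :
    0 ≤ v.ord (∏ i ∈ s, a i) := by
  classical
  induction s using Finset.induction_on with
  | empty => rw [Finset.prod_empty, v.ord_one]
  | insert i s hi ih =>
    rw [Finset.prod_insert hi]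
    exact v.ord_mul_nonneg (ha i (Finset.mem_insert_self i s))
      (ih fun j hj => ha j (Finset.mem_insert_of_mem hj))

theorem prod_sub_Sm {ι : Type} (s : Finset ι) (a b : ι → K)
    (ha : ∀ i ∈ s, 0 ≤ v.ord (a i)) (hb : ∀ i ∈ s, 0 ≤ v.ord (b i))
    (h : ∀ i ∈ s, Sm v (a i - b i)) : Sm v (∏ i ∈ s, a i - ∏ i ∈ s, b i) := by
  classical
  induction s using Finset.induction_on with
  | empty => simp only [Finset.prod_empty, sub_self]; exact Or.inl rfl
  | insert i s hi ih =>
    rw [Finset.prod_insert hi, Finset.prod_insert hi]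
    have e : a i * ∏ i ∈ s, a i - b i * ∏ i ∈ s, b i =
        (a i - b i) * ∏ i ∈ s, a i + (∏ i ∈ s, a i - ∏ i ∈ s, b i) * b i := by ring
    rw [e]
    refine ((h i (Finset.mem_insert_self i s)).mul
      (prod_nonneg s a fun j hj => ha j (Finset.mem_insert_of_mem hj))).add
      ((ih (fun j hj => ha j (Finset.mem_insert_of_mem hj))
        (fun j hj => hb j (Finset.mem_insert_of_mem hj))
        fun j hj => h j (Finset.mem_insert_of_mem hj)).mul (hb i (Finset.mem_insert_self i s)))

/-- cancel a factor that is not small -/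
theorem Sm.of_mul {f g : K} (h : Sm v (f * g)) (hf : f ≠ 0) (hf' : v.ord f ≤ 0) : Sm v g := by
  by_cases hg : g = 0
  · exact Or.inl hg
  · right
    rcases h with h | h
    · exact absurd h (mul_ne_zero hf hg)
    · rw [v.ord_mul f g hf hg] at h
      omega

end val

section place

variable {L K : Type} [Field L] [Field K] [Algebra L K] (v : Place L K)

theorem const_zero (a : L) : v.toDV.ord (algebraMap L K a) = 0 := v.ord_const a

theorem exists_root_multiset (f : K) (s : Multiset L)
    (h : Sm v.toDV (Multiset.map (fun r => f - algebraMap L K r) s).prod) :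
    ∃ r ∈ s, Sm v.toDV (f - algebraMap L K r) := by
  induction s using Multiset.induction_on with
  | empty =>
    rw [Multiset.map_zero, Multiset.prod_zero] at h
    rcases h with h | h
    · exact absurd h one_ne_zero
    · rw [v.toDV.ord_one] at h
      omega
  | cons r s ih =>
    rw [Multiset.map_cons, Multiset.prod_cons] at h
    by_cases hr : Sm v.toDV (f - algebraMap L K r)
    · exact ⟨r, Multiset.mem_cons_self r s, hr⟩
    · have h1 : f - algebraMap L K r ≠ 0 := fun h0 => hr (Or.inl h0)
      have h2 : v.toDV.ord (f - algebraMap L K r) ≤ 0 := by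
        by_contra h0
        push Not at h0
        exact hr (Or.inr h0)
      obtain ⟨r', hr', h3⟩ := ih (h.of_mul h1 h2)
      exact ⟨r', Multiset.mem_cons_of_mem hr', h3⟩

theorem exists_root [IsAlgClosed L] (q : Polynomial L) (hq : q ≠ 0) (f : K)
    (h : Sm v.toDV (Polynomial.aeval f q)) :
    ∃ r : L, q.eval r = 0 ∧ Sm v.toDV (f - algebraMap L K r) := by
  have e := (IsAlgClosed.splits q).eq_prod_roots
  have e2 : Polynomial.aeval f q = algebraMap L K q.leadingCoeff *
      (Multiset.map (fun r => f - algebraMap L K r) q.roots).prod := by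
    conv_lhs => rw [e]
    rw [map_mul, Polynomial.aeval_C, map_multiset_prod, Multiset.map_map]
    congr 2
    refine Multiset.map_congr rfl fun r _ => ?_
    simp
  rw [e2] at h
  have hl : algebraMap L K q.leadingCoeff ≠ 0 := by
    rw [Ne, FaithfulSMul.algebraMap_eq_zero_iff]
    exact Polynomial.leadingCoeff_ne_zero.2 hq
  obtain ⟨r, hr, h1⟩ := exists_root_multiset v f q.roots
    (h.of_mul hl (const_zero v _).le)
  exact ⟨r, (Polynomial.mem_roots hq).1 hr, h1⟩

theorem const_unique {f : K} {a b : L} (ha : Sm v.toDV (f - algebraMap L K a))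
    (hb : Sm v.toDV (f - algebraMap L K b)) : a = b := by
  have h : Sm v.toDV (algebraMap L K (b - a)) := by
    have e : algebraMap L K (b - a) = (f - algebraMap L K a) + -(f - algebraMap L K b) := by
      rw [map_sub]; ring
    rw [e]
    exact ha.add hb.neg
  rcases h with h | h
  · rw [FaithfulSMul.algebraMap_eq_zero_iff, sub_eq_zero] at h
    exact h.symm
  · rw [const_zero] at h
    omega

end place

section poly

/-- the polynomial `∏ f_i(Y + b_i) - c` over a field -/
noncomputable def Qp {ι : Type} [Fintype ι] [DecidableEq ι] (A : Arr ι) (M : Type) [Field M]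
    (b : ι → M) : Polynomial M :=
  (∏ i, ((A.f i).map (Int.castRingHom M)).comp (Polynomial.X + Polynomial.C (b i))) -
    Polynomial.C (A.c : M)

theorem aeval_map_int {M K : Type} [Field M] [Field K] [Algebra M K] (p : Polynomial ℤ)
    (z : K) : Polynomial.aeval z (p.map (Int.castRingHom M)) = Polynomial.aeval z p := by
  rw [Polynomial.aeval_def, Polynomial.eval₂_map, Polynomial.aeval_def]
  congr 1
  exact Subsingleton.elim _ _

theorem aeval_Qp {ι : Type} [Fintype ι] [DecidableEq ι] (A : Arr ι) (M K : Type) [Field M]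
    [Field K] [Algebra M K] (b : ι → M) (y : K) :
    Polynomial.aeval y (Qp A M b) =
      (∏ i, Polynomial.aeval (y + algebraMap M K (b i)) (A.f i)) - (A.c : K) := by
  unfold Qp
  rw [map_sub, map_prod, Polynomial.aeval_C, map_intCast]
  congr 1
  refine Finset.prod_congr rfl fun i _ => ?_
  rw [Polynomial.aeval_comp, aeval_map_int, map_add, Polynomial.aeval_X, Polynomial.aeval_C]

theorem Qp_ne_zero {ι : Type} [Fintype ι] [DecidableEq ι] (A : Arr ι) (M : Type) [Field M]
    [CharZero M] (b : ι → M) : Qp A M b ≠ 0 := by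
  intro h
  unfold Qp at h
  rw [sub_eq_zero] at h
  have hm : ∀ i ∈ (Finset.univ : Finset ι),
      (((A.f i).map (Int.castRingHom M)).comp (Polynomial.X + Polynomial.C (b i))).Monic :=
    fun i _ => ((A.monic i).map _).comp_X_add_C _
  have h2 := congrArg Polynomial.natDegree h
  rw [Polynomial.natDegree_prod_of_monic _ _ hm, Polynomial.natDegree_C] at h2
  have h3 := (Finset.sum_eq_zero_iff.1 h2) A.i₀ (Finset.mem_univ _)
  rw [Polynomial.natDegree_comp, Polynomial.natDegree_X_add_C, mul_one,
    (A.monic A.i₀).natDegree_map] at h3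
  have := A.deg_pos A.i₀
  omega

end poly

section core

variable {L K : Type} [Field L] [Field K] [Algebra L K] (v : Place L K)

theorem aeval_nonneg {x : K} (hx : 0 ≤ v.toDV.ord x) (q : Polynomial L) :
    0 ≤ v.toDV.ord (Polynomial.aeval x q) := by
  induction q using Polynomial.induction_on' with
  | add p q hp hq => rw [map_add]; exact v.toDV.ord_add_nonneg hp hq
  | monomial n a =>
    rw [Polynomial.aeval_monomial]
    exact v.toDV.ord_mul_nonneg (const_zero v a).ge (pow_nonneg' hx n)

/-- a function of order one is not algebraic over a field on which the place is trivial -/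
theorem not_algebraic {M : Type} [Field M] [Algebra M K]
    (hM : ∀ a : M, a ≠ 0 → v.toDV.ord (algebraMap M K a) = 0) (t : K)
    (ht : v.toDV.ord t = 1) : ¬ IsAlgebraic M t := by
  intro h
  have ht0 : t ≠ 0 := v.toDV.ne_zero_of_ord_ne (by rw [ht]; exact one_ne_zero)
  have h1 := minpoly.coeff_zero_ne_zero h.isIntegral ht0
  have h2 := minpoly.aeval M t
  set q := minpoly M t with hq
  have hM' : ∀ a : M, 0 ≤ v.toDV.ord (algebraMap M K a) := by
    intro a
    by_cases ha : a = 0
    · rw [ha, map_zero, v.toDV.ord_zero]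
    · exact (hM a ha).ge
  have h3 : 0 ≤ v.toDV.ord (Polynomial.aeval t q.divX) := by
    generalize q.divX = r
    induction r using Polynomial.induction_on' with
    | add p q hp hq => rw [map_add]; exact v.toDV.ord_add_nonneg hp hq
    | monomial n a =>
      rw [Polynomial.aeval_monomial]
      exact v.toDV.ord_mul_nonneg (hM' a) (pow_nonneg' (by rw [ht]; exact zero_le_one) n)
  have h4 : Sm v.toDV (algebraMap M K (q.coeff 0)) := by
    have e : algebraMap M K (q.coeff 0) = -(t * Polynomial.aeval t q.divX) := by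
      have e1 := congrArg (Polynomial.aeval t) (Polynomial.divX_mul_X_add q)
      rw [map_add, map_mul, Polynomial.aeval_X, Polynomial.aeval_C, h2] at e1
      rw [eq_neg_iff_add_eq_zero, add_comm, mul_comm t]
      exact e1
    rw [e]
    refine Sm.neg (Sm.mul (Or.inr ?_) h3)
    rw [ht]
    exact one_pos
  rcases h4 with h4 | h4
  · rw [FaithfulSMul.algebraMap_eq_zero_iff] at h4
    exact h1 h4
  · rw [hM _ h1] at h4
    omega

open IntermediateField in
/-- the place has a centre on the line if `x` is regular and `K` is algebraic over `L(x)` -/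
theorem exists_center [IsAlgClosed L] {x y : K} (hx : 0 ≤ v.toDV.ord x)
    (hgen : ∀ f : K, ∃ a b : MvPolynomial (Fin 2) L, aeval ![x, y] b ≠ 0 ∧
      f * aeval ![x, y] b = aeval ![x, y] a)
    (hy : IsAlgebraic (L⟮x⟯) y) : ∃ β : L, Sm v.toDV (x - algebraMap L K β) := by
  by_contra hcon
  have hq : ∀ q : Polynomial L, q ≠ 0 → v.toDV.ord (Polynomial.aeval x q) = 0 := by
    intro q hq0
    by_contra h
    have h1 := aeval_nonneg v hx q
    obtain ⟨r, _, hr⟩ := exists_root v q hq0 x (Or.inr (lt_of_le_of_ne h1 (Ne.symm h)))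
    exact hcon ⟨r, hr⟩
  have hM : ∀ a : L⟮x⟯, a ≠ 0 → v.toDV.ord (algebraMap (L⟮x⟯) K a) = 0 := by
    intro a ha
    obtain ⟨r, s, hrs⟩ := (mem_adjoin_simple_iff L (a : K)).1 a.2
    have e : algebraMap (L⟮x⟯) K a = (a : K) := rfl
    have ha' : (a : K) ≠ 0 := fun h0 => ha (Subtype.ext h0)
    have hr0 : Polynomial.aeval x r ≠ 0 := by
      intro h0
      rw [h0, zero_div] at hrs
      exact ha' hrs
    have hs0 : Polynomial.aeval x s ≠ 0 := by
      intro h0
      rw [h0, div_zero] at hrs
      exact ha' hrs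
    have hr1 : r ≠ 0 := by
      rintro rfl
      exact hr0 (map_zero _)
    have hs1 : s ≠ 0 := by
      rintro rfl
      exact hs0 (map_zero _)
    rw [e, hrs, div_eq_mul_inv, v.toDV.ord_mul _ _ hr0 (inv_ne_zero hs0), v.toDV.ord_inv,
      hq r hr1, hq s hs1]
    rfl
  obtain ⟨t, ht⟩ := v.exists_ord_one
  refine not_algebraic v hM t ht ?_
  have hxa : IsAlgebraic (L⟮x⟯) x := by
    have := isAlgebraic_algebraMap (A := K) (AdjoinSimple.gen L x)
    rwa [AdjoinSimple.algebraMap_gen] at this
  have hall : ∀ a : MvPolynomial (Fin 2) L, IsAlgebraic (L⟮x⟯) (aeval ![x, y] a) := by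
    intro a
    induction a using MvPolynomial.induction_on with
    | C a =>
      rw [aeval_C, IsScalarTower.algebraMap_apply L (L⟮x⟯) K]
      exact isAlgebraic_algebraMap _
    | add p q hp hq => rw [map_add]; exact hp.add hq
    | mul_X p i hp =>
      rw [map_mul, aeval_X]
      refine hp.mul ?_
      fin_cases i
      · exact hxa
      · exact hy
  obtain ⟨a, b, hb, hab⟩ := hgen t
  have e : t = aeval ![x, y] a * (aeval ![x, y] b)⁻¹ := by
    rw [← hab, mul_assoc, mul_inv_cancel₀ hb, mul_one]
  rw [e]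
  exact (hall a).mul (hall b).inv

end core

section core2

variable {ι : Type} [Fintype ι] [DecidableEq ι] (A : Arr ι)

theorem N_pos (i : ι) : 0 < A.N i := by
  obtain ⟨j, hj⟩ : ∃ j, j ≠ i := by
    by_cases h : i = A.i₀
    · exact ⟨A.i₁, by rw [h]; exact A.i₁_ne⟩
    · exact ⟨A.i₀, Ne.symm h⟩
  have h1 : 0 < A.m j * A.w i j := Nat.mul_pos (A.deg_pos j) (A.w_pos (Ne.symm hj))
  unfold Arr.N
  exact lt_of_lt_of_le h1 (Finset.single_le_sum (f := fun j => A.m j * A.w i j)
    (fun _ _ => Nat.zero_le _) (Finset.mem_erase.2 ⟨hj, Finset.mem_univ _⟩))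

theorem rat_aeval {L : Type} [Field L] [CharZero L] (p : Polynomial ℤ) (r : ℚ) :
    Polynomial.aeval (r : L) p = ((Polynomial.aeval r p : ℚ) : L) := by
  rw [Polynomial.aeval_def, Polynomial.aeval_def, ← eq_ratCast (Rat.castHom L),
    ← eq_ratCast (Rat.castHom L), Polynomial.hom_eval₂]
  congr 1
  exact Subsingleton.elim _ _

open IntermediateField in
theorem core (h1 : T_CLASS) {L K : Type} [Field L] [CharZero L] [IsAlgClosed L] [Field K]
    [CharZero K] [Algebra L K] (v : Place L K) (x y : K) (hE : A.Eqn x y)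
    (hgen : ∀ f : K, ∃ a b : MvPolynomial (Fin 2) L, aeval ![x, y] b ≠ 0 ∧
      f * aeval ![x, y] b = aeval ![x, y] a)
    (hx : ∀ θ : L, Sm v.toDV (x - algebraMap L K θ) → ∃ r : ℚ, (r : L) = θ)
    (hy : ∀ θ : L, Sm v.toDV (y - algebraMap L K θ) → ∃ r : ℚ, (r : L) = θ)
    (hg : ∀ i, ∀ θ : L, Sm v.toDV (A.g i x y - algebraMap L K θ) → ∃ r : ℚ, (r : L) = θ) :
    (∃ i, ∃ θ : ℚ, Polynomial.aeval θ (A.f i) = 0) ∨ ∃ α β : ℚ, A.Eqn α β := by
  obtain ⟨hc1, hc2⟩ := h1 ι A K v.toDV x y hE
  by_cases hneg : v.toDV.ord x < 0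
  · left
    obtain ⟨i, _, _, hi⟩ := hc2 hneg
    have hc : v.toDV.ord (A.c : K) = 0 := by
      have := const_zero v (A.c : L)
      rwa [map_intCast] at this
    rw [hc, zero_sub] at hi
    have hsm : Sm v.toDV (Polynomial.aeval (A.g i x y) ((A.f i).map (Int.castRingHom L))) := by
      right
      rw [aeval_map_int, hi]
      have := N_pos A i
      have h3 : (0 : ℤ) < A.N i := by exact_mod_cast this
      nlinarith
    obtain ⟨θ, hθ, hθ2⟩ := exists_root v _ (((A.monic i).map _).ne_zero) _ hsm
    obtain ⟨r, rfl⟩ := hg i θ hθ2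
    refine ⟨i, r, ?_⟩
    have h4 : Polynomial.aeval (r : L) ((A.f i).map (Int.castRingHom L)) = 0 := by
      rwa [Polynomial.coe_aeval_eq_eval]
    rw [aeval_map_int, rat_aeval] at h4
    exact_mod_cast h4
  · right
    push Not at hneg
    have hy0 := hc1 hneg
    -- `y` is algebraic over `L(x)`
    have hya : IsAlgebraic (L⟮x⟯) y := by
      refine ⟨Qp A (L⟮x⟯) (fun i => Polynomial.aeval (AdjoinSimple.gen L x) (A.h i)),
        Qp_ne_zero A _ _, ?_⟩
      rw [aeval_Qp]
      have e : ∀ i, algebraMap (L⟮x⟯) K (Polynomial.aeval (AdjoinSimple.gen L x) (A.h i)) =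
          Polynomial.aeval x (A.h i) := by
        intro i
        rw [Polynomial.aeval_def, Polynomial.hom_eval₂, AdjoinSimple.algebraMap_gen,
          Polynomial.aeval_def]
        congr 1
      simp only [e]
      exact sub_eq_zero.2 hE
    obtain ⟨β, hβ⟩ := exists_center v hneg hgen hya
    have hβ0 : 0 ≤ v.toDV.ord (algebraMap L K β) := (const_zero v β).ge
    -- the residue of `y`
    have hsm : Sm v.toDV (Polynomial.aeval y (Qp A L (fun i => Polynomial.aeval β (A.h i)))) := by
      rw [aeval_Qp, ← (show _ = (A.c : K) from hE)]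
      have e : ∀ i, algebraMap L K (Polynomial.aeval β (A.h i)) =
          Polynomial.aeval (algebraMap L K β) (A.h i) := by
        intro i
        rw [Polynomial.aeval_def, Polynomial.hom_eval₂, Polynomial.aeval_def]
        congr 1
        exact Subsingleton.elim _ _
      simp only [e]
      have h5 : ∀ i, 0 ≤ v.toDV.ord (y + Polynomial.aeval (algebraMap L K β) (A.h i)) :=
        fun i => v.toDV.ord_add_nonneg hy0 (v.toDV.ord_aeval_nonneg _ hβ0)
      have h6 : ∀ i, 0 ≤ v.toDV.ord (A.g i x y) :=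
        fun i => v.toDV.ord_add_nonneg hy0 (v.toDV.ord_aeval_nonneg _ hneg)
      refine prod_sub_Sm _ _ _ (fun i _ => v.toDV.ord_aeval_nonneg _ (h5 i))
        (fun i _ => v.toDV.ord_aeval_nonneg _ (h6 i)) fun i _ => ?_
      refine aeval_sub_Sm _ (h5 i) (h6 i) ?_
      have e2 : y + Polynomial.aeval (algebraMap L K β) (A.h i) - A.g i x y =
          Polynomial.aeval (algebraMap L K β) (A.h i) - Polynomial.aeval x (A.h i) := by
        unfold Arr.g
        ring
      rw [e2]
      refine aeval_sub_Sm _ hβ0 hneg ?_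
      have := hβ.neg
      rwa [neg_sub] at this
    obtain ⟨α, hα, hα2⟩ := exists_root v _ (Qp_ne_zero A L _) y hsm
    obtain ⟨a, rfl⟩ := hy α hα2
    obtain ⟨b, rfl⟩ := hx β hβ
    refine ⟨b, a, ?_⟩
    have h7 : Polynomial.aeval (a : L)
        (Qp A L (fun i => Polynomial.aeval (b : L) (A.h i))) = 0 := by
      rwa [Polynomial.coe_aeval_eq_eval]
    rw [aeval_Qp, sub_eq_zero] at h7
    have h8 : ∀ i, Polynomial.aeval ((a : L) + algebraMap L L (Polynomial.aeval (b : L) (A.h i)))
        (A.f i) = ((Polynomial.aeval (A.g i b a) (A.f i) : ℚ) : L) := by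
      intro i
      rw [← rat_aeval]
      unfold Arr.g
      rw [Rat.cast_add, ← rat_aeval]
      rfl
    simp only [h8] at h7
    unfold Arr.Eqn
    have h9 : ((∏ i, Polynomial.aeval (A.g i b a) (A.f i) : ℚ) : L) = ((A.c : ℚ) : L) := by
      rw [Rat.cast_prod, h7, Rat.cast_intCast]
    exact_mod_cast h9

end core2

section galois

variable {C : Curve}

theorem rat_of_fixed (k : Type) [Field k] [CharZero k] (P : C.Pt (AlgebraicClosure k))
    (hP : Curve.IsRational k P) (f : C.FunField (AlgebraicClosure k))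
    (hf : ∀ σ : AlgebraicClosure k ≃ₐ[k] AlgebraicClosure k, C.mapFun (σ : _ →+* _) f = f)
    (θ : AlgebraicClosure k)
    (h : Sm P.toDV (f - algebraMap (AlgebraicClosure k) (C.FunField (AlgebraicClosure k)) θ)) :
    ∃ r : k, algebraMap k (AlgebraicClosure k) r = θ := by
  have h1 : ∀ σ : AlgebraicClosure k ≃ₐ[k] AlgebraicClosure k, σ θ = θ := by
    intro σ
    refine const_unique P (f := f) ?_ h
    have e : f - algebraMap (AlgebraicClosure k) (C.FunField (AlgebraicClosure k)) (σ θ) =
        C.mapFun (σ : AlgebraicClosure k →+* AlgebraicClosure k)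
          (f - algebraMap (AlgebraicClosure k) (C.FunField (AlgebraicClosure k)) θ) := by
      rw [map_sub, hf σ, Curve.mapFun_const]
      rfl
    rw [e]
    rcases h with h | h
    · left
      rw [h, map_zero]
    · right
      have := hP σ (f - algebraMap (AlgebraicClosure k) (C.FunField (AlgebraicClosure k)) θ)
      exact lt_of_lt_of_eq h this.symm
  have hG : IsGalois k (AlgebraicClosure k) := IsAlgClosure.isGalois k (AlgebraicClosure k)
  have h2 : θ ∈ (⊥ : IntermediateField k (AlgebraicClosure k)) :=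
    (InfiniteGalois.mem_bot_iff_fixed θ).2 h1
  exact IntermediateField.mem_bot.1 h2

theorem map_g {ι : Type} [Fintype ι] [DecidableEq ι] (A : Arr ι) {K K' : Type} [Field K]
    [Field K'] (j : K →+* K') (i : ι) (x y : K) : j (A.g i x y) = A.g i (j x) (j y) := by
  unfold Arr.g
  rw [map_add, Polynomial.aeval_def, Polynomial.hom_eval₂, Polynomial.aeval_def]
  congr 2
  exact Subsingleton.elim _ _

end galois

end Res_

open Res_ in
theorem p_RES (h1 : T_CLASS) : T_RES := by
  intro ι _ _ A C hC hP
  obtain ⟨P, hP⟩ := hP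
  have hch : CharZero (C.FunField (AlgebraicClosure ℚ)) :=
    charZero_of_injective_algebraMap
      (algebraMap (AlgebraicClosure ℚ) (C.FunField (AlgebraicClosure ℚ))).injective
  have hrat : ∀ f : C.FunField (AlgebraicClosure ℚ),
      (∀ σ : AlgebraicClosure ℚ →+* AlgebraicClosure ℚ, C.mapFun σ f = f) →
      ∀ θ : AlgebraicClosure ℚ,
      Sm P.toDV (f - algebraMap (AlgebraicClosure ℚ) (C.FunField (AlgebraicClosure ℚ)) θ) →
      ∃ r : ℚ, (r : AlgebraicClosure ℚ) = θ := by
    intro f hf θ h
    obtain ⟨r, hr⟩ := rat_of_fixed ℚ P hP f (fun σ => hf _) θ h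
    exact ⟨r, by rw [← hr]; exact (eq_ratCast _ r).symm⟩
  refine core A h1 P (C.xF (AlgebraicClosure ℚ)) (C.yF (AlgebraicClosure ℚ))
    (A.eqn_of_F hC _) (C.exists_ratio _) ?_ ?_ ?_
  · exact hrat _ fun σ => C.mapFun_xF σ
  · exact hrat _ fun σ => C.mapFun_yF σ
  · intro i
    refine hrat _ fun σ => ?_
    rw [map_g, C.mapFun_xF, C.mapFun_yF]

end Pool.Agent.FD
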