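import Pool.Agent.FD.Targets

/-!
# Choice of the primes `l_a` by Dirichlet's theorem
-/

namespace Pool.Agent.FD

namespace Sel

theorem crt_dirichlet {ι : Type} [Fintype ι] (s r : ι → ℕ) (hs : ∀ i, s i ≠ 0)
    (pp : ∀ i j, i ≠ j → (s i).Coprime (s j)) (hr : ∀ i, (r i).Coprime (s i)) (n : ℕ) :
    ∃ p, n < p ∧ p.Prime ∧ ∀ i, p ≡ r i [MOD s i] := by
  obtain ⟨k, hk⟩ := Nat.chineseRemainderOfFinset r s Finset.univ (fun i _ => hs i)
    (fun i _ j _ h => pp i j h)
  have hc : k.Coprime (∏ i, s i) := by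
    refine Nat.Coprime.prod_right fun i _ => ?_
    exact ((hk i (Finset.mem_univ i)).gcd_eq).trans (hr i)
  obtain ⟨p, hp1, hp2, hp3⟩ := Nat.forall_exists_prime_gt_and_modEq n
    (q := ∏ i, s i) (a := k) (Finset.prod_ne_zero_iff.mpr fun i _ => hs i) hc
  refine ⟨p, hp1, hp2, fun i => ?_⟩
  exact (hp3.of_dvd (Finset.dvd_prod_of_mem s (Finset.mem_univ i))).trans
    (hk i (Finset.mem_univ i))

theorem exists_avoid {p : ℕ} [Fact p.Prime] {J : Type} [Fintype J] (N : J → ℕ)
    (c : J → (ZMod p)ˣ) (hN : ∀ j, N j ∣ p - 1) (hlt : ∀ j, Fintype.card J < N j) :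
    ∃ u : (ZMod p)ˣ, ∀ j, ∀ z : (ZMod p)ˣ, u * z ^ N j ≠ c j := by
  classical
  by_contra hcon
  push Not at hcon
  set A : J → Finset (ZMod p)ˣ := fun j =>
    (Finset.univ.image (fun z : (ZMod p)ˣ => z ^ N j)).image (fun w => c j * w) with hAdef
  have hcard : Fintype.card (ZMod p)ˣ = p - 1 := ZMod.card_units p
  have hA : ∀ j, (A j).card ≤ (p - 1) / N j := by
    intro j
    refine Finset.card_image_le.trans ?_
    have h1 := IsCyclic.card_powMonoidHom_range (G := (ZMod p)ˣ) (N j)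
    rw [Nat.card_eq_fintype_card (α := (ZMod p)ˣ), hcard, Nat.gcd_eq_right (hN j)] at h1
    have h2 : ((Finset.univ.image (fun z : (ZMod p)ˣ => z ^ N j) : Finset (ZMod p)ˣ) :
        Set (ZMod p)ˣ) = ((powMonoidHom (N j) : (ZMod p)ˣ →* (ZMod p)ˣ).range :
        Set (ZMod p)ˣ) := by
      ext x
      simp
    rw [← h1, ← Set.ncard_coe_finset, h2, ← Nat.card_coe_set_eq]
    exact le_rfl
  have hcov : (Finset.univ : Finset (ZMod p)ˣ) ⊆ Finset.univ.biUnion A := by
    intro u _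
    obtain ⟨j, z, hz⟩ := hcon u
    rw [Finset.mem_biUnion]
    refine ⟨j, Finset.mem_univ j, ?_⟩
    rw [hAdef]
    simp only [Finset.mem_image, Finset.mem_univ, true_and, exists_exists_eq_and]
    refine ⟨z⁻¹, ?_⟩
    rw [← hz, inv_pow, mul_inv_cancel_right]
  have h1 : p - 1 ≤ ∑ j, (p - 1) / N j := by
    calc p - 1 = (Finset.univ : Finset (ZMod p)ˣ).card := by rw [Finset.card_univ, hcard]
      _ ≤ (Finset.univ.biUnion A).card := Finset.card_le_card hcov
      _ ≤ ∑ j, (A j).card := Finset.card_biUnion_le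
      _ ≤ ∑ j, (p - 1) / N j := Finset.sum_le_sum fun j _ => hA j
  have hp1 : 0 < p - 1 := by
    have := (Fact.out : p.Prime).one_lt
    omega
  rcases isEmpty_or_nonempty J with hJ | hJ
  · rw [Finset.univ_eq_empty, Finset.sum_empty] at h1
    omega
  · have h2 : ∀ j, (p - 1) / N j * Fintype.card J < p - 1 := by
      intro j
      have h3 : 0 < (p - 1) / N j :=
        Nat.div_pos (Nat.le_of_dvd hp1 (hN j)) (by have := hlt j; omega)
      calc (p - 1) / N j * Fintype.card J < (p - 1) / N j * N j :=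
            Nat.mul_lt_mul_of_pos_left (hlt j) h3
        _ = p - 1 := Nat.div_mul_cancel (hN j)
    have h3 : (∑ j, (p - 1) / N j) * Fintype.card J < (p - 1) * Fintype.card J := by
      rw [Finset.sum_mul]
      calc ∑ j, (p - 1) / N j * Fintype.card J < ∑ _j : J, (p - 1) :=
            Finset.sum_lt_sum_of_nonempty Finset.univ_nonempty fun j _ => h2 j
        _ = (p - 1) * Fintype.card J := by
          rw [Finset.sum_const, Finset.card_univ, smul_eq_mul, mul_comm]
    have h4 := Nat.lt_of_mul_lt_mul_right h3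
    omega

/-- a non-`n`-th power modulo `p` -/
theorem exists_not_pow {p : ℕ} [Fact p.Prime] (n : ℕ) (hn : 2 ≤ n) (hd : n ∣ p - 1) :
    ∃ g : ZMod p, ∀ z : ZMod p, z ^ n ≠ g := by
  by_contra hcon
  push Not at hcon
  have hsurj : Function.Surjective (fun z : ZMod p => z ^ n) := hcon
  have hinj := Finite.injective_iff_surjective.mpr hsurj
  obtain ⟨q, hq, hqn⟩ := Nat.exists_prime_and_dvd (n := n) (by omega)
  have : Fact q.Prime := ⟨hq⟩
  obtain ⟨x, hx⟩ := exists_prime_orderOf_dvd_card (G := (ZMod p)ˣ) q (by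
    rw [ZMod.card_units p]
    exact hqn.trans hd)
  have h1 : (x : ZMod p) ^ n = 1 := by
    have h2 : x ^ n = 1 := by
      rw [← orderOf_dvd_iff_pow_eq_one, hx]
      exact hqn
    rw [← Units.val_pow_eq_pow_val, h2, Units.val_one]
  have h3 : (x : ZMod p) = 1 := by
    apply hinj
    simp only [h1, one_pow]
  have h4 : x = 1 := Units.ext h3
  rw [h4, orderOf_one] at hx
  exact hq.one_lt.ne hx

/-- nonresidues -/
theorem exists_nonsq (p : ℕ) (hp : p.Prime) (h2 : p ≠ 2) :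
    ∃ r : ℕ, r.Coprime p ∧ ¬ IsSquare (r : ZMod p) := by
  have : Fact p.Prime := ⟨hp⟩
  obtain ⟨a, ha⟩ := FiniteField.exists_nonsquare (F := ZMod p) (by
    rw [ZMod.ringChar_zmod_n]
    exact h2)
  refine ⟨a.val, ?_, ?_⟩
  · rw [← ZMod.isUnit_iff_coprime, ZMod.natCast_val, ZMod.cast_id', id, isUnit_iff_ne_zero]
    rintro rfl
    exact ha (IsSquare.zero)
  · rwa [ZMod.natCast_val, ZMod.cast_id', id]

theorem dd_inj {m : ℕ} {P : Fin m → ℕ} (hP : GoodP P) : Function.Injective (dd P) := by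
  have key : ∀ k, dd P none ≠ dd P (some k) := by
    intro k h
    have hm := hP.two_le
    obtain ⟨l, hl⟩ : ∃ l : Fin m, l ≠ k := by
      by_cases hk : k.val = 0
      · exact ⟨⟨1, by omega⟩, fun h => by rw [← h] at hk; simp at hk⟩
      · exact ⟨⟨0, by omega⟩, fun h => by rw [← h] at hk; simp at hk⟩
    have h1 : (P l : ℤ) ∣ (P k : ℤ) := by
      have h2 : (P l : ℤ) ∣ dd P none := Finset.dvd_prod_of_mem _ (Finset.mem_univ l)
      rw [h] at h2
      exact h2
    have h3 : P l ∣ P k := by exact_mod_cast h1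
    exact hl (hP.inj ((Nat.prime_dvd_prime_iff_eq (hP.prime l) (hP.prime k)).mp h3))
  intro x y h
  rcases x with _ | x <;> rcases y with _ | y
  · rfl
  · exact absurd h (key y)
  · exact absurd h.symm (key x)
  · have h1 : (P x : ℤ) = (P y : ℤ) := h
    have h2 : P x = P y := by exact_mod_cast h1
    rw [hP.inj h2]

theorem Gam_ne {m : ℕ} {P : Fin m → ℕ} (hP : GoodP P) : Gam P ≠ 0 := by
  refine pow_ne_zero _ ?_
  refine Finset.prod_ne_zero_iff.mpr fun k _ => Finset.prod_ne_zero_iff.mpr fun l _ => ?_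
  split_ifs with h
  · exact one_ne_zero
  · exact Int.natAbs_ne_zero.mpr (sub_ne_zero.mpr fun h' => h (dd_inj hP h'))

theorem natAbs_dvd_Gam {m : ℕ} (P : Fin m → ℕ) (k l : Option (Fin m)) (h : k ≠ l) :
    (dd P k - dd P l).natAbs ∣ Gam P := by
  refine Dvd.dvd.trans ?_ (dvd_pow_self (Del P) (Nat.succ_ne_zero m))
  have h1 : (∏ l : Option (Fin m), if k = l then 1 else (dd P k - dd P l).natAbs) ∣ Del P :=
    Finset.dvd_prod_of_mem (fun k : Option (Fin m) =>
      ∏ l : Option (Fin m), if k = l then 1 else (dd P k - dd P l).natAbs) (Finset.mem_univ k)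
  refine Dvd.dvd.trans ?_ h1
  have h2 := Finset.dvd_prod_of_mem (fun l : Option (Fin m) =>
      if k = l then 1 else (dd P k - dd P l).natAbs) (Finset.mem_univ l)
  simpa only [if_neg h] using h2

theorem diff_ne {m : ℕ} (P : Fin m → ℕ) (k l : Option (Fin m)) (h : k ≠ l) {p : ℕ}
    (hp : ¬ p ∣ Gam P) : ((dd P k - dd P l : ℤ) : ZMod p) ≠ 0 := by
  intro h0
  rw [ZMod.intCast_zmod_eq_zero_iff_dvd] at h0
  exact hp ((Int.natCast_dvd.mp h0).trans (natAbs_dvd_Gam P k l h))

theorem div_ne {m : ℕ} (P : Fin m → ℕ) {γ : ℕ} (h : γ ∈ (Gam P).divisors) {p : ℕ}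
    (hp : ¬ p ∣ Gam P) : (γ : ZMod p) ≠ 0 := by
  intro h0
  rw [ZMod.natCast_eq_zero_iff] at h0
  exact hp (h0.trans (Nat.dvd_of_mem_divisors h))

/-- the condition `avoid` -/
def Avoid {m R : ℕ} (P : Fin m → ℕ) (N : Fin R → ℕ) (p : ℕ) (a b : Fin m) (q : ℕ) : Prop :=
  ∀ i, ∀ γ₁ ∈ (Gam P).divisors, ∀ γ₂ ∈ (Gam P).divisors,
    ∀ z : ZMod p, z ≠ 0 →
    (q : ZMod p) * (γ₁ : ZMod p) * ((dd P (some a) - dd P none : ℤ) : ZMod p) *
      z ^ N i ≠ ((dd P (some a) - dd P (some b) : ℤ) : ZMod p) * (γ₂ : ZMod p) ∧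
    (q : ZMod p) * (γ₁ : ZMod p) * ((dd P (some a) - dd P none : ℤ) : ZMod p) *
      z ^ N i ≠ -(((dd P (some a) - dd P (some b) : ℤ) : ZMod p) * (γ₂ : ZMod p))

theorem exists_u {m R : ℕ} (P : Fin m → ℕ) (N : Fin R → ℕ)
    (hN : ∀ i, 2 * R * (Gam P).divisors.card ^ 2 < N i) (a b : Fin m) (hab : a ≠ b)
    (p : ℕ) (hp : p.Prime) (hG : ¬ p ∣ Gam P) (hd : ∀ i, N i ∣ p - 1) :
    ∃ u : ℕ, u.Coprime p ∧ ∀ q : ℕ, q ≡ u [MOD p] → Avoid P N p a b q := by
  have : Fact p.Prime := ⟨hp⟩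
  have hD1 : ((dd P (some a) - dd P none : ℤ) : ZMod p) ≠ 0 :=
    diff_ne P _ _ (by simp) hG
  have hD2 : ((dd P (some a) - dd P (some b) : ℤ) : ZMod p) ≠ 0 :=
    diff_ne P _ _ (by simpa using hab) hG
  set D1 : ZMod p := ((dd P (some a) - dd P none : ℤ) : ZMod p) with hD1def
  set D2 : ZMod p := ((dd P (some a) - dd P (some b) : ℤ) : ZMod p) with hD2def
  let S := {x // x ∈ (Gam P).divisors}
  have hS : ∀ x : S, (x.1 : ZMod p) ≠ 0 := fun x => div_ne P x.2 hG
  let c : Fin R × S × S × Bool → (ZMod p)ˣ := fun j =>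
    (if j.2.2.2 then 1 else -1) * (Units.mk0 D2 hD2 * Units.mk0 (j.2.2.1.1 : ZMod p) (hS _)) *
      (Units.mk0 (j.2.1.1 : ZMod p) (hS _) * Units.mk0 D1 hD1)⁻¹
  obtain ⟨u, hu⟩ := exists_avoid (fun j : Fin R × S × S × Bool => N j.1) c
    (fun j => hd j.1) (fun j => by
      have h1 : Fintype.card S = (Gam P).divisors.card := Fintype.card_coe _
      rw [Fintype.card_prod, Fintype.card_prod, Fintype.card_prod, h1, Fintype.card_fin,
        Fintype.card_bool]
      have h2 := hN j.1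
      have h3 : R * ((Gam P).divisors.card * ((Gam P).divisors.card * 2)) =
        2 * R * (Gam P).divisors.card ^ 2 := by ring
      rw [h3]
      exact h2)
  refine ⟨(u : ZMod p).val, ?_, ?_⟩
  · rw [← ZMod.isUnit_iff_coprime, ZMod.natCast_val, ZMod.cast_id', id]
    exact u.isUnit
  · intro q hq i γ₁ h1 γ₂ h2 z hz
    have hqu : (q : ZMod p) = (u : ZMod p) := by
      have h3 := (ZMod.natCast_eq_natCast_iff _ _ _).mpr hq
      rw [h3, ZMod.natCast_val, ZMod.cast_id', id]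
    have hγ : (γ₁ : ZMod p) ≠ 0 := div_ne P h1 hG
    constructor
    · intro h
      have h4 := hu (i, ⟨γ₁, h1⟩, ⟨γ₂, h2⟩, true) (Units.mk0 z hz)
      apply h4
      apply Units.ext
      simp only [c, if_true, one_mul, Units.val_mul, Units.val_pow_eq_pow_val, Units.val_mk0,
        Units.val_inv_eq_inv_val]
      rw [eq_mul_inv_iff_mul_eq₀ (mul_ne_zero hγ hD1), ← h, hqu]
      ring
    · intro h
      have h4 := hu (i, ⟨γ₁, h1⟩, ⟨γ₂, h2⟩, false) (Units.mk0 z hz)
      apply h4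
      apply Units.ext
      simp only [c, Bool.false_eq_true, if_false, Units.val_mul, Units.val_pow_eq_pow_val,
        Units.val_mk0, Units.val_inv_eq_inv_val, Units.val_neg, Units.val_one]
      rw [eq_mul_inv_iff_mul_eq₀ (mul_ne_zero hγ hD1), neg_one_mul, ← h, hqu]
      ring

/-- the Legendre symbols -/
theorem nsq_of {m : ℕ} {P : Fin m → ℕ} (hP : GoodP P) (b : Fin m) (q : ℕ) (hq : q.Prime)
    (h4 : q % 4 = 1) (hPq : ∀ k, P k ≠ q) (hb : IsSquare (q : ZMod (P b)))
    (hk : ∀ k, k ≠ b → ¬ IsSquare (q : ZMod (P k))) :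
    ∀ k, k ≠ some b → ¬ IsSquare ((dd P k : ℤ) : ZMod q) := by
  have : Fact q.Prime := ⟨hq⟩
  have hrec : ∀ k, IsSquare (P k : ZMod q) ↔ IsSquare (q : ZMod (P k)) := by
    intro k
    have : Fact (P k).Prime := ⟨hP.prime k⟩
    exact ZMod.exists_sq_eq_prime_iff_of_mod_four_eq_one h4 (fun h => by
      have := hP.mod8 k
      rw [h] at this
      omega)
  have hleg : ∀ k, legendreSym q (P k : ℤ) = if k = b then 1 else -1 := by
    intro k
    have h0 : ((P k : ℤ) : ZMod q) ≠ 0 := by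
      rw [Int.cast_natCast, Ne, ZMod.natCast_eq_zero_iff, Nat.prime_dvd_prime_iff_eq hq (hP.prime k)]
      exact fun h => hPq k h.symm
    split_ifs with h
    · rw [legendreSym.eq_one_iff q h0, Int.cast_natCast, hrec, h]
      exact hb
    · rw [legendreSym.eq_neg_one_iff, Int.cast_natCast, hrec]
      exact hk k h
  intro k hkb
  rw [← legendreSym.eq_neg_one_iff]
  rcases k with _ | k
  · show legendreSym q (∏ k, (P k : ℤ)) = -1
    have h1 : legendreSym q (∏ k, (P k : ℤ)) = ∏ k, legendreSym q (P k : ℤ) := by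
      have := map_prod (legendreSym.hom q) (fun k => (P k : ℤ)) Finset.univ
      exact this
    rw [h1, Finset.prod_congr rfl fun k _ => hleg k, ← Finset.mul_prod_erase _ _ (Finset.mem_univ b),
      if_pos rfl, one_mul, Finset.prod_congr rfl fun k hk => if_neg (Finset.ne_of_mem_erase hk),
      Finset.prod_const, Finset.card_erase_of_mem (Finset.mem_univ b), Finset.card_univ,
      Fintype.card_fin]
    apply Odd.neg_one_pow
    have h2 := hP.two_le
    obtain ⟨t, ht⟩ := hP.even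
    exact ⟨t - 1, by omega⟩
  · have h1 : k ≠ b := fun h => hkb (by rw [h])
    have h2 := hleg k
    rw [if_neg h1] at h2
    exact h2

theorem exists_next {m R : ℕ} (P : Fin m → ℕ) (hP : GoodP P) (N : Fin R → ℕ) (mt : ℕ)
    (hmt : 2 ≤ mt) (hPm : ∀ k, (P k).Coprime mt) (hNP : ∀ i k, (N i).Coprime (P k))
    (hN : ∀ i, 2 * R * (Gam P).divisors.card ^ 2 < N i) (M : ℕ)
    (hMP : ∀ k, P k ≤ M) (hMG : Gam P ≤ M) (hMT : 8 * mt * ∏ i, N i ≤ M)
    (b : Fin m) (l : Fin m → ℕ) (hl1 : ∀ a, a < b → (l a).Prime) (hl2 : ∀ a, a < b → M < l a)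
    (hl3 : ∀ a, a < b → ∀ i, N i ∣ l a - 1)
    (hl4 : ∀ a c, a < b → c < b → a ≠ c → l a ≠ l c) :
    ∃ q, q.Prime ∧ M < q ∧ (∀ a, a < b → l a < q) ∧ (∀ i, N i ∣ q - 1) ∧ mt ∣ q - 1 ∧
      (∀ k, k ≠ some b → ¬ IsSquare ((dd P k : ℤ) : ZMod q)) ∧
      (∀ a, a < b → Avoid P N (l a) a b q) := by
  classical
  have hG0 : 0 < Gam P := Nat.pos_of_ne_zero (Gam_ne hP)
  have hGl : ∀ a, a < b → ¬ l a ∣ Gam P := by
    intro a ha h
    have h1 := Nat.le_of_dvd hG0 h
    have h2 := hl2 a ha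
    omega
  have hu : ∀ a : {a : Fin m // a < b}, ∃ u : ℕ, u.Coprime (l a.1) ∧
      ∀ q : ℕ, q ≡ u [MOD (l a.1)] → Avoid P N (l a.1) a.1 b q := fun a =>
    exists_u P N hN a.1 b a.2.ne (l a.1) (hl1 _ a.2) (hGl _ a.2) (hl3 _ a.2)
  choose u hu1 hu2 using hu
  have hr : ∀ k : Fin m, ∃ r : ℕ, r.Coprime (P k) ∧ (k = b → r = 1) ∧
      (k ≠ b → ¬ IsSquare (r : ZMod (P k))) := by
    intro k
    by_cases hk : k = b
    · exact ⟨1, Nat.coprime_one_left _, fun _ => rfl, fun h => absurd hk h⟩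
    · obtain ⟨r, h1, h2⟩ := exists_nonsq (P k) (hP.prime k) (fun h => by
        have := hP.mod8 k
        rw [h] at this
        omega)
      exact ⟨r, h1, fun h => absurd h hk, fun _ => h2⟩
  choose r hr1 hr2 hr3 using hr
  set T := 8 * mt * ∏ i, N i with hT
  have hN0 : ∀ i, N i ≠ 0 := fun i => by
    have := hN i
    omega
  have hT0 : T ≠ 0 := mul_ne_zero (mul_ne_zero (by norm_num) (by omega))
    (Finset.prod_ne_zero_iff.mpr fun i _ => hN0 i)
  have hPodd : ∀ k, (8 : ℕ).Coprime (P k) := by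
    intro k
    have h1 := hP.mod8 k
    have h2 : Nat.Coprime (2 ^ 3) (P k) := by
      apply Nat.Coprime.pow_left
      rw [Nat.coprime_two_left, Nat.odd_iff]
      omega
    exact h2
  have hTP : ∀ k, T.Coprime (P k) := by
    intro k
    refine Nat.Coprime.mul_left (Nat.Coprime.mul_left (hPodd k) (hPm k).symm) ?_
    exact Nat.Coprime.prod_left fun i _ => hNP i k
  have hlarge : ∀ a, a < b → ∀ x, x ≠ 0 → x ≤ M → x.Coprime (l a) := by
    intro a ha x hx hxM
    refine Nat.Coprime.symm ((Nat.Prime.coprime_iff_not_dvd (hl1 a ha)).mpr fun h => ?_)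
    have h1 := Nat.le_of_dvd (Nat.pos_of_ne_zero hx) h
    have h2 := hl2 a ha
    omega
  let s : Option (Fin m ⊕ {a : Fin m // a < b}) → ℕ := fun x =>
    match x with
    | none => T
    | some (Sum.inl k) => P k
    | some (Sum.inr a) => l a.1
  let ρ : Option (Fin m ⊕ {a : Fin m // a < b}) → ℕ := fun x =>
    match x with
    | none => 1
    | some (Sum.inl k) => r k
    | some (Sum.inr a) => u a
  have hs0 : ∀ x, s x ≠ 0 := by
    intro x
    rcases x with _ | k | a
    · exact hT0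
    · exact (hP.prime k).ne_zero
    · exact (hl1 a.1 a.2).ne_zero
  have hpp : ∀ x y, x ≠ y → (s x).Coprime (s y) := by
    have hPl : ∀ (k : Fin m) (a : {a : Fin m // a < b}), (P k).Coprime (l a.1) := fun k a =>
      hlarge a.1 a.2 _ (hP.prime k).ne_zero (hMP k)
    have hTl : ∀ (a : {a : Fin m // a < b}), T.Coprime (l a.1) := fun a =>
      hlarge a.1 a.2 _ hT0 hMT
    intro x y hxy
    rcases x with _ | k | a <;> rcases y with _ | k' | a'
    · exact absurd rfl hxy
    · exact hTP k'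
    · exact hTl a'
    · exact (hTP k).symm
    · refine (Nat.coprime_primes (hP.prime k) (hP.prime k')).mpr fun h => hxy ?_
      rw [hP.inj h]
    · exact hPl k a'
    · exact (hTl a).symm
    · exact (hPl k' a).symm
    · refine (Nat.coprime_primes (hl1 a.1 a.2) (hl1 a'.1 a'.2)).mpr fun h => ?_
      by_cases haa : a.1 = a'.1
      · exact hxy (by rw [Subtype.ext haa])
      · exact hl4 a.1 a'.1 a.2 a'.2 haa h
  have hρ : ∀ x, (ρ x).Coprime (s x) := by
    intro x
    rcases x with _ | k | a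
    · exact Nat.coprime_one_left _
    · exact hr1 k
    · exact hu1 a
  obtain ⟨q, hq1, hq2, hq3⟩ := crt_dirichlet s ρ hs0 hpp hρ (M + ∑ a ∈ Finset.univ.filter (· < b), l a)
  have hMq : M < q := by omega
  have hqT : q ≡ 1 [MOD T] := hq3 none
  have hqP : ∀ k, q ≡ r k [MOD P k] := fun k => hq3 (some (Sum.inl k))
  have hql : ∀ a (ha : a < b), q ≡ u ⟨a, ha⟩ [MOD l a] := fun a ha =>
    hq3 (some (Sum.inr ⟨a, ha⟩))
  have hTq : T ∣ q - 1 := (Nat.modEq_iff_dvd' hq2.one_lt.le).mp hqT.symm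
  refine ⟨q, hq2, hMq, ?_, ?_, ?_, ?_, ?_⟩
  · intro a ha
    have h1 : l a ≤ ∑ a ∈ Finset.univ.filter (· < b), l a :=
      Finset.single_le_sum (f := l) (fun _ _ => Nat.zero_le _)
        (Finset.mem_filter.mpr ⟨Finset.mem_univ a, ha⟩)
    omega
  · intro i
    exact ((Finset.dvd_prod_of_mem N (Finset.mem_univ i)).mul_left _).trans hTq
  · exact (((dvd_mul_left mt 8).mul_right _)).trans hTq
  · refine nsq_of hP b q hq2 ?_ ?_ ?_ ?_
    · have h1 : 4 ∣ q - 1 := by
        refine Dvd.dvd.trans ?_ hTq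
        rw [hT, mul_assoc]
        exact (by norm_num : (4 : ℕ) ∣ 8).mul_right _
      have := hq2.one_lt
      omega
    · intro k h
      have := hMP k
      omega
    · have h1 := (ZMod.natCast_eq_natCast_iff _ _ _).mpr (hqP b)
      rw [h1, hr2 b rfl, Nat.cast_one]
      exact IsSquare.one
    · intro k hk
      have h1 := (ZMod.natCast_eq_natCast_iff _ _ _).mpr (hqP k)
      rw [h1]
      exact hr3 k hk
  · intro a ha
    exact hu2 ⟨a, ha⟩ q (hql a ha)

theorem exists_seq {m R : ℕ} (P : Fin m → ℕ) (hP : GoodP P) (N : Fin R → ℕ) (mt : ℕ)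
    (hmt : 2 ≤ mt) (hPm : ∀ k, (P k).Coprime mt) (hNP : ∀ i k, (N i).Coprime (P k))
    (hN : ∀ i, 2 * R * (Gam P).divisors.card ^ 2 < N i) (M : ℕ)
    (hMP : ∀ k, P k ≤ M) (hMG : Gam P ≤ M) (hMT : 8 * mt * ∏ i, N i ≤ M) (n : ℕ) :
    ∃ l : Fin m → ℕ, (∀ a, a.val < n → (l a).Prime ∧ M < l a ∧ (∀ i, N i ∣ l a - 1) ∧
      mt ∣ l a - 1 ∧ (∀ k, k ≠ some a → ¬ IsSquare ((dd P k : ℤ) : ZMod (l a)))) ∧
      (∀ a b, a < b → b.val < n → l a < l b ∧ Avoid P N (l a) a b (l b)) := by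
  induction n with
  | zero => exact ⟨fun _ => 0, fun a ha => absurd ha (Nat.not_lt_zero _),
      fun a b _ hb => absurd hb (Nat.not_lt_zero _)⟩
  | succ n ih =>
    obtain ⟨l, h1, h2⟩ := ih
    by_cases hn : n < m
    · set b : Fin m := ⟨n, hn⟩ with hb
      obtain ⟨q, hq1, hq2, hq3, hq4, hq5, hq6, hq7⟩ := exists_next P hP N mt hmt hPm hNP hN M
        hMP hMG hMT b l (fun a ha => (h1 a ha).1) (fun a ha => (h1 a ha).2.1)
        (fun a ha => (h1 a ha).2.2.1) (fun a c ha hc hac => by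
          rcases lt_or_gt_of_ne hac with h | h
          · exact (h2 a c h hc).1.ne
          · exact (h2 c a h ha).1.ne')
      have hne : ∀ a : Fin m, a.val < n → Function.update l b q a = l a := fun a ha =>
        Function.update_of_ne (fun h => by rw [h] at ha; exact lt_irrefl _ ha) _ _
      have heq : Function.update l b q b = q := Function.update_self _ _ _
      refine ⟨Function.update l b q, ?_, ?_⟩
      · intro a ha
        rcases Nat.lt_succ_iff_lt_or_eq.mp ha with h | h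
        · rw [hne a h]
          exact h1 a h
        · have h3 : a = b := Fin.ext h
          rw [h3, heq]
          exact ⟨hq1, hq2, hq4, hq5, hq6⟩
      · intro a c hac hc
        rcases Nat.lt_succ_iff_lt_or_eq.mp hc with h | h
        · rw [hne c h, hne a (lt_trans hac h)]
          exact h2 a c hac h
        · have h3 : c = b := Fin.ext h
          subst h3
          rw [heq, hne a hac]
          exact ⟨hq3 a hac, hq7 a hac⟩
    · refine ⟨l, fun a _ => h1 a (by have := a.2; omega), fun a c hac _ => h2 a c hac (by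
        have := c.2; omega)⟩

end Sel

theorem p_SEL : T_SEL := by
  intro m R P hP N mt hmt hPm hNP hN
  obtain ⟨l, h1, h2⟩ := Sel.exists_seq P hP N mt hmt hPm hNP hN
    (Gam P + ∑ k, P k + 8 * mt * ∏ i, N i)
    (fun k => by
      have := Finset.single_le_sum (f := P) (fun _ _ => Nat.zero_le _) (Finset.mem_univ k)
      omega) (by omega) (by omega) m
  have hinj : Function.Injective l := by
    intro a c h
    by_contra hac
    rcases lt_or_gt_of_ne hac with h' | h'
    · exact (h2 a c h' c.2).1.ne h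
    · exact (h2 c a h' a.2).1.ne' h
  have hprime : ∀ a, (l a).Prime := fun a => (h1 a a.2).1
  refine ⟨l, ⟨hprime, hinj, ?_, ?_, ?_⟩, ?_⟩
  · intro a h
    have h3 := Nat.le_of_dvd (Nat.pos_of_ne_zero (Sel.Gam_ne hP)) h
    have h4 := (h1 a a.2).2.1
    omega
  · intro a
    exact (h1 a a.2).2.2.2.2
  · intro a b hab
    exact (h2 a b hab b.2).2
  · have hg : ∀ a, ∃ g : ZMod (l a), ∀ z : ZMod (l a), z ^ mt ≠ g := by
      intro a
      have : Fact (l a).Prime := ⟨hprime a⟩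
      exact Sel.exists_not_pow mt hmt (h1 a a.2).2.2.2.1
    choose g hg using hg
    have : ∀ a, NeZero (l a) := fun a => ⟨(hprime a).ne_zero⟩
    obtain ⟨k, hk⟩ := Nat.chineseRemainderOfFinset (fun a => (g a).val) l Finset.univ
      (fun a _ => (hprime a).ne_zero)
      (fun a _ c _ h => (Nat.coprime_primes (hprime a) (hprime c)).mpr fun h' => h (hinj h'))
    refine ⟨(k : ℤ), fun a z hz => hg a z ?_⟩
    have h3 := (ZMod.natCast_eq_natCast_iff _ _ _).mpr (hk a (Finset.mem_univ a))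
    rw [hz, Int.cast_natCast, h3, ZMod.natCast_val, ZMod.cast_id', id]

end Pool.Agent.FD
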