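import Pool.Agent.FD.TargetsB
import Pool.Agent.FD.Sel

/-!
# Choice of the primes `l_a` and of a common primitive root
-/

namespace Pool.Agent.FD

namespace SelB

/-- a primitive root is no `d`-th power for `1 < d`, `d ∣ p - 1` -/
theorem exists_primitive (p : ℕ) [Fact p.Prime] :
    ∃ g : ZMod p, ∀ d : ℕ, 1 < d → d ∣ p - 1 → ∀ z : ZMod p, z ^ d ≠ g := by
  obtain ⟨x, hx⟩ := IsCyclic.exists_generator (α := (ZMod p)ˣ)
  have hord : orderOf x = p - 1 := by
    rw [orderOf_eq_card_of_forall_mem_zpowers hx, Nat.card_eq_fintype_card, ZMod.card_units p]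
  refine ⟨(x : ZMod p), fun d hd hdp z hz => ?_⟩
  have hz0 : z ≠ 0 := by
    rintro rfl
    rw [zero_pow (by omega)] at hz
    exact x.ne_zero hz.symm
  have h1 : (Units.mk0 z hz0) ^ d = x := by
    apply Units.ext
    rw [Units.val_pow_eq_pow_val, Units.val_mk0]
    exact hz
  have h2 : x ^ ((p - 1) / d) = 1 := by
    rw [← h1, ← pow_mul, Nat.mul_div_cancel' hdp]
    exact ZMod.units_pow_card_sub_one_eq_one p _
  have hp1 : 0 < p - 1 := by
    have := (Fact.out : p.Prime).one_lt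
    omega
  have h3 : p - 1 ∣ (p - 1) / d := by
    rw [← hord]
    exact orderOf_dvd_of_pow_eq_one (by rw [hord]; exact h2)
  have h4 : 0 < (p - 1) / d := Nat.div_pos (Nat.le_of_dvd hp1 hdp) (by omega)
  have h5 := Nat.le_of_dvd h4 h3
  have h6 := Nat.div_lt_self hp1 hd
  omega

end SelB

theorem p_SEL2 : T_SEL2 := by
  intro m R P hP N mt hmt hPm hNP hN
  obtain ⟨l, h1, h2⟩ := Sel.exists_seq P hP N mt hmt hPm hNP hN
    (Gam P + ∑ k, P k + 8 * mt * ∏ i, N i)
    (fun k => by
      have := Finset.single_le_sum (f := P) (fun _ _ => Nat.zero_le _) (Finset.mem_univ k)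
      omega) (by omega) (by omega) m
  have hinj : Function.Injective l := by
    intro a c h
    by_contra hac
    rcases lt_or_gt_of_ne hac with h' | h'
    · exact (h2 a c h' c.2).1.ne h
    · exact (h2 c a h' a.2).1.ne' h
  have hprime : ∀ a, (l a).Prime := fun a => (h1 a a.2).1
  refine ⟨l, ⟨hprime, hinj, ?_, ?_, ?_⟩, ?_⟩
  · intro a h
    have h3 := Nat.le_of_dvd (Nat.pos_of_ne_zero (Sel.Gam_ne hP)) h
    have h4 := (h1 a a.2).2.1
    omega
  · intro a
    exact (h1 a a.2).2.2.2.2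
  · intro a b hab
    exact (h2 a b hab b.2).2
  · have hg : ∀ a, ∃ g : ZMod (l a), ∀ d : ℕ, 1 < d → d ∣ mt → ∀ z : ZMod (l a), z ^ d ≠ g := by
      intro a
      have : Fact (l a).Prime := ⟨hprime a⟩
      obtain ⟨g, hg⟩ := SelB.exists_primitive (l a)
      exact ⟨g, fun d hd hdm => hg d hd (hdm.trans (h1 a a.2).2.2.2.1)⟩
    choose g hg using hg
    have : ∀ a, NeZero (l a) := fun a => ⟨(hprime a).ne_zero⟩
    obtain ⟨k, hk⟩ := Nat.chineseRemainderOfFinset (fun a => (g a).val) l Finset.univ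
      (fun a _ => (hprime a).ne_zero)
      (fun a _ c _ h => (Nat.coprime_primes (hprime a) (hprime c)).mpr fun h' => h (hinj h'))
    refine ⟨(k : ℤ), fun a d hd hdm z hz => hg a d hd hdm z ?_⟩
    have h3 := (ZMod.natCast_eq_natCast_iff _ _ _).mpr (hk a (Finset.mem_univ a))
    rw [hz, Int.cast_natCast, h3, ZMod.natCast_val, ZMod.cast_id', id]

end Pool.Agent.FD
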