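import Pool.Agent.FD.Targets

/-!
# Targets, second part: forcing `n` to be divisible by given primes
-/

open MvPolynomial

namespace Pool.Agent.FD

/-- The `T_i`-family gives `n`-coverings with points everywhere locally (odd degree). -/
def T_SELM2 : Prop :=
  ∀ (ι : Type) [Fintype ι] [DecidableEq ι] (A : Arr ι) (C : Curve), C.F = A.F →
    ∀ (i : ι) (d : ℤ), (Polynomial.X ^ 2 - Polynomial.C d) ∣ A.f i → Odd (A.m i) →
    (∃ θ : ℝ, Polynomial.aeval θ (A.f i) = 0) →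
    (∀ (p : ℕ) [Fact p.Prime], ∃ θ : ℚ_[p], Polynomial.aeval θ (A.f i) = 0) →
    ∀ n : ℕ, n.Coprime (A.N i) → C.SelNonempty n

/-- choice of the primes `ℓ_a` and of `g` (a primitive root) by Dirichlet's theorem -/
def T_SEL2 : Prop := ∀ (m R : ℕ) (P : Fin m → ℕ), GoodP P → ∀ (N : Fin R → ℕ) (mt : ℕ),
  2 ≤ mt → (∀ k, (P k).Coprime mt) → (∀ i k, (N i).Coprime (P k)) →
  (∀ i, 2 * R * (Gam P).divisors.card ^ 2 < N i) →
  ∃ l : Fin m → ℕ, GoodL P N l ∧ ∃ g : ℤ, ∀ a, ∀ d : ℕ, 1 < d → d ∣ mt →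
    ∀ z : ZMod (l a), z ^ d ≠ (g : ZMod (l a))

/-- good primes above a given bound -/
def T_P2 : Prop := ∀ m B : ℕ, Even m → 2 ≤ m → ∃ P : Fin m → ℕ, GoodP P ∧ ∀ k, B < P k

/-- the factor `1 + f0 (X + c)` -/
noncomputable def hc {m : ℕ} (P : Fin m → ℕ) (c : ℤ) : Polynomial ℤ :=
  1 + f0 P * (Polynomial.X + Polynomial.C c)

def T_HC : Prop := ∀ (m R : ℕ) (P : Fin m → ℕ) (N : Fin R → ℕ) (l : Fin m → ℕ), GoodP P →
  GoodL P N l → ∃ c : ℤ,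
    (∀ a, ∀ z : ZMod (l a), Polynomial.aeval z (hc P c) ≠ 0) ∧
    (f0 P * hc P c).Monic ∧ (f0 P * hc P c).natDegree = 4 * (m + 1) + 1 ∧
    ((f0 P * hc P c).map (Int.castRingHom ℚ)).Separable ∧
    ¬ ∃ θ : ℚ, Polynomial.aeval θ (f0 P * hc P c) = 0

/-- no rational solutions; the host classes are the `e i`, their polynomials are
`f0 * hh` with `hh = 1 mod f0`, and the other classes have no roots modulo the `ℓ_a` -/
def T_ARITH2 : Prop := ∀ (ι : Type) [Fintype ι] [DecidableEq ι] (A : Arr ι) (m R : ℕ)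
  (e : Fin R → ι) (P : Fin m → ℕ) (l : Fin m → ℕ), Function.Injective e →
  GoodP P → GoodL P (fun i : Fin R => A.N (e i)) l →
  (∀ i : Fin R, 2 ≤ A.N (e i)) →
  (∀ i : Fin R, ∃ hh : Polynomial ℤ, A.f (e i) = f0 P * hh ∧ f0 P ∣ hh - 1 ∧
    ∀ a, ∀ z : ZMod (l a), Polynomial.aeval z hh ≠ 0) →
  (∀ i : ι, (∀ t, e t ≠ i) → ∀ a, ∀ z : ZMod (l a), Polynomial.aeval z (A.f i) ≠ 0) →
  A.c = ∏ a, (l a : ℤ) → R < m → ¬ ∃ α β : ℚ, A.Eqn α β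

/-- `h_0 = 0`, `h_i = X^(δ_i)` -/
noncomputable def hD {T : ℕ} (δ : Fin (T + 1) → ℕ) (i : Fin (T + 1)) : Polynomial ℤ :=
  if i = 0 then 0 else Polynomial.X ^ δ i

def T_H2 : Prop := ∀ (T : ℕ) (δ : Fin (T + 1) → ℕ), StrictMono δ → δ 0 = 0 →
  ∀ i j : Fin (T + 1), i ≠ j →
  IsUnit (hD δ i - hD δ j).leadingCoeff ∧
  (hD δ i - hD δ j).natDegree = max (δ i) (δ j) ∧ 0 < max (δ i) (δ j)

/-- the degrees of the classes: `Q` for the first one, then `ν, 3, 2, ν, 3, 2, …` -/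
def mass (Q ν : ℕ) {T : ℕ} (p : Fin (T + 1)) : ℕ :=
  if p.val = 0 then Q else if p.val % 3 = 1 then ν else if p.val % 3 = 2 then 3 else 2

/-- the orders -/
def NM (Q ν : ℕ) {T : ℕ} (δ : Fin (T + 1) → ℕ) (i : Fin (T + 1)) : ℕ :=
  ∑ j ∈ Finset.univ.erase i, mass Q ν j * max (δ i) (δ j)

/-- the position `3i + 1` of the `i`-th host class -/
def pos (r : ℕ) (i : Fin r) : Fin (3 * r + 1) := ⟨3 * i.val + 1, by omega⟩

/-- Every sufficiently spread out increasing sequence `N` with bounded ratios is a sequence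
of orders. -/
def T_COMB : Prop := ∀ r ν c : ℕ, 1 ≤ r → Odd ν → ∃ Q : ℕ, 2 ≤ Q ∧ ∃ G : ℕ, ∀ N : Fin r → ℕ,
  (∀ i, G ≤ N i) → (∀ i j : Fin r, i < j → N i + G ≤ N j) → (∀ i j, N i ≤ c * N j) →
  ∃ δ : Fin (3 * r + 1) → ℕ, StrictMono δ ∧ δ 0 = 0 ∧ ∀ i : Fin r, NM Q ν δ (pos r i) = N i

/-- prime powers that are spread out with bounded ratios -/
def T_POW : Prop := ∀ (r : ℕ) (q : Fin r → ℕ), (∀ i, 2 ≤ q i) → ∃ c : ℕ, ∀ G : ℕ,
  ∃ k : Fin r → ℕ, (∀ i, 1 ≤ k i) ∧ (∀ i, G ≤ q i ^ k i) ∧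
    (∀ i j : Fin r, i < j → q i ^ k i + G ≤ q j ^ k j) ∧ ∀ i j, q i ^ k i ≤ c * q j ^ k j

/-- The main theorem. -/
def T_MAIN2 : Prop := ∀ S : Finset ℕ, (∀ p ∈ S, p.Prime) → ∃ C : Curve, ¬ C.HasPoint ℚ ∧
  ∀ n : ℕ, 1 ≤ n → (∃ p ∈ S, ¬ p ∣ n) → C.SelNonempty n

end Pool.Agent.FD
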