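import Pool.Agent.FD.SelM
import Pool.Agent.FD.DegPush
import Pool.Agent.FD.TargetsB

/-!
# The `T_i`-family, classes of odd degree
-/

open MvPolynomial

namespace Pool.Agent.FD

namespace SelMB

open SelM

section

variable {ι : Type} [Fintype ι] [DecidableEq ι] (A : Arr ι) (C : Curve)
  (L : Type) [Field L] [CharZero L] [IsAlgClosed L]

/-- the divisor `D^{(i)}` -/
noncomputable def Edv (i : ι) (q : Polynomial ℤ) (k : ℤ) : C.Pt L → ℤ :=
  Tdiv A C L i (A.f i) + (-k) • Tdiv A C L i q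

variable {A C L}

theorem degree_E (hD : T_DEG) (hC : C.F = A.F) (i : ι) {q : Polynomial ℤ} (hq : q ∣ A.f i)
    (hq2 : q.natDegree = 2) {k : ℤ} (hk : (A.m i : ℤ) = 2 * k + 1) :
    Curve.IsDivOfDegree (Edv A C L i q k) 1 := by
  have h := degree_add (hD ι A C hC L i (A.f i) dvd_rfl)
    (degree_smul (-k) (hD ι A C hC L i q hq))
  have h3 : ((A.f i).natDegree : ℤ) = 2 * k + 1 := hk
  rw [hq2, h3] at h
  have h2 : (2 * k + 1 + -k * ((2 : ℕ) : ℤ)) = 1 := by push_cast; ring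
  rw [h2] at h
  exact h

theorem push_E (hPu : T_PUSH) (hC : C.F = A.F) {L' : Type} [Field L'] [CharZero L']
    [IsAlgClosed L'] (j : L →+* L') (i : ι) {q : Polynomial ℤ} (hq : q ∣ A.f i) (k : ℤ) :
    C.push j (Edv A C L i q k) = Edv A C L' i q k := by
  unfold Edv
  rw [push_add, push_smul, hPu ι A C hC L L' j i q hq, hPu ι A C hC L L' j i _ dvd_rfl]

theorem Tdiv_f (i : ι) (s : Finset L) (hs : ∀ θ, θ ∈ s ↔ Polynomial.aeval θ (A.f i) = 0)
    (v : C.Pt L) : Tdiv A C L i (A.f i) v = ∑ θ ∈ s, Tpt A C L i θ v := by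
  classical
  by_cases hx : v.ord (C.xF L) < 0 ∧ ∃ θ : L, Polynomial.aeval θ (A.f i) = 0 ∧
      0 < v.ord (A.g i (C.xF L) (C.yF L) - algebraMap L (C.FunField L) θ)
  · have h1 : Tdiv A C L i (A.f i) v = 1 := by
      unfold Tdiv
      rw [if_pos hx]
    obtain ⟨hx1, θ, hθ, h2⟩ := hx
    rw [h1, Finset.sum_eq_single θ]
    · unfold Tpt
      rw [if_pos ⟨hx1, h2⟩]
    · intro η _ hne
      unfold Tpt
      rw [if_neg]
      rintro ⟨-, h3⟩
      exact hne (DegPush.root_unique v _ h3 h2)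
    · intro h3
      exact absurd ((hs θ).mpr hθ) h3
  · have h1 : Tdiv A C L i (A.f i) v = 0 := by
      unfold Tdiv
      rw [if_neg hx]
    rw [h1]
    symm
    apply Finset.sum_eq_zero
    intro θ hθ
    unfold Tpt
    rw [if_neg]
    rintro ⟨h2, h3⟩
    exact hx ⟨h2, θ, (hs θ).mp hθ, h3⟩

/-- `N_i (P - D^{(i)})` is principal for `P = T_{i,θ}`. -/
theorem isPrin (hP : T_PRIN) (hC : C.F = A.F) {i : ι} {d : ℤ}
    (hq : (Polynomial.X ^ 2 - Polynomial.C d) ∣ A.f i) {k : ℕ} (hk : A.m i = 2 * k + 1)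
    {θ : L} (hθ : Polynomial.aeval θ (A.f i) = 0) :
    Curve.IsPrin (A.N i • (Tpt A C L i θ -
      Edv A C L i (Polynomial.X ^ 2 - Polynomial.C d) k)) := by
  classical
  obtain ⟨δ, hδ, hroots⟩ := exists_roots (L := L) hq
  obtain ⟨s, hs, hcard⟩ := DegPush.card_roots (L := L) (A.sep i)
  have hE := A.eqn_of_F hC L
  have hr : ∀ η : L, Polynomial.aeval η (Polynomial.X ^ 2 - Polynomial.C d) = 0 →
      Polynomial.aeval η (A.f i) = 0 := by
    intro η hη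
    obtain ⟨r, hr⟩ := hq
    rw [hr, map_mul, hη, zero_mul]
  have hδ1 := hr δ ((hroots δ).mpr (Or.inl rfl))
  have hδ2 := hr (-δ) ((hroots (-δ)).mpr (Or.inr rfl))
  set φ : L → C.FunField L := fun η => A.g i (C.xF L) (C.yF L) - algebraMap L (C.FunField L) η
    with hφ
  have hφn : ∀ η : L, Polynomial.aeval η (A.f i) = 0 → φ η ≠ 0 := fun η h =>
    g_sub_ne hE i h
  have hφ0 : φ θ ≠ 0 := hφn θ hθ
  have hφ1 : φ δ ≠ 0 := hφn δ hδ1
  have hφ2 : φ (-δ) ≠ 0 := hφn (-δ) hδ2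
  have hprod : ∏ η ∈ s, φ η ≠ 0 := Finset.prod_ne_zero_iff.mpr fun η hη =>
    hφn η ((hs η).mp hη)
  refine ⟨(φ θ * (∏ η ∈ s, φ η)⁻¹) * (φ δ ^ k * φ (-δ) ^ k),
    mul_ne_zero (mul_ne_zero hφ0 (inv_ne_zero hprod))
      (mul_ne_zero (pow_ne_zero _ hφ1) (pow_ne_zero _ hφ2)), ?_⟩
  intro v
  have e0 := hP ι A C hC L i θ hθ v
  have e1 := hP ι A C hC L i δ hδ1 v
  have e2 := hP ι A C hC L i (-δ) hδ2 v
  have hpow : ∀ (t : C.FunField L), v.ord (t ^ k) = k * v.ord t := fun t =>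
    v.toDV.ord_pow t k
  have hinv : ∀ (t : C.FunField L), v.ord t⁻¹ = - v.ord t := fun t => v.toDV.ord_inv t
  have hpr : v.ord (∏ η ∈ s, φ η) = ∑ η ∈ s, v.ord (φ η) :=
    v.toDV.ord_prod s φ fun η hη => hφn η ((hs η).mp hη)
  rw [v.ord_mul _ _ (mul_ne_zero hφ0 (inv_ne_zero hprod))
      (mul_ne_zero (pow_ne_zero _ hφ1) (pow_ne_zero _ hφ2)),
    v.ord_mul _ _ hφ0 (inv_ne_zero hprod),
    v.ord_mul _ _ (pow_ne_zero _ hφ1) (pow_ne_zero _ hφ2), hpow, hpow, hinv, hpr]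
  have hR : ∑ j ∈ Finset.univ.erase i, (A.w i j : ℤ) * Tdiv A C L j (A.f j) v =
      Rdiv A C L i v := by
    unfold Rdiv
    rw [Finset.sum_apply]
    rfl
  rw [hR] at e0 e1 e2
  have hsum : ∑ η ∈ s, v.ord (φ η) =
      (A.N i : ℤ) * Tdiv A C L i (A.f i) v - (2 * k + 1) * Rdiv A C L i v := by
    have h1 : ∀ η ∈ s, v.ord (φ η) = (A.N i : ℤ) * Tpt A C L i η v - Rdiv A C L i v := by
      intro η hη
      have := hP ι A C hC L i η ((hs η).mp hη) v
      rw [hR] at this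
      exact this
    rw [Finset.sum_congr rfl h1, Finset.sum_sub_distrib, ← Finset.mul_sum,
      ← Tdiv_f i s hs v, Finset.sum_const, hcard, nsmul_eq_mul]
    have h2 : ((A.f i).natDegree : ℤ) = 2 * k + 1 := by
      have h3 : (A.f i).natDegree = 2 * k + 1 := hk
      rw [h3]
      push_cast
      ring
    rw [h2]
  have hT := Tdiv_eq (A := A) (C := C) (i := i) hδ hroots v
  have hL : (A.N i • (Tpt A C L i θ -
      Edv A C L i (Polynomial.X ^ 2 - Polynomial.C d) (k : ℤ))) v =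
      (A.N i : ℤ) * (Tpt A C L i θ v - (Tdiv A C L i (A.f i) v +
        (-(k : ℤ)) * Tdiv A C L i (Polynomial.X ^ 2 - Polynomial.C d) v)) := by
    rw [Pi.smul_apply, nsmul_eq_mul]
    rfl
  rw [hL, hT, hsum]
  change _ = v.ord (A.g i (C.xF L) (C.yF L) - algebraMap L (C.FunField L) θ) + _ +
    (k * v.ord (A.g i (C.xF L) (C.yF L) - algebraMap L (C.FunField L) δ) +
    k * v.ord (A.g i (C.xF L) (C.yF L) - algebraMap L (C.FunField L) (-δ)))
  rw [e0, e1, e2]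
  ring

theorem localGood (hT : T_TPL) (hP : T_PRIN) (hD : T_DEG) (hPu : T_PUSH) (hC : C.F = A.F)
    {i : ι} {d : ℤ}
    (hq : (Polynomial.X ^ 2 - Polynomial.C d) ∣ A.f i) {k : ℕ} (hk : A.m i = 2 * k + 1)
    (K : Type) [Field K] [CharZero K] (hK : ∃ θ : K, Polynomial.aeval θ (A.f i) = 0) :
    LocalGood C (Edv A C Curve.Qbar i (Polynomial.X ^ 2 - Polynomial.C d) k) (A.N i) K := by
  intro j
  obtain ⟨θ, hθ⟩ := hK
  set θ' : AlgebraicClosure K := algebraMap K (AlgebraicClosure K) θ with hθ'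
  have hroot : Polynomial.aeval θ' (A.f i) = 0 := by
    rw [hθ', Polynomial.aeval_algebraMap_apply, hθ, map_zero]
  obtain ⟨P, hP1, hP2, hP3⟩ := hT ι A C hC (AlgebraicClosure K) i θ' hroot
  refine ⟨P, ?_, ?_, ?_⟩
  · exact isRational_T A C K θ P hP1 hP2 hP3
  · rw [push_E hPu hC j i hq]
    refine degree_E hD hC i hq ?_ (by rw [hk]; push_cast; ring)
    exact Polynomial.natDegree_X_pow_sub_C
  · rw [push_E hPu hC j i hq, ← Tpt_eq_single hP1 hP2 hP3]
    exact isPrin hP hC hq hk hroot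

end

end SelMB

theorem p_SELM2 (hCr : T_CRIT) (hT : T_TPL) (hP : T_PRIN) (hD : T_DEG) (hPu : T_PUSH) :
    T_SELM2 := by
  intro ι _ _ A C hC i d hq hodd hR hQp n hn
  obtain ⟨k, hk⟩ := hodd
  refine hCr C n (A.N i) hn
    (SelMB.Edv A C Curve.Qbar i (Polynomial.X ^ 2 - Polynomial.C d) k) ?_ ?_ ?_ ?_
  · refine SelMB.degree_E hD hC i hq ?_ (by rw [hk]; push_cast; ring)
    exact Polynomial.natDegree_X_pow_sub_C
  · intro σ
    exact SelMB.push_E hPu hC _ i hq k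
  · exact SelMB.localGood hT hP hD hPu hC hq hk ℝ hR
  · intro p _
    exact SelMB.localGood hT hP hD hPu hC hq hk ℚ_[p] (hQp p)

end Pool.Agent.FD
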