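import Pool.Agent.FD.Targets

/-!
# At most one prime per index
-/

namespace Pool.Agent.FD.Side

open Finset

/-- a natural number all of whose valuations are divisible by `N` is an `N`-th power -/
theorem exists_pow {x N : ℕ} (hx : x ≠ 0) (h : ∀ p, p.Prime → N ∣ x.factorization p) :
    ∃ A, x = A ^ N := by
  rcases Nat.eq_zero_or_pos N with hN | hN
  · subst hN
    refine ⟨1, ?_⟩
    rw [pow_zero]
    apply Nat.eq_of_factorization_eq hx one_ne_zero
    intro p
    by_cases hp : p.Prime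
    · simpa using h p hp
    · rw [Nat.factorization_eq_zero_of_not_prime _ hp, Nat.factorization_one]
      rfl
  · set f : ℕ →₀ ℕ := x.factorization.mapRange (fun a => a / N) (Nat.zero_div N) with hf
    have hsupp : ∀ p ∈ f.support, p.Prime := by
      intro p hp
      rw [Finsupp.mem_support_iff, hf, Finsupp.mapRange_apply] at hp
      by_contra hpp
      rw [Nat.factorization_eq_zero_of_not_prime _ hpp] at hp
      simp at hp
    have hfac := Nat.prod_pow_factorization_eq_self hsupp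
    refine ⟨f.prod (fun a b => a ^ b), ?_⟩
    have hne : f.prod (fun a b => a ^ b) ≠ 0 := by
      rw [Finsupp.prod]
      exact Finset.prod_ne_zero_iff.2 fun p hp => pow_ne_zero _ (hsupp p hp).ne_zero
    apply Nat.eq_of_factorization_eq hx (pow_ne_zero _ hne)
    intro p
    rw [Nat.factorization_pow, hfac, hf, Finsupp.smul_apply, Finsupp.mapRange_apply, smul_eq_mul]
    by_cases hp : p.Prime
    · exact (Nat.mul_div_cancel' (h p hp)).symm
    · rw [Nat.factorization_eq_zero_of_not_prime _ hp]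
      simp

/-- a positive rational all of whose valuations are divisible by `N` is an `N`-th power -/
theorem exists_ratio {x y N : ℕ} (hx : x ≠ 0) (hy : y ≠ 0)
    (h : ∀ p, p.Prime → (N : ℤ) ∣ (x.factorization p : ℤ) - y.factorization p) :
    ∃ A B : ℕ, A.Coprime B ∧ x * B ^ N = y * A ^ N := by
  obtain ⟨G, x', y', hG, hco, hx', hy'⟩ := Nat.exists_coprime' (m := x) (n := y)
    (Nat.gcd_pos_of_pos_left _ (Nat.pos_of_ne_zero hx))
  have hG0 : G ≠ 0 := hG.ne'
  have hx0 : x' ≠ 0 := by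
    rintro rfl
    exact hx (by simpa using hx')
  have hy0 : y' ≠ 0 := by
    rintro rfl
    exact hy (by simpa using hy')
  have hdiff : ∀ p, p.Prime → (N : ℤ) ∣ (x'.factorization p : ℤ) - y'.factorization p := by
    intro p hp
    have h1 := h p hp
    rw [hx', hy', Nat.factorization_mul hx0 hG0, Nat.factorization_mul hy0 hG0] at h1
    simpa using h1
  have hone : ∀ p, p.Prime → x'.factorization p = 0 ∨ y'.factorization p = 0 := by
    intro p hp
    by_contra hcon
    push Not at hcon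
    have h1 : p ∣ x' := Nat.dvd_of_factorization_pos hcon.1
    have h2 : p ∣ y' := Nat.dvd_of_factorization_pos hcon.2
    have h3 := Nat.dvd_gcd h1 h2
    rw [Nat.Coprime.gcd_eq_one hco] at h3
    exact hp.one_lt.ne' (Nat.dvd_one.1 h3)
  have hA : ∀ p, p.Prime → N ∣ x'.factorization p := by
    intro p hp
    rcases hone p hp with h1 | h1
    · rw [h1]; exact dvd_zero _
    · have h2 := hdiff p hp
      rw [h1, Nat.cast_zero, sub_zero] at h2
      exact_mod_cast h2
  have hB : ∀ p, p.Prime → N ∣ y'.factorization p := by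
    intro p hp
    rcases hone p hp with h1 | h1
    · have h2 := hdiff p hp
      rw [h1, Nat.cast_zero, zero_sub, dvd_neg] at h2
      exact_mod_cast h2
    · rw [h1]; exact dvd_zero _
  obtain ⟨A, hA'⟩ := exists_pow hx0 hA
  obtain ⟨B, hB'⟩ := exists_pow hy0 hB
  rcases Nat.eq_zero_or_pos N with hN | hN
  · subst hN
    refine ⟨1, 1, Nat.coprime_one_left _, ?_⟩
    rw [pow_zero] at hA' hB'
    rw [hx', hy', hA', hB']
  · refine ⟨A, B, ?_, ?_⟩
    · rw [hA', hB'] at hco
      exact (Nat.coprime_pow_left_iff hN _ _).1 ((Nat.coprime_pow_right_iff hN _ _).1 hco)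
    · rw [hx', hy', hA', hB']
      ring

/-- the combinatorial part at a prime dividing no `l_a` -/
theorem local_comb {K : Type} [Fintype K] [DecidableEq K] (v : K → ℕ) (D N : ℕ)
    (hD : ∀ k k', k ≠ k' → min (v k) (v k') ≤ D) (hN : (N : ℤ) ∣ ((∑ k, v k : ℕ) : ℤ))
    (k₁ k₂ : K) (h12 : k₁ ≠ k₂) :
    ∃ e : ℤ, |e| ≤ Fintype.card K * D ∧ (N : ℤ) ∣ (v k₁ : ℤ) - v k₂ - e := by
  have hcard : 1 ≤ Fintype.card K := Fintype.card_pos_iff.2 ⟨k₁⟩
  have hsum : ∀ k, D < v k → ((∑ k' ∈ univ.erase k, v k' : ℕ) : ℤ) ≤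
      ((Fintype.card K : ℤ) - 1) * D := by
    intro k hk
    have h1 : (∑ k' ∈ univ.erase k, v k') ≤ ∑ k' ∈ univ.erase k, D := by
      apply Finset.sum_le_sum
      intro k' hk'
      have h2 := hD k k' (Finset.ne_of_mem_erase hk').symm
      rcases min_le_iff.1 h2 with h3 | h3
      · omega
      · exact h3
    rw [Finset.sum_const, Finset.card_erase_of_mem (Finset.mem_univ k), Finset.card_univ,
      smul_eq_mul] at h1
    have h2 : ((∑ k' ∈ univ.erase k, v k' : ℕ) : ℤ) ≤ (((Fintype.card K - 1) * D : ℕ) : ℤ) := by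
      exact_mod_cast h1
    rw [Nat.cast_mul, Nat.cast_sub hcard] at h2
    simpa using h2
  have hsplit : ∀ k, ((∑ k', v k' : ℕ) : ℤ) = v k + ((∑ k' ∈ univ.erase k, v k' : ℕ) : ℤ) := by
    intro k
    rw [← Finset.add_sum_erase univ v (Finset.mem_univ k)]
    push_cast
    ring
  have hle : ∀ k, D < v k → ∀ k', k' ≠ k → v k' ≤ D := by
    intro k hk k' hk'
    rcases min_le_iff.1 (hD k k' hk'.symm) with h3 | h3
    · omega
    · exact h3
  have hc : (1 : ℤ) ≤ Fintype.card K := by exact_mod_cast hcard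
  have hDnn : (0 : ℤ) ≤ D := by positivity
  by_cases h1 : D < v k₁
  · refine ⟨-((∑ k' ∈ univ.erase k₁, v k' : ℕ) : ℤ) - v k₂, ?_, ?_⟩
    · have h2 := hsum k₁ h1
      have h3 := hle k₁ h1 k₂ h12.symm
      have h4 : (v k₂ : ℤ) ≤ D := by exact_mod_cast h3
      rw [abs_le]
      constructor
      · nlinarith
      · have h5 : (0 : ℤ) ≤ ((∑ k' ∈ univ.erase k₁, v k' : ℕ) : ℤ) := by positivity
        have h6 : (0 : ℤ) ≤ v k₂ := by positivity
        have h7 : (0 : ℤ) ≤ Fintype.card K * D := by positivity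
        linarith
    · have h2 := hsplit k₁
      have h3 : (v k₁ : ℤ) - v k₂ - (-((∑ k' ∈ univ.erase k₁, v k' : ℕ) : ℤ) - v k₂) =
          ((∑ k', v k' : ℕ) : ℤ) := by rw [h2]; ring
      rw [h3]
      exact hN
  · by_cases h2 : D < v k₂
    · refine ⟨(v k₁ : ℤ) + ((∑ k' ∈ univ.erase k₂, v k' : ℕ) : ℤ), ?_, ?_⟩
      · have h3 := hsum k₂ h2
        have h4 : (v k₁ : ℤ) ≤ D := by exact_mod_cast (not_lt.1 h1)
        rw [abs_of_nonneg (by positivity)]
        nlinarith
      · have h3 := hsplit k₂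
        have h4 : (v k₁ : ℤ) - v k₂ - ((v k₁ : ℤ) + ((∑ k' ∈ univ.erase k₂, v k' : ℕ) : ℤ)) =
            -((∑ k', v k' : ℕ) : ℤ) := by rw [h3]; ring
        rw [h4]
        exact (dvd_neg).2 hN
    · refine ⟨(v k₁ : ℤ) - v k₂, ?_, by simp⟩
      have h3 : (v k₁ : ℤ) ≤ D := by exact_mod_cast (not_lt.1 h1)
      have h4 : (v k₂ : ℤ) ≤ D := by exact_mod_cast (not_lt.1 h2)
      have h5 : (0 : ℤ) ≤ v k₁ := by positivity
      have h6 : (0 : ℤ) ≤ v k₂ := by positivity
      rw [abs_le]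
      constructor <;> nlinarith

/-- an integer with prescribed (bounded) exponents -/
theorem exists_fac {G : ℕ} (hG : G ≠ 0) (e : ℕ → ℕ)
    (he : ∀ p, p.Prime → e p ≤ G.factorization p) :
    ∃ g ∈ G.divisors, ∀ p, p.Prime → g.factorization p = e p := by
  classical
  set f : ℕ →₀ ℕ := Finsupp.onFinset G.primeFactors
    (fun p => if p ∈ G.primeFactors then e p else 0) (by
      intro p hp
      by_contra h
      simp [h] at hp) with hf
  have hsupp : ∀ p ∈ f.support, p.Prime := by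
    intro p hp
    rw [Finsupp.mem_support_iff, hf, Finsupp.onFinset_apply] at hp
    by_contra h
    have : p ∉ G.primeFactors := fun h1 => h (Nat.prime_of_mem_primeFactors h1)
    simp [this] at hp
  have hfac := Nat.prod_pow_factorization_eq_self hsupp
  have hne : f.prod (fun a b => a ^ b) ≠ 0 := by
    rw [Finsupp.prod]
    exact Finset.prod_ne_zero_iff.2 fun p hp => pow_ne_zero _ (hsupp p hp).ne_zero
  have hval : ∀ p, p.Prime → f p = e p := by
    intro p hp
    rw [hf, Finsupp.onFinset_apply]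
    split_ifs with h
    · rfl
    · have h1 := he p hp
      have h2 : G.factorization p = 0 := by
        rw [Nat.factorization_eq_zero_iff]
        right; left
        intro h3
        exact h (Nat.mem_primeFactors.2 ⟨hp, h3, hG⟩)
      omega
  refine ⟨f.prod (fun a b => a ^ b), ?_, ?_⟩
  · rw [Nat.mem_divisors]
    refine ⟨?_, hG⟩
    rw [← Nat.factorization_le_iff_dvd hne hG, hfac]
    intro p
    by_cases hp : p.Prime
    · rw [hval p hp]
      exact he p hp
    · have : f p = 0 := by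
        by_contra h
        exact hp (hsupp p (Finsupp.mem_support_iff.2 h))
      rw [this]
      exact Nat.zero_le _
  · intro p hp
    rw [hfac, hval p hp]

section

variable {m : ℕ} {P : Fin m → ℕ}

/-- `p` does not divide `t` if it divides `s² - d t²` -/
theorem not_dvd_t {s t d : ℤ} (hst : IsCoprime s t) {p : ℕ} (hp : p.Prime)
    (h : (p : ℤ) ∣ s ^ 2 - d * t ^ 2) : ¬ (p : ℤ) ∣ t := by
  intro ht
  have hp' : Prime (p : ℤ) := Nat.prime_iff_prime_int.1 hp
  have h1 : (p : ℤ) ∣ s ^ 2 := by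
    have h2 : (p : ℤ) ∣ d * t ^ 2 := Dvd.dvd.mul_left (dvd_pow ht two_ne_zero) _
    have h3 := dvd_add h h2
    rwa [sub_add_cancel] at h3
  have h2 : (p : ℤ) ∣ s := hp'.dvd_of_dvd_pow h1
  exact hp'.not_isUnit (hst.isUnit_of_dvd' h2 ht)

theorem Del_ne_zero {R : ℕ} {N : Fin R → ℕ} {l : Fin m → ℕ} (hl : GoodL P N l) (a : Fin m) :
    Gam P ≠ 0 ∧ Del P ≠ 0 := by
  have h1 : Gam P ≠ 0 := by
    intro h
    exact hl.ndvd a (h ▸ dvd_zero _)
  refine ⟨h1, ?_⟩
  intro h
  apply h1
  rw [Gam, h, zero_pow (Nat.succ_ne_zero m)]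

theorem dvd_Del {k k' : Option (Fin m)} (hk : k ≠ k') :
    (dd P k - dd P k').natAbs ∣ Del P := by
  unfold Del
  have h1 : (∏ l : Option (Fin m), if k = l then 1 else (dd P k - dd P l).natAbs) ∣
      ∏ k : Option (Fin m), ∏ l : Option (Fin m),
        if k = l then 1 else (dd P k - dd P l).natAbs :=
    Finset.dvd_prod_of_mem (fun k : Option (Fin m) => ∏ l : Option (Fin m),
        if k = l then 1 else (dd P k - dd P l).natAbs) (Finset.mem_univ k)
  have h2 : (if k = k' then 1 else (dd P k - dd P k').natAbs) ∣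
      ∏ l : Option (Fin m), if k = l then 1 else (dd P k - dd P l).natAbs :=
    Finset.dvd_prod_of_mem (fun l : Option (Fin m) =>
        if k = l then 1 else (dd P k - dd P l).natAbs) (Finset.mem_univ k')
  rw [if_neg hk] at h2
  exact h2.trans h1

/-- the minimum of two valuations is bounded -/
theorem min_le {s t : ℤ} (hst : IsCoprime s t) (hV : ∀ k, s ^ 2 - dd P k * t ^ 2 ≠ 0)
    (hD : Del P ≠ 0) {p : ℕ} (hp : p.Prime) {k k' : Option (Fin m)} (hk : k ≠ k') :
    min ((s ^ 2 - dd P k * t ^ 2).natAbs.factorization p)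
      ((s ^ 2 - dd P k' * t ^ 2).natAbs.factorization p) ≤ (Del P).factorization p := by
  set e := min ((s ^ 2 - dd P k * t ^ 2).natAbs.factorization p)
      ((s ^ 2 - dd P k' * t ^ 2).natAbs.factorization p) with he
  rcases Nat.eq_zero_or_pos e with h0 | h0
  · rw [h0]; exact Nat.zero_le _
  have h1 : ((p ^ e : ℕ) : ℤ) ∣ s ^ 2 - dd P k * t ^ 2 := by
    rw [Int.natCast_dvd]
    exact (hp.pow_dvd_iff_le_factorization (Int.natAbs_ne_zero.2 (hV k))).2 (min_le_left _ _)
  have h2 : ((p ^ e : ℕ) : ℤ) ∣ s ^ 2 - dd P k' * t ^ 2 := by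
    rw [Int.natCast_dvd]
    exact (hp.pow_dvd_iff_le_factorization (Int.natAbs_ne_zero.2 (hV k'))).2 (min_le_right _ _)
  have h3 : (p : ℤ) ∣ s ^ 2 - dd P k * t ^ 2 := by
    refine dvd_trans ?_ h1
    rw [Nat.cast_pow]
    exact dvd_pow_self _ h0.ne'
  have h4 := not_dvd_t hst hp h3
  have h5 : ((p ^ e : ℕ) : ℤ) ∣ (dd P k - dd P k') * t ^ 2 := by
    have h6 := dvd_sub h2 h1
    have h7 : s ^ 2 - dd P k' * t ^ 2 - (s ^ 2 - dd P k * t ^ 2) = (dd P k - dd P k') * t ^ 2 := by
      ring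
    rwa [h7] at h6
  have hp' : Prime (p : ℤ) := Nat.prime_iff_prime_int.1 hp
  have h6 : IsCoprime ((p ^ e : ℕ) : ℤ) (t ^ 2) := by
    rw [Nat.cast_pow]
    apply IsCoprime.pow
    exact (hp'.coprime_iff_not_dvd).2 h4
  have h7 : ((p ^ e : ℕ) : ℤ) ∣ dd P k - dd P k' := h6.dvd_of_dvd_mul_right h5
  have h8 : p ^ e ∣ Del P := (Int.natCast_dvd.1 h7).trans (dvd_Del hk)
  exact (hp.pow_dvd_iff_le_factorization hD).1 h8

/-- `l_a` divides only `V_a` -/
theorem eq_some {R : ℕ} {N : Fin R → ℕ} {l : Fin m → ℕ} (hl : GoodL P N l) {s t : ℤ}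
    (hst : IsCoprime s t) (a : Fin m) (k : Option (Fin m))
    (h : (l a : ℤ) ∣ s ^ 2 - dd P k * t ^ 2) : k = some a := by
  by_contra hk
  apply hl.nsq a k hk
  have : Fact (l a).Prime := ⟨hl.prime a⟩
  have h1 := not_dvd_t hst (hl.prime a) h
  have h2 : ((s ^ 2 - dd P k * t ^ 2 : ℤ) : ZMod (l a)) = 0 :=
    (ZMod.intCast_zmod_eq_zero_iff_dvd _ _).2 h
  have h3 : (t : ZMod (l a)) ≠ 0 := by
    rw [Ne, ZMod.intCast_zmod_eq_zero_iff_dvd]
    exact h1
  refine ⟨(s : ZMod (l a)) / t, ?_⟩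
  push_cast at h2
  field_simp
  linear_combination -h2

end

/-- the local statement at all primes -/
theorem local_all {m R : ℕ} {P : Fin m → ℕ} {N : Fin R → ℕ} {l : Fin m → ℕ}
    (hl : GoodL P N l) (i : Fin R) {s t : ℤ} (hst : IsCoprime s t)
    (hV : ∀ k, s ^ 2 - dd P k * t ^ 2 ≠ 0) (X : Finset (Fin m))
    (hX : ∀ p : ℕ, p.Prime → (N i : ℤ) ∣
      (padicValInt p (∏ k : Option (Fin m), (s ^ 2 - dd P k * t ^ 2)) : ℤ) -
        (if ∃ a ∈ X, l a = p then 1 else 0)) (b : Fin m) (hb : b ∈ X) (p : ℕ) (hp : p.Prime) :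
    ∃ e : ℤ, |e| ≤ (Gam P).factorization p ∧
      (N i : ℤ) ∣ ((s ^ 2 - dd P (some b) * t ^ 2).natAbs.factorization p : ℤ) -
        (s ^ 2 - dd P none * t ^ 2).natAbs.factorization p - (l b).factorization p - e := by
  obtain ⟨hG, hD⟩ := Del_ne_zero hl b
  set v : Option (Fin m) → ℕ :=
    fun k => (s ^ 2 - dd P k * t ^ 2).natAbs.factorization p with hv
  have hval : padicValInt p (∏ k : Option (Fin m), (s ^ 2 - dd P k * t ^ 2)) = ∑ k, v k := by
    have habs : (∏ k : Option (Fin m), (s ^ 2 - dd P k * t ^ 2)).natAbs =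
        ∏ k : Option (Fin m), (s ^ 2 - dd P k * t ^ 2).natAbs :=
      map_prod Int.natAbsHom _ _
    rw [padicValInt, habs, ← Nat.factorization_def _ hp,
      Nat.factorization_prod (fun k _ => Int.natAbs_ne_zero.2 (hV k)), Finsupp.finsetSum_apply]
  have h1 := hX p hp
  rw [hval] at h1
  by_cases hpl : ∃ a', l a' = p
  · obtain ⟨a', ha'⟩ := hpl
    have hzero : ∀ k, k ≠ some a' → v k = 0 := by
      intro k hk
      rw [hv]
      simp only
      rw [Nat.factorization_eq_zero_iff]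
      right; left
      intro h
      apply hk
      apply eq_some hl hst a' k
      rw [ha']
      exact Int.natCast_dvd.2 h
    refine ⟨0, by simp, ?_⟩
    have h2 : ((l b).factorization p : ℤ) = if a' = b then 1 else 0 := by
      split_ifs with h
      · rw [← h, ha', hp.factorization_self]
        rfl
      · have h3 : l b ≠ p := fun h3 => h (hl.inj (ha'.trans h3.symm))
        rw [Nat.factorization_eq_zero_iff _ _ |>.2]
        · rfl
        · right; left
          intro h4
          exact h3 ((Nat.prime_dvd_prime_iff_eq hp (hl.prime b)).1 h4).symm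
    have h3 : v none = 0 := hzero none (by simp)
    have h4 : ∑ k, v k = v (some a') := by
      apply Finset.sum_eq_single_of_mem _ (Finset.mem_univ _)
      intro k _ hk
      exact hzero k hk
    rw [h4] at h1
    change (N i : ℤ) ∣ (v (some b) : ℤ) - v none - (l b).factorization p - 0
    rw [h2, h3]
    by_cases hab : a' = b
    · subst hab
      rw [if_pos ⟨a', hb, ha'⟩] at h1
      simpa using h1
    · rw [if_neg hab, hzero (some b) (fun h => hab (Option.some_injective _ h).symm)]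
      simp
  · have h2 : ¬ ∃ a ∈ X, l a = p := fun ⟨a, _, ha⟩ => hpl ⟨a, ha⟩
    rw [if_neg h2, sub_zero] at h1
    obtain ⟨e, he1, he2⟩ := local_comb v ((Del P).factorization p) (N i)
      (fun k k' hk => min_le hst hV hD hp hk) h1 (some b) none (by simp)
    refine ⟨e, ?_, ?_⟩
    · rw [Gam, Nat.factorization_pow]
      simp only [Fintype.card_option, Fintype.card_fin] at he1
      simpa using he1
    · have h3 : (l b).factorization p = 0 := by
        rw [Nat.factorization_eq_zero_iff]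
        right; left
        intro h4
        exact hpl ⟨b, ((Nat.prime_dvd_prime_iff_eq hp (hl.prime b)).1 h4).symm⟩
      rw [h3]
      simpa using he2

end Pool.Agent.FD.Side

namespace Pool.Agent.FD

open Side Finset in
theorem p_SIDE : T_SIDE := by
  intro m R P N l hP hl i hN s t hst hV X hX
  by_contra hcard
  push Not at hcard
  obtain ⟨a₀, ha₀, b₀, hb₀, hab₀⟩ := Finset.one_lt_card.1 hcard
  obtain ⟨a, ha, b, hb, hab⟩ : ∃ a ∈ X, ∃ b ∈ X, a < b := by
    rcases lt_or_gt_of_ne hab₀ with h | h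
    · exact ⟨a₀, ha₀, b₀, hb₀, h⟩
    · exact ⟨b₀, hb₀, a₀, ha₀, h⟩
  obtain ⟨hG, hD⟩ := Del_ne_zero hl b
  choose! e he1 he2 using local_all hl i hst hV X hX b hb
  obtain ⟨g₁, hg₁, hg₁'⟩ := exists_fac hG (fun p => (e p).toNat) (fun p hp => by
    have := he1 p hp
    have h2 := le_abs_self (e p)
    omega)
  obtain ⟨g₂, hg₂, hg₂'⟩ := exists_fac hG (fun p => (-e p).toNat) (fun p hp => by
    have := he1 p hp
    have h2 := neg_abs_le (e p)
    omega)
  have hg₁0 : g₁ ≠ 0 := fun h => by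
    rw [h, Nat.mem_divisors, zero_dvd_iff] at hg₁
    exact hG hg₁.1
  have hg₂0 : g₂ ≠ 0 := fun h => by
    rw [h, Nat.mem_divisors, zero_dvd_iff] at hg₂
    exact hG hg₂.1
  set Vb := s ^ 2 - dd P (some b) * t ^ 2 with hVb
  set Vn := s ^ 2 - dd P none * t ^ 2 with hVn
  have hVb0 : Vb.natAbs ≠ 0 := Int.natAbs_ne_zero.2 (hV _)
  have hVn0 : Vn.natAbs ≠ 0 := Int.natAbs_ne_zero.2 (hV _)
  have hlb0 : l b ≠ 0 := (hl.prime b).ne_zero
  obtain ⟨A, B, hco, hAB⟩ := exists_ratio (N := N i) (mul_ne_zero hVb0 hg₂0)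
    (mul_ne_zero (mul_ne_zero hVn0 hlb0) hg₁0) (fun p hp => by
      rw [Nat.factorization_mul hVb0 hg₂0, Nat.factorization_mul (mul_ne_zero hVn0 hlb0) hg₁0,
        Nat.factorization_mul hVn0 hlb0]
      simp only [Finsupp.add_apply, hg₁' p hp, hg₂' p hp]
      have h1 := he2 p hp
      have h2 : ((Vb.natAbs.factorization p + (-e p).toNat : ℕ) : ℤ) -
          ((Vn.natAbs.factorization p + (l b).factorization p + (e p).toNat : ℕ) : ℤ) =
          (Vb.natAbs.factorization p : ℤ) - Vn.natAbs.factorization p -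
            (l b).factorization p - e p := by
        push_cast
        have h3 : ((-e p).toNat : ℤ) - ((e p).toNat : ℤ) = - e p := by omega
        linear_combination h3
      rw [h2]
      exact h1)
  have : Fact (l a).Prime := ⟨hl.prime a⟩
  have hla := hl.prime a
  have hab' : some b ≠ some a := fun h => hab.ne (Option.some_injective _ h).symm
  -- `l a` divides `V (some a)`
  have hda : (l a : ℤ) ∣ s ^ 2 - dd P (some a) * t ^ 2 := by
    have h1 := hX (l a) hla
    rw [if_pos ⟨a, ha, rfl⟩] at h1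
    have h2 : padicValInt (l a) (∏ k : Option (Fin m), (s ^ 2 - dd P k * t ^ 2)) ≠ 0 := by
      intro h
      rw [h] at h1
      have h3 : (N i : ℤ) ∣ 1 := by simpa using h1
      have h4 := Int.le_of_dvd one_pos h3
      have h5 : (2 : ℤ) ≤ N i := by exact_mod_cast hN
      omega
    have h3 : (l a : ℤ) ∣ ∏ k : Option (Fin m), (s ^ 2 - dd P k * t ^ 2) := by
      by_contra h
      exact h2 (padicValInt.eq_zero_of_not_dvd h)
    obtain ⟨k, _, hk⟩ := ((Nat.prime_iff_prime_int.1 hla).dvd_finsetProd_iff _).1 h3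
    have h4 := eq_some hl hst a k hk
    rwa [h4] at hk
  have hnb : ¬ (l a : ℤ) ∣ Vb := fun h => hab' (eq_some hl hst a _ h)
  have hnn : ¬ (l a : ℤ) ∣ Vn := fun h => by
    have := eq_some hl hst a _ h
    simp at this
  have ht : ¬ (l a : ℤ) ∣ t := not_dvd_t hst hla hda
  have hne1 : (t : ZMod (l a)) ≠ 0 := by
    rw [Ne, ZMod.intCast_zmod_eq_zero_iff_dvd]
    exact ht
  have hgd : ∀ g ∈ (Gam P).divisors, ¬ l a ∣ g := fun g hg h =>
    hl.ndvd a (h.trans (Nat.dvd_of_mem_divisors hg))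
  have hA : ¬ l a ∣ A := by
    intro h
    have h1 : l a ∣ Vb.natAbs * g₂ * B ^ N i := by
      rw [hAB]
      exact Dvd.dvd.mul_left (dvd_pow h (by omega)) _
    rcases (hla.dvd_mul).1 h1 with h2 | h2
    · rcases (hla.dvd_mul).1 h2 with h3 | h3
      · exact hnb (Int.natCast_dvd.2 h3)
      · exact hgd _ hg₂ h3
    · have h3 := hla.dvd_of_dvd_pow h2
      have h4 := Nat.dvd_gcd h h3
      rw [Nat.Coprime.gcd_eq_one hco] at h4
      exact hla.one_lt.ne' (Nat.dvd_one.1 h4)
  have hB : ¬ l a ∣ B := by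
    intro h
    have h1 : l a ∣ Vn.natAbs * l b * g₁ * A ^ N i := by
      rw [← hAB]
      exact Dvd.dvd.mul_left (dvd_pow h (by omega)) _
    rcases (hla.dvd_mul).1 h1 with h2 | h2
    · rcases (hla.dvd_mul).1 h2 with h3 | h3
      · rcases (hla.dvd_mul).1 h3 with h4 | h4
        · exact hnn (Int.natCast_dvd.2 h4)
        · exact hab.ne (hl.inj ((Nat.prime_dvd_prime_iff_eq hla (hl.prime b)).1 h4))
      · exact hgd _ hg₁ h3
    · exact hA (hla.dvd_of_dvd_pow h2)
  have hA0 : (A : ZMod (l a)) ≠ 0 := by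
    rw [Ne, ZMod.natCast_eq_zero_iff]
    exact hA
  have hB0 : (B : ZMod (l a)) ≠ 0 := by
    rw [Ne, ZMod.natCast_eq_zero_iff]
    exact hB
  -- the equation modulo `l a`
  have hsq : (s : ZMod (l a)) ^ 2 = (dd P (some a) : ZMod (l a)) * (t : ZMod (l a)) ^ 2 := by
    have h := (ZMod.intCast_zmod_eq_zero_iff_dvd _ _).2 hda
    push_cast at h
    linear_combination h
  have hVbm : (Vb : ZMod (l a)) = ((dd P (some a) - dd P (some b) : ℤ) : ZMod (l a)) *
      (t : ZMod (l a)) ^ 2 := by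
    rw [hVb]
    push_cast
    rw [hsq]
    ring
  have hVnm : (Vn : ZMod (l a)) = ((dd P (some a) - dd P none : ℤ) : ZMod (l a)) *
      (t : ZMod (l a)) ^ 2 := by
    rw [hVn]
    push_cast
    rw [hsq]
    ring
  have hAB' : (Vb.natAbs : ZMod (l a)) * g₂ * (B : ZMod (l a)) ^ N i =
      (Vn.natAbs : ZMod (l a)) * l b * g₁ * (A : ZMod (l a)) ^ N i := by
    exact_mod_cast congrArg (Nat.cast : ℕ → ZMod (l a)) hAB
  have hsign : ∀ x : ℤ, ((x.natAbs : ZMod (l a)) = x) ∨ ((x.natAbs : ZMod (l a)) = -x) := by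
    intro x
    rcases Int.natAbs_eq x with h | h
    · left
      have : ((x.natAbs : ℤ) : ZMod (l a)) = (x : ZMod (l a)) := by rw [← h]
      simpa using this
    · right
      have : ((-(x.natAbs : ℤ) : ℤ) : ZMod (l a)) = (x : ZMod (l a)) := by rw [← h]
      push_cast at this
      rw [← this]
      simp
  have hav := hl.avoid a b hab i g₁ hg₁ g₂ hg₂ ((A : ZMod (l a)) / B)
    (div_ne_zero hA0 hB0)
  have hBp : (B : ZMod (l a)) ^ N i ≠ 0 := pow_ne_zero _ hB0
  have ht2 : (t : ZMod (l a)) ^ 2 ≠ 0 := pow_ne_zero _ hne1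
  have key : ∀ ε : ZMod (l a), 
      ε * ((dd P (some a) - dd P (some b) : ℤ) : ZMod (l a)) * (t : ZMod (l a)) ^ 2 * g₂ *
        (B : ZMod (l a)) ^ N i =
      ((dd P (some a) - dd P none : ℤ) : ZMod (l a)) * (t : ZMod (l a)) ^ 2 * l b * g₁ *
        (A : ZMod (l a)) ^ N i →
      (l b : ZMod (l a)) * (g₁ : ZMod (l a)) *
        ((dd P (some a) - dd P none : ℤ) : ZMod (l a)) * ((A : ZMod (l a)) / B) ^ N i =
      ε * (((dd P (some a) - dd P (some b) : ℤ) : ZMod (l a)) * (g₂ : ZMod (l a))) := by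
    intro ε h
    rw [div_pow]
    field_simp
    have h2 : (t : ZMod (l a)) ^ 2 *
        ((l b : ZMod (l a)) * (g₁ : ZMod (l a)) *
          ((dd P (some a) - dd P none : ℤ) : ZMod (l a)) * (A : ZMod (l a)) ^ N i) =
        (t : ZMod (l a)) ^ 2 * ((B : ZMod (l a)) ^ N i * ε *
          ((dd P (some a) - dd P (some b) : ℤ) : ZMod (l a)) * (g₂ : ZMod (l a))) := by
      linear_combination -h
    have h3 := mul_left_cancel₀ ht2 h2
    linear_combination h3
  rcases hsign Vb with h1 | h1 <;> rcases hsign Vn with h2 | h2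
  · rw [h1, h2, hVbm, hVnm] at hAB'
    refine hav.1 ((key 1 (by linear_combination hAB')).trans (by ring))
  · rw [h1, h2, hVbm, hVnm] at hAB'
    refine hav.2 ((key (-1) (by linear_combination -hAB')).trans (by ring))
  · rw [h1, h2, hVbm, hVnm] at hAB'
    refine hav.2 ((key (-1) (by linear_combination hAB')).trans (by ring))
  · rw [h1, h2, hVbm, hVnm] at hAB'
    refine hav.1 ((key 1 (by linear_combination -hAB')).trans (by ring))

end Pool.Agent.FD
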