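import Pool.Agent.FD.Class
import Pool.Agent.FD.Place
import Pool.Agent.FD.Chart
import Pool.Agent.FD.Irr
import Pool.Agent.FD.Prin
import Pool.Agent.FD.DegPush
import Pool.Agent.FD.Res
import Pool.Agent.FD.F0
import Pool.Agent.FD.SelB
import Pool.Agent.FD.Side
import Pool.Agent.FD.ArithB
import Pool.Agent.FD.HC
import Pool.Agent.FD.Comb
import Pool.Agent.FD.Pow
import Pool.Agent.FD.SelMB
import Pool.Agent.FD.MainB
import Pool.Agent.FD.CritB
import Pool.Agent.FD.MainC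

/-!
# The theorem from its parts
-/

namespace Pool.Agent.FD

theorem all_TPL : T_TPL := p_TPL p_PLACE p_CHART

theorem main : T_MAIN2 :=
  p_MAIN2 p_IRR
    (p_SELM2 pB_CRIT all_TPL (p_PRIN p_CLASS all_TPL) (p_DEG all_TPL) (p_PUSH all_TPL))
    (p_RES p_CLASS) p_P2 p_LOC p_SEL2 (p_HC p_F0) (p_ARITH2 p_CLASS p_SIDE) p_H2 p_COMB p_POW

theorem mainC : T_MAINC :=
  p_MAINC p_IRR
    (p_SELM2 pB_CRIT all_TPL (p_PRIN p_CLASS all_TPL) (p_DEG all_TPL) (p_PUSH all_TPL))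
    (p_RES p_CLASS) p_P2 p_LOC p_SEL2 (p_HC p_F0) (p_ARITH2 p_CLASS p_SIDE) p_H2 p_COMB

end Pool.Agent.FD
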