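import Pool.Agent.FD.Basic

/-!
# Arrangement curves `∏ f_i (y + h_i(x)) = c`
-/

open MvPolynomial

namespace Pool.Agent.FD

/-- The data of an arrangement curve `∏_i f_i(y + h_i(x)) = c`. -/
structure Arr (ι : Type) [Fintype ι] [DecidableEq ι] where
  f : ι → Polynomial ℤ
  h : ι → Polynomial ℤ
  c : ℤ
  monic : ∀ i, (f i).Monic
  deg_pos : ∀ i, 0 < (f i).natDegree
  sep : ∀ i, ((f i).map (Int.castRingHom ℚ)).Separable
  lead : ∀ i j, i ≠ j → IsUnit (h i - h j).leadingCoeff
  wpos : ∀ i j, i ≠ j → 0 < (h i - h j).natDegree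
  i₀ : ι
  i₁ : ι
  i₁_ne : i₁ ≠ i₀
  h_i₀ : h i₀ = 0
  c_ne : c ≠ 0

namespace Arr

variable {ι : Type} [Fintype ι] [DecidableEq ι] (A : Arr ι)

/-- the weights `w i j = deg (h_i - h_j)` -/
noncomputable def w (i j : ι) : ℕ := (A.h i - A.h j).natDegree

/-- the degrees `m i = deg f_i` -/
noncomputable def m (i : ι) : ℕ := (A.f i).natDegree

/-- the orders `N i = ∑_{j ≠ i} m_j w_{ij}` -/
noncomputable def N (i : ι) : ℕ := ∑ j ∈ Finset.univ.erase i, A.m j * A.w i j

/-- `g_i = y + h_i(x)` -/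
noncomputable def g {K : Type} [Field K] (i : ι) (x y : K) : K :=
  y + Polynomial.aeval x (A.h i)

/-- The equation of the arrangement curve. -/
def Eqn {K : Type} [Field K] (x y : K) : Prop :=
  ∏ i, Polynomial.aeval (A.g i x y) (A.f i) = (A.c : K)

/-- The polynomial `∏ f_i(y + h_i(x)) - c`. -/
noncomputable def F : MvPolynomial (Fin 2) ℚ :=
  (∏ i, Polynomial.aeval (X 1 + Polynomial.aeval (X 0 : MvPolynomial (Fin 2) ℚ) (A.h i)) (A.f i))
    - C (A.c : ℚ)

theorem polyOver_F (L : Type) [Field L] [CharZero L] :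
    polyOver L A.F =
    (∏ i, Polynomial.aeval (X 1 + Polynomial.aeval (X 0 : MvPolynomial (Fin 2) L) (A.h i))
      (A.f i)) - C (A.c : L) := by
  unfold polyOver F
  rw [map_sub, map_prod, map_C, map_intCast]
  congr 1
  refine Finset.prod_congr rfl fun i _ => ?_
  have h1 : ∀ (p : Polynomial ℤ) (a : MvPolynomial (Fin 2) ℚ),
      MvPolynomial.map (Rat.castHom L) (Polynomial.aeval a p) =
      Polynomial.aeval (MvPolynomial.map (Rat.castHom L) a) p := by
    intro p a
    rw [Polynomial.aeval_def, Polynomial.hom_eval₂, Polynomial.aeval_def]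
    congr 1
    exact Subsingleton.elim _ _
  rw [h1, map_add, h1, map_X, map_X]

theorem w_comm (i j : ι) : A.w i j = A.w j i := by
  unfold w
  rw [← Polynomial.natDegree_neg, neg_sub]

theorem w_pos {i j : ι} (h : i ≠ j) : 0 < A.w i j := A.wpos i j h

end Arr

namespace Curve

variable (C : Curve) (L : Type) [Field L] [CharZero L] [IsAlgClosed L]

/-- the coordinate function `x` -/
noncomputable def xF : C.FunField L :=
  algebraMap (C.CoordRing L) (C.FunField L) (C.mkCoord L (X 0))

/-- the coordinate function `y` -/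
noncomputable def yF : C.FunField L :=
  algebraMap (C.CoordRing L) (C.FunField L) (C.mkCoord L (X 1))

theorem aeval_xy (P : MvPolynomial (Fin 2) L) :
    MvPolynomial.aeval ![C.xF L, C.yF L] P =
      algebraMap (C.CoordRing L) (C.FunField L) (C.mkCoord L P) := by
  induction P using MvPolynomial.induction_on with
  | C a =>
    rw [MvPolynomial.aeval_C, IsScalarTower.algebraMap_apply L (C.CoordRing L) (C.FunField L)]
    rfl
  | add p q hp hq => rw [map_add, hp, hq, map_add, map_add]
  | mul_X p i hp =>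
    rw [map_mul, hp, map_mul, map_mul, MvPolynomial.aeval_X]
    congr 1
    fin_cases i
    · rfl
    · rfl

theorem aeval_xy_eq_zero (P : MvPolynomial (Fin 2) L) :
    MvPolynomial.aeval ![C.xF L, C.yF L] P = 0 ↔ polyOver L C.F ∣ P := by
  rw [aeval_xy, ← mkCoord_eq_zero]
  exact ⟨fun h => IsFractionRing.injective (C.CoordRing L) (C.FunField L)
    (h.trans (map_zero _).symm), fun h => by rw [h, map_zero]⟩

theorem exists_ratio (f : C.FunField L) : ∃ a b : MvPolynomial (Fin 2) L,
    MvPolynomial.aeval ![C.xF L, C.yF L] b ≠ 0 ∧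
    f * MvPolynomial.aeval ![C.xF L, C.yF L] b = MvPolynomial.aeval ![C.xF L, C.yF L] a := by
  obtain ⟨a, b, hb, rfl⟩ := IsFractionRing.div_surjective (A := C.CoordRing L) f
  obtain ⟨a, rfl⟩ := C.mkCoord_surjective a
  obtain ⟨b, rfl⟩ := C.mkCoord_surjective b
  have hb0 : MvPolynomial.aeval ![C.xF L, C.yF L] b ≠ 0 := by
    rw [aeval_xy]
    exact IsFractionRing.to_map_ne_zero_of_mem_nonZeroDivisors hb
  refine ⟨a, b, hb0, ?_⟩
  rw [← aeval_xy, ← aeval_xy, div_mul_cancel₀ _ hb0]

variable {L} {L' : Type} [Field L'] [CharZero L'] [IsAlgClosed L']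

theorem mapFun_aeval (j : L →+* L') (P : MvPolynomial (Fin 2) L) :
    C.mapFun j (MvPolynomial.aeval ![C.xF L, C.yF L] P) =
      MvPolynomial.aeval ![C.xF L', C.yF L'] (MvPolynomial.map j P) := by
  rw [aeval_xy, mapFun_algebraMap, mapCoord_mk, aeval_xy]

theorem mapFun_xF (j : L →+* L') : C.mapFun j (C.xF L) = C.xF L' := by
  have h := C.mapFun_aeval j (X 0)
  rwa [aeval_X, map_X, aeval_X] at h

theorem mapFun_yF (j : L →+* L') : C.mapFun j (C.yF L) = C.yF L' := by
  have h := C.mapFun_aeval j (X 1)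
  rwa [aeval_X, map_X, aeval_X] at h

end Curve

namespace Arr

variable {ι : Type} [Fintype ι] [DecidableEq ι] (A : Arr ι)

theorem aeval_F {L K : Type} [Field L] [CharZero L] [Field K] [Algebra L K] (x y : K) :
    MvPolynomial.aeval ![x, y] (polyOver L A.F) =
      (∏ i, Polynomial.aeval (A.g i x y) (A.f i)) - (A.c : K) := by
  rw [polyOver_F, map_sub, map_prod, aeval_C, map_intCast]
  congr 1
  refine Finset.prod_congr rfl fun i _ => ?_
  have h1 : ∀ (p : Polynomial ℤ) (a : MvPolynomial (Fin 2) L),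
      MvPolynomial.aeval ![x, y] (Polynomial.aeval a p) =
      Polynomial.aeval (MvPolynomial.aeval ![x, y] a) p := by
    intro p a
    have h2 := Polynomial.map_aeval_eq_aeval_map (R := ℤ) (S := MvPolynomial (Fin 2) L)
      (T := ℤ) (U := K) (φ := RingHom.id ℤ) (ψ := (MvPolynomial.aeval ![x, y] :
        MvPolynomial (Fin 2) L →ₐ[L] K).toRingHom) (Subsingleton.elim _ _) p a
    rw [Polynomial.map_id] at h2
    exact h2
  rw [h1, map_add, h1, aeval_X, aeval_X]
  rfl

theorem eqn_of_F {C : Curve} (hC : C.F = A.F) (L : Type) [Field L] [CharZero L]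
    [IsAlgClosed L] : A.Eqn (C.xF L) (C.yF L) := by
  have h := (C.aeval_xy_eq_zero L (polyOver L A.F)).mpr (by rw [hC])
  rw [aeval_F, sub_eq_zero] at h
  exact h

end Arr

end Pool.Agent.FD
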