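import Pool.Agent.FD.Defs

/-!
# Basic facts: valuations, places, function fields, arrangement curves
-/

open MvPolynomial

namespace Pool.Agent.FD

/-- A discrete valuation (possibly trivial or not normalised) on a field, which is
nonnegative on the integers; `ord 0 = 0` by convention. -/
structure DV (K : Type) [Field K] where
  /-- the order -/
  ord : K → ℤ
  ord_zero : ord 0 = 0
  ord_mul : ∀ f g : K, f ≠ 0 → g ≠ 0 → ord (f * g) = ord f + ord g
  ord_add : ∀ f g : K, f ≠ 0 → g ≠ 0 → f + g ≠ 0 → min (ord f) (ord g) ≤ ord (f + g)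
  ord_int : ∀ a : ℤ, 0 ≤ ord (a : K)

/-- A place as a valuation. -/
def Place.toDV {L K : Type} [Field L] [Field K] [Algebra L K] (v : Place L K) : DV K where
  ord := v.ord
  ord_zero := v.ord_zero
  ord_mul := v.ord_mul
  ord_add := v.ord_add
  ord_int a := by
    have h := v.ord_const (a : L)
    rw [map_intCast] at h
    exact h.ge

/-- The `p`-adic valuation on `ℚ`. -/
noncomputable def padicDV (p : ℕ) [Fact p.Prime] : DV ℚ where
  ord := padicValRat p
  ord_zero := padicValRat.zero
  ord_mul f g hf hg := padicValRat.mul hf hg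
  ord_add f g _ _ hfg := padicValRat.min_le_padicValRat_add hfg
  ord_int a := by
    rw [padicValRat.of_int]
    exact Int.natCast_nonneg _

namespace DV

variable {K : Type} [Field K] (v : DV K)

theorem ord_one : v.ord 1 = 0 := by
  have h := v.ord_mul 1 1 one_ne_zero one_ne_zero
  rw [mul_one] at h
  omega

theorem ord_neg (f : K) : v.ord (-f) = v.ord f := by
  rcases eq_or_ne f 0 with rfl | hf
  · rw [neg_zero]
  · have h1 := v.ord_mul (-1) (-1) (neg_ne_zero.mpr one_ne_zero) (neg_ne_zero.mpr one_ne_zero)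
    rw [neg_mul_neg, mul_one, v.ord_one] at h1
    have h2 := v.ord_mul (-1) f (neg_ne_zero.mpr one_ne_zero) hf
    rw [neg_one_mul] at h2
    omega

theorem ord_inv (f : K) : v.ord f⁻¹ = -v.ord f := by
  rcases eq_or_ne f 0 with rfl | hf
  · rw [inv_zero, v.ord_zero]; rfl
  · have h := v.ord_mul f f⁻¹ hf (inv_ne_zero hf)
    rw [mul_inv_cancel₀ hf, v.ord_one] at h
    omega

theorem ord_pow (f : K) (n : ℕ) : v.ord (f ^ n) = n * v.ord f := by
  rcases eq_or_ne f 0 with rfl | hf
  · rcases Nat.eq_zero_or_pos n with rfl | hn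
    · rw [pow_zero, v.ord_one]; simp
    · rw [zero_pow hn.ne', v.ord_zero]; simp
  · induction n with
    | zero => rw [pow_zero, v.ord_one]; simp
    | succ n ih =>
      rw [pow_succ, v.ord_mul _ _ (pow_ne_zero n hf) hf, ih]
      push_cast
      ring

theorem ord_prod {ι : Type*} (s : Finset ι) (f : ι → K) (hf : ∀ i ∈ s, f i ≠ 0) :
    v.ord (∏ i ∈ s, f i) = ∑ i ∈ s, v.ord (f i) := by
  classical
  induction s using Finset.induction_on with
  | empty => rw [Finset.prod_empty, Finset.sum_empty, v.ord_one]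
  | insert a s ha ih =>
    rw [Finset.prod_insert ha, Finset.sum_insert ha,
      v.ord_mul _ _ (hf a (Finset.mem_insert_self a s))
        (Finset.prod_ne_zero_iff.mpr fun i hi => hf i (Finset.mem_insert_of_mem hi)),
      ih fun i hi => hf i (Finset.mem_insert_of_mem hi)]

theorem ne_zero_of_ord_ne {f : K} (h : v.ord f ≠ 0) : f ≠ 0 := by
  rintro rfl
  exact h v.ord_zero

theorem ord_add_nonneg {f g : K} (hf : 0 ≤ v.ord f) (hg : 0 ≤ v.ord g) :
    0 ≤ v.ord (f + g) := by
  rcases eq_or_ne f 0 with rfl | hf0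
  · rwa [zero_add]
  rcases eq_or_ne g 0 with rfl | hg0
  · rwa [add_zero]
  rcases eq_or_ne (f + g) 0 with h | h
  · rw [h, v.ord_zero]
  · exact le_trans (le_min hf hg) (v.ord_add f g hf0 hg0 h)

theorem ord_mul_nonneg {f g : K} (hf : 0 ≤ v.ord f) (hg : 0 ≤ v.ord g) :
    0 ≤ v.ord (f * g) := by
  rcases eq_or_ne f 0 with rfl | hf0
  · rw [zero_mul, v.ord_zero]
  rcases eq_or_ne g 0 with rfl | hg0
  · rw [mul_zero, v.ord_zero]
  rw [v.ord_mul f g hf0 hg0]
  omega

/-- If `f ≠ 0` and `g = 0` or `ord f < ord g`, then `ord (f + g) = ord f`. -/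
theorem ord_add_eq {f g : K} (hf : f ≠ 0) (h : g = 0 ∨ v.ord f < v.ord g) :
    v.ord (f + g) = v.ord f := by
  rcases h with rfl | h
  · rw [add_zero]
  rcases eq_or_ne g 0 with rfl | hg
  · rw [add_zero]
  have hfg : f + g ≠ 0 := by
    intro h0
    rw [eq_neg_of_add_eq_zero_left h0, v.ord_neg] at h
    omega
  have h1 := v.ord_add f g hf hg hfg
  have h2 := v.ord_add (f + g) (-g) hfg (neg_ne_zero.mpr hg) (by rwa [add_neg_cancel_right])
  rw [add_neg_cancel_right, v.ord_neg] at h2
  omega

/-- If `ord f < 0` and `0 ≤ ord g`, then `ord (f + g) = ord f`. -/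
theorem ord_add_eq_of_neg {f g : K} (hf : v.ord f < 0) (hg : 0 ≤ v.ord g) :
    v.ord (f + g) = v.ord f :=
  v.ord_add_eq (v.ne_zero_of_ord_ne hf.ne) (Or.inr (lt_of_lt_of_le hf hg))

theorem ord_aeval_nonneg (p : Polynomial ℤ) {x : K} (hx : 0 ≤ v.ord x) :
    0 ≤ v.ord (Polynomial.aeval x p) := by
  induction p using Polynomial.induction_on' with
  | add p q hp hq => rw [map_add]; exact v.ord_add_nonneg hp hq
  | monomial n a =>
    rw [Polynomial.aeval_monomial]
    refine v.ord_mul_nonneg ?_ ?_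
    · have := v.ord_int a
      simpa using this
    · rw [v.ord_pow]
      positivity

theorem ord_of_isUnit {a : ℤ} (ha : IsUnit a) : v.ord (a : K) = 0 := by
  rcases Int.isUnit_iff.mp ha with rfl | rfl
  · rw [Int.cast_one, v.ord_one]
  · rw [Int.cast_neg, Int.cast_one, v.ord_neg, v.ord_one]

/-- The order of a polynomial with unit leading coefficient at an element of negative
order. -/
theorem ord_aeval_of_neg [CharZero K] (p : Polynomial ℤ) (hp : IsUnit p.leadingCoeff) {x : K}
    (hx : v.ord x < 0) : v.ord (Polynomial.aeval x p) = p.natDegree * v.ord x := by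
  have hx0 : x ≠ 0 := v.ne_zero_of_ord_ne hx.ne
  have hxi : 0 < v.ord x⁻¹ := by rw [v.ord_inv]; omega
  have hrev : Polynomial.aeval x p = Polynomial.aeval x⁻¹ p.reverse * x ^ p.natDegree := by
    let _ : Invertible x := invertibleOfNonzero hx0
    have h := Polynomial.eval₂_reverse_mul_pow (algebraMap ℤ K) x p
    rw [invOf_eq_inv] at h
    rw [Polynomial.aeval_def, Polynomial.aeval_def, h]
  have hu : (p.leadingCoeff : K) ≠ 0 := by
    intro h
    have h0 : p.leadingCoeff = 0 := by exact_mod_cast h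
    rw [h0] at hp
    exact not_isUnit_zero hp
  have hq : Polynomial.aeval x⁻¹ p.reverse =
      (p.leadingCoeff : K) + x⁻¹ * Polynomial.aeval x⁻¹ p.reverse.divX := by
    conv_lhs => rw [← Polynomial.divX_mul_X_add p.reverse]
    rw [map_add, map_mul, Polynomial.aeval_X, Polynomial.aeval_C, Polynomial.coeff_zero_reverse]
    rw [add_comm, mul_comm x⁻¹]
    rfl
  have hord : v.ord (Polynomial.aeval x⁻¹ p.reverse) = 0 := by
    rw [hq, v.ord_add_eq hu, v.ord_of_isUnit hp]
    rcases eq_or_ne (Polynomial.aeval x⁻¹ p.reverse.divX) 0 with h0 | h0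
    · left; rw [h0, mul_zero]
    · right
      rw [v.ord_of_isUnit hp, v.ord_mul _ _ (inv_ne_zero hx0) h0]
      have := v.ord_aeval_nonneg p.reverse.divX hxi.le
      omega
  have hne : Polynomial.aeval x⁻¹ p.reverse ≠ 0 := by
    intro h0
    rw [hq] at h0
    have h1 : v.ord (p.leadingCoeff : K) = v.ord (x⁻¹ * Polynomial.aeval x⁻¹ p.reverse.divX) := by
      rw [eq_neg_of_add_eq_zero_left h0, v.ord_neg]
    rw [v.ord_of_isUnit hp] at h1
    rcases eq_or_ne (Polynomial.aeval x⁻¹ p.reverse.divX) 0 with h2 | h2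
    · rw [h2, mul_zero, add_zero] at h0
      exact hu h0
    · rw [v.ord_mul _ _ (inv_ne_zero hx0) h2] at h1
      have := v.ord_aeval_nonneg p.reverse.divX hxi.le
      omega
  rw [hrev, v.ord_mul _ _ hne (pow_ne_zero _ hx0), hord, v.ord_pow, zero_add]

end DV

end Pool.Agent.FD
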