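import Pool.Agent.FD.Targets

/-!
# Valuations of the functions `g_i` on an arrangement curve
-/

namespace Pool.Agent.FD

theorem p_CLASS : T_CLASS := by
  intro ι _ _ A K _ _ v x y hE
  have hc0 : (A.c : K) ≠ 0 := by exact_mod_cast A.c_ne
  have hne : ∀ i, Polynomial.aeval (A.g i x y) (A.f i) ≠ 0 := by
    intro i hi
    apply hc0
    rw [← hE]
    exact Finset.prod_eq_zero (Finset.mem_univ i) hi
  have hsum : ∑ i, v.ord (Polynomial.aeval (A.g i x y) (A.f i)) = v.ord (A.c : K) := by
    rw [← v.ord_prod Finset.univ _ fun i _ => hne i, hE]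
  have hc : 0 ≤ v.ord (A.c : K) := v.ord_int A.c
  have hneg : ∀ i, v.ord (A.g i x y) < 0 →
      v.ord (Polynomial.aeval (A.g i x y) (A.f i)) = A.m i * v.ord (A.g i x y) := by
    intro i hi
    exact v.ord_aeval_of_neg (A.f i) (by rw [A.monic i]; exact isUnit_one) hi
  have hsome : ∃ i, 0 ≤ v.ord (A.g i x y) := by
    by_contra hcon
    push Not at hcon
    have h1 : ∑ i, v.ord (Polynomial.aeval (A.g i x y) (A.f i)) < 0 := by
      apply Finset.sum_neg
      · intro i _
        rw [hneg i (hcon i)]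
        have := A.deg_pos i
        have h2 : (0 : ℤ) < A.m i := by exact_mod_cast this
        exact mul_neg_of_pos_of_neg h2 (hcon i)
      · exact ⟨A.i₀, Finset.mem_univ _⟩
    omega
  constructor
  · intro hx
    by_contra hy
    push Not at hy
    obtain ⟨i, hi⟩ := hsome
    have h1 : v.ord (A.g i x y) = v.ord y :=
      v.ord_add_eq_of_neg hy (v.ord_aeval_nonneg _ hx)
    omega
  · intro hx
    obtain ⟨i, hi⟩ := hsome
    have hj : ∀ j, j ≠ i → v.ord (A.g j x y) = v.ord x * A.w i j := by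
      intro j hji
      have h1 : v.ord (Polynomial.aeval x (A.h i - A.h j)) = A.w i j * v.ord x :=
        v.ord_aeval_of_neg _ (A.lead i j hji.symm) hx
      have h2 : A.g j x y = -Polynomial.aeval x (A.h i - A.h j) + A.g i x y := by
        unfold Arr.g
        rw [map_sub]
        ring
      have h3 : (0 : ℤ) < A.w i j := by exact_mod_cast A.w_pos hji.symm
      rw [h2, v.ord_add_eq_of_neg _ hi, v.ord_neg, h1, mul_comm]
      rw [v.ord_neg, h1]
      exact mul_neg_of_pos_of_neg h3 hx
    refine ⟨i, hi, hj, ?_⟩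
    have h4 : ∑ j ∈ Finset.univ.erase i, v.ord (Polynomial.aeval (A.g j x y) (A.f j)) =
        v.ord x * A.N i := by
      unfold Arr.N
      push_cast
      rw [Finset.mul_sum]
      refine Finset.sum_congr rfl fun j hjm => ?_
      have hji : j ≠ i := Finset.ne_of_mem_erase hjm
      have h3 : (0 : ℤ) < A.w i j := by exact_mod_cast A.w_pos hji.symm
      rw [hneg j, hj j hji]
      · ring
      · rw [hj j hji]
        exact mul_neg_of_neg_of_pos hx h3
    have h5 := Finset.add_sum_erase Finset.univ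
      (fun j => v.ord (Polynomial.aeval (A.g j x y) (A.f j))) (Finset.mem_univ i)
    rw [h4, hsum] at h5
    linarith

theorem p_TPL (h1 : T_PLACE) (h2 : T_CHART) : T_TPL := by
  intro ι _ _ A C hC L _ _ _ i θ hθ
  obtain ⟨hx, hg, hgen, hcen, hsm⟩ := h2 ι A C hC L i θ hθ
  obtain ⟨v, hv1, hv2, hv3⟩ := h1 L (C.FunField L) (A.g i (C.xF L) (C.yF L)) (C.xF L)⁻¹ θ
    (inv_ne_zero hx) hg hgen hcen hsm
  have hinv : ∀ w : C.Pt L, w.ord (C.xF L)⁻¹ = -w.ord (C.xF L) := fun w =>
    w.toDV.ord_inv _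
  refine ⟨v, ?_, hv2, ?_⟩
  · have := hinv v
    omega
  · intro w hw1 hw2
    refine hv3 w ?_ hw2
    rw [hinv]
    omega

end Pool.Agent.FD
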