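import Pool.Agent.FD.Targets

/-!
# Functoriality of divisors, and the torsion criterion (target `T_CRIT`)
-/

open MvPolynomial

namespace Pool.Agent.FD

namespace Crit

open Curve

variable {C : Curve} {L L' L'' : Type} [Field L] [CharZero L] [IsAlgClosed L] [Field L']
  [CharZero L'] [IsAlgClosed L'] [Field L''] [CharZero L''] [IsAlgClosed L'']

/-! ### Functoriality of the function field -/

theorem mapCoord_comp (C : Curve) (j : L →+* L') (j' : L' →+* L'') (a : C.CoordRing L) :
    C.mapCoord (j'.comp j) a = C.mapCoord j' (C.mapCoord j a) := by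
  obtain ⟨P, rfl⟩ := Ideal.Quotient.mk_surjective a
  rw [mapCoord_mk, mapCoord_mk, mapCoord_mk, MvPolynomial.map_map]

theorem mapFun_comp (C : Curve) (j : L →+* L') (j' : L' →+* L'') (f : C.FunField L) :
    C.mapFun (j'.comp j) f = C.mapFun j' (C.mapFun j f) := by
  obtain ⟨a, b, hb, rfl⟩ := IsFractionRing.div_surjective (A := C.CoordRing L) f
  rw [map_div₀, map_div₀, map_div₀, mapFun_algebraMap, mapFun_algebraMap, mapFun_algebraMap,
    mapFun_algebraMap, mapFun_algebraMap, mapFun_algebraMap, mapCoord_comp, mapCoord_comp]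

theorem mapFun_id (C : Curve) (f : C.FunField L) : C.mapFun (RingHom.id L) f = f := by
  obtain ⟨a, b, hb, rfl⟩ := IsFractionRing.div_surjective (A := C.CoordRing L) f
  have h : ∀ a : C.CoordRing L, C.mapCoord (RingHom.id L) a = a := by
    intro a
    obtain ⟨P, rfl⟩ := Ideal.Quotient.mk_surjective a
    rw [mapCoord_mk, MvPolynomial.map_id]
  rw [map_div₀, mapFun_algebraMap, mapFun_algebraMap, h, h]

theorem mapFun_of_inv (C : Curve) (j : L →+* L') (j' : L' →+* L) (h : ∀ z, j (j' z) = z)
    (f : C.FunField L') : C.mapFun j (C.mapFun j' f) = f := by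
  rw [← mapFun_comp]
  have e : j.comp j' = RingHom.id L' := RingHom.ext h
  rw [e, mapFun_id]

/-! ### Divisors -/

theorem push_zero (j : L →+* L') : C.push j 0 = 0 := by
  funext w
  unfold push
  split_ifs <;> rfl

theorem push_sub (j : L →+* L') (D E : C.Pt L → ℤ) :
    C.push j (D - E) = C.push j D - C.push j E := by
  funext w
  simp only [push, Pi.sub_apply]
  split_ifs with h
  · rfl
  · ring

theorem push_add (j : L →+* L') (D E : C.Pt L → ℤ) :
    C.push j (D + E) = C.push j D + C.push j E := by
  funext w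
  simp only [push, Pi.add_apply]
  split_ifs with h
  · rfl
  · ring

theorem push_zsmul (j : L →+* L') (m : ℤ) (D : C.Pt L → ℤ) :
    C.push j (m • D) = m • C.push j D := by
  funext w
  simp only [push, Pi.smul_apply, smul_eq_mul]
  split_ifs with h
  · rfl
  · ring

theorem push_push (j : L →+* L') (j' : L' →+* L'') (D : C.Pt L → ℤ) :
    C.push j' (C.push j D) = C.push (j'.comp j) D := by
  funext w
  by_cases h3 : ∃ f : C.FunField L, w.ord (C.mapFun (j'.comp j) f) = 1
  · have h : ∃ f : C.FunField L', w.ord (C.mapFun j' f) = 1 := by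
      obtain ⟨f, hf⟩ := h3
      exact ⟨C.mapFun j f, by rw [← mapFun_comp]; exact hf⟩
    have h2 : ∃ f : C.FunField L, (C.restrict j' w h).ord (C.mapFun j f) = 1 := by
      obtain ⟨f, hf⟩ := h3
      refine ⟨f, ?_⟩
      change w.ord (C.mapFun j' (C.mapFun j f)) = 1
      rw [← mapFun_comp]
      exact hf
    have e1 : C.push j' (C.push j D) w = D (C.restrict j (C.restrict j' w h) h2) := by
      unfold push
      rw [dif_pos h, dif_pos h2]
    have e2 : C.push (j'.comp j) D w = D (C.restrict (j'.comp j) w h3) := by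
      unfold push
      rw [dif_pos h3]
    rw [e1, e2]
    congr 1
    apply Place.ext
    funext f
    change w.ord (C.mapFun j' (C.mapFun j f)) = w.ord (C.mapFun (j'.comp j) f)
    rw [mapFun_comp]
  · have e2 : C.push (j'.comp j) D w = 0 := by
      unfold push
      rw [dif_neg h3]
    rw [e2]
    by_cases h : ∃ f : C.FunField L', w.ord (C.mapFun j' f) = 1
    · have h2 : ¬ ∃ f : C.FunField L, (C.restrict j' w h).ord (C.mapFun j f) = 1 := by
        rintro ⟨f, hf⟩
        refine h3 ⟨f, ?_⟩
        rw [mapFun_comp]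
        exact hf
      unfold push
      rw [dif_pos h, dif_neg h2]
    · unfold push
      rw [dif_neg h]

theorem isDivOfDegree_zero : IsDivOfDegree (0 : C.Pt L → ℤ) 0 := by
  refine ⟨by simp, ?_⟩
  simp

theorem isDivOfDegree_single (P : C.Pt L) : IsDivOfDegree (single P) 1 := by
  constructor
  · refine (Set.finite_singleton P).subset ?_
    intro v hv
    by_contra h
    apply hv
    unfold single
    exact if_neg h
  · rw [finsum_eq_single _ P (fun v hv => by unfold single; rw [if_neg hv])]
    unfold single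
    rw [if_pos rfl]

theorem isDivOfDegree_sub {D E : C.Pt L → ℤ} {d e : ℤ} (hD : IsDivOfDegree D d)
    (hE : IsDivOfDegree E e) : IsDivOfDegree (D - E) (d - e) := by
  constructor
  · exact (hD.1.union hE.1).subset (Function.support_sub D E)
  · rw [← hD.2, ← hE.2]
    exact finsum_sub_distrib hD.1 hE.1

theorem isDivOfDegree_zsmul {D : C.Pt L → ℤ} {d : ℤ} (m : ℤ) (hD : IsDivOfDegree D d) :
    IsDivOfDegree (m • D) (m * d) := by
  constructor
  · refine hD.1.subset ?_
    intro v hv h0
    apply hv
    rw [Pi.smul_apply, h0, smul_zero]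
  · rw [← hD.2, mul_finsum _ m]
    rfl

theorem isPrin_zero : IsPrin (0 : C.Pt L → ℤ) :=
  ⟨1, one_ne_zero, fun v => (v.toDV.ord_one).symm⟩

theorem ord_zpow (v : C.Pt L) (f : C.FunField L) (k : ℤ) : v.ord (f ^ k) = k * v.ord f := by
  cases k with
  | ofNat k =>
    rw [Int.ofNat_eq_natCast, zpow_natCast]
    exact v.toDV.ord_pow f k
  | negSucc k =>
    rw [zpow_negSucc]
    have h1 := v.toDV.ord_inv (f ^ (k + 1))
    have h2 := v.toDV.ord_pow f (k + 1)
    change v.ord (f ^ (k + 1))⁻¹ = - v.ord (f ^ (k + 1)) at h1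
    change v.ord (f ^ (k + 1)) = ((k + 1 : ℕ) : ℤ) * v.ord f at h2
    rw [h1, h2, Int.negSucc_eq]
    push_cast
    ring

theorem isPrin_zsmul {D : C.Pt L → ℤ} (k : ℤ) (hD : IsPrin D) : IsPrin (k • D) := by
  obtain ⟨f, hf, h⟩ := hD
  refine ⟨f ^ k, zpow_ne_zero k hf, fun v => ?_⟩
  rw [ord_zpow, Pi.smul_apply, smul_eq_mul, h v]

/-- a rational point is fixed by the Galois group, as a divisor -/
theorem push_single {K : Type} [Field K] [CharZero K] {P : C.Pt (AlgebraicClosure K)}
    (hP : IsRational K P) (σ : AlgebraicClosure K ≃ₐ[K] AlgebraicClosure K) :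
    C.push (σ : AlgebraicClosure K →+* AlgebraicClosure K) (single P) = single P := by
  have hsurj : ∀ f : C.FunField (AlgebraicClosure K), ∃ g : C.FunField (AlgebraicClosure K),
      C.mapFun (σ : AlgebraicClosure K →+* AlgebraicClosure K) g = f := fun f =>
    ⟨C.mapFun (σ.symm : AlgebraicClosure K →+* AlgebraicClosure K) f,
      mapFun_of_inv C _ _ (fun z => by simp) f⟩
  funext w
  have h : ∃ f : C.FunField (AlgebraicClosure K),
      w.ord (C.mapFun (σ : AlgebraicClosure K →+* AlgebraicClosure K) f) = 1 := by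
    obtain ⟨f, hf⟩ := w.exists_ord_one
    obtain ⟨g, hg⟩ := hsurj f
    exact ⟨g, by rw [hg]; exact hf⟩
  have e1 : C.push (σ : AlgebraicClosure K →+* AlgebraicClosure K) (single P) w =
      single P (C.restrict _ w h) := by
    unfold push
    rw [dif_pos h]
  rw [e1]
  have hiff : C.restrict _ w h = P ↔ w = P := by
    constructor
    · intro h1
      apply Place.ext
      funext f
      obtain ⟨g, hg⟩ := hsurj f
      have h2 : w.ord (C.mapFun (σ : AlgebraicClosure K →+* AlgebraicClosure K) g) = P.ord g := by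
        rw [← h1]; rfl
      rw [← hg, h2, hP σ g]
    · rintro rfl
      apply Place.ext
      funext f
      exact hP σ f
  unfold single
  by_cases hw : w = P
  · rw [if_pos hw, if_pos (hiff.2 hw)]
  · rw [if_neg hw, if_neg (fun h1 => hw (hiff.1 h1))]

/-- the trivial covering attached to a Galois invariant divisor of degree one -/
noncomputable def cov (C : Curve) (n : ℕ) (D : C.Pt Qbar → ℤ) (hD : IsDivOfDegree D 1)
    (hinv : ∀ σ : Qbar ≃ₐ[ℚ] Qbar, C.push (σ : Qbar →+* Qbar) D = D) : C.Covering n where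
  D := D
  hD := hD
  ξ := fun _ => 0
  hξ := fun _ => isDivOfDegree_zero
  cocycle := fun σ τ => by
    rw [push_zero, sub_zero, sub_zero]
    exact isPrin_zero
  continuous := ⟨⊥, inferInstance, fun σ τ _ => by
    rw [sub_zero]
    exact isPrin_zero⟩
  compat := fun σ => by
    rw [hinv, sub_self, smul_zero, sub_zero]
    exact isPrin_zero

theorem hasPointOver (C : Curve) (n N : ℕ) (hnN : n.Coprime N) (D : C.Pt Qbar → ℤ)
    (hD : IsDivOfDegree D 1)
    (hinv : ∀ σ : Qbar ≃ₐ[ℚ] Qbar, C.push (σ : Qbar →+* Qbar) D = D)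
    (K : Type) [Field K] [CharZero K] (hloc : LocalGood C D N K) :
    (cov C n D hD hinv).HasPointOver K := by
  intro j
  obtain ⟨P, hP, hdeg, hprin⟩ := hloc j
  obtain ⟨x, y, hxy⟩ : ∃ x y : ℤ, (n : ℤ) * x + N * y = 1 := by
    have h := Int.gcd_eq_gcd_ab (n : ℤ) (N : ℤ)
    rw [Int.gcd_natCast_natCast, hnN] at h
    exact ⟨_, _, by rw [← h]; rfl⟩
  refine ⟨P, hP, x • (single P - C.push j D), ?_, ?_, ?_⟩
  · have h := isDivOfDegree_zsmul x (isDivOfDegree_sub (isDivOfDegree_single P) hdeg)
    rw [sub_self, mul_zero] at h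
    exact h
  · have e : single P - n • (x • (single P - C.push j D)) - C.push j (cov C n D hD hinv).D =
        y • (N • (single P - C.push j D)) := by
      funext v
      have hx : (n : ℤ) * x = 1 - N * y := by linarith
      change single P v - (n : ℕ) • (x * (single P v - C.push j D v)) - C.push j D v =
        y * ((N : ℕ) • (single P v - C.push j D v))
      rw [nsmul_eq_mul, nsmul_eq_mul]
      linear_combination (-(single P v - C.push j D v)) * hx
    rw [e]
    exact isPrin_zsmul y hprin
  · intro σ τ hστ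
    have e0 : C.push j ((cov C n D hD hinv).ξ τ) = 0 := push_zero j
    have e1 : C.push (σ : AlgebraicClosure K →+* AlgebraicClosure K) (C.push j D) =
        C.push j D := by
      have e2 : (σ : AlgebraicClosure K →+* AlgebraicClosure K).comp j =
          j.comp (τ : Qbar →+* Qbar) := by
        apply RingHom.ext
        intro z
        exact (hστ z).symm
      rw [push_push, e2, ← push_push, hinv]
    rw [e0, add_zero, push_zsmul, push_sub, push_single hP, e1, sub_self]
    exact isPrin_zero

end Crit

open Crit in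
/-- Target CRIT. -/
theorem p_CRIT : T_CRIT := by
  intro C n N hnN D hD hinv hR hp
  refine ⟨cov C n D hD hinv, hasPointOver C n N hnN D hD hinv ℝ hR, ?_⟩
  intro p hpp
  exact hasPointOver C n N hnN D hD hinv ℚ_[p] (hp p)

end Pool.Agent.FD
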