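import Mathlib

/-!
# Curves over `ℚ`, their points, divisors and `n`-coverings

A smooth projective geometrically integral curve over `ℚ` is given by an affine plane
equation `F(x,y) = 0` that stays irreducible over every algebraically closed field of
characteristic zero; the curve is the smooth projective model of `F = 0`.  Over an
algebraically closed field `L` its points are the (normalised, discrete) valuations of the
function field `L(C)` that are trivial on `L`.
-/

open MvPolynomial

namespace Pool.Agent.FD

/-- The polynomial `F ∈ ℚ[x,y]` read over a field `L` of characteristic zero. -/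
noncomputable def polyOver (L : Type) [Field L] [CharZero L] (F : MvPolynomial (Fin 2) ℚ) :
    MvPolynomial (Fin 2) L :=
  MvPolynomial.map (Rat.castHom L) F

theorem map_polyOver {L L' : Type} [Field L] [CharZero L] [Field L'] [CharZero L']
    (j : L →+* L') (F : MvPolynomial (Fin 2) ℚ) :
    MvPolynomial.map j (polyOver L F) = polyOver L' F := by
  unfold polyOver
  rw [MvPolynomial.map_map, Subsingleton.elim (j.comp (Rat.castHom L)) (Rat.castHom L')]

/-- A curve over `ℚ` (smooth, projective, geometrically integral), given by an affine plane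
equation `F = 0`, `F ∈ ℚ[x,y]`, which is irreducible over every algebraically closed field
of characteristic zero. -/
structure Curve where
  /-- the affine plane equation -/
  F : MvPolynomial (Fin 2) ℚ
  irr : ∀ (L : Type) [Field L] [CharZero L] [IsAlgClosed L], Irreducible (polyOver L F)

/-- A point of the smooth projective curve with function field `K` over the algebraically
closed field `L`: a normalised discrete valuation of `K` that is trivial on `L`.  The value
at `0`, which should be `∞`, is set to `0`. -/
@[ext]
structure Place (L K : Type) [Field L] [Field K] [Algebra L K] where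
  /-- the order (of vanishing) at the point -/
  ord : K → ℤ
  ord_zero : ord 0 = 0
  ord_mul : ∀ f g : K, f ≠ 0 → g ≠ 0 → ord (f * g) = ord f + ord g
  ord_add : ∀ f g : K, f ≠ 0 → g ≠ 0 → f + g ≠ 0 → min (ord f) (ord g) ≤ ord (f + g)
  ord_const : ∀ a : L, ord (algebraMap L K a) = 0
  exists_ord_one : ∃ f : K, ord f = 1

namespace Curve

variable (C : Curve)

section

variable (L : Type) [Field L] [CharZero L] [IsAlgClosed L]

/-- The affine coordinate ring `L[x,y]/(F)`. -/
def CoordRing : Type := MvPolynomial (Fin 2) L ⧸ Ideal.span {polyOver L C.F}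

noncomputable instance instCommRingCoordRing : CommRing (C.CoordRing L) :=
  Ideal.Quotient.commRing (Ideal.span {polyOver L C.F})

noncomputable instance instAlgebraCoordRing : Algebra L (C.CoordRing L) :=
  Ideal.instAlgebraQuotient L (Ideal.span {polyOver L C.F})

instance instIsDomainCoordRing : IsDomain (C.CoordRing L) :=
  (Ideal.Quotient.isDomain_iff_prime _).mpr
    ((Ideal.span_singleton_prime (C.irr L).ne_zero).mpr (C.irr L).prime)

/-- The quotient map `L[x,y] → L[x,y]/(F)`. -/
noncomputable def mkCoord : MvPolynomial (Fin 2) L →+* C.CoordRing L :=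
  Ideal.Quotient.mk (Ideal.span {polyOver L C.F})

/-- The function field `L(C)` of the curve `C` over `L`. -/
def FunField : Type := FractionRing (C.CoordRing L)

noncomputable instance instFieldFunField : Field (C.FunField L) :=
  FractionRing.field (C.CoordRing L)

noncomputable instance instAlgebraCoordFunField : Algebra (C.CoordRing L) (C.FunField L) :=
  OreLocalization.instAlgebra

instance instIsFractionRing : IsFractionRing (C.CoordRing L) (C.FunField L) :=
  Localization.isLocalization

noncomputable instance instAlgebraFunField : Algebra L (C.FunField L) :=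
  ((algebraMap (C.CoordRing L) (C.FunField L)).comp (algebraMap L (C.CoordRing L))).toAlgebra

instance instIsScalarTower : IsScalarTower L (C.CoordRing L) (C.FunField L) :=
  IsScalarTower.of_algebraMap_eq' rfl

/-- The points of (the smooth projective curve) `C` over the algebraically closed field
`L`. -/
abbrev Pt : Type := Place L (C.FunField L)

end

section

variable {L L' L'' : Type} [Field L] [CharZero L] [IsAlgClosed L] [Field L'] [CharZero L']
  [IsAlgClosed L'] [Field L''] [CharZero L''] [IsAlgClosed L'']

/-- Divisibility by a polynomial with coefficients in the smaller field can be checked over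
the bigger field. -/
theorem dvd_of_map_dvd {L L' : Type} [Field L] [Field L'] (j : L →+* L')
    (F P : MvPolynomial (Fin 2) L)
    (h : MvPolynomial.map j F ∣ MvPolynomial.map j P) : F ∣ P := by
  obtain ⟨Q, hQ⟩ := h
  let _ : Algebra L L' := j.toAlgebra
  have hker : LinearMap.ker (Algebra.linearMap L L') = ⊥ := by
    rw [LinearMap.ker_eq_bot]
    exact j.injective
  obtain ⟨π, hπ⟩ := (Algebra.linearMap L L').exists_leftInverse_of_injective hker
  have hπ1 : ∀ a : L, π (j a) = a := fun a => LinearMap.congr_fun hπ a
  have hπ2 : ∀ (a : L) (b : L'), π (j a * b) = a * π b := fun a b => by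
    have := π.map_smul a b
    rwa [Algebra.smul_def, smul_eq_mul] at this
  set Q' : MvPolynomial (Fin 2) L := ∑ m ∈ Q.support, monomial m (π (coeff m Q)) with hQ'
  have hcoeff : ∀ m, coeff m Q' = π (coeff m Q) := by
    intro m
    rw [hQ', coeff_sum]
    simp only [coeff_monomial]
    rw [Finset.sum_ite_eq' Q.support m (fun m => π (coeff m Q))]
    split_ifs with hm
    · rfl
    · rw [notMem_support_iff.mp hm, map_zero]
  refine ⟨Q', ?_⟩
  ext n
  have h1 : coeff n (MvPolynomial.map j P) = coeff n (MvPolynomial.map j F * Q) := by rw [hQ]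
  rw [coeff_map, coeff_mul] at h1
  rw [coeff_mul, ← hπ1 (coeff n P), h1, map_sum]
  refine Finset.sum_congr rfl fun x _ => ?_
  rw [coeff_map, hπ2, hcoeff]

theorem mkCoord_surjective : Function.Surjective (C.mkCoord L) :=
  Ideal.Quotient.mk_surjective

theorem mkCoord_eq_zero (P : MvPolynomial (Fin 2) L) :
    C.mkCoord L P = 0 ↔ polyOver L C.F ∣ P := by
  rw [← Ideal.mem_span_singleton]
  exact Ideal.Quotient.eq_zero_iff_mem

/-- The action of a field homomorphism `j : L → L'` on affine coordinate rings (on the
coefficients). -/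
noncomputable def mapCoord (j : L →+* L') : C.CoordRing L →+* C.CoordRing L' :=
  Ideal.Quotient.lift (Ideal.span {polyOver L C.F}) ((C.mkCoord L').comp (MvPolynomial.map j))
    (by
      intro a ha
      obtain ⟨b, rfl⟩ := Ideal.mem_span_singleton'.mp ha
      rw [RingHom.comp_apply, map_mul, map_polyOver, mkCoord_eq_zero]
      exact Dvd.intro_left _ rfl)

theorem mapCoord_mk (j : L →+* L') (P : MvPolynomial (Fin 2) L) :
    C.mapCoord j (C.mkCoord L P) = C.mkCoord L' (MvPolynomial.map j P) := rfl

theorem mapCoord_injective (j : L →+* L') : Function.Injective (C.mapCoord j) := by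
  rw [injective_iff_map_eq_zero]
  intro a ha
  obtain ⟨P, rfl⟩ := C.mkCoord_surjective a
  rw [mapCoord_mk, mkCoord_eq_zero, ← map_polyOver j] at ha
  rw [mkCoord_eq_zero]
  exact dvd_of_map_dvd j _ _ ha

/-- The homomorphism `L(C) → L'(C)` of function fields given by a field homomorphism
`j : L → L'` (acting on the coefficients of rational functions). -/
noncomputable def mapFun (j : L →+* L') : C.FunField L →+* C.FunField L' :=
  IsFractionRing.lift (g := (algebraMap (C.CoordRing L') (C.FunField L')).comp (C.mapCoord j))
    ((IsFractionRing.injective (C.CoordRing L') (C.FunField L')).comp (C.mapCoord_injective j))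

theorem mapFun_algebraMap (j : L →+* L') (a : C.CoordRing L) :
    C.mapFun j (algebraMap _ _ a) = algebraMap _ _ (C.mapCoord j a) := by
  unfold mapFun
  rw [IsFractionRing.lift_algebraMap]
  rfl

theorem mapFun_const (j : L →+* L') (a : L) :
    C.mapFun j (algebraMap L (C.FunField L) a) = algebraMap L' (C.FunField L') (j a) := by
  rw [IsScalarTower.algebraMap_apply L (C.CoordRing L) (C.FunField L), mapFun_algebraMap,
    IsScalarTower.algebraMap_apply L' (C.CoordRing L') (C.FunField L')]
  congr 1
  have h1 : algebraMap L (C.CoordRing L) a = C.mkCoord L (MvPolynomial.C a) := rfl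
  have h2 : algebraMap L' (C.CoordRing L') (j a) = C.mkCoord L' (MvPolynomial.C (j a)) := rfl
  rw [h1, h2, mapCoord_mk, MvPolynomial.map_C]

/-- Let `j : L → L'` and let `w` be a point of `C` over `L'`.  If `w`, restricted to `L(C)`
along `j`, takes the value `1`, then `w` is the image under `j` of a point of `C` over `L`,
and this is that point. -/
noncomputable def restrict (j : L →+* L') (w : C.Pt L')
    (h : ∃ f : C.FunField L, w.ord (C.mapFun j f) = 1) : C.Pt L where
  ord f := w.ord (C.mapFun j f)
  ord_zero := by rw [map_zero]; exact w.ord_zero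
  ord_mul f g hf hg := by
    rw [map_mul]
    exact w.ord_mul _ _ ((map_ne_zero _).mpr hf) ((map_ne_zero _).mpr hg)
  ord_add f g hf hg hfg := by
    rw [map_add]
    refine w.ord_add _ _ ((map_ne_zero _).mpr hf) ((map_ne_zero _).mpr hg) ?_
    rw [← map_add]
    exact (map_ne_zero _).mpr hfg
  ord_const a := by rw [mapFun_const]; exact w.ord_const _
  exists_ord_one := h

open Classical in
/-- The image `j_* D` of a divisor `D` on `C` over `L` under `j : L → L'` (Galois action, or
base change to a bigger field): a point `w` over `L'` which is the image of the point `v`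
over `L` has multiplicity `D v`, all other points have multiplicity `0`. -/
noncomputable def push (j : L →+* L') (D : C.Pt L → ℤ) : C.Pt L' → ℤ := fun w =>
  if h : ∃ f : C.FunField L, w.ord (C.mapFun j f) = 1 then D (C.restrict j w h) else 0

variable {C}

/-- The divisors of degree `d` (on `C` over `L`). -/
def IsDivOfDegree (D : C.Pt L → ℤ) (d : ℤ) : Prop :=
  (Function.support D).Finite ∧ ∑ᶠ v, D v = d

/-- The principal divisors (on `C` over `L`). -/
def IsPrin (D : C.Pt L → ℤ) : Prop :=
  ∃ f : C.FunField L, f ≠ 0 ∧ ∀ v : C.Pt L, D v = v.ord f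

open Classical in
/-- The point `P` as a divisor. -/
noncomputable def single (P : C.Pt L) : C.Pt L → ℤ := fun Q => if Q = P then 1 else 0

end

/-- The algebraic closure of `ℚ`. -/
abbrev Qbar : Type := AlgebraicClosure ℚ

variable {C}

/-- The point `P` of `C` over the algebraic closure of `K` is a `K`-rational point, that is,
it is fixed by the Galois group of `K`. -/
def IsRational (K : Type) [Field K] [CharZero K] (P : C.Pt (AlgebraicClosure K)) : Prop :=
  ∀ (σ : AlgebraicClosure K ≃ₐ[K] AlgebraicClosure K)
    (f : C.FunField (AlgebraicClosure K)), P.ord (C.mapFun (σ : _ →+* _) f) = P.ord f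

variable (C)

/-- `C` has a `K`-rational point: `C(K) ≠ ∅`. -/
def HasPoint (K : Type) [Field K] [CharZero K] : Prop :=
  ∃ P : C.Pt (AlgebraicClosure K), IsRational K P

variable {C}

/-- `ξ` is a cocycle on the Galois group of `ℚ` with values in `J(ℚ̄)`, that is, in the
divisors of degree zero modulo the principal ones. -/
def IsCocycle (ξ : (Qbar ≃ₐ[ℚ] Qbar) → C.Pt Qbar → ℤ) : Prop :=
  ∀ σ τ : Qbar ≃ₐ[ℚ] Qbar, IsPrin (ξ (σ * τ) - ξ σ - C.push (σ : Qbar →+* Qbar) (ξ τ))

/-- `ξ` is continuous: its class at `σ` depends only on the restriction of `σ` to some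
number field `E`. -/
def IsContinuous (ξ : (Qbar ≃ₐ[ℚ] Qbar) → C.Pt Qbar → ℤ) : Prop :=
  ∃ E : IntermediateField ℚ Qbar, FiniteDimensional ℚ E ∧
    ∀ σ τ : Qbar ≃ₐ[ℚ] Qbar, (∀ z ∈ E, σ z = τ z) → IsPrin (ξ σ - ξ τ)

/-- `n ξ(σ) = [σ D] - [D]` for all `σ` in the Galois group of `ℚ`. -/
def IsCompatible (n : ℕ) (D : C.Pt Qbar → ℤ) (ξ : (Qbar ≃ₐ[ℚ] Qbar) → C.Pt Qbar → ℤ) : Prop :=
  ∀ σ : Qbar ≃ₐ[ℚ] Qbar, IsPrin (n • ξ σ - (C.push (σ : Qbar →+* Qbar) D - D))

variable (C)

/-- An `n`-covering of `Pic¹_C` (and hence of `C`).  Over `ℚ̄` it is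
`J → Pic¹_C, a ↦ n a + [D]`; the Galois group of `ℚ` acts on `J(ℚ̄)` by
`a ↦ σ a + ξ(σ)`, where `ξ` is a continuous cocycle with `n ξ(σ) = [σ D] - [D]`. -/
structure Covering (n : ℕ) where
  /-- a divisor of degree one over `ℚ̄` -/
  D : C.Pt Qbar → ℤ
  hD : IsDivOfDegree D 1
  /-- the cocycle with values in the divisors of degree zero -/
  ξ : (Qbar ≃ₐ[ℚ] Qbar) → C.Pt Qbar → ℤ
  hξ : ∀ σ, IsDivOfDegree (ξ σ) 0
  cocycle : IsCocycle ξ
  continuous : IsContinuous ξ
  compat : IsCompatible n D ξ

variable {C}

/-- The class of `a` in `J(K̄)` is fixed by the action `a ↦ σ a + j_* ξ(τ)` of the Galois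
group of `K`, where `τ` is the restriction of `σ` to `ℚ̄` along `j : ℚ̄ → K̄`. -/
def IsTwistFixed (ξ : (Qbar ≃ₐ[ℚ] Qbar) → C.Pt Qbar → ℤ) (K : Type) [Field K] [CharZero K]
    (j : Qbar →+* AlgebraicClosure K) (a : C.Pt (AlgebraicClosure K) → ℤ) : Prop :=
  ∀ (σ : AlgebraicClosure K ≃ₐ[K] AlgebraicClosure K) (τ : Qbar ≃ₐ[ℚ] Qbar),
    (∀ z, j (τ z) = σ (j z)) →
    IsPrin (C.push (σ : AlgebraicClosure K →+* AlgebraicClosure K) a + C.push j (ξ τ) - a)

/-- The `n`-covering `X → C` has a `K`-rational point: (for every embedding `j` of `ℚ̄` into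
the algebraic closure `K̄` of `K`) there are a point `P ∈ C(K)` and a class `a ∈ J(K̄)` with
`n a + [j_* D] = [P]`, such that `a` is fixed by the twisted action of the Galois group of
`K`. -/
def Covering.HasPointOver {n : ℕ} (X : C.Covering n) (K : Type) [Field K] [CharZero K] :
    Prop :=
  ∀ j : Qbar →+* AlgebraicClosure K,
    ∃ P : C.Pt (AlgebraicClosure K), IsRational K P ∧
    ∃ a : C.Pt (AlgebraicClosure K) → ℤ, IsDivOfDegree a 0 ∧
      IsPrin (single P - n • a - C.push j X.D) ∧ IsTwistFixed X.ξ K j a

variable (C)

/-- The `n`-Selmer set of `C` is not empty: there is an `n`-covering of `C` with points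
everywhere locally. -/
def SelNonempty (n : ℕ) : Prop :=
  ∃ X : C.Covering n, X.HasPointOver ℝ ∧ ∀ (p : ℕ) [Fact p.Prime], X.HasPointOver ℚ_[p]

end Curve

end Pool.Agent.FD
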