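import Pool.Agent.FD.Targets

/-!
# Assembly of the main theorem
-/

open MvPolynomial

namespace Pool.Agent.FD

namespace Main

/-- the polynomials `f_i` -/
noncomputable def ff {m : ℕ} (P : Fin m → ℕ) (R W : ℕ) (g : ℤ) (i : Fin (R + 1)) :
    Polynomial ℤ :=
  if i.val = R then Polynomial.X ^ (W + 1) - Polynomial.C g else f0 P

/-- the arrangement -/
noncomputable def arr (hF0 : T_F0) (hH : T_H) {m : ℕ} (P : Fin m → ℕ) (hP : GoodP P)
    (R W : ℕ) (hR : 1 ≤ R) (hW1 : 1 ≤ W) (g : ℤ) (hg : g ≠ 0) (l : Fin m → ℕ)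
    (hl : ∀ a, (l a).Prime) : Arr (Fin (R + 1)) where
  f := ff P R W g
  h := hW R W
  c := ∏ a, (l a : ℤ)
  monic i := by
    unfold ff
    split_ifs
    · exact Polynomial.monic_X_pow_sub_C g (Nat.succ_ne_zero W)
    · exact (hF0 m P hP).1
  deg_pos i := by
    unfold ff
    split_ifs
    · rw [Polynomial.natDegree_X_pow_sub_C]
      omega
    · rw [(hF0 m P hP).2.1]
      omega
  sep i := by
    unfold ff
    split_ifs
    · rw [Polynomial.map_sub, Polynomial.map_pow, Polynomial.map_X, Polynomial.map_C]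
      refine Polynomial.separable_X_pow_sub_C _ ?_ ?_
      · exact_mod_cast Nat.succ_ne_zero W
      · simpa using hg
    · exact (hF0 m P hP).2.2.1
  lead i j hij := (hH R W hR hW1 i j hij).1
  wpos i j hij := by
    rw [(hH R W hR hW1 i j hij).2.1]
    exact (hH R W hR hW1 i j hij).2.2
  i₀ := 0
  i₁ := Fin.last R
  i₁_ne := by
    intro h
    have := congrArg Fin.val h
    simp at this
    omega
  h_i₀ := by
    unfold hW
    rw [if_pos]
    rfl
  c_ne := by
    rw [Finset.prod_ne_zero_iff]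
    intro a _
    exact_mod_cast (hl a).ne_zero

section

variable (hF0 : T_F0) (hH : T_H) {m : ℕ} (P : Fin m → ℕ) (hP : GoodP P)
    (R W : ℕ) (hR : 1 ≤ R) (hW1 : 1 ≤ W) (g : ℤ) (hg : g ≠ 0) (l : Fin m → ℕ)
    (hl : ∀ a, (l a).Prime)

theorem arr_w {i j : Fin (R + 1)} (hij : i ≠ j) :
    (arr hF0 hH P hP R W hR hW1 g hg l hl).w i j = max (eW R W i) (eW R W j) :=
  (hH R W hR hW1 i j hij).2.1

theorem arr_m (i : Fin (R + 1)) :
    (arr hF0 hH P hP R W hR hW1 g hg l hl).m i = mW R W (2 * (m + 1)) i := by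
  change (ff P R W g i).natDegree = _
  unfold ff mW
  split_ifs
  · exact Polynomial.natDegree_X_pow_sub_C
  · exact (hF0 m P hP).2.1

theorem arr_N (i : Fin (R + 1)) :
    (arr hF0 hH P hP R W hR hW1 g hg l hl).N i = NW R W (2 * (m + 1)) i := by
  unfold Arr.N NW
  refine Finset.sum_congr rfl fun j hj => ?_
  rw [arr_m, arr_w hF0 hH P hP R W hR hW1 g hg l hl (Finset.ne_of_mem_erase hj).symm]

theorem arr_f_castSucc (i : Fin R) :
    (arr hF0 hH P hP R W hR hW1 g hg l hl).f i.castSucc = f0 P := by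
  change ff P R W g i.castSucc = _
  unfold ff
  rw [if_neg]
  have := i.isLt
  simp only [Fin.val_castSucc]
  omega

theorem arr_f_last :
    (arr hF0 hH P hP R W hR hW1 g hg l hl).f (Fin.last R) =
      Polynomial.X ^ (W + 1) - Polynomial.C g := by
  change ff P R W g (Fin.last R) = _
  unfold ff
  rw [if_pos]
  rfl

end

end Main

theorem main_aux (hIrr : T_IRR) (hSel : T_SELM) (hRes : T_RES) (hLoc : T_LOC)
    (hF0 : T_F0) (hSEL : T_SEL) (hAr : T_ARITH) (hH : T_H) (hNum : T_NUM)
    (r B R m μ K W : ℕ) (hRdef : R = r + 1) (hm : m = 2 * R) (hμ : μ = 2 * (m + 1))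
    (P : Fin m → ℕ) (hP : GoodP P)
    (hK : K = B + (μ * R ^ 2 + 2) + 2 * R * (Gam P).divisors.card ^ 2 + ∑ k, P k)
    (hWdef : W = K.factorial) :
    ∃ C : Curve, ¬ C.HasPoint ℚ ∧
      ∀ n : ℕ, 1 ≤ n → (n.primeFactors.filter (fun p => B < p)).card < r →
        C.SelNonempty n := by
  have hR : 1 ≤ R := by omega
  obtain ⟨hmon, hdeg, hsep, hnr, hGam⟩ := hF0 m P hP
  have hPK : ∀ k, P k ≤ K := by
    intro k
    have h1 : P k ≤ ∑ k, P k := Finset.single_le_sum (f := P) (fun _ _ => Nat.zero_le _)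
      (Finset.mem_univ k)
    omega
  have hW1 : 1 ≤ W := by rw [hWdef]; exact Nat.factorial_pos K
  obtain ⟨hNK, hcop⟩ := hNum R μ K hR (by omega) (by omega)
  rw [← hWdef] at hNK hcop
  have hpW : ∀ p : ℕ, p.Prime → p ≤ K → p ∣ W := fun p hp h => by
    rw [hWdef]
    exact (hp.dvd_factorial).mpr h
  obtain ⟨l, hl, g, hg⟩ := hSEL m R P hP (fun i : Fin R => NW R W μ i.castSucc) (W + 1)
    (by omega)
    (by
      intro k
      have h1 : P k ∣ W := hpW _ (hP.prime k) (hPK k)
      rw [(hP.prime k).coprime_iff_not_dvd]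
      intro h2
      have h3 := (Nat.dvd_add_right h1).mp h2
      exact (hP.prime k).one_lt.ne' (Nat.dvd_one.mp h3))
    (by
      intro i k
      rw [Nat.coprime_comm, (hP.prime k).coprime_iff_not_dvd]
      intro h
      have := (hNK i).2 (P k) (hP.prime k) h
      have := hPK k
      omega)
    (by
      intro i
      have h1 := (hNK i).1
      have h2 : 2 * R * (Gam P).divisors.card ^ 2 ≤ K := by
        rw [hK]
        exact le_trans (Nat.le_add_left _ _) (Nat.le_add_right _ _)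
      exact lt_of_le_of_lt h2 h1)
  have hm0 : 0 < m := by omega
  have hg0 : g ≠ 0 := by
    rintro rfl
    apply hg ⟨0, hm0⟩ 0
    rw [zero_pow (Nat.succ_ne_zero W), Int.cast_zero]
  obtain ⟨A, hA⟩ : ∃ A : Arr (Fin (R + 1)),
    A = Main.arr hF0 hH P hP R W hR hW1 g hg0 l hl.prime := ⟨_, rfl⟩
  have hAN : ∀ i, A.N i = NW R W μ i := by
    rw [hA]
    have h := Main.arr_N hF0 hH P hP R W hR hW1 g hg0 l hl.prime
    rw [← hμ] at h
    exact h
  have hAf : ∀ i : Fin R, A.f i.castSucc = f0 P := by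
    rw [hA]
    exact Main.arr_f_castSucc hF0 hH P hP R W hR hW1 g hg0 l hl.prime
  have hAl : A.f (Fin.last R) = Polynomial.X ^ (W + 1) - Polynomial.C g := by
    rw [hA]
    exact Main.arr_f_last hF0 hH P hP R W hR hW1 g hg0 l hl.prime
  have hAc : A.c = ∏ a, (l a : ℤ) := by rw [hA]; rfl
  refine ⟨⟨A.F, fun L _ _ _ => hIrr _ A L⟩, ?_, ?_⟩
  · -- no rational points
    intro hpt
    rcases hRes _ A ⟨A.F, fun L _ _ _ => hIrr _ A L⟩ rfl hpt with ⟨i, θ, hθ⟩ | ⟨α, β, h⟩
    · rcases Fin.eq_castSucc_or_eq_last i with ⟨i', rfl⟩ | rfl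
      · rw [hAf] at hθ
        exact hnr ⟨θ, hθ⟩
      · rw [hAl] at hθ
        obtain ⟨z, hz⟩ := isInteger_of_is_root_of_monic
          (Polynomial.monic_X_pow_sub_C g (Nat.succ_ne_zero W)) hθ
        have hz' : (z : ℚ) = θ := hz
        rw [← hz', map_sub, map_pow, Polynomial.aeval_X, Polynomial.aeval_C] at hθ
        have h1 : z ^ (W + 1) = g := by
          have h2 : (z : ℚ) ^ (W + 1) = (g : ℚ) := by
            have h3 : (algebraMap ℤ ℚ) g = (g : ℚ) := rfl
            rw [h3] at hθ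
            linarith
          exact_mod_cast h2
        apply hg ⟨0, hm0⟩ (z : ZMod (l ⟨0, hm0⟩))
        rw [← h1]
        push_cast
        rfl
    · refine hAr m R A P l hP ?_ ?_ hAf ?_ hAc (by omega) ⟨α, β, h⟩
      · have h2 : (fun i : Fin R => A.N i.castSucc) = fun i : Fin R => NW R W μ i.castSucc := by
          funext i
          exact hAN _
        rw [h2]
        exact hl
      · intro i
        rw [hAN]
        have := (hNK i).1
        omega
      · intro a z
        rw [hAl, map_sub, map_pow, Polynomial.aeval_X, Polynomial.aeval_C, sub_ne_zero]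
        exact hg a z
  · -- Selmer sets
    intro n hn hcard
    have hex : ∃ i : Fin R, 1 ≤ i.val ∧ n.Coprime (NW R W μ i.castSucc) := by
      by_contra hcon
      push Not at hcon
      have h1 : ∀ t : Fin r, ∃ p : ℕ, p.Prime ∧ p ∣ n ∧
          p ∣ NW R W μ (Fin.castSucc (⟨t.val + 1, by omega⟩ : Fin R)) := by
        intro t
        exact Nat.Prime.not_coprime_iff_dvd.mp (hcon ⟨t.val + 1, by omega⟩ (by simp))
      choose p hp1 hp2 hp3 using h1
      have hinj : Function.Injective p := by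
        intro t t' htt
        by_contra hne
        wlog hlt : t < t' generalizing t t' with H
        · exact H htt.symm (fun h => hne h.symm)
            (lt_of_le_of_ne (not_lt.mp hlt) (fun h => hne h.symm))
        have h2 := hcop ⟨t.val + 1, by omega⟩ ⟨t'.val + 1, by omega⟩ (by simp)
          (by simpa using hlt)
        have h3 := Nat.dvd_gcd (hp3 t) (htt ▸ hp3 t')
        rw [Nat.Coprime] at h2
        rw [h2] at h3
        exact (hp1 t).one_lt.ne' (Nat.dvd_one.mp h3)
      have h2 : (Finset.univ.image p) ⊆ n.primeFactors.filter (fun q => B < q) := by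
        intro q hq
        obtain ⟨t, -, rfl⟩ := Finset.mem_image.mp hq
        rw [Finset.mem_filter, Nat.mem_primeFactors]
        refine ⟨⟨hp1 t, hp2 t, by omega⟩, ?_⟩
        have := (hNK ⟨t.val + 1, by omega⟩).2 (p t) (hp1 t) (hp3 t)
        omega
      have h3 := Finset.card_le_card h2
      rw [Finset.card_image_of_injective _ hinj, Finset.card_univ, Fintype.card_fin] at h3
      omega
    obtain ⟨i, hi, ht⟩ := hex
    have hroot := hLoc m P hP
    refine hSel _ A ⟨A.F, fun L _ _ _ => hIrr _ A L⟩ rfl i.castSucc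
      (dd P (some ⟨0, hm0⟩)) ?_ ?_ ?_ ?_ n ?_
    · rw [hAf]
      exact Finset.dvd_prod_of_mem _ (Finset.mem_univ _)
    · rw [hAN, ← Nat.not_even_iff_odd, even_iff_two_dvd]
      intro h2
      have := (hNK i).2 2 Nat.prime_two h2
      omega
    · rw [hAf]; exact hroot.1
    · intro p _
      rw [hAf]
      exact hroot.2 p
    · rw [hAN]; exact ht

theorem p_MAIN (hIrr : T_IRR) (hSel : T_SELM) (hRes : T_RES) (hPP : T_P) (hLoc : T_LOC)
    (hF0 : T_F0) (hSEL : T_SEL) (hAr : T_ARITH) (hH : T_H) (hNum : T_NUM) : T_MAIN := by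
  intro r B
  obtain ⟨P, hP⟩ := hPP (2 * (r + 1)) ⟨r + 1, by ring⟩ (by omega)
  exact main_aux hIrr hSel hRes hLoc hF0 hSEL hAr hH hNum r B _ _ _ _ _ rfl rfl rfl P hP rfl rfl

end Pool.Agent.FD
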