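import Pool.Agent.FD.MainB

/-!
# The growth of the least exponent with the genus
-/

open MvPolynomial

namespace Pool.Agent.FD

theorem degreeOf_aeval_le (i : Fin 2) (a : MvPolynomial (Fin 2) ℚ) (p : Polynomial ℤ) :
    degreeOf i (Polynomial.aeval a p) ≤ p.natDegree * degreeOf i a := by
  rw [Polynomial.aeval_eq_sum_range]
  refine (degreeOf_sum_le _ _ _).trans (Finset.sup_le fun j hj => ?_)
  have hj' : j ≤ p.natDegree := by
    rw [Finset.mem_range] at hj
    omega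
  have h1 : p.coeff j • a ^ j = C ((p.coeff j : ℤ) : ℚ) * a ^ j := by
    rw [zsmul_eq_mul, map_intCast]
  rw [h1]
  exact (degreeOf_C_mul_le _ _ _).trans ((degreeOf_pow_le _ _ _).trans
    (Nat.mul_le_mul_right _ hj'))

namespace Arr

variable {ι : Type} [Fintype ι] [DecidableEq ι] (A : Arr ι)

theorem degreeOf_one_le : degreeOf 1 A.F ≤ ∑ i, A.m i := by
  unfold F
  refine (degreeOf_sub_le _ _ _).trans (max_le ?_ ?_)
  · refine (degreeOf_prod_le _ _ _).trans (Finset.sum_le_sum fun i _ => ?_)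
    refine (degreeOf_aeval_le _ _ _).trans ?_
    have h1 : degreeOf 1 (X 1 + Polynomial.aeval (X 0 : MvPolynomial (Fin 2) ℚ) (A.h i)) ≤ 1 := by
      refine (degreeOf_add_le _ _ _).trans (max_le ?_ ?_)
      · rw [degreeOf_X, if_pos rfl]
      · refine (degreeOf_aeval_le _ _ _).trans ?_
        rw [degreeOf_X, if_neg (by decide), mul_zero]
        exact Nat.zero_le _
    calc _ ≤ (A.f i).natDegree * 1 := Nat.mul_le_mul_left _ h1
      _ = A.m i := mul_one _
  · rw [degreeOf_C]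
    exact Nat.zero_le _

theorem degreeOf_zero_le : degreeOf 0 A.F ≤ ∑ i, A.m i * (A.h i).natDegree := by
  unfold F
  refine (degreeOf_sub_le _ _ _).trans (max_le ?_ ?_)
  · refine (degreeOf_prod_le _ _ _).trans (Finset.sum_le_sum fun i _ => ?_)
    refine (degreeOf_aeval_le _ _ _).trans ?_
    have h1 : degreeOf 0 (X 1 + Polynomial.aeval (X 0 : MvPolynomial (Fin 2) ℚ) (A.h i)) ≤
        (A.h i).natDegree := by
      refine (degreeOf_add_le _ _ _).trans (max_le ?_ ?_)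
      · rw [degreeOf_X, if_neg (by decide)]
        exact Nat.zero_le _
      · refine (degreeOf_aeval_le _ _ _).trans ?_
        rw [degreeOf_X, if_pos rfl, mul_one]
    exact Nat.mul_le_mul_left _ h1
  · rw [degreeOf_C]
    exact Nat.zero_le _

end Arr

theorem main_auxC (hIrr : T_IRR) (hSel : T_SELM2) (hRes : T_RES) (hLoc : T_LOC)
    (hSEL : T_SEL2) (hHC : T_HC) (hAr : T_ARITH2) (hH : T_H2)
    (r m ν c Q G : ℕ) (hr : 1 ≤ r) (hm : m = 2 * r) (hν : ν = 4 * (m + 1) + 1)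
    (q : Fin r → ℕ) (hq : ∀ i, (q i).Prime)
    (hQ : 2 ≤ Q) (hG : ∀ N : Fin r → ℕ,
      (∀ i, G ≤ N i) → (∀ i j : Fin r, i < j → N i + G ≤ N j) → (∀ i j, N i ≤ c * N j) →
      ∃ δ : Fin (3 * r + 1) → ℕ, StrictMono δ ∧ δ 0 = 0 ∧ ∀ i : Fin r, NM Q ν δ (pos r i) = N i)
    (P : Fin m → ℕ) (hP : GoodP P) (hPB : ∀ k, Q + 3 < P k) (hqP : ∀ i a, q i ≠ P a)
    (k : Fin r → ℕ)
    (hk2 : ∀ i, G + 2 * r * (Gam P).divisors.card ^ 2 + 2 ≤ q i ^ k i)
    (hk3 : ∀ i j : Fin r, i < j →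
      q i ^ k i + (G + 2 * r * (Gam P).divisors.card ^ 2 + 2) ≤ q j ^ k j)
    (hk4 : ∀ i j, q i ^ k i ≤ c * q j ^ k j) :
    ∃ C : Curve, ¬ C.HasPoint ℚ ∧
      (∀ n : ℕ, 1 ≤ n → (∃ i, ¬ q i ∣ n) → C.SelNonempty n) ∧
      C.F.degreeOf 1 ≤ (3 * r + 1) * (Q + ν + 3) ∧
      ∀ i, C.F.degreeOf 0 ≤ (3 * r + 1) * (Q + ν + 3) * q i ^ k i := by
  obtain ⟨δ, hδ, hδ0, hδN⟩ := hG (fun i => q i ^ k i)
    (fun i => le_trans (by omega) (hk2 i))
    (fun i j hij => le_trans (by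
      change q i ^ k i + G ≤ q i ^ k i + (G + 2 * r * (Gam P).divisors.card ^ 2 + 2)
      omega) (hk3 i j hij)) hk4
  obtain ⟨l, hl, g, hg⟩ := hSEL m r P hP (fun i => q i ^ k i) (6 * Q) (by omega)
    (by
      intro a
      rw [(hP.prime a).coprime_iff_not_dvd]
      intro h
      have hB := hPB a
      have h6 : 6 * Q = 2 * (3 * Q) := by ring
      rw [h6] at h
      rcases (hP.prime a).dvd_mul.mp h with h2 | h2
      · have := Nat.le_of_dvd (by norm_num) h2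
        omega
      · rcases (hP.prime a).dvd_mul.mp h2 with h3 | h3
        · have := Nat.le_of_dvd (by norm_num) h3
          omega
        · have := Nat.le_of_dvd (by omega) h3
          omega)
    (by
      intro i a
      apply Nat.Coprime.pow_left
      rw [Nat.coprime_primes (hq i) (hP.prime a)]
      exact hqP i a)
    (by
      intro i
      have := hk2 i
      change 2 * r * (Gam P).divisors.card ^ 2 < q i ^ k i
      omega)
  have hm0 : 0 < m := by omega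
  obtain ⟨c0, hc1, hmon, hdeg, hsep, hnr⟩ := hHC m r P (fun i => q i ^ k i) l hP hl
  have hg0 : g ≠ 0 := by
    rintro rfl
    apply hg ⟨0, hm0⟩ 2 (by norm_num) (Dvd.intro (3 * Q) (by ring)) 0
    rw [zero_pow (by norm_num), Int.cast_zero]
  have hdeg0 : 0 < (f0 P * hc P c0).natDegree := by rw [hdeg]; omega
  obtain ⟨A, hA⟩ : ∃ A : Arr (Fin (3 * r + 1)),
    A = MainB.arr hH P Q ν (3 * r) hQ (by omega) δ hδ hδ0 g c0 hg0 hmon hdeg0 hsep l
      hl.prime := ⟨_, rfl⟩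
  have hAf : ∀ p, A.f p = MainB.fB P Q ν g c0 p := by
    intro p
    rw [hA]
    rfl
  have hAc : A.c = ∏ a, (l a : ℤ) := by rw [hA]; rfl
  have hAh : ∀ p, A.h p = hD δ p := by
    intro p
    rw [hA]
    rfl
  have hAm : ∀ p, A.m p = mass Q ν p := by
    intro p
    unfold Arr.m
    rw [hAf]
    unfold MainB.fB
    split_ifs with h
    · rw [hdeg, MainB.mass_host h, hν]
    · exact Polynomial.natDegree_X_pow_sub_C
  have hAN : ∀ p, A.N p = NM Q ν δ p := by
    intro p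
    unfold Arr.N NM
    refine Finset.sum_congr rfl fun j hj => ?_
    rw [hAm]
    congr 1
    unfold Arr.w
    rw [hAh, hAh]
    exact (hH _ δ hδ hδ0 p j (Finset.ne_of_mem_erase hj).symm).2.1
  have hAP : ∀ i, A.N (pos r i) = q i ^ k i := by
    intro i
    rw [hAN]
    exact hδN i
  have hpos : ∀ i : Fin r, (pos r i).val % 3 = 1 := by
    intro i
    unfold pos
    simp only
    omega
  have hAfpos : ∀ i, A.f (pos r i) = f0 P * hc P c0 := by
    intro i
    rw [hAf]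
    unfold MainB.fB
    rw [if_pos (hpos i)]
  have hfill : ∀ p : Fin (3 * r + 1), (∀ t, pos r t ≠ p) → ∀ a, ∀ z : ZMod (l a),
      Polynomial.aeval z (A.f p) ≠ 0 := by
    intro p hp a z
    have h3 : ¬ p.val % 3 = 1 := by
      intro h
      apply hp ⟨p.val / 3, by have := p.isLt; omega⟩
      apply Fin.ext
      unfold pos
      simp only
      omega
    rw [hAf]
    unfold MainB.fB
    rw [if_neg h3, map_sub, map_pow, Polynomial.aeval_X, Polynomial.aeval_C, sub_ne_zero]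
    exact hg a _ (MainB.mass_ge hQ h3) (MainB.mass_dvd h3) z
  have hlen : Fintype.card (Fin (3 * r + 1)) = 3 * r + 1 := Fintype.card_fin _
  have hmass : ∀ p : Fin (3 * r + 1), mass Q ν p ≤ Q + ν + 3 := by
    intro p
    unfold mass
    split_ifs <;> omega
  refine ⟨⟨A.F, fun L _ _ _ => hIrr _ A L⟩, ?_, ?_, ?_, ?_⟩
  · -- no rational points
    intro hpt
    rcases hRes _ A ⟨A.F, fun L _ _ _ => hIrr _ A L⟩ rfl hpt with ⟨i, θ, hθ⟩ | ⟨α, β, h⟩
    · by_cases hi : ∀ t, pos r t ≠ i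
      · exact MainB.no_root (A.f i) (A.monic i) (l ⟨0, hm0⟩) (hfill i hi ⟨0, hm0⟩) ⟨θ, hθ⟩
      · push Not at hi
        obtain ⟨t, rfl⟩ := hi
        rw [hAfpos] at hθ
        exact hnr ⟨θ, hθ⟩
    · refine hAr _ A m r (pos r) P l ?_ hP ?_ ?_ ?_ hfill hAc (by omega) ⟨α, β, h⟩
      · intro i j hij
        have := congrArg Fin.val hij
        unfold pos at this
        simp only at this
        apply Fin.ext
        omega
      · have h2 : (fun i : Fin r => A.N (pos r i)) = fun i : Fin r => q i ^ k i := by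
          funext i
          exact hAP i
        rw [h2]
        exact hl
      · intro i
        rw [hAP]
        have := hk2 i
        omega
      · intro i
        refine ⟨hc P c0, hAfpos i, ?_, hc1⟩
        refine ⟨Polynomial.X + Polynomial.C c0, ?_⟩
        unfold hc
        ring
  · -- Selmer sets
    rintro n hn ⟨i, hi⟩
    have hroot := hLoc m P hP
    refine hSel _ A ⟨A.F, fun L _ _ _ => hIrr _ A L⟩ rfl (pos r i)
      (dd P (some ⟨0, hm0⟩)) ?_ ?_ ?_ ?_ n ?_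
    · rw [hAfpos]
      have hd : (Polynomial.X ^ 2 - Polynomial.C (dd P (some (⟨0, hm0⟩ : Fin m)))) ∣ f0 P :=
        Finset.dvd_prod_of_mem (fun k => Polynomial.X ^ 2 - Polynomial.C (dd P k))
          (Finset.mem_univ (some (⟨0, hm0⟩ : Fin m)))
      exact hd.mul_right _
    · rw [hAm, MainB.mass_host (hpos i), hν]
      exact ⟨2 * (m + 1), by ring⟩
    · obtain ⟨x, hx⟩ := hroot.1
      refine ⟨x, ?_⟩
      rw [hAfpos, map_mul, hx, zero_mul]
    · intro p _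
      obtain ⟨x, hx⟩ := hroot.2 p
      refine ⟨x, ?_⟩
      rw [hAfpos, map_mul, hx, zero_mul]
    · rw [hAP]
      apply Nat.Coprime.pow_right
      rw [Nat.coprime_comm, (hq i).coprime_iff_not_dvd]
      exact hi
  · -- degree in `y`
    refine (A.degreeOf_one_le).trans ?_
    calc ∑ i, A.m i ≤ ∑ i : Fin (3 * r + 1), (Q + ν + 3) :=
          Finset.sum_le_sum fun i _ => by rw [hAm]; exact hmass i
      _ = (3 * r + 1) * (Q + ν + 3) := by
          rw [Finset.sum_const, Finset.card_univ, hlen, smul_eq_mul]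
  · -- degree in `x`
    intro t
    refine (A.degreeOf_zero_le).trans ?_
    have hlast : δ (Fin.last (3 * r)) ≤ q t ^ k t := by
      rw [← hδN t]
      unfold NM
      have hne : Fin.last (3 * r) ≠ pos r t := by
        intro h
        have h1 := congrArg Fin.val h
        unfold pos at h1
        simp only [Fin.val_last] at h1
        omega
      refine le_trans ?_ (Finset.single_le_sum
        (f := fun j => mass Q ν j * max (δ (pos r t)) (δ j)) (fun _ _ => Nat.zero_le _)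
        (Finset.mem_erase.mpr ⟨hne, Finset.mem_univ (Fin.last (3 * r))⟩))
      have h1 : 1 ≤ mass Q ν (Fin.last (3 * r)) := MainB.mass_pos hQ (by omega) _
      calc δ (Fin.last (3 * r)) ≤ max (δ (pos r t)) (δ (Fin.last (3 * r))) := le_max_right _ _
        _ = 1 * max (δ (pos r t)) (δ (Fin.last (3 * r))) := (one_mul _).symm
        _ ≤ _ := Nat.mul_le_mul_right _ h1
    have hdegh : ∀ i, (A.h i).natDegree ≤ q t ^ k t := by
      intro i
      rw [hAh]
      unfold hD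
      split_ifs with h
      · rw [Polynomial.natDegree_zero]
        exact Nat.zero_le _
      · rw [Polynomial.natDegree_X_pow]
        exact (hδ.monotone (Fin.le_last i)).trans hlast
    calc ∑ i, A.m i * (A.h i).natDegree
        ≤ ∑ i : Fin (3 * r + 1), (Q + ν + 3) * q t ^ k t :=
          Finset.sum_le_sum fun i _ => Nat.mul_le_mul (by rw [hAm]; exact hmass i) (hdegh i)
      _ = (3 * r + 1) * (Q + ν + 3) * q t ^ k t := by
          rw [Finset.sum_const, Finset.card_univ, hlen, smul_eq_mul, mul_assoc]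

/-- primes `q_i` with `4^i X < q_i ≤ 2 4^i X` -/
theorem exists_primes (r X : ℕ) (hX : 1 ≤ X) : ∃ q : Fin r → ℕ, (∀ i : Fin r, (q i).Prime) ∧
    (∀ i : Fin r, 4 ^ (i : ℕ) * X < q i) ∧ ∀ i : Fin r, q i ≤ 2 * (4 ^ (i : ℕ) * X) := by
  have h : ∀ i : Fin r, ∃ p : ℕ, p.Prime ∧ 4 ^ (i : ℕ) * X < p ∧ p ≤ 2 * (4 ^ (i : ℕ) * X) :=
    fun i => Nat.exists_prime_lt_and_le_two_mul _ (by positivity)
  choose q hq using h
  exact ⟨q, fun i => (hq i).1, fun i => (hq i).2.1, fun i => (hq i).2.2⟩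

/-- The growth theorem. -/
def T_MAINC : Prop := ∀ r : ℕ, ∃ K : ℕ, ∀ X : ℕ, K ≤ X → ∃ C : Curve,
  C.F.degreeOf 0 ≤ K * X ∧ C.F.degreeOf 1 ≤ K ∧ ¬ C.HasPoint ℚ ∧
  ∃ N : ℕ, X ^ r ≤ N ∧ (∀ p : ℕ, p.Prime → p ∣ N → X < p) ∧
  ∀ n : ℕ, 1 ≤ n → ¬ N ∣ n → C.SelNonempty n

theorem p_MAINC_pos (hIrr : T_IRR) (hSel : T_SELM2) (hRes : T_RES) (hPP : T_P2) (hLoc : T_LOC)
    (hSEL : T_SEL2) (hHC : T_HC) (hAr : T_ARITH2) (hH : T_H2) (hComb : T_COMB)
    (r : ℕ) (hr1 : 1 ≤ r) : ∃ K : ℕ, 1 ≤ K ∧ ∀ X : ℕ, K ≤ X → ∃ C : Curve,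
  C.F.degreeOf 0 ≤ K * X ∧ C.F.degreeOf 1 ≤ K ∧ ¬ C.HasPoint ℚ ∧
  ∃ N : ℕ, X ^ r ≤ N ∧ (∀ p : ℕ, p.Prime → p ∣ N → X < p) ∧
  ∀ n : ℕ, 1 ≤ n → ¬ N ∣ n → C.SelNonempty n := by
  obtain ⟨m, hm⟩ : ∃ m, m = 2 * r := ⟨_, rfl⟩
  obtain ⟨ν, hν⟩ : ∃ ν, ν = 4 * (m + 1) + 1 := ⟨_, rfl⟩
  obtain ⟨Q, hQ, G, hG⟩ := hComb r ν (2 * 4 ^ r) hr1 ⟨2 * (m + 1), by rw [hν]; ring⟩
  obtain ⟨P, hP, hPB⟩ := hPP m (Q + 3) ⟨r, by omega⟩ (by omega)
  obtain ⟨G', hG'⟩ : ∃ G', G' = G + 2 * r * (Gam P).divisors.card ^ 2 + 2 := ⟨_, rfl⟩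
  obtain ⟨M, hM⟩ : ∃ M, M = (3 * r + 1) * (Q + ν + 3) := ⟨_, rfl⟩
  have hK1 : M ≤ M * (2 * 4 ^ r) := by
    have h1 : 1 ≤ 4 ^ r := Nat.one_le_pow _ _ (by norm_num)
    calc M = M * 1 := (mul_one M).symm
      _ ≤ M * (2 * 4 ^ r) := Nat.mul_le_mul_left _ (by omega)
  refine ⟨M * (2 * 4 ^ r) + G' + ∑ a, P a, by omega, fun X hX => ?_⟩
  have hX1 : 1 ≤ X := by omega
  obtain ⟨q, hq, hq1, hq2⟩ := exists_primes r X hX1
  have h4 : ∀ i : Fin r, 1 ≤ 4 ^ (i : ℕ) := fun i => Nat.one_le_pow _ _ (by norm_num)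
  have hqX : ∀ i, X < q i := by
    intro i
    refine lt_of_le_of_lt ?_ (hq1 i)
    calc X = 1 * X := (one_mul X).symm
      _ ≤ 4 ^ (i : ℕ) * X := Nat.mul_le_mul_right _ (h4 i)
  have hq3 : ∀ i, q i ≤ 2 * 4 ^ r * X := by
    intro i
    refine (hq2 i).trans ?_
    rw [mul_assoc]
    exact Nat.mul_le_mul_left _ (Nat.mul_le_mul_right _
      (Nat.pow_le_pow_right (by norm_num) i.isLt.le))
  have hgap : ∀ i j : Fin r, i < j → q i + 2 * X ≤ q j := by
    intro i j hij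
    have h1 : (i : ℕ) + 1 ≤ j := hij
    have h2 : 4 ^ ((i : ℕ) + 1) * X ≤ 4 ^ (j : ℕ) * X :=
      Nat.mul_le_mul_right _ (Nat.pow_le_pow_right (by norm_num) h1)
    have h3 : 1 * X ≤ 4 ^ (i : ℕ) * X := Nat.mul_le_mul_right _ (h4 i)
    have h4' : 4 ^ ((i : ℕ) + 1) * X = 4 * (4 ^ (i : ℕ) * X) := by ring
    have h5 := hq2 i
    have h6 := hq1 j
    omega
  have hinj : Function.Injective q := by
    intro i j hij
    rcases lt_trichotomy i j with h | h | h
    · have := hgap i j h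
      omega
    · exact h
    · have := hgap j i h
      omega
  have hPX : ∀ a, P a ≤ X := by
    intro a
    have h1 : P a ≤ ∑ a, P a := Finset.single_le_sum (f := P) (fun _ _ => Nat.zero_le _)
      (Finset.mem_univ a)
    omega
  obtain ⟨C, hC1, hC2, hC3, hC4⟩ := main_auxC hIrr hSel hRes hLoc hSEL hHC hAr hH r m ν
    (2 * 4 ^ r) Q G hr1 hm hν q hq hQ hG P hP hPB
    (fun i a h => by
      have h1 := hPX a
      have h2 := hqX i
      omega) (fun _ => 1)
    (fun i => by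
      rw [pow_one, ← hG']
      have := hqX i
      omega)
    (fun i j hij => by
      rw [pow_one, pow_one, ← hG']
      have := hgap i j hij
      omega)
    (fun i j => by
      rw [pow_one, pow_one]
      exact (hq3 i).trans (Nat.mul_le_mul_left _ (hqX j).le))
  rw [← hM] at hC3
  refine ⟨C, ?_, by omega, hC1, ∏ i, q i, ?_, ?_, ?_⟩
  · have h1 := hC4 ⟨0, hr1⟩
    rw [pow_one, ← hM] at h1
    refine h1.trans ?_
    calc M * q ⟨0, hr1⟩ ≤ M * (2 * 4 ^ r * X) := Nat.mul_le_mul_left _ (hq3 _)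
      _ = M * (2 * 4 ^ r) * X := by ring
      _ ≤ (M * (2 * 4 ^ r) + G' + ∑ a, P a) * X := Nat.mul_le_mul_right _ (by omega)
  · calc X ^ r = ∏ _i : Fin r, X := by
          rw [Finset.prod_const, Finset.card_univ, Fintype.card_fin]
      _ ≤ ∏ i, q i := Finset.prod_le_prod' fun i _ => (hqX i).le
  · intro p hp hpN
    obtain ⟨i, -, hi⟩ := (Prime.dvd_finsetProd_iff hp.prime _).mp hpN
    rw [(Nat.prime_dvd_prime_iff_eq hp (hq i)).mp hi]
    exact hqX i
  · intro n hn hNn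
    apply hC2 n hn
    by_contra hcon
    push Not at hcon
    apply hNn
    refine Finset.prod_dvd_of_isRelPrime (fun i _ j _ hij => ?_) (fun i _ => hcon i)
    change IsRelPrime (q i) (q j)
    rw [← Nat.coprime_iff_isRelPrime, Nat.coprime_primes (hq i) (hq j)]
    exact fun h => hij (hinj h)

theorem p_MAINC (hIrr : T_IRR) (hSel : T_SELM2) (hRes : T_RES) (hPP : T_P2) (hLoc : T_LOC)
    (hSEL : T_SEL2) (hHC : T_HC) (hAr : T_ARITH2) (hH : T_H2) (hComb : T_COMB) :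
    T_MAINC := by
  intro r
  rcases Nat.eq_zero_or_pos r with rfl | hr1
  · obtain ⟨K, hK, h⟩ := p_MAINC_pos hIrr hSel hRes hPP hLoc hSEL hHC hAr hH hComb 1 le_rfl
    refine ⟨K, fun X hX => ?_⟩
    obtain ⟨C, h1, h2, h3, N, h4, h5, h6⟩ := h X hX
    exact ⟨C, h1, h2, h3, N, by rw [pow_zero]; rw [pow_one] at h4; omega, h5, h6⟩
  · obtain ⟨K, -, h⟩ := p_MAINC_pos hIrr hSel hRes hPP hLoc hSEL hHC hAr hH hComb r hr1
    exact ⟨K, h⟩

end Pool.Agent.FD
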