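import Pool.Agent.FD.Targets

/-!
# The `T_i`-family gives `n`-coverings with points everywhere locally
-/

open MvPolynomial

namespace Pool.Agent.FD

namespace SelM

section divisors

variable {C : Curve} {L : Type} [Field L] [CharZero L] [IsAlgClosed L]

theorem degree_zero : Curve.IsDivOfDegree (0 : C.Pt L → ℤ) 0 := by
  refine ⟨?_, ?_⟩
  · simp
  · simp

theorem degree_add {D E : C.Pt L → ℤ} {a b : ℤ} (hD : Curve.IsDivOfDegree D a)
    (hE : Curve.IsDivOfDegree E b) : Curve.IsDivOfDegree (D + E) (a + b) := by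
  refine ⟨(hD.1.union hE.1).subset (Function.support_add D E), ?_⟩
  have h := finsum_add_distrib hD.1 hE.1
  rw [hD.2, hE.2] at h
  exact h

theorem degree_smul {D : C.Pt L → ℤ} {a : ℤ} (k : ℤ) (hD : Curve.IsDivOfDegree D a) :
    Curve.IsDivOfDegree (k • D) (k * a) := by
  refine ⟨hD.1.subset (Function.support_const_smul_subset k D), ?_⟩
  have h := mul_finsum D k
  rw [hD.2] at h
  rw [h]
  rfl

theorem degree_sum {ι : Type} (s : Finset ι) (D : ι → C.Pt L → ℤ) (a : ι → ℤ)
    (h : ∀ i ∈ s, Curve.IsDivOfDegree (D i) (a i)) :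
    Curve.IsDivOfDegree (∑ i ∈ s, D i) (∑ i ∈ s, a i) := by
  classical
  induction s using Finset.induction_on with
  | empty => simpa using degree_zero
  | insert i s hi ih =>
    rw [Finset.sum_insert hi, Finset.sum_insert hi]
    exact degree_add (h i (Finset.mem_insert_self i s))
      (ih fun j hj => h j (Finset.mem_insert_of_mem hj))

variable {L' : Type} [Field L'] [CharZero L'] [IsAlgClosed L']

theorem push_add (j : L →+* L') (D E : C.Pt L → ℤ) :
    C.push j (D + E) = C.push j D + C.push j E := by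
  funext w
  by_cases h : ∃ f : C.FunField L, w.ord (C.mapFun j f) = 1
  · simp only [Curve.push, dif_pos h, Pi.add_apply]
  · simp only [Curve.push, dif_neg h, Pi.add_apply, add_zero]

theorem push_smul (j : L →+* L') (k : ℤ) (D : C.Pt L → ℤ) :
    C.push j (k • D) = k • C.push j D := by
  funext w
  by_cases h : ∃ f : C.FunField L, w.ord (C.mapFun j f) = 1
  · simp only [Curve.push, dif_pos h, Pi.smul_apply]
  · simp only [Curve.push, dif_neg h, Pi.smul_apply, smul_zero]

theorem push_zero (j : L →+* L') : C.push j (0 : C.Pt L → ℤ) = 0 := by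
  funext w
  by_cases h : ∃ f : C.FunField L, w.ord (C.mapFun j f) = 1
  · simp only [Curve.push, dif_pos h, Pi.zero_apply]
  · simp only [Curve.push, dif_neg h, Pi.zero_apply]

theorem push_sum {ι : Type} (j : L →+* L') (s : Finset ι) (D : ι → C.Pt L → ℤ) :
    C.push j (∑ i ∈ s, D i) = ∑ i ∈ s, C.push j (D i) := by
  classical
  induction s using Finset.induction_on with
  | empty => rw [Finset.sum_empty, Finset.sum_empty, push_zero]
  | insert i s hi ih => rw [Finset.sum_insert hi, Finset.sum_insert hi, push_add, ih]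

end divisors

section

variable {ι : Type} [Fintype ι] [DecidableEq ι] (A : Arr ι) (C : Curve)
  (L : Type) [Field L] [CharZero L] [IsAlgClosed L]

/-- the polar divisor of `g_i` -/
noncomputable def Rdiv (i : ι) : C.Pt L → ℤ :=
  ∑ j ∈ Finset.univ.erase i, (A.w i j : ℤ) • Tdiv A C L j (A.f j)

/-- the divisor `D^{(i)}` -/
noncomputable def Ddiv (i : ι) (q : Polynomial ℤ) (k : ℤ) : C.Pt L → ℤ :=
  Rdiv A C L i + (-k) • Tdiv A C L i q

variable {A C L}

theorem degree_R (hD : T_DEG) (hC : C.F = A.F) (i : ι) :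
    Curve.IsDivOfDegree (Rdiv A C L i) (A.N i) := by
  unfold Rdiv Arr.N
  push_cast
  have h : ∀ j ∈ Finset.univ.erase i, Curve.IsDivOfDegree
      ((A.w i j : ℤ) • Tdiv A C L j (A.f j)) ((A.m j : ℤ) * A.w i j) := by
    intro j _
    rw [mul_comm]
    exact degree_smul _ (hD ι A C hC L j (A.f j) dvd_rfl)
  exact degree_sum _ _ _ h

theorem degree_D (hD : T_DEG) (hC : C.F = A.F) (i : ι) {q : Polynomial ℤ} (hq : q ∣ A.f i)
    (hq2 : q.natDegree = 2) {k : ℤ} (hk : (A.N i : ℤ) = 2 * k + 1) :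
    Curve.IsDivOfDegree (Ddiv A C L i q k) 1 := by
  have h := degree_add (degree_R hD hC i (L := L)) (degree_smul (-k) (hD ι A C hC L i q hq))
  rw [hq2, hk] at h
  have h2 : (2 * k + 1 + -k * ((2 : ℕ) : ℤ)) = 1 := by push_cast; ring
  rw [h2] at h
  exact h

theorem push_D (hPu : T_PUSH) (hC : C.F = A.F) {L' : Type} [Field L'] [CharZero L']
    [IsAlgClosed L'] (j : L →+* L') (i : ι) {q : Polynomial ℤ} (hq : q ∣ A.f i) (k : ℤ) :
    C.push j (Ddiv A C L i q k) = Ddiv A C L' i q k := by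
  unfold Ddiv Rdiv
  rw [push_add, push_smul, push_sum, hPu ι A C hC L L' j i q hq]
  congr 1
  refine Finset.sum_congr rfl fun j' _ => ?_
  rw [push_smul, hPu ι A C hC L L' j j' _ dvd_rfl]

omit [CharZero L] [IsAlgClosed L] in
theorem g_sub_ne {K : Type} [Field K] [CharZero K] [Algebra L K] {x y : K}
    (hE : A.Eqn x y) (i : ι) {θ : L} (hθ : Polynomial.aeval θ (A.f i) = 0) :
    A.g i x y - algebraMap L K θ ≠ 0 := by
  intro h
  have h0 : Polynomial.aeval (A.g i x y) (A.f i) = 0 := by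
    rw [sub_eq_zero.mp h, Polynomial.aeval_algebraMap_apply, hθ, map_zero]
  have hc0 : (A.c : K) ≠ 0 := by exact_mod_cast A.c_ne
  apply hc0
  rw [← hE]
  exact Finset.prod_eq_zero (Finset.mem_univ i) h0

instance (C : Curve) (L : Type) [Field L] [CharZero L] [IsAlgClosed L] :
    CharZero (C.FunField L) :=
  charZero_of_injective_algebraMap (algebraMap L (C.FunField L)).injective

/-- the two roots of `X² - d` -/
theorem exists_roots {i : ι} {d : ℤ} (hq : (Polynomial.X ^ 2 - Polynomial.C d) ∣ A.f i) :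
    ∃ δ : L, δ ≠ -δ ∧ (∀ θ : L, Polynomial.aeval θ (Polynomial.X ^ 2 - Polynomial.C d) = 0 ↔
      θ = δ ∨ θ = -δ) := by
  obtain ⟨δ, hδ⟩ := IsAlgClosed.exists_pow_nat_eq (d : L) (n := 2) (by norm_num)
  have hd : d ≠ 0 := by
    rintro rfl
    obtain ⟨r, hr⟩ := hq
    have h1 := A.sep i
    rw [hr, map_zero, sub_zero, Polynomial.map_mul, Polynomial.map_pow, Polynomial.map_X]
      at h1
    have h2 := h1.of_mul_left
    have h3 := h2.squarefree
    have h4 := h3 Polynomial.X (dvd_of_eq (pow_two _).symm)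
    exact Polynomial.not_isUnit_X h4
  have hδ0 : δ ≠ 0 := by
    rintro rfl
    rw [zero_pow (by norm_num)] at hδ
    have : (d : L) = 0 := hδ.symm
    exact hd (by exact_mod_cast this)
  refine ⟨δ, ?_, ?_⟩
  · intro h
    have h2 : (2 : L) * δ = 0 := by linear_combination h
    rcases mul_eq_zero.mp h2 with h3 | h3
    · exact two_ne_zero h3
    · exact hδ0 h3
  · intro θ
    rw [map_sub, map_pow, Polynomial.aeval_X, Polynomial.aeval_C]
    have h3 : (algebraMap ℤ L) d = δ ^ 2 := by rw [hδ]; rfl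
    rw [h3]
    constructor
    · intro h
      have h4 : (θ - δ) * (θ + δ) = 0 := by linear_combination h
      rcases mul_eq_zero.mp h4 with h5 | h5
      · left; linear_combination h5
      · right; linear_combination h5
    · rintro (rfl | rfl)
      · ring
      · ring

omit [CharZero L] [IsAlgClosed L] in
/-- two different roots do not both have positive order -/
theorem not_both {K : Type} [Field K] [Algebra L K] (v : Place L K) (t : K) {θ θ' : L}
    (hne : θ ≠ θ') (h1 : 0 < v.ord (t - algebraMap L K θ)) :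
    ¬ 0 < v.ord (t - algebraMap L K θ') := by
  intro h2
  have h3 : v.ord (algebraMap L K (θ' - θ)) = 0 := v.ord_const _
  have h4 : algebraMap L K (θ' - θ) ≠ 0 := by
    rw [Ne, map_eq_zero, sub_eq_zero]
    exact fun h => hne h.symm
  have h5 : algebraMap L K (θ' - θ) + (t - algebraMap L K θ') = t - algebraMap L K θ := by
    rw [map_sub]; ring
  have h6 := v.toDV.ord_add_eq h4 (g := t - algebraMap L K θ') (Or.inr (by
    change v.ord _ < v.ord _
    omega))
  rw [h5] at h6
  have h7 : v.ord (t - algebraMap L K θ) = v.ord (algebraMap L K (θ' - θ)) := h6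
  omega

theorem Tdiv_eq {i : ι} {d : ℤ} {δ : L} (hδ : δ ≠ -δ)
    (hroots : ∀ θ : L, Polynomial.aeval θ (Polynomial.X ^ 2 - Polynomial.C d) = 0 ↔
      θ = δ ∨ θ = -δ) (v : C.Pt L) :
    Tdiv A C L i (Polynomial.X ^ 2 - Polynomial.C d) v =
      Tpt A C L i δ v + Tpt A C L i (-δ) v := by
  unfold Tdiv Tpt
  by_cases hx : v.ord (C.xF L) < 0
  · by_cases h1 : 0 < v.ord (A.g i (C.xF L) (C.yF L) - algebraMap L (C.FunField L) δ)
    · have h2 := not_both v _ hδ h1
      rw [if_pos ⟨hx, δ, (hroots δ).mpr (Or.inl rfl), h1⟩, if_pos ⟨hx, h1⟩,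
        if_neg (fun h => h2 h.2), add_zero]
    · by_cases h2 : 0 < v.ord (A.g i (C.xF L) (C.yF L) - algebraMap L (C.FunField L) (-δ))
      · rw [if_pos ⟨hx, -δ, (hroots (-δ)).mpr (Or.inr rfl), h2⟩, if_neg (fun h => h1 h.2),
          if_pos ⟨hx, h2⟩, zero_add]
      · rw [if_neg, if_neg (fun h => h1 h.2), if_neg (fun h => h2 h.2), add_zero]
        rintro ⟨-, θ, hθ, h3⟩
        rcases (hroots θ).mp hθ with rfl | rfl
        · exact h1 h3
        · exact h2 h3
  · rw [if_neg (fun h => hx h.1), if_neg (fun h => hx h.1), if_neg (fun h => hx h.1), add_zero]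

/-- `N_i (P - D^{(i)})` is principal for `P = T_{i,θ}`. -/
theorem isPrin (hP : T_PRIN) (hC : C.F = A.F) {i : ι} {d : ℤ}
    (hq : (Polynomial.X ^ 2 - Polynomial.C d) ∣ A.f i) {k : ℕ} (hk : A.N i = 2 * k + 1)
    {θ : L} (hθ : Polynomial.aeval θ (A.f i) = 0) :
    Curve.IsPrin (A.N i • (Tpt A C L i θ -
      Ddiv A C L i (Polynomial.X ^ 2 - Polynomial.C d) k)) := by
  obtain ⟨δ, hδ, hroots⟩ := exists_roots (L := L) hq
  have hE := A.eqn_of_F hC L
  have hr : ∀ η : L, Polynomial.aeval η (Polynomial.X ^ 2 - Polynomial.C d) = 0 →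
      Polynomial.aeval η (A.f i) = 0 := by
    intro η hη
    obtain ⟨r, hr⟩ := hq
    rw [hr, map_mul, hη, zero_mul]
  have hδ1 := hr δ ((hroots δ).mpr (Or.inl rfl))
  have hδ2 := hr (-δ) ((hroots (-δ)).mpr (Or.inr rfl))
  set φ : L → C.FunField L := fun η => A.g i (C.xF L) (C.yF L) - algebraMap L (C.FunField L) η
    with hφ
  have hφ0 : φ θ ≠ 0 := g_sub_ne hE i hθ
  have hφ1 : φ δ ≠ 0 := g_sub_ne hE i hδ1
  have hφ2 : φ (-δ) ≠ 0 := g_sub_ne hE i hδ2
  refine ⟨φ θ * (φ δ ^ k * φ (-δ) ^ k),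
    mul_ne_zero hφ0 (mul_ne_zero (pow_ne_zero _ hφ1) (pow_ne_zero _ hφ2)), ?_⟩
  intro v
  have e0 := hP ι A C hC L i θ hθ v
  have e1 := hP ι A C hC L i δ hδ1 v
  have e2 := hP ι A C hC L i (-δ) hδ2 v
  have hpow : ∀ (t : C.FunField L), v.ord (t ^ k) = k * v.ord t := fun t =>
    v.toDV.ord_pow t k
  rw [v.ord_mul _ _ hφ0 (mul_ne_zero (pow_ne_zero _ hφ1) (pow_ne_zero _ hφ2)),
    v.ord_mul _ _ (pow_ne_zero _ hφ1) (pow_ne_zero _ hφ2), hpow, hpow]
  have hR : ∑ j ∈ Finset.univ.erase i, (A.w i j : ℤ) * Tdiv A C L j (A.f j) v =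
      Rdiv A C L i v := by
    unfold Rdiv
    rw [Finset.sum_apply]
    rfl
  rw [hR] at e0 e1 e2
  have hT := Tdiv_eq (A := A) (C := C) (i := i) hδ hroots v
  have hN : (A.N i : ℤ) = 2 * k + 1 := by rw [hk]; push_cast; ring
  have hL : (A.N i • (Tpt A C L i θ -
      Ddiv A C L i (Polynomial.X ^ 2 - Polynomial.C d) (k : ℤ))) v =
      (A.N i : ℤ) * (Tpt A C L i θ v - (Rdiv A C L i v +
        (-(k : ℤ)) * Tdiv A C L i (Polynomial.X ^ 2 - Polynomial.C d) v)) := by
    rw [Pi.smul_apply, nsmul_eq_mul]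
    rfl
  rw [hL, hT]
  change _ = v.ord (A.g i (C.xF L) (C.yF L) - algebraMap L (C.FunField L) θ) +
    (k * v.ord (A.g i (C.xF L) (C.yF L) - algebraMap L (C.FunField L) δ) +
    k * v.ord (A.g i (C.xF L) (C.yF L) - algebraMap L (C.FunField L) (-δ)))
  rw [e0, e1, e2, hN]
  ring

theorem Tpt_eq_single {i : ι} {θ : L} {P : C.Pt L} (h1 : P.ord (C.xF L) = -1)
    (h2 : 0 < P.ord (A.g i (C.xF L) (C.yF L) - algebraMap L (C.FunField L) θ))
    (h3 : ∀ w : C.Pt L, w.ord (C.xF L) < 0 →
        0 < w.ord (A.g i (C.xF L) (C.yF L) - algebraMap L (C.FunField L) θ) → w = P) :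
    Tpt A C L i θ = Curve.single P := by
  funext v
  unfold Tpt Curve.single
  by_cases h : v = P
  · rw [if_pos h, if_pos]
    rw [h]
    exact ⟨by omega, h2⟩
  · rw [if_neg h, if_neg]
    rintro ⟨h4, h5⟩
    exact h (h3 v h4 h5)

omit [DecidableEq ι] [CharZero L] [IsAlgClosed L] in
theorem map_g {ι : Type} [Fintype ι] [DecidableEq ι] (A : Arr ι) {K K' : Type} [Field K]
    [Field K'] (φ : K →+* K') (i : ι) (x y : K) : φ (A.g i x y) = A.g i (φ x) (φ y) := by
  unfold Arr.g
  rw [map_add, Polynomial.aeval_def, Polynomial.aeval_def, Polynomial.hom_eval₂]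
  congr 2
  exact Subsingleton.elim _ _

variable (A C) in
omit [CharZero L] [IsAlgClosed L] in
theorem isRational_T (K : Type) [Field K] [CharZero K] {i : ι} (θ : K)
    (P : C.Pt (AlgebraicClosure K)) (hP1 : P.ord (C.xF (AlgebraicClosure K)) = -1)
    (hP2 : 0 < P.ord (A.g i (C.xF (AlgebraicClosure K)) (C.yF (AlgebraicClosure K)) -
      algebraMap (AlgebraicClosure K) (C.FunField (AlgebraicClosure K))
        (algebraMap K (AlgebraicClosure K) θ)))
    (hP3 : ∀ w : C.Pt (AlgebraicClosure K), w.ord (C.xF (AlgebraicClosure K)) < 0 →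
      0 < w.ord (A.g i (C.xF (AlgebraicClosure K)) (C.yF (AlgebraicClosure K)) -
        algebraMap (AlgebraicClosure K) (C.FunField (AlgebraicClosure K))
          (algebraMap K (AlgebraicClosure K) θ)) → w = P) :
    Curve.IsRational K P := by
  intro σ f
  have hex : ∃ f : C.FunField (AlgebraicClosure K),
      P.ord (C.mapFun (σ : AlgebraicClosure K →+* AlgebraicClosure K) f) = 1 := by
    refine ⟨(C.xF (AlgebraicClosure K))⁻¹, ?_⟩
    rw [map_inv₀, Curve.mapFun_xF]
    have h := P.toDV.ord_inv (C.xF (AlgebraicClosure K))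
    change P.ord _ = -P.ord _ at h
    rw [h, hP1]
    rfl
  have hw : C.restrict (σ : AlgebraicClosure K →+* AlgebraicClosure K) P hex = P := by
    apply hP3
    · change P.ord (C.mapFun (σ : AlgebraicClosure K →+* AlgebraicClosure K) _) < 0
      rw [Curve.mapFun_xF]
      omega
    · change 0 < P.ord (C.mapFun (σ : AlgebraicClosure K →+* AlgebraicClosure K) _)
      rw [map_sub, map_g, Curve.mapFun_xF, Curve.mapFun_yF, Curve.mapFun_const]
      have h1 : (σ : AlgebraicClosure K →+* AlgebraicClosure K)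
          (algebraMap K (AlgebraicClosure K) θ) = algebraMap K (AlgebraicClosure K) θ :=
        σ.commutes θ
      rw [h1]
      exact hP2
  have h2 : (C.restrict (σ : AlgebraicClosure K →+* AlgebraicClosure K) P hex).ord f =
      P.ord f := by rw [hw]
  exact h2

theorem localGood (hT : T_TPL) (hP : T_PRIN) (hD : T_DEG) (hPu : T_PUSH) (hC : C.F = A.F)
    {i : ι} {d : ℤ}
    (hq : (Polynomial.X ^ 2 - Polynomial.C d) ∣ A.f i) {k : ℕ} (hk : A.N i = 2 * k + 1)
    (K : Type) [Field K] [CharZero K] (hK : ∃ θ : K, Polynomial.aeval θ (A.f i) = 0) :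
    LocalGood C (Ddiv A C Curve.Qbar i (Polynomial.X ^ 2 - Polynomial.C d) k) (A.N i) K := by
  intro j
  obtain ⟨θ, hθ⟩ := hK
  set θ' : AlgebraicClosure K := algebraMap K (AlgebraicClosure K) θ with hθ'
  have hroot : Polynomial.aeval θ' (A.f i) = 0 := by
    rw [hθ', Polynomial.aeval_algebraMap_apply, hθ, map_zero]
  obtain ⟨P, hP1, hP2, hP3⟩ := hT ι A C hC (AlgebraicClosure K) i θ' hroot
  refine ⟨P, ?_, ?_, ?_⟩
  · exact isRational_T A C K θ P hP1 hP2 hP3
  · rw [push_D hPu hC j i hq]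
    refine degree_D hD hC i hq ?_ (by rw [hk]; push_cast; ring)
    exact Polynomial.natDegree_X_pow_sub_C
  · rw [push_D hPu hC j i hq, ← Tpt_eq_single hP1 hP2 hP3]
    exact isPrin hP hC hq hk hroot

end

end SelM

theorem p_SELM (hCr : T_CRIT) (hT : T_TPL) (hP : T_PRIN) (hD : T_DEG) (hPu : T_PUSH) :
    T_SELM := by
  intro ι _ _ A C hC i d hq hodd hR hQp n hn
  obtain ⟨k, hk⟩ := hodd
  refine hCr C n (A.N i) hn
    (SelM.Ddiv A C Curve.Qbar i (Polynomial.X ^ 2 - Polynomial.C d) k) ?_ ?_ ?_ ?_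
  · refine SelM.degree_D hD hC i hq ?_ (by rw [hk]; push_cast; ring)
    exact Polynomial.natDegree_X_pow_sub_C
  · intro σ
    exact SelM.push_D hPu hC _ i hq k
  · exact SelM.localGood hT hP hD hPu hC hq hk ℝ hR
  · intro p _
    exact SelM.localGood hT hP hD hPu hC hq hk ℚ_[p] (hQp p)

end Pool.Agent.FD
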