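import Pool.Agent.FD.Arr

/-!
# Targets (statements of the parts of the proof)
-/

open MvPolynomial

namespace Pool.Agent.FD

/-! ## Geometry -/

/-- Existence and uniqueness of a place with a given centre at a smooth point of an affine
plane model. -/
def T_PLACE : Prop :=
  ∀ (L K : Type) [Field L] [Field K] [Algebra L K] (t z : K) (θ : L),
    z ≠ 0 → t ≠ algebraMap L K θ →
    (∀ f : K, ∃ a b : MvPolynomial (Fin 2) L, aeval ![t, z] b ≠ 0 ∧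
      f * aeval ![t, z] b = aeval ![t, z] a) →
    (∀ H : MvPolynomial (Fin 2) L, aeval ![t, z] H = 0 → eval ![θ, 0] H = 0) →
    (∃ U W : MvPolynomial (Fin 2) L, eval ![θ, 0] U ≠ 0 ∧
      (t - algebraMap L K θ) * aeval ![t, z] U = z * aeval ![t, z] W) →
    ∃ v : Place L K, v.ord z = 1 ∧ 0 < v.ord (t - algebraMap L K θ) ∧
      ∀ w : Place L K, 0 < w.ord z → 0 < w.ord (t - algebraMap L K θ) → w = v

/-- The chart at infinity of an arrangement curve. -/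
def T_CHART : Prop :=
  ∀ (ι : Type) [Fintype ι] [DecidableEq ι] (A : Arr ι) (C : Curve), C.F = A.F →
    ∀ (L : Type) [Field L] [CharZero L] [IsAlgClosed L] (i : ι) (θ : L),
    Polynomial.aeval θ (A.f i) = 0 →
    C.xF L ≠ 0 ∧ A.g i (C.xF L) (C.yF L) ≠ algebraMap L (C.FunField L) θ ∧
    (∀ f : C.FunField L, ∃ a b : MvPolynomial (Fin 2) L,
      aeval ![A.g i (C.xF L) (C.yF L), (C.xF L)⁻¹] b ≠ 0 ∧
      f * aeval ![A.g i (C.xF L) (C.yF L), (C.xF L)⁻¹] b =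
        aeval ![A.g i (C.xF L) (C.yF L), (C.xF L)⁻¹] a) ∧
    (∀ H : MvPolynomial (Fin 2) L,
      aeval ![A.g i (C.xF L) (C.yF L), (C.xF L)⁻¹] H = 0 → eval ![θ, 0] H = 0) ∧
    (∃ U W : MvPolynomial (Fin 2) L, eval ![θ, 0] U ≠ 0 ∧
      (A.g i (C.xF L) (C.yF L) - algebraMap L (C.FunField L) θ) *
        aeval ![A.g i (C.xF L) (C.yF L), (C.xF L)⁻¹] U =
      (C.xF L)⁻¹ * aeval ![A.g i (C.xF L) (C.yF L), (C.xF L)⁻¹] W)

/-- Arrangement curves are geometrically irreducible. -/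
def T_IRR : Prop :=
  ∀ (ι : Type) [Fintype ι] [DecidableEq ι] (A : Arr ι) (L : Type) [Field L] [CharZero L]
    [IsAlgClosed L], Irreducible (polyOver L A.F)

/-- Valuations of the functions `g_i`. -/
def T_CLASS : Prop :=
  ∀ (ι : Type) [Fintype ι] [DecidableEq ι] (A : Arr ι) (K : Type) [Field K] [CharZero K]
    (v : DV K) (x y : K), A.Eqn x y →
    (0 ≤ v.ord x → 0 ≤ v.ord y) ∧
    (v.ord x < 0 → ∃ i, 0 ≤ v.ord (A.g i x y) ∧
      (∀ j, j ≠ i → v.ord (A.g j x y) = v.ord x * A.w i j) ∧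
      v.ord (Polynomial.aeval (A.g i x y) (A.f i)) = v.ord (A.c : K) - v.ord x * A.N i)

/-- A torsion criterion for `n`-coverings with points everywhere locally. -/
def LocalGood (C : Curve) (D : C.Pt Curve.Qbar → ℤ) (N : ℕ) (K : Type) [Field K]
    [CharZero K] : Prop :=
  ∀ j : Curve.Qbar →+* AlgebraicClosure K, ∃ P : C.Pt (AlgebraicClosure K),
    Curve.IsRational K P ∧ Curve.IsDivOfDegree (C.push j D) 1 ∧
    Curve.IsPrin (N • (Curve.single P - C.push j D))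

def T_CRIT : Prop :=
  ∀ (C : Curve) (n N : ℕ), n.Coprime N → ∀ D : C.Pt Curve.Qbar → ℤ,
    Curve.IsDivOfDegree D 1 →
    (∀ σ : Curve.Qbar ≃ₐ[ℚ] Curve.Qbar, C.push (σ : Curve.Qbar →+* Curve.Qbar) D = D) →
    LocalGood C D N ℝ → (∀ (p : ℕ) [Fact p.Prime], LocalGood C D N ℚ_[p]) →
    C.SelNonempty n

/-- the places `T_{i,θ}` -/
def T_TPL : Prop :=
  ∀ (ι : Type) [Fintype ι] [DecidableEq ι] (A : Arr ι) (C : Curve), C.F = A.F →
    ∀ (L : Type) [Field L] [CharZero L] [IsAlgClosed L] (i : ι) (θ : L),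
    Polynomial.aeval θ (A.f i) = 0 →
    ∃ v : C.Pt L, v.ord (C.xF L) = -1 ∧
      0 < v.ord (A.g i (C.xF L) (C.yF L) - algebraMap L (C.FunField L) θ) ∧
      ∀ w : C.Pt L, w.ord (C.xF L) < 0 →
        0 < w.ord (A.g i (C.xF L) (C.yF L) - algebraMap L (C.FunField L) θ) → w = v

open Classical in
/-- the divisor `∑_θ T_{i,θ}`, `θ` running over the roots of `q` -/
noncomputable def Tdiv {ι : Type} [Fintype ι] [DecidableEq ι] (A : Arr ι) (C : Curve)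
    (L : Type) [Field L] [CharZero L] [IsAlgClosed L] (i : ι) (q : Polynomial ℤ) :
    C.Pt L → ℤ := fun v =>
  if v.ord (C.xF L) < 0 ∧ ∃ θ : L, Polynomial.aeval θ q = 0 ∧
    0 < v.ord (A.g i (C.xF L) (C.yF L) - algebraMap L (C.FunField L) θ) then 1 else 0

open Classical in
/-- the divisor `T_{i,θ}` -/
noncomputable def Tpt {ι : Type} [Fintype ι] [DecidableEq ι] (A : Arr ι) (C : Curve)
    (L : Type) [Field L] [CharZero L] [IsAlgClosed L] (i : ι) (θ : L) :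
    C.Pt L → ℤ := fun v =>
  if v.ord (C.xF L) < 0 ∧
    0 < v.ord (A.g i (C.xF L) (C.yF L) - algebraMap L (C.FunField L) θ) then 1 else 0

/-- the divisor of the function `g_i - θ` -/
def T_PRIN : Prop :=
  ∀ (ι : Type) [Fintype ι] [DecidableEq ι] (A : Arr ι) (C : Curve), C.F = A.F →
    ∀ (L : Type) [Field L] [CharZero L] [IsAlgClosed L] (i : ι) (θ : L),
    Polynomial.aeval θ (A.f i) = 0 → ∀ v : C.Pt L,
    v.ord (A.g i (C.xF L) (C.yF L) - algebraMap L (C.FunField L) θ) =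
      (A.N i : ℤ) * Tpt A C L i θ v -
        ∑ j ∈ Finset.univ.erase i, (A.w i j : ℤ) * Tdiv A C L j (A.f j) v

def T_DEG : Prop :=
  ∀ (ι : Type) [Fintype ι] [DecidableEq ι] (A : Arr ι) (C : Curve), C.F = A.F →
    ∀ (L : Type) [Field L] [CharZero L] [IsAlgClosed L] (i : ι) (q : Polynomial ℤ),
    q ∣ A.f i → Curve.IsDivOfDegree (Tdiv A C L i q) q.natDegree

def T_PUSH : Prop :=
  ∀ (ι : Type) [Fintype ι] [DecidableEq ι] (A : Arr ι) (C : Curve), C.F = A.F →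
    ∀ (L L' : Type) [Field L] [CharZero L] [IsAlgClosed L] [Field L'] [CharZero L']
    [IsAlgClosed L'] (j : L →+* L') (i : ι) (q : Polynomial ℤ),
    q ∣ A.f i → C.push j (Tdiv A C L i q) = Tdiv A C L' i q

/-- The `T_i`-family gives `n`-coverings with points everywhere locally. -/
def T_SELM : Prop :=
  ∀ (ι : Type) [Fintype ι] [DecidableEq ι] (A : Arr ι) (C : Curve), C.F = A.F →
    ∀ (i : ι) (d : ℤ), (Polynomial.X ^ 2 - Polynomial.C d) ∣ A.f i → Odd (A.N i) →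
    (∃ θ : ℝ, Polynomial.aeval θ (A.f i) = 0) →
    (∀ (p : ℕ) [Fact p.Prime], ∃ θ : ℚ_[p], Polynomial.aeval θ (A.f i) = 0) →
    ∀ n : ℕ, n.Coprime (A.N i) → C.SelNonempty n

/-- rational points of the curve -/
def T_RES : Prop :=
  ∀ (ι : Type) [Fintype ι] [DecidableEq ι] (A : Arr ι) (C : Curve), C.F = A.F →
    C.HasPoint ℚ → (∃ i, ∃ θ : ℚ, Polynomial.aeval θ (A.f i) = 0) ∨ ∃ α β : ℚ, A.Eqn α β

/-! ## Arithmetic -/

/-- `d_k = P_k` (`k = some _`) and `d_∞ = ∏ P_k` (`none`) -/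
def dd {m : ℕ} (P : Fin m → ℕ) : Option (Fin m) → ℤ
  | none => ∏ k, (P k : ℤ)
  | some k => (P k : ℤ)

/-- `∏_{k ≠ l} |d_k - d_l|` -/
def Del {m : ℕ} (P : Fin m → ℕ) : ℕ :=
  ∏ k : Option (Fin m), ∏ l : Option (Fin m), if k = l then 1 else (dd P k - dd P l).natAbs

/-- `Δ^(m+1)` -/
def Gam {m : ℕ} (P : Fin m → ℕ) : ℕ := Del P ^ (m + 1)

/-- `∏ (X² - d_k)` -/
noncomputable def f0 {m : ℕ} (P : Fin m → ℕ) : Polynomial ℤ :=
  ∏ k : Option (Fin m), (Polynomial.X ^ 2 - Polynomial.C (dd P k))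

/-- good primes `P_k` -/
structure GoodP {m : ℕ} (P : Fin m → ℕ) : Prop where
  inj : Function.Injective P
  prime : ∀ k, (P k).Prime
  mod8 : ∀ k, P k % 8 = 1
  sq : ∀ k l, k ≠ l → IsSquare ((P l : ℕ) : ZMod (P k))
  even : Even m
  two_le : 2 ≤ m

def T_P : Prop := ∀ m : ℕ, Even m → 2 ≤ m → ∃ P : Fin m → ℕ, GoodP P

def T_LOC : Prop := ∀ (m : ℕ) (P : Fin m → ℕ), GoodP P →
  (∃ x : ℝ, Polynomial.aeval x (f0 P) = 0) ∧
  ∀ (p : ℕ) [Fact p.Prime], ∃ x : ℚ_[p], Polynomial.aeval x (f0 P) = 0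

def T_F0 : Prop := ∀ (m : ℕ) (P : Fin m → ℕ), GoodP P →
  (f0 P).Monic ∧ (f0 P).natDegree = 2 * (m + 1) ∧
  ((f0 P).map (Int.castRingHom ℚ)).Separable ∧ (¬ ∃ θ : ℚ, Polynomial.aeval θ (f0 P) = 0) ∧
  Gam P ≠ 0

/-- good primes `ℓ_a` (with respect to the exponents `N i`) -/
structure GoodL {m R : ℕ} (P : Fin m → ℕ) (N : Fin R → ℕ) (l : Fin m → ℕ) : Prop where
  prime : ∀ a, (l a).Prime
  inj : Function.Injective l
  ndvd : ∀ a, ¬ l a ∣ Gam P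
  nsq : ∀ a k, k ≠ some a → ¬ IsSquare ((dd P k : ℤ) : ZMod (l a))
  avoid : ∀ a b, a < b → ∀ i, ∀ γ₁ ∈ (Gam P).divisors, ∀ γ₂ ∈ (Gam P).divisors,
    ∀ z : ZMod (l a), z ≠ 0 →
    (l b : ZMod (l a)) * (γ₁ : ZMod (l a)) * ((dd P (some a) - dd P none : ℤ) : ZMod (l a)) *
      z ^ N i ≠ ((dd P (some a) - dd P (some b) : ℤ) : ZMod (l a)) * (γ₂ : ZMod (l a)) ∧
    (l b : ZMod (l a)) * (γ₁ : ZMod (l a)) * ((dd P (some a) - dd P none : ℤ) : ZMod (l a)) *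
      z ^ N i ≠ -(((dd P (some a) - dd P (some b) : ℤ) : ZMod (l a)) * (γ₂ : ZMod (l a)))

/-- choice of the primes `ℓ_a` and of `g` by Dirichlet's theorem -/
def T_SEL : Prop := ∀ (m R : ℕ) (P : Fin m → ℕ), GoodP P → ∀ (N : Fin R → ℕ) (mt : ℕ),
  2 ≤ mt → (∀ k, (P k).Coprime mt) → (∀ i k, (N i).Coprime (P k)) →
  (∀ i, 2 * R * (Gam P).divisors.card ^ 2 < N i) →
  ∃ l : Fin m → ℕ, GoodL P N l ∧ ∃ g : ℤ, ∀ a, ∀ z : ZMod (l a), z ^ mt ≠ (g : ZMod (l a))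

def T_SIDE : Prop := ∀ (m R : ℕ) (P : Fin m → ℕ) (N : Fin R → ℕ) (l : Fin m → ℕ),
  GoodP P → GoodL P N l → ∀ (i : Fin R), 2 ≤ N i → ∀ s t : ℤ, IsCoprime s t →
  (∀ k, s ^ 2 - dd P k * t ^ 2 ≠ 0) → ∀ X : Finset (Fin m),
  (∀ p : ℕ, p.Prime → (N i : ℤ) ∣
    (padicValInt p (∏ k : Option (Fin m), (s ^ 2 - dd P k * t ^ 2)) : ℤ) -
      (if ∃ a ∈ X, l a = p then 1 else 0)) →
  X.card ≤ 1

/-- no rational solutions -/
def T_ARITH : Prop := ∀ (m R : ℕ) (A : Arr (Fin (R + 1))) (P : Fin m → ℕ) (l : Fin m → ℕ),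
  GoodP P → GoodL P (fun i : Fin R => A.N i.castSucc) l →
  (∀ i : Fin R, 2 ≤ A.N i.castSucc) → (∀ i : Fin R, A.f i.castSucc = f0 P) →
  (∀ a, ∀ z : ZMod (l a), Polynomial.aeval z (A.f (Fin.last R)) ≠ 0) →
  A.c = ∏ a, (l a : ℤ) → R < m → ¬ ∃ α β : ℚ, A.Eqn α β

/-! ## The exponents -/

/-- exponents `0, W, 2W, …, (R-1)W, RW+1` -/
def eW (R W : ℕ) (i : Fin (R + 1)) : ℕ := if i.val = R then R * W + 1 else i.val * W

/-- `h_0 = 0`, `h_i = X^(e_i)` -/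
noncomputable def hW (R W : ℕ) (i : Fin (R + 1)) : Polynomial ℤ :=
  if i.val = 0 then 0 else Polynomial.X ^ eW R W i

def T_H : Prop := ∀ R W : ℕ, 1 ≤ R → 1 ≤ W → ∀ i j : Fin (R + 1), i ≠ j →
  IsUnit (hW R W i - hW R W j).leadingCoeff ∧
  (hW R W i - hW R W j).natDegree = max (eW R W i) (eW R W j) ∧
  0 < max (eW R W i) (eW R W j)

/-- degrees: `μ` for `i < R`, `W + 1` for the last one -/
def mW (R W μ : ℕ) (i : Fin (R + 1)) : ℕ := if i.val = R then W + 1 else μ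

/-- the orders -/
def NW (R W μ : ℕ) (i : Fin (R + 1)) : ℕ :=
  ∑ j ∈ Finset.univ.erase i, mW R W μ j * max (eW R W i) (eW R W j)

def T_NUM : Prop := ∀ R μ K : ℕ, 1 ≤ R → 1 ≤ μ → μ * R ^ 2 + 2 ≤ K →
  (∀ i : Fin R, K < NW R K.factorial μ i.castSucc ∧
    ∀ p : ℕ, p.Prime → p ∣ NW R K.factorial μ i.castSucc → K < p) ∧
  ∀ i j : Fin R, 1 ≤ i.val → i < j →
    (NW R K.factorial μ i.castSucc).Coprime (NW R K.factorial μ j.castSucc)

/-- The main theorem. -/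
def T_MAIN : Prop := ∀ r B : ℕ, ∃ C : Curve, ¬ C.HasPoint ℚ ∧
  ∀ n : ℕ, 1 ≤ n → (n.primeFactors.filter (fun p => B < p)).card < r → C.SelNonempty n

end Pool.Agent.FD
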